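import Mathlib

/-!
# LN-P1 (MP_730da0_ag): Bloch's theorem with an explicit constant

Paper proof (`β = 1/128`).  Nothing to prove if `f'(z₀) = 0` (empty ball).  `r = R/2`.  The continuous
function `z ↦ (r - |z - z₀|) |f'(z)|` on the closed ball of radius `r` (where `f'` is continuous) attains its maximum `M` at some `a`;
`M ≥ r |f'(z₀)| > 0`; `t = r - |a - z₀| > 0`, `ρ = t/2`.  For `|z - a| ≤ ρ`: `r - |z - z₀| ≥ t/2`, so `|f'(z)| ≤ 2M/t = 2 |f'(a)|`.  The function
`h = f' - f'(a)` vanishes at `a` and `|h| < 4 |f'(a)|` on the ball `B(a, ρ)`, so by the Schwarz lemma `|h(z)| ≤ 4 |f'(a)| |z - a| / ρ` and, by the mean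
value inequality, `|f(z) - f(a)| ≥ |f'(a)| ρ/16` on `|z - a| = ρ/8`.  By `DiffContOnCl.ball_subset_image_closedBall` the image contains the ball
around `f(a)` of radius `|f'(a)| ρ/32 = M/64 ≥ R |f'(z₀)|/128`.
-/

namespace Pool.Agent.Helper2.LN

theorem bloch : ∃ β : ℝ, 0 < β ∧ ∀ (f : ℂ → ℂ) (z₀ : ℂ) (R : ℝ), 0 < R →
    DifferentiableOn ℂ f (Metric.ball z₀ R) →
    ∃ w, Metric.ball w (β * R * ‖deriv f z₀‖) ⊆ f '' Metric.ball z₀ R := by
  refine ⟨1 / 128, by norm_num, ?_⟩
  intro f z₀ R hR hf
  by_cases h0 : deriv f z₀ = 0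
  · refine ⟨0, ?_⟩
    rw [h0, norm_zero, mul_zero, Metric.ball_zero]
    exact Set.empty_subset _
  have hD0 : 0 < ‖deriv f z₀‖ := norm_pos_iff.mpr h0
  have hdf : DifferentiableOn ℂ (deriv f) (Metric.ball z₀ R) := hf.deriv Metric.isOpen_ball
  have hr : 0 < R / 2 := half_pos hR
  have hsub : Metric.closedBall z₀ (R / 2) ⊆ Metric.ball z₀ R :=
    Metric.closedBall_subset_ball (by linarith)
  have hcont : ContinuousOn (fun z => (R / 2 - dist z z₀) * ‖deriv f z‖)
      (Metric.closedBall z₀ (R / 2)) := by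
    refine ContinuousOn.mul ?_ ?_
    · exact (continuous_const.sub (continuous_id.dist continuous_const)).continuousOn
    · exact (hdf.continuousOn.mono hsub).norm
  obtain ⟨a, haK, hamax⟩ := (isCompact_closedBall z₀ (R / 2)).exists_isMaxOn
    ⟨z₀, Metric.mem_closedBall_self hr.le⟩ hcont
  have hM : R / 2 * ‖deriv f z₀‖ ≤ (R / 2 - dist a z₀) * ‖deriv f a‖ := by
    have h := hamax (Metric.mem_closedBall_self (x := z₀) hr.le)
    simpa using h
  have hMpos : 0 < (R / 2 - dist a z₀) * ‖deriv f a‖ := lt_of_lt_of_le (by positivity) hM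
  have ht0 : 0 ≤ R / 2 - dist a z₀ := sub_nonneg.mpr (Metric.mem_closedBall.mp haK)
  set t : ℝ := R / 2 - dist a z₀ with ht
  set D : ℝ := ‖deriv f a‖ with hD
  have htpos : 0 < t := by
    rcases ht0.lt_or_eq with h | h
    · exact h
    · rw [← h, zero_mul] at hMpos
      exact absurd hMpos (lt_irrefl _)
  have hDpos : 0 < D := by
    rcases (norm_nonneg (deriv f a)).lt_or_eq with h | h
    · exact h
    · rw [hD, ← h, mul_zero] at hMpos
      exact absurd hMpos (lt_irrefl _)
  -- the derivative on the ball of radius `t / 2` around `a`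
  have hmem : ∀ z, dist z a ≤ t / 2 → dist z z₀ ≤ R / 2 - t / 2 := by
    intro z hz
    have := dist_triangle z a z₀
    linarith
  have hb : ∀ z, dist z a ≤ t / 2 → ‖deriv f z‖ ≤ 2 * D := by
    intro z hz
    have h1 := hmem z hz
    have h2 : (R / 2 - dist z z₀) * ‖deriv f z‖ ≤ t * D :=
      hamax (Metric.mem_closedBall.mpr (by linarith))
    have h3 : t / 2 * ‖deriv f z‖ ≤ (R / 2 - dist z z₀) * ‖deriv f z‖ :=
      mul_le_mul_of_nonneg_right (by linarith) (norm_nonneg _)
    have h4 : t / 2 * ‖deriv f z‖ ≤ t / 2 * (2 * D) := by linarith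
    exact le_of_mul_le_mul_left h4 (by linarith)
  have hballsub : Metric.ball a (t / 2) ⊆ Metric.ball z₀ R := by
    intro z hz
    have h1 := hmem z (Metric.mem_ball.mp hz).le
    exact Metric.mem_ball.mpr (by linarith)
  have hmaps : Set.MapsTo (deriv f) (Metric.ball a (t / 2)) (Metric.ball (deriv f a) (4 * D)) := by
    intro z hz
    rw [Metric.mem_ball, dist_eq_norm]
    have h1 := hb z (Metric.mem_ball.mp hz).le
    have h2 := norm_sub_le (deriv f z) (deriv f a)
    linarith
  have hschw : ∀ z, dist z a < t / 2 →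
      ‖deriv f z - deriv f a‖ ≤ 4 * D / (t / 2) * dist z a := by
    intro z hz
    have h := Complex.dist_le_div_mul_dist_of_mapsTo_ball (hdf.mono hballsub)
      (hmaps.mono_right Metric.ball_subset_closedBall) (Metric.mem_ball.mpr hz)
    rwa [dist_eq_norm] at h
  -- mean value inequality
  set s : ℝ := t / 16 with hs
  have hspos : 0 < s := by positivity
  have hsball : Metric.closedBall a s ⊆ Metric.ball z₀ R := by
    intro z hz
    exact hballsub (Metric.mem_ball.mpr (by
      have := Metric.mem_closedBall.mp hz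
      linarith))
  have hmv : ∀ z ∈ Metric.closedBall a s, ‖(f z - deriv f a * z) - (f a - deriv f a * a)‖ ≤
      (D / 2) * ‖z - a‖ := by
    intro z hz
    refine Convex.norm_image_sub_le_of_norm_hasDerivWithin_le (𝕜 := ℂ)
      (f := fun z => f z - deriv f a * z) (f' := fun z => deriv f z - deriv f a)
      (s := Metric.closedBall a s) ?_ ?_ (convex_closedBall a s)
      (Metric.mem_closedBall_self hspos.le) hz
    · intro x hx
      have h1 : HasDerivAt f (deriv f x) x :=
        (hf.differentiableAt (Metric.isOpen_ball.mem_nhds (hsball hx))).hasDerivAt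
      have h2 : HasDerivAt (fun z : ℂ => deriv f a * z) (deriv f a) x := by
        simpa using (hasDerivAt_id x).const_mul (deriv f a)
      exact (h1.sub h2).hasDerivWithinAt
    · intro x hx
      have hxa := Metric.mem_closedBall.mp hx
      have h1 := hschw x (by linarith)
      refine h1.trans ?_
      have h2 : 4 * D / (t / 2) * dist x a ≤ 4 * D / (t / 2) * s :=
        mul_le_mul_of_nonneg_left hxa (by positivity)
      refine h2.trans (le_of_eq ?_)
      rw [hs]
      field_simp
      norm_num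
  have hlow : ∀ z ∈ Metric.sphere a s, D * s / 2 ≤ ‖f z - f a‖ := by
    intro z hz
    have hza : ‖z - a‖ = s := by
      rw [← dist_eq_norm]
      exact hz
    have h1 := hmv z (Metric.sphere_subset_closedBall hz)
    have h2 : deriv f a * (z - a) = (f z - f a) -
        ((f z - deriv f a * z) - (f a - deriv f a * a)) := by ring
    have h3 : ‖deriv f a * (z - a)‖ = D * s := by rw [norm_mul, hza]
    have h4 := norm_sub_le (f z - f a) ((f z - deriv f a * z) - (f a - deriv f a * a))
    rw [← h2, h3] at h4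
    rw [hza] at h1
    linarith
  have hdcl : DiffContOnCl ℂ f (Metric.ball a s) := by
    refine DifferentiableOn.diffContOnCl ?_
    refine hf.mono ?_
    exact (Metric.closure_ball_subset_closedBall).trans hsball
  have hfreq : ∃ᶠ z in nhds a, f z ≠ f a := by
    have h1 : HasDerivAt f (deriv f a) a :=
      (hf.differentiableAt (Metric.isOpen_ball.mem_nhds
        (hsball (Metric.mem_closedBall_self hspos.le)))).hasDerivAt
    have h2 : ∀ᶠ z in nhdsWithin a {a}ᶜ, f z ≠ f a :=
      h1.eventually_ne (norm_pos_iff.mp hDpos)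
    exact h2.frequently.filter_mono nhdsWithin_le_nhds
  have himg := hdcl.ball_subset_image_closedBall hspos hlow hfreq
  refine ⟨f a, ?_⟩
  refine (Metric.ball_subset_ball ?_).trans (himg.trans (Set.image_mono hsball))
  rw [hs]
  have : 1 / 128 * R * ‖deriv f z₀‖ = (R / 2 * ‖deriv f z₀‖) / 64 := by ring
  rw [this]
  have h5 : D * (t / 16) / 2 / 2 = t * D / 64 := by ring
  rw [h5]
  linarith

end Pool.Agent.Helper2.LN
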