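import Pool.Agent.Helper2.LN.CrossLem

/-!
# LN-C3 (MP_730da0_ag): the braid relations

Paper proofs.  `comm`: `D = {x : Re x_u < Re x_v for u < v, (u,v) ≠ (i,i+1), (j,j+1); Im x_i < Im x_(i+1), Im x_j < Im x_(j+1)}` is convex, in `Conf k`.  `a ∈ Ord k ∩ D`, e.g.
real parts `0, .., k-1`, imaginary part of the labels `i+1`, `j+1` equal to `1`, of the others `0`; `a¹, a², a³`: real parts of the pair `(i,i+1)` exchanged, of `(j,j+1)` exchanged,
of both.  `T a a³ = T a¹ a³ ∘ T a a¹ = T a² a³ ∘ T a a²` (`T_trans` in `D`).  `a → a¹` is a crossing at position `i`, `a¹ → a³` at position `j`, `a → a²` at position `j`,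
`a² → a³` at position `i`.  So `val (s_j (s_i φ)) a³ = val (s_i (s_j φ)) a³`; `val_inj`.
`braid`: `D = {x : Re x_u < Re x_v for u < v not both in {i,i+1,i+2}; Im x_i < Im x_(i+1) < Im x_(i+2)}` convex, in `Conf k`.  `a`: real parts `0, .., k-1`, imaginary part of the
label `j` equal to `j`.  `c`: real parts of `i`, `i+2` exchanged.  Two routes from `a` to `c`, each with three crossings:
order `(i, i+1, i+2) → (i+1, i, i+2) → (i+1, i+2, i) → (i+2, i+1, i)`: positions `i, i+1, i`;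
order `(i, i+1, i+2) → (i, i+2, i+1) → (i+2, i, i+1) → (i+2, i+1, i)`: positions `i+1, i, i+1`.  In every crossing the left point has the smaller label, so it is the lower
one.  So `val (s_i (s_(i+1) (s_i φ))) c = val (s_(i+1) (s_i (s_(i+1) φ))) c`.
[A convenient way: for a permutation `ρ` of `Fin k` let `x(ρ)_l = ρ(l) + l·I` (real part = place `ρ l`, imaginary part = label `l`); all points used have this form, and
`pos (x ρ) l = ρ l`.]
-/

namespace Pool.Agent.Helper2.LN

variable {k : ℕ} {W : Type} [TopologicalSpace W]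

/-- real part = place `ρ l`, imaginary part = label `l` -/
private noncomputable def pt (ρ : Equiv.Perm (Fin k)) : Fin k → ℂ :=
  fun l => ⟨((ρ l : ℕ) : ℝ), ((l : ℕ) : ℝ)⟩

private theorem pt_re_lt (ρ : Equiv.Perm (Fin k)) (x y : Fin k) :
    (pt ρ x).re < (pt ρ y).re ↔ ρ x < ρ y := by
  unfold pt
  simp

/-- configurations with increasing imaginary parts -/
private def Im (k : ℕ) : Set (Fin k → ℂ) := {x | ∀ u v, u < v → (x u).im < (x v).im}

private theorem pt_mem (ρ : Equiv.Perm (Fin k)) : pt ρ ∈ Im k := by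
  intro u v huv
  unfold pt
  simpa using huv

private theorem Im_convex (k : ℕ) : Convex ℝ (Im k) := by
  intro x hx y hy s t hs ht hst u v huv
  have h1 := hx u v huv
  have h2 := hy u v huv
  simp only [Pi.add_apply, Pi.smul_apply, Complex.add_im, Complex.real_smul, Complex.mul_im,
    Complex.ofReal_re, Complex.ofReal_im, zero_mul, add_zero]
  rcases hs.lt_or_eq with hs' | hs'
  · nlinarith
  · have : t = 1 := by linarith
    subst hs'
    rw [this]
    linarith

private theorem Im_conf (k : ℕ) : Im k ⊆ Conf k := by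
  intro x hx u v he
  rcases lt_trichotomy u v with h1 | h1 | h1
  · have := hx u v h1
    rw [he] at this
    exact absurd this (lt_irrefl _)
  · exact h1
  · have := hx v u h1
    rw [he] at this
    exact absurd this (lt_irrefl _)

private theorem pt_gen (ρ : Equiv.Perm (Fin k)) : pt ρ ∈ Gen k := by
  intro x y h
  have h1 : ((ρ x : ℕ) : ℝ) = ((ρ y : ℕ) : ℝ) := h
  have h2 : (ρ x : ℕ) = (ρ y : ℕ) := by exact_mod_cast h1
  exact ρ.injective (Fin.ext h2)

private theorem pos_pt (ρ : Equiv.Perm (Fin k)) (l : Fin k) : pos (pt ρ) l = (ρ l : ℕ) := by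
  unfold pos
  have h1 : (Finset.univ.filter fun j => (pt ρ j).re < (pt ρ l).re).card =
      (Finset.Iio (ρ l)).card := by
    refine Finset.card_bij (fun j _ => ρ j) ?_ ?_ ?_
    · intro j hj
      simp only [Finset.mem_filter, Finset.mem_univ, true_and, pt_re_lt] at hj
      exact Finset.mem_Iio.2 hj
    · intro j _ j' _ h
      exact ρ.injective h
    · intro j hj
      refine ⟨ρ.symm j, ?_, Equiv.apply_symm_apply ρ j⟩
      simp only [Finset.mem_filter, Finset.mem_univ, true_and, pt_re_lt, Equiv.apply_symm_apply]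
      exact Finset.mem_Iio.1 hj
  rw [h1, Fin.card_Iio]

private theorem cross_pt (ρ : Equiv.Perm (Fin k)) (l m P Q : Fin k) (hl : ρ l = P) (hm : ρ m = Q)
    (hPQ : (Q : ℕ) = P + 1) (hlm : l < m) : Cross (pt ρ) (pt (Equiv.swap P Q * ρ)) l m where
  gena := pt_gen _
  genc := pt_gen _
  lt := by
    rw [pt_re_lt, hl, hm, Fin.lt_def]
    omega
  gt := by
    rw [pt_re_lt, Equiv.Perm.mul_apply, Equiv.Perm.mul_apply, hl, hm, Equiv.swap_apply_left,
      Equiv.swap_apply_right, Fin.lt_def]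
    omega
  ima := pt_mem _ _ _ hlm
  imc := pt_mem _ _ _ hlm
  same := by
    intro x y h1 h2
    rw [pt_re_lt, pt_re_lt, Equiv.Perm.mul_apply, Equiv.Perm.mul_apply]
    have e1 : ρ x = P ↔ x = l := by rw [← hl]; exact ρ.injective.eq_iff
    have e2 : ρ x = Q ↔ x = m := by rw [← hm]; exact ρ.injective.eq_iff
    have e3 : ρ y = P ↔ y = l := by rw [← hl]; exact ρ.injective.eq_iff
    have e4 : ρ y = Q ↔ y = m := by rw [← hm]; exact ρ.injective.eq_iff
    rw [← e1, ← e4] at h1
    rw [← e2, ← e3] at h2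
    generalize ρ x = a at *
    generalize ρ y = b at *
    have hv : ∀ z w : Fin k, z = w ↔ (z : ℕ) = (w : ℕ) := fun z w => Fin.ext_iff
    rw [Equiv.swap_apply_def, Equiv.swap_apply_def]
    rw [hv, hv] at h1 h2
    split_ifs with g1 g2 g3 g4 g5 g6 g7 g8 <;> simp only [Fin.lt_def, hv] at * <;> omega

private theorem step (S : Sys k W) (ρ : Equiv.Perm (Fin k)) (l m P Q : Fin k) (hl : ρ l = P)
    (hm : ρ m = Q) (hPQ : (Q : ℕ) = P + 1) (hlm : l < m) (φ : S.F (base k)) :
    S.T (pt ρ) (pt (Equiv.swap P Q * ρ)) (S.val φ (pt ρ)) =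
      S.val (S.s P φ) (pt (Equiv.swap P Q * ρ)) := by
  have hP : (P : ℕ) + 1 < k := by
    have := Q.2
    omega
  refine S.crossProp_s P hP _ _ l m (cross_pt ρ l m P Q hl hm hPQ hlm) ?_ φ
  rw [pos_pt, hl]

private theorem trans (S : Sys k W) (ρ σ τ : Equiv.Perm (Fin k)) (w : W) (hw : w ∈ S.F (pt ρ)) :
    S.T (pt σ) (pt τ) (S.T (pt ρ) (pt σ) w) = S.T (pt ρ) (pt τ) w :=
  S.T_trans (Im k) (Im_convex k) (Im_conf k) _ _ _ (pt_mem _) (pt_mem _) (pt_mem _) w hw

theorem Sys.s_comm (S : Sys k W) (i j : ℕ) (hij : i + 2 ≤ j) (hj : j + 1 < k) :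
    S.s i * S.s j = S.s j * S.s i := by
  have hne : ∀ a b : ℕ, ∀ (ha : a < k) (hb : b < k), a ≠ b → (⟨a, ha⟩ : Fin k) ≠ ⟨b, hb⟩ :=
    fun a b ha hb h he => h (Fin.mk.inj he)
  have h1 : i < k := by omega
  have h2 : i + 1 < k := by omega
  have h3 : j < k := by omega
  have hcomm : Equiv.swap (⟨j, h3⟩ : Fin k) ⟨j + 1, hj⟩ * (Equiv.swap ⟨i, h1⟩ ⟨i + 1, h2⟩ * 1) =
      Equiv.swap ⟨i, h1⟩ ⟨i + 1, h2⟩ * (Equiv.swap ⟨j, h3⟩ ⟨j + 1, hj⟩ * 1) := by
    rw [mul_one, mul_one]
    refine (Equiv.Perm.disjoint_swap_swap ?_).commute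
    simp only [List.nodup_cons, List.mem_cons, List.not_mem_nil, or_false, not_or,
      List.nodup_nil, and_true, not_false_eq_true, Fin.mk.injEq]
    omega
  ext1 φ
  set P : Fin k := ⟨i, h1⟩ with hP
  set Q : Fin k := ⟨i + 1, h2⟩ with hQ
  set P' : Fin k := ⟨j, h3⟩ with hP'
  set Q' : Fin k := ⟨j + 1, hj⟩ with hQ'
  have hPQ : (Q : ℕ) = P + 1 := rfl
  have hPQ' : (Q' : ℕ) = P' + 1 := rfl
  have n1 : P' ≠ P := hne _ _ _ _ (by omega)
  have n2 : P' ≠ Q := hne _ _ _ _ (by omega)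
  have n3 : Q' ≠ P := hne _ _ _ _ (by omega)
  have n4 : Q' ≠ Q := hne _ _ _ _ (by omega)
  have hmem := S.val_mem φ (pt 1) (pt_gen 1)
  -- first route
  have r1 := step S 1 P Q P Q rfl rfl hPQ (by rw [Fin.lt_def]; omega) φ
  have r2 := step S (Equiv.swap P Q * 1) P' Q' P' Q'
    (by rw [mul_one]; exact Equiv.swap_apply_of_ne_of_ne n1 n2)
    (by rw [mul_one]; exact Equiv.swap_apply_of_ne_of_ne n3 n4) hPQ'
    (by rw [Fin.lt_def]; omega) (S.s P φ)
  rw [← r1, trans S _ _ _ _ hmem] at r2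
  -- second route
  have q1 := step S 1 P' Q' P' Q' rfl rfl hPQ' (by rw [Fin.lt_def]; omega) φ
  have q2 := step S (Equiv.swap P' Q' * 1) P Q P Q
    (by rw [mul_one]; exact Equiv.swap_apply_of_ne_of_ne n1.symm n3.symm)
    (by rw [mul_one]; exact Equiv.swap_apply_of_ne_of_ne n2.symm n4.symm) hPQ
    (by rw [Fin.lt_def]; omega) (S.s P' φ)
  rw [← q1, trans S _ _ _ _ hmem, ← hcomm] at q2
  refine S.val_inj _ _ _ (pt_gen (Equiv.swap P' Q' * (Equiv.swap P Q * 1))) ?_
  rw [Equiv.Perm.mul_apply, Equiv.Perm.mul_apply]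
  exact q2.symm.trans r2

theorem Sys.s_braid (S : Sys k W) (i : ℕ) (hi : i + 2 < k) :
    S.s i * S.s (i + 1) * S.s i = S.s (i + 1) * S.s i * S.s (i + 1) := by
  have h1 : i < k := by omega
  have h2 : i + 1 < k := by omega
  set u : Fin k := ⟨i, h1⟩ with hu
  set v : Fin k := ⟨i + 1, h2⟩ with hv
  set w : Fin k := ⟨i + 2, hi⟩ with hw
  have nuv : u ≠ v := by
    intro h
    have := Fin.mk.inj h
    omega
  have nuw : u ≠ w := by
    intro h
    have := Fin.mk.inj h
    omega
  have nvw : v ≠ w := by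
    intro h
    have := Fin.mk.inj h
    omega
  have huv : (v : ℕ) = u + 1 := rfl
  have hvw : (w : ℕ) = v + 1 := rfl
  have luv : u < v := by rw [Fin.lt_def]; omega
  have lvw : v < w := by rw [Fin.lt_def]; omega
  have luw : u < w := luv.trans lvw
  have hcomm : Equiv.swap u v * (Equiv.swap v w * (Equiv.swap u v * 1)) =
      Equiv.swap v w * (Equiv.swap u v * (Equiv.swap v w * 1)) := by
    rw [mul_one, mul_one, ← mul_assoc, ← mul_assoc]
    have e1 := Equiv.swap_mul_swap_mul_swap (x := w) (y := v) (z := u) nvw.symm nuw.symm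
    have e2 := Equiv.swap_mul_swap_mul_swap (x := u) (y := v) (z := w) nuv nuw
    rw [Equiv.swap_comm v u, Equiv.swap_comm w v] at e1
    rw [e1, e2]
    exact Equiv.swap_comm u w
  ext1 φ
  have hmem := S.val_mem φ (pt 1) (pt_gen 1)
  -- first route
  have r1 := step S 1 u v u v rfl rfl huv luv φ
  have r2 := step S (Equiv.swap u v * 1) u w v w
    (by rw [mul_one]; exact Equiv.swap_apply_left u v)
    (by rw [mul_one]; exact Equiv.swap_apply_of_ne_of_ne nuw.symm nvw.symm) hvw luw (S.s u φ)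
  rw [← r1, trans S _ _ _ _ hmem] at r2
  have r3 := step S (Equiv.swap v w * (Equiv.swap u v * 1)) v w u v
    (by
      rw [mul_one, Equiv.Perm.mul_apply, Equiv.swap_apply_right]
      exact Equiv.swap_apply_of_ne_of_ne nuv nuw)
    (by
      rw [mul_one, Equiv.Perm.mul_apply, Equiv.swap_apply_of_ne_of_ne nuw.symm nvw.symm]
      exact Equiv.swap_apply_right v w) huv lvw (S.s v (S.s u φ))
  rw [← r2, trans S _ _ _ _ hmem] at r3
  -- second route
  have q1 := step S 1 v w v w rfl rfl hvw lvw φ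
  have q2 := step S (Equiv.swap v w * 1) u w u v
    (by rw [mul_one]; exact Equiv.swap_apply_of_ne_of_ne nuv nuw)
    (by rw [mul_one]; exact Equiv.swap_apply_right v w) huv luw (S.s v φ)
  rw [← q1, trans S _ _ _ _ hmem] at q2
  have q3 := step S (Equiv.swap u v * (Equiv.swap v w * 1)) u v v w
    (by
      rw [mul_one, Equiv.Perm.mul_apply, Equiv.swap_apply_of_ne_of_ne nuv nuw]
      exact Equiv.swap_apply_left u v)
    (by
      rw [mul_one, Equiv.Perm.mul_apply, Equiv.swap_apply_left]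
      exact Equiv.swap_apply_of_ne_of_ne nuw.symm nvw.symm) hvw luv (S.s u (S.s v φ))
  rw [← q2, trans S _ _ _ _ hmem, ← hcomm] at q3
  refine S.val_inj _ _ _ (pt_gen (Equiv.swap u v * (Equiv.swap v w * (Equiv.swap u v * 1)))) ?_
  simp only [Equiv.Perm.mul_apply]
  exact r3.symm.trans q3

end Pool.Agent.Helper2.LN
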