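import Mathlib

/-!
# LN-R0 (MP_730da0_ag): the Moebius pictures of the circle

`cp μ θ = i (μ a + i b)/(μ a - i b)`, `a = cos(θ/2)`, `b = sin(θ/2)`, written in real and imaginary part:
`Re = -2μab/(μ²a²+b²)`, `Im = (μ²a²-b²)/(μ²a²+b²)`.  For `μ = 1` this is `i e^(iθ)`.  With `y = μ a/b = μ cot(θ/2)` (if `b ≠ 0`): `Re = -2y/(1+y²)`, `Im = (y²-1)/(y²+1)`.

Paper proofs.  `μ²a²+b² > 0` for `μ > 0` as `a²+b² = 1`.  Injectivity: `Re² + Im² = 1`, and `(μa + ib)/(μa - ib)` determines `μa : b` up to a real factor, that is `(a, b)` up to sign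
[`a b' μ = a' b μ`, i.e. `sin((θ-θ')/2) = 0`; in real terms: `Im = Im'` gives `a²b'² = a'²b²`, so `a² = a'²`, `b² = b'²`; `Re = Re'` gives `ab = a'b'`; so `(a', b') = ±(a, b)`], so `θ' - θ ∈ 2πℤ`.
`cp_re_lt`: for `0 < θ < θ' < 2π` (so `b, b' > 0`) one has `a/b > a'/b'` (`a b' - a' b = sin((θ'-θ)/2) > 0`); `y ↦ -2y/(1+y²)` is strictly decreasing on `[-1, 1]`:
`-2y'/(1+y'²) + 2y/(1+y²) = 2 (y - y')(1 - y y')/((1+y²)(1+y'²)) > 0` if `-1 ≤ y' < y ≤ 1` (then `y y' < 1`).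
`cp_im_lt`: `Im` is increasing in `a²/b²`, i.e. in `a²`.
-/

namespace Pool.Agent.Helper2.LN

open Real

/-- The point with angle `θ` of the circle, squeezed with parameter `μ`. -/
noncomputable def cp (μ θ : ℝ) : ℂ :=
  ⟨-2 * μ * cos (θ / 2) * sin (θ / 2) / (μ ^ 2 * cos (θ / 2) ^ 2 + sin (θ / 2) ^ 2),
    (μ ^ 2 * cos (θ / 2) ^ 2 - sin (θ / 2) ^ 2) / (μ ^ 2 * cos (θ / 2) ^ 2 + sin (θ / 2) ^ 2)⟩

theorem cp_den_pos (μ θ : ℝ) (hμ : 0 < μ) : 0 < μ ^ 2 * cos (θ / 2) ^ 2 + sin (θ / 2) ^ 2 := by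
  have h := Real.sin_sq_add_cos_sq (θ / 2)
  rcases eq_or_ne (cos (θ / 2)) 0 with h0 | h0
  · rw [h0] at h ⊢
    nlinarith
  · have h1 : 0 < μ ^ 2 * cos (θ / 2) ^ 2 := by positivity
    have h2 : 0 ≤ sin (θ / 2) ^ 2 := sq_nonneg _
    linarith

theorem cp_continuous {X : Type} [TopologicalSpace X] (μ θ : X → ℝ) (hμ : Continuous μ) (hθ : Continuous θ)
    (h0 : ∀ x, 0 < μ x) : Continuous fun x => cp (μ x) (θ x) := by
  have hc : Continuous fun x => cos (θ x / 2) := Real.continuous_cos.comp (hθ.div_const 2)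
  have hs : Continuous fun x => sin (θ x / 2) := Real.continuous_sin.comp (hθ.div_const 2)
  have hd : Continuous fun x => μ x ^ 2 * cos (θ x / 2) ^ 2 + sin (θ x / 2) ^ 2 :=
    ((hμ.pow 2).mul (hc.pow 2)).add (hs.pow 2)
  have hne : ∀ x, μ x ^ 2 * cos (θ x / 2) ^ 2 + sin (θ x / 2) ^ 2 ≠ 0 := fun x =>
    (cp_den_pos _ _ (h0 x)).ne'
  have h1 : Continuous fun x => -2 * μ x * cos (θ x / 2) * sin (θ x / 2) /
      (μ x ^ 2 * cos (θ x / 2) ^ 2 + sin (θ x / 2) ^ 2) :=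
    (((continuous_const.mul hμ).mul hc).mul hs).div hd hne
  have h2 : Continuous fun x => (μ x ^ 2 * cos (θ x / 2) ^ 2 - sin (θ x / 2) ^ 2) /
      (μ x ^ 2 * cos (θ x / 2) ^ 2 + sin (θ x / 2) ^ 2) :=
    (((hμ.pow 2).mul (hc.pow 2)).sub (hs.pow 2)).div hd hne
  exact Complex.equivRealProdCLM.symm.continuous.comp (h1.prodMk h2)

private theorem half_sin (θ : ℝ) : 2 * cos (θ / 2) * sin (θ / 2) = sin θ := by
  have h := Real.sin_two_mul (θ / 2)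
  rw [show 2 * (θ / 2) = θ by ring] at h
  rw [h]
  ring

private theorem half_cos (θ : ℝ) : cos (θ / 2) ^ 2 - sin (θ / 2) ^ 2 = cos θ := by
  have h := Real.cos_two_mul' (θ / 2)
  rw [show 2 * (θ / 2) = θ by ring] at h
  rw [h]

theorem cp_one (θ : ℝ) : cp 1 θ = Complex.I * Complex.exp (θ * Complex.I) := by
  have h := Real.sin_sq_add_cos_sq (θ / 2)
  have h1 := half_sin θ
  have h2 := half_cos θ
  rw [Complex.exp_mul_I, ← Complex.ofReal_cos, ← Complex.ofReal_sin]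
  have hd : (1 : ℝ) ^ 2 * cos (θ / 2) ^ 2 + sin (θ / 2) ^ 2 = 1 := by linarith
  apply Complex.ext
  · simp only [cp, hd, div_one, Complex.mul_re, Complex.add_re, Complex.add_im, Complex.mul_im,
      Complex.I_re, Complex.I_im, Complex.ofReal_re, Complex.ofReal_im]
    linarith
  · simp only [cp, hd, div_one, Complex.mul_re, Complex.add_re, Complex.add_im, Complex.mul_im,
      Complex.I_re, Complex.I_im, Complex.ofReal_re, Complex.ofReal_im]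
    linarith

theorem norm_cp (μ θ : ℝ) (hμ : 0 < μ) : ‖cp μ θ‖ = 1 := by
  have hd := cp_den_pos μ θ hμ
  have h : ‖cp μ θ‖ ^ 2 = 1 := by
    rw [← Complex.normSq_eq_norm_sq, Complex.normSq_apply]
    simp only [cp]
    rw [div_mul_div_comm, div_mul_div_comm, ← add_div, div_eq_one_iff_eq (by positivity)]
    ring
  have h2 : 0 ≤ ‖cp μ θ‖ := norm_nonneg _
  nlinarith

theorem cp_add_two_pi (μ θ : ℝ) : cp μ (θ + 2 * π) = cp μ θ := by
  unfold cp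
  rw [show (θ + 2 * π) / 2 = θ / 2 + π by ring, Real.cos_add_pi, Real.sin_add_pi]
  congr 1 <;> congr 1 <;> ring

private theorem im_cross (μ s s' : ℝ) (D D' : ℝ) (hD : D = μ ^ 2 * s + (1 - s))
    (hD' : D' = μ ^ 2 * s' + (1 - s')) :
    (μ ^ 2 * s' - (1 - s')) * D - (μ ^ 2 * s - (1 - s)) * D' = 2 * μ ^ 2 * (s' - s) := by
  rw [hD, hD']
  ring

theorem cp_im_lt (μ θ θ' : ℝ) (hμ : 0 < μ) (h : cos (θ / 2) ^ 2 < cos (θ' / 2) ^ 2) :
    (cp μ θ).im < (cp μ θ').im := by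
  have hd := cp_den_pos μ θ hμ
  have hd' := cp_den_pos μ θ' hμ
  have h1 : sin (θ / 2) ^ 2 = 1 - cos (θ / 2) ^ 2 := by
    have := Real.sin_sq_add_cos_sq (θ / 2); linarith
  have h1' : sin (θ' / 2) ^ 2 = 1 - cos (θ' / 2) ^ 2 := by
    have := Real.sin_sq_add_cos_sq (θ' / 2); linarith
  simp only [cp]
  rw [div_lt_div_iff₀ hd hd']
  rw [h1, h1']
  have h2 := im_cross μ (cos (θ / 2) ^ 2) (cos (θ' / 2) ^ 2) _ _ rfl rfl
  have h3 : 0 < 2 * μ ^ 2 * (cos (θ' / 2) ^ 2 - cos (θ / 2) ^ 2) := by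
    have : 0 < cos (θ' / 2) ^ 2 - cos (θ / 2) ^ 2 := by linarith
    positivity
  linarith

theorem cp_inj (μ θ θ' : ℝ) (hμ : 0 < μ) (h : cp μ θ = cp μ θ') : ∃ m : ℤ, θ' - θ = 2 * π * m := by
  have him : (cp μ θ).im = (cp μ θ').im := by rw [h]
  have hre : (cp μ θ).re = (cp μ θ').re := by rw [h]
  have hc : cos (θ / 2) ^ 2 = cos (θ' / 2) ^ 2 := by
    rcases lt_trichotomy (cos (θ / 2) ^ 2) (cos (θ' / 2) ^ 2) with h1 | h1 | h1
    · exact absurd him (cp_im_lt μ θ θ' hμ h1).ne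
    · exact h1
    · exact absurd him (cp_im_lt μ θ' θ hμ h1).ne'
  have h1 := Real.sin_sq_add_cos_sq (θ / 2)
  have h1' := Real.sin_sq_add_cos_sq (θ' / 2)
  have hs : sin (θ / 2) ^ 2 = sin (θ' / 2) ^ 2 := by linarith
  have hd := cp_den_pos μ θ' hμ
  simp only [cp] at hre
  rw [hc, hs, div_left_inj' hd.ne'] at hre
  have hab : cos (θ / 2) * sin (θ / 2) = cos (θ' / 2) * sin (θ' / 2) := by
    have h2 : μ * (cos (θ / 2) * sin (θ / 2)) = μ * (cos (θ' / 2) * sin (θ' / 2)) := by linarith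
    exact mul_left_cancel₀ hμ.ne' h2
  have hz : sin ((θ' - θ) / 2) = 0 := by
    have h3 : sin ((θ' - θ) / 2) = sin (θ' / 2) * cos (θ / 2) - cos (θ' / 2) * sin (θ / 2) := by
      rw [show (θ' - θ) / 2 = θ' / 2 - θ / 2 by ring, Real.sin_sub]
    have h4 : sin ((θ' - θ) / 2) ^ 2 = 0 := by
      rw [h3]
      have e1 : (sin (θ' / 2) * cos (θ / 2) - cos (θ' / 2) * sin (θ / 2)) ^ 2 =
          sin (θ' / 2) ^ 2 * cos (θ / 2) ^ 2 + cos (θ' / 2) ^ 2 * sin (θ / 2) ^ 2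
            - 2 * ((cos (θ / 2) * sin (θ / 2)) * (cos (θ' / 2) * sin (θ' / 2))) := by ring
      rw [e1, hab, hc, hs]
      ring
    exact pow_eq_zero_iff (two_ne_zero) |>.1 h4
  obtain ⟨m, hm⟩ := Real.sin_eq_zero_iff.1 hz
  exact ⟨m, by linarith⟩

private theorem den_eq (μ θ y : ℝ) (hy : y * sin (θ / 2) = μ * cos (θ / 2)) :
    μ ^ 2 * cos (θ / 2) ^ 2 + sin (θ / 2) ^ 2 = (1 + y ^ 2) * sin (θ / 2) ^ 2 := by
  have : μ ^ 2 * cos (θ / 2) ^ 2 = (μ * cos (θ / 2)) ^ 2 := by ring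
  rw [this, ← hy]
  ring

/-- Real part in terms of `y = μ cot(θ/2)`. -/
theorem cp_re (μ θ y : ℝ) (hμ : 0 < μ) (hb : sin (θ / 2) ≠ 0) (hy : y * sin (θ / 2) = μ * cos (θ / 2)) :
    (cp μ θ).re = -2 * y / (1 + y ^ 2) := by
  have hd := cp_den_pos μ θ hμ
  simp only [cp]
  rw [div_eq_div_iff hd.ne' (by positivity), den_eq μ θ y hy]
  have : -2 * μ * cos (θ / 2) * sin (θ / 2) = -2 * (μ * cos (θ / 2)) * sin (θ / 2) := by ring
  rw [this, ← hy]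
  ring

theorem cp_im (μ θ y : ℝ) (hμ : 0 < μ) (hb : sin (θ / 2) ≠ 0) (hy : y * sin (θ / 2) = μ * cos (θ / 2)) :
    (cp μ θ).im = (y ^ 2 - 1) / (y ^ 2 + 1) := by
  have hd := cp_den_pos μ θ hμ
  simp only [cp]
  rw [div_eq_div_iff hd.ne' (by positivity), den_eq μ θ y hy]
  have : μ ^ 2 * cos (θ / 2) ^ 2 = (μ * cos (θ / 2)) ^ 2 := by ring
  rw [this, ← hy]
  ring

theorem cp_re_lt (μ θ θ' : ℝ) (hμ : 0 < μ) (h0 : 0 < θ) (h : θ < θ') (h2 : θ' < 2 * π)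
    (h3 : μ * cos (θ / 2) ≤ sin (θ / 2)) (h4 : -sin (θ' / 2) ≤ μ * cos (θ' / 2)) :
    (cp μ θ).re < (cp μ θ').re := by
  have hb : 0 < sin (θ / 2) := Real.sin_pos_of_pos_of_lt_pi (by linarith) (by linarith)
  have hb' : 0 < sin (θ' / 2) := Real.sin_pos_of_pos_of_lt_pi (by linarith) (by linarith)
  have hdiff : 0 < sin ((θ' - θ) / 2) := Real.sin_pos_of_pos_of_lt_pi (by linarith) (by linarith)
  have h5 : sin ((θ' - θ) / 2) = sin (θ' / 2) * cos (θ / 2) - cos (θ' / 2) * sin (θ / 2) := by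
    rw [show (θ' - θ) / 2 = θ' / 2 - θ / 2 by ring, Real.sin_sub]
  obtain ⟨y, hy⟩ : ∃ y, y = μ * cos (θ / 2) / sin (θ / 2) := ⟨_, rfl⟩
  obtain ⟨y', hy'⟩ : ∃ y', y' = μ * cos (θ' / 2) / sin (θ' / 2) := ⟨_, rfl⟩
  have hyy : y' < y := by
    rw [hy, hy', div_lt_div_iff₀ hb' hb]
    nlinarith
  have hy1 : y ≤ 1 := by
    rw [hy, div_le_one hb]
    exact h3
  have hy2 : -1 ≤ y' := by
    rw [hy', le_div_iff₀ hb']
    linarith
  rw [cp_re μ θ y hμ hb.ne' (by rw [hy]; field_simp), cp_re μ θ' y' hμ hb'.ne' (by rw [hy']; field_simp),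
    div_lt_div_iff₀ (by positivity) (by positivity)]
  have h6 : 0 < 1 - y * y' := by nlinarith
  have h7 : 0 < (y - y') * (1 - y * y') := mul_pos (by linarith) h6
  nlinarith

end Pool.Agent.Helper2.LN
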