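import Pool.Agent.Helper2.LN.Val

/-!
# LN-C2 (MP_730da0_ag): the crossing lemma

Paper proof.  Let `Cross a c l m`, `pos a l = i`.  Relabelling (`T_perm`, `val_perm`; `Cross` and `pos` are compatible with it) we may assume `a ∈ Ord k`; then
`l = i`, `m = i + 1` (`pos a l` is the label for ordered `a`, `pos_cross`), and `a, c` are in the convex set
`V = {x : Re x_u < Re x_v for u < v, (u, v) ≠ (i, i+1), and Im x_i < Im x_(i+1)} ⊆ Conf k`.
Fix one crossing `a₀, c₀` with `a₀ ∈ Ord k` (`exists_cross`).  `φ ↦` the name over `c₀` of `T a₀ c₀ (val φ a₀)` is a permutation `g` of `F (base k)` (`val` and `T` are bijections).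
For every other crossing `(a, c)` at position `i`, relabelled such that `a ∈ Ord k`: in `V`,
`T a c (val φ a) = T c₀ c (T a₀ c₀ (T a a₀ (val φ a)))`, `T a a₀ (val φ a) = val φ a₀` (same order, `T_val`), `T a₀ c₀ (val φ a₀) = val (g φ) c₀`,
`T c₀ c (val (g φ) c₀) = val (g φ) c` (same order).  So `CrossProp i g`.  Uniqueness: evaluate at one crossing and use `val_inj`.
-/

namespace Pool.Agent.Helper2.LN

variable {k : ℕ} {W : Type} [TopologicalSpace W]

private theorem ord_iff {a : Fin k → ℂ} (ha : a ∈ Ord k) (i j : Fin k) :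
    (a i).re < (a j).re ↔ i < j := by
  constructor
  · intro h
    rcases lt_trichotomy i j with h1 | h1 | h1
    · exact h1
    · rw [h1] at h
      exact absurd h (lt_irrefl _)
    · exact absurd (ha j i h1) (not_lt.2 h.le)
  · intro h
    exact ha i j h

private theorem pos_ord {a : Fin k → ℂ} (ha : a ∈ Ord k) (l : Fin k) : pos a l = (l : ℕ) := by
  unfold pos
  have h1 : (Finset.univ.filter fun j => (a j).re < (a l).re) = Finset.Iio l := by
    ext j
    simp only [Finset.mem_filter, Finset.mem_univ, true_and, Finset.mem_Iio]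
    exact ord_iff ha j l
  rw [h1, Fin.card_Iio]

private theorem pos_comp (a : Fin k → ℂ) (π : Equiv.Perm (Fin k)) (l : Fin k) :
    pos (a ∘ π) (π.symm l) = pos a l := by
  unfold pos
  refine Finset.card_bij (fun j _ => π j) ?_ ?_ ?_
  · intro j hj
    simp only [Finset.mem_filter, Finset.mem_univ, true_and, Function.comp_apply,
      Equiv.apply_symm_apply] at hj ⊢
    exact hj
  · intro j _ j' _ h
    exact π.injective h
  · intro j hj
    refine ⟨π.symm j, ?_, Equiv.apply_symm_apply π j⟩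
    simp only [Finset.mem_filter, Finset.mem_univ, true_and, Function.comp_apply,
      Equiv.apply_symm_apply] at hj ⊢
    exact hj

private theorem gen_comp {a : Fin k → ℂ} (ha : a ∈ Gen k) (π : Equiv.Perm (Fin k)) :
    a ∘ π ∈ Gen k := by
  intro i j h
  exact π.injective (ha h)

private theorem cross_comp {a c : Fin k → ℂ} {l m : Fin k} (h : Cross a c l m)
    (π : Equiv.Perm (Fin k)) : Cross (a ∘ π) (c ∘ π) (π.symm l) (π.symm m) where
  gena := gen_comp h.gena π
  genc := gen_comp h.genc π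
  lt := by simpa using h.lt
  gt := by simpa using h.gt
  ima := by simpa using h.ima
  imc := by simpa using h.imc
  same := by
    intro x y h1 h2
    refine h.same (π x) (π y) ?_ ?_
    · rintro ⟨rfl, rfl⟩
      exact h1 ⟨(Equiv.symm_apply_apply π x).symm, (Equiv.symm_apply_apply π y).symm⟩
    · rintro ⟨rfl, rfl⟩
      exact h2 ⟨(Equiv.symm_apply_apply π x).symm, (Equiv.symm_apply_apply π y).symm⟩

/-- the convex set -/
private def V (l m : Fin k) : Set (Fin k → ℂ) :=
  {x | (∀ u v, u < v → ¬ (u = l ∧ v = m) → (x u).re < (x v).re) ∧ (x l).im < (x m).im}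

private theorem V_convex (l m : Fin k) : Convex ℝ (V l m) := by
  intro x hx y hy s t hs ht hst
  refine ⟨fun u v huv hne => ?_, ?_⟩
  · have h1 := hx.1 u v huv hne
    have h2 := hy.1 u v huv hne
    simp only [Pi.add_apply, Pi.smul_apply, Complex.add_re, Complex.real_smul, Complex.mul_re,
      Complex.ofReal_re, Complex.ofReal_im, zero_mul, sub_zero]
    rcases hs.lt_or_eq with hs' | hs'
    · nlinarith
    · have : t = 1 := by linarith
      subst hs'
      rw [this]
      linarith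
  · have h1 := hx.2
    have h2 := hy.2
    simp only [Pi.add_apply, Pi.smul_apply, Complex.add_im, Complex.real_smul, Complex.mul_im,
      Complex.ofReal_re, Complex.ofReal_im, zero_mul, add_zero]
    rcases hs.lt_or_eq with hs' | hs'
    · nlinarith
    · have : t = 1 := by linarith
      subst hs'
      rw [this]
      linarith

private theorem V_conf (l m : Fin k) : V l m ⊆ Conf k := by
  intro x hx
  have key : ∀ u v, u < v → x u ≠ x v := by
    intro u v huv he
    by_cases h : u = l ∧ v = m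
    · have h1 := hx.2
      rw [← h.1, ← h.2, he] at h1
      exact lt_irrefl _ h1
    · have h1 := hx.1 u v huv h
      rw [he] at h1
      exact lt_irrefl _ h1
  intro u v he
  rcases lt_trichotomy u v with h1 | h1 | h1
  · exact absurd he (key u v h1)
  · exact h1
  · exact absurd he.symm (key v u h1)

private theorem mem_V_left {a c : Fin k → ℂ} {l m : Fin k} (h : Cross a c l m) (ha : a ∈ Ord k) :
    a ∈ V l m :=
  ⟨fun u v huv _ => ha u v huv, h.ima⟩

private theorem mem_V_right {a c : Fin k → ℂ} {l m : Fin k} (h : Cross a c l m) (ha : a ∈ Ord k) :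
    c ∈ V l m := by
  refine ⟨fun u v huv hne => ?_, h.imc⟩
  have hlm : l < m := (ord_iff ha l m).1 h.lt
  refine (h.same u v hne ?_).1 (ha u v huv)
  rintro ⟨rfl, rfl⟩
  exact absurd huv (not_lt.2 hlm.le)

private theorem order_right {a c a' c' : Fin k → ℂ} {l m : Fin k} (h : Cross a c l m)
    (h' : Cross a' c' l m) (ha : a ∈ Ord k) (ha' : a' ∈ Ord k) (x y : Fin k) :
    (c x).re < (c y).re ↔ (c' x).re < (c' y).re := by
  by_cases h1 : x = l ∧ y = m
  · rw [h1.1, h1.2]
    exact ⟨fun h2 => absurd h2 (not_lt.2 h.gt.le), fun h2 => absurd h2 (not_lt.2 h'.gt.le)⟩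
  · by_cases h2 : x = m ∧ y = l
    · rw [h2.1, h2.2]
      exact ⟨fun _ => h'.gt, fun _ => h.gt⟩
    · rw [← h.same x y h1 h2, ← h'.same x y h1 h2, ord_iff ha, ord_iff ha']

private theorem main (S : Sys k W) (i : ℕ) {a₀ c₀ : Fin k → ℂ} {l₀ m₀ : Fin k}
    (h₀ : Cross a₀ c₀ l₀ m₀) (hp₀ : pos a₀ l₀ = i) (ho : a₀ ∈ Ord k)
    (g : S.F (base k) → S.F (base k))
    (hg : ∀ φ : S.F (base k), S.T a₀ c₀ (S.val φ a₀) = S.val (g φ) c₀) :
    ∀ a c l m, Cross a c l m → pos a l = i → ∀ φ, S.T a c (S.val φ a) = S.val (g φ) c := by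
  -- ordered case
  have hord : ∀ a c l m, Cross a c l m → pos a l = i → a ∈ Ord k →
      ∀ φ, S.T a c (S.val φ a) = S.val (g φ) c := by
    intro a c l m h hp ha φ
    have hl : (l : ℕ) = i := by rw [← pos_ord ha l, hp]
    have hl0 : (l₀ : ℕ) = i := by rw [← pos_ord ho l₀, hp₀]
    have hm : (m : ℕ) = i + 1 := by rw [← pos_ord ha m, pos_cross a c l m h, hp]
    have hm0 : (m₀ : ℕ) = i + 1 := by rw [← pos_ord ho m₀, pos_cross a₀ c₀ l₀ m₀ h₀, hp₀]
    have el : l = l₀ := Fin.ext (by rw [hl, hl0])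
    have em : m = m₀ := Fin.ext (by rw [hm, hm0])
    subst el em
    have hV := V_convex (k := k) l m
    have hC := V_conf (k := k) l m
    have hav := mem_V_left h ha
    have hcv := mem_V_right h ha
    have hav0 := mem_V_left h₀ ho
    have hcv0 := mem_V_right h₀ ho
    have hw := S.val_mem φ a h.gena
    have hw0 : S.T a a₀ (S.val φ a) = S.val φ a₀ := by
      refine S.T_val a a₀ h.gena h₀.gena (fun x y => ?_) φ
      rw [ord_iff ha, ord_iff ho]
    rw [← S.T_trans (V l m) hV hC a a₀ c hav hav0 hcv _ hw, hw0,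
      ← S.T_trans (V l m) hV hC a₀ c₀ c hav0 hcv0 hcv _ (S.val_mem φ a₀ h₀.gena), hg]
    exact S.T_val c₀ c h₀.genc h.genc (fun x y => order_right h₀ h ho ha x y) (g φ)
  intro a c l m h hp φ
  let π : Equiv.Perm (Fin k) := Tuple.sort fun i => (a i).re
  have h1 := hord (a ∘ π) (c ∘ π) (π.symm l) (π.symm m) (cross_comp h π)
    (by rw [pos_comp, hp]) (srt_mem a h.gena) φ
  rw [S.T_perm, S.val_perm φ a h.gena, S.val_perm (g φ) c h.genc] at h1
  exact h1

private theorem exists_g (S : Sys k W) (i : ℕ) (hi : i + 1 < k) :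
    ∃ g : Equiv.Perm (S.F (base k)), S.CrossProp i g := by
  obtain ⟨a₀, c₀, l₀, m₀, h₀, hp₀, ho⟩ := exists_cross (k := k) i hi
  have hseg := segment_cross a₀ c₀ l₀ m₀ h₀
  have hex : ∀ φ : S.F (base k), ∃ ψ : S.F (base k), S.val ψ c₀ = S.T a₀ c₀ (S.val φ a₀) :=
    fun φ => S.val_surj c₀ h₀.genc _ (S.T_mem a₀ c₀ hseg _ (S.val_mem φ a₀ h₀.gena))
  choose f hf using hex
  have hfb : Function.Bijective f := by
    constructor
    · intro φ φ' h
      refine S.val_inj φ φ' a₀ h₀.gena ?_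
      refine S.T_inj a₀ c₀ hseg _ _ (S.val_mem φ a₀ h₀.gena) (S.val_mem φ' a₀ h₀.gena) ?_
      rw [← hf φ, ← hf φ', h]
    · intro ψ
      obtain ⟨w, hw, hw'⟩ := S.T_surj a₀ c₀ hseg _ (S.val_mem ψ c₀ h₀.genc)
      obtain ⟨φ, hφ⟩ := S.val_surj a₀ h₀.gena w hw
      refine ⟨φ, S.val_inj _ _ c₀ h₀.genc ?_⟩
      rw [hf φ, hφ, hw']
  refine ⟨Equiv.ofBijective f hfb, ?_⟩
  intro a c l m h hp φ
  exact main S i h₀ hp₀ ho f (fun φ => (hf φ).symm) a c l m h hp φ

theorem Sys.crossProp_s (S : Sys k W) (i : ℕ) (hi : i + 1 < k) : S.CrossProp i (S.s i) := by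
  have h := exists_g S i hi
  unfold Sys.s
  rw [dif_pos h]
  exact h.choose_spec

theorem Sys.crossProp_unique (S : Sys k W) (i : ℕ) (hi : i + 1 < k) (g : Equiv.Perm (S.F (base k)))
    (h : S.CrossProp i g) : g = S.s i := by
  obtain ⟨a₀, c₀, l₀, m₀, h₀, hp₀, -⟩ := exists_cross (k := k) i hi
  ext1 φ
  refine S.val_inj _ _ c₀ h₀.genc ?_
  rw [← h a₀ c₀ l₀ m₀ h₀ hp₀ φ, ← S.crossProp_s i hi a₀ c₀ l₀ m₀ h₀ hp₀ φ]

end Pool.Agent.Helper2.LN
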