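import Mathlib

/-!
# LN project (MP_730da0_ag): definitions

`pol m w` is the monic centred polynomial of degree `m` with coefficients `z_2, .., z_m = w_0, .., w_(m-2)`.
`G0 m` is the complement of the discriminant in this space.
-/

namespace Pool.Agent.Helper2.LN

open Polynomial

/-- The polynomial `X^m + z_2 X^(m-2) + ... + z_m`, where `z_(j+2) = w j`. -/
noncomputable def pol (m : ℕ) (w : Fin (m - 1) → ℂ) : ℂ[X] :=
  X ^ m + ∑ j : Fin (m - 1), C (w j) * X ^ (m - 2 - (j : ℕ))

/-- The space `G_m^0`, in the coordinates `(z_2, .., z_m)`. -/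
def G0 (m : ℕ) : Set (Fin (m - 1) → ℂ) := {w | (pol m w).discr ≠ 0}

/-- `f : G_k^0 → G_n^0` is holomorphic. -/
def Holo {k n : ℕ} (f : C(G0 k, G0 n)) : Prop :=
  ∃ F : (Fin (k - 1) → ℂ) → (Fin (n - 1) → ℂ), DifferentiableOn ℂ F (G0 k) ∧
    ∀ z : G0 k, (f z : Fin (n - 1) → ℂ) = F z

theorem degree_tail (m : ℕ) (w : Fin (m - 1) → ℂ) :
    (∑ j : Fin (m - 1), C (w j) * X ^ (m - 2 - (j : ℕ)) : ℂ[X]).degree < (m : WithBot ℕ) := by
  rw [← Polynomial.mem_degreeLT]
  refine Submodule.sum_mem _ fun j _ => ?_
  rw [Polynomial.mem_degreeLT]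
  refine lt_of_le_of_lt (Polynomial.degree_C_mul_X_pow_le _ _) ?_
  have := j.2
  exact_mod_cast (by omega : m - 2 - (j : ℕ) < m)

theorem monic_pol (m : ℕ) (w : Fin (m - 1) → ℂ) : (pol m w).Monic :=
  Polynomial.monic_X_pow_add (degree_tail m w)

theorem natDegree_pol (m : ℕ) (w : Fin (m - 1) → ℂ) : (pol m w).natDegree = m := by
  unfold pol
  rw [Polynomial.natDegree_add_eq_left_of_degree_lt, Polynomial.natDegree_X_pow]
  rw [Polynomial.degree_X_pow]
  exact degree_tail m w

theorem continuous_coeff_pol (m i : ℕ) : Continuous fun w : Fin (m - 1) → ℂ => (pol m w).coeff i := by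
  unfold pol
  simp only [Polynomial.coeff_add, Polynomial.finsetSum_coeff, Polynomial.coeff_C_mul]
  fun_prop

theorem discr_pol_eq (m : ℕ) (hm : 0 < m) (w : Fin (m - 1) → ℂ) : (pol m w).discr =
    (-1) ^ (m * (m - 1) / 2) * resultant (pol m w) (derivative (pol m w)) m (m - 1) := by
  have h := resultant_deriv (f := pol m w) (by
    rw [← natDegree_pos_iff_degree_pos, natDegree_pol]; exact hm)
  rw [natDegree_pol, (monic_pol m w).leadingCoeff, mul_one] at h
  rw [h, ← mul_assoc, ← mul_pow]
  norm_num

theorem continuous_discr (m : ℕ) : Continuous fun w : Fin (m - 1) → ℂ => (pol m w).discr := by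
  rcases Nat.eq_zero_or_pos m with rfl | hm
  · have : (fun w : Fin (0 - 1) → ℂ => (pol 0 w).discr) = fun _ => 1 := by
      funext w
      have h1 : pol 0 w = 1 := by
        unfold pol
        rw [pow_zero, add_eq_left]
        refine Finset.sum_eq_zero fun j _ => ?_
        exact absurd j.2 (by omega)
      rw [h1, ← C_1, discr_C]
    rw [this]
    exact continuous_const
  · simp only [discr_pol_eq m hm]
    refine continuous_const.mul ?_
    unfold resultant
    refine Continuous.matrix_det ?_
    refine continuous_matrix fun i j => ?_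
    unfold sylvester
    simp only [Matrix.of_apply]
    induction j using Fin.addCases with
    | left j =>
      simp only [Fin.addCases_left]
      split_ifs
      · simp only [coeff_derivative]
        exact (continuous_coeff_pol m _).mul continuous_const
      · exact continuous_const
    | right j =>
      simp only [Fin.addCases_right]
      split_ifs
      · exact continuous_coeff_pol m _
      · exact continuous_const

/-- The discriminant as a map `G_k^0 → ℂ^*`. -/
noncomputable def dMap (k : ℕ) : C(G0 k, {w : ℂ // w ≠ 0}) :=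
  ⟨fun z => ⟨(pol k z.1).discr, z.2⟩,
    Continuous.subtype_mk ((continuous_discr k).comp continuous_subtype_val) _⟩

/-- `f : G_k^0 → G_n^0` is splittable: `f` is homotopic to `h ∘ d_k` for a continuous `h : ℂ^* → G_n^0`. -/
def Splittable {k n : ℕ} (f : C(G0 k, G0 n)) : Prop :=
  ∃ h : C({w : ℂ // w ≠ 0}, G0 n), f.Homotopic (h.comp (dMap k))

end Pool.Agent.Helper2.LN
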