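import Pool.Agent.Helper2.LN.Sys

/-!
# LN project (MP_730da0_ag): configurations to polynomials

DEFINITIONS ONLY (do not change).
-/

namespace Pool.Agent.Helper2.LN

open Polynomial

/-- The mean of the points. -/
noncomputable def mean {k : ℕ} (q : Fin k → ℂ) : ℂ := (∑ i, q i) / k

/-- `∏ (X - (q_i - mean q))`. -/
noncomputable def cpoly {k : ℕ} (q : Fin k → ℂ) : ℂ[X] := ∏ i, (X - C (q i - mean q))

/-- The coordinates `(z_2, .., z_k)` of the centred polynomial with roots `q_i - mean q`. -/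
noncomputable def cf {k : ℕ} (q : Fin k → ℂ) : Fin (k - 1) → ℂ :=
  fun j => (cpoly q).coeff (k - 2 - (j : ℕ))

/-- `D(q) = ∏_(i<j) (q_j - q_i)^2`. -/
noncomputable def Dsc {k : ℕ} (q : Fin k → ℂ) : ℂ := ∏ i, ∏ j ∈ Finset.Ioi i, (q j - q i) ^ 2

/-- `Y = {(q, l) : q injective, e^l = D(q)}`. -/
def Yset (k : ℕ) : Set ((Fin k → ℂ) × ℂ) := {p | p.1 ∈ Conf k ∧ Complex.exp p.2 = Dsc p.1}

/-- Scaling of the roots by `a`, in the coordinates `(z_2, .., z_n)`. -/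
def scale {n : ℕ} (a : ℂ) (w : Fin (n - 1) → ℂ) : Fin (n - 1) → ℂ := fun j => a ^ ((j : ℕ) + 2) * w j

/-- Functions on `Y` invariant under relabelling. -/
def Inv {k : ℕ} {Z : Type} (g : (Fin k → ℂ) × ℂ → Z) : Prop :=
  ∀ p ∈ Yset k, ∀ π : Equiv.Perm (Fin k), g (p.1 ∘ π, p.2) = g p

/-- Functions on `Y` that are holomorphic along every holomorphic curve in `Y`. -/
def HolY {k : ℕ} (g : (Fin k → ℂ) × ℂ → ℂ) : Prop :=
  ∀ (Ω : Set ℂ) (γ : ℂ → (Fin k → ℂ) × ℂ), IsOpen Ω → DifferentiableOn ℂ γ Ω →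
    (∀ t ∈ Ω, γ t ∈ Yset k) → DifferentiableOn ℂ (fun t => g (γ t)) Ω

end Pool.Agent.Helper2.LN
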