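import Pool.Agent.Helper2.LN.RootCover
import Pool.Agent.Helper93.LN.HDefs

/-!
# LN-K6 (MP_730da0_ag): invariant functions on `Y` descend to `Ghat k`

Paper proofs.
* `local_roots`: a ball `V` around `z₀` inside the open set `G0 k` is convex, so (as a subtype) simply connected and locally path connected; with `exists_enum` for `z₀` and `root_lift` (for the inclusion of `V`) there are `k` continuous root functions on `V`, never equal
  (`root_uniq`); `of_enum`: they enumerate the roots, sum zero, so `cf (q z) = z` (`pol_inj`; `mean = 0`).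
* `descend`: for `z ∈ G0 k` choose centred roots `q_z` (`exists_roots`), `G (z, l) = g (q_z, l)`; for `(q, l) ∈ Yset k` with `∑ q = 0` and `cf q = z`: `q = q_z ∘ π` (`roots_unique`), so `G (cf q, l) = g (q, l)` by invariance.  `(z, l) ∈ Ghat k` means `e^l = d_k(z)`, so `z ∈ G0 k`,
  and `(q, l) ∈ Yset k` by `discr_cf`, `cf_mem_G0`.  Continuity at `(z₀, l₀)`: on `V` of `local_roots`: `G (z, l) = g (q z, l)`.
-/

namespace Pool.Agent.Helper2.LN

open Pool.Agent.Helper93.LN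

private theorem mean_zero {k : ℕ} (q : Fin k → ℂ) (hq : ∑ i, q i = 0) : mean q = 0 := by
  unfold mean
  rw [hq, zero_div]

theorem local_roots {k : ℕ} (hk : 2 ≤ k) (z₀ : Fin (k - 1) → ℂ) (hz : z₀ ∈ G0 k) :
    ∃ V : Set (Fin (k - 1) → ℂ), IsOpen V ∧ z₀ ∈ V ∧ V ⊆ G0 k ∧
      ∃ q : (Fin (k - 1) → ℂ) → (Fin k → ℂ), ContinuousOn q V ∧
        ∀ z ∈ V, q z ∈ Conf k ∧ ∑ i, q z i = 0 ∧ cf (q z) = z := by
  classical
  obtain ⟨r, hr, hball⟩ := Metric.isOpen_iff.1 (isOpen_G0 k) z₀ hz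
  have hzV : z₀ ∈ Metric.ball z₀ r := Metric.mem_ball_self hr
  refine ⟨Metric.ball z₀ r, Metric.isOpen_ball, hzV, hball, ?_⟩
  have hcv : Convex ℝ (Metric.ball z₀ r) := convex_ball z₀ r
  have : ContractibleSpace (Metric.ball z₀ r) := hcv.contractibleSpace ⟨z₀, hzV⟩
  have : LocallyPathConnectedSpace (Metric.ball z₀ r) :=
    IsOpen.locallyPathConnectedSpace Metric.isOpen_ball
  let g : C(Metric.ball z₀ r, Fin (k - 1) → ℂ) := ⟨Subtype.val, continuous_subtype_val⟩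
  have hg : ∀ a, g a ∈ G0 k := fun a => hball a.2
  obtain ⟨q₀, hinj, hsum, hcf, hroot⟩ := exists_enum k hk z₀ hz
  have hs : ∀ i, ∃ s : C(Metric.ball z₀ r, ℂ), s ⟨z₀, hzV⟩ = q₀ i ∧
      ∀ a, (Polynomial.eval (s a) (pol k (g a))) = 0 := by
    intro i
    exact root_lift hk _ g hg ⟨z₀, hzV⟩ (q₀ i) ((hroot (q₀ i)).2 ⟨i, rfl⟩)
  choose s hs1 hs2 using hs
  have hsinj : ∀ a, Function.Injective fun i => s i a := by
    intro a i j hij
    have h1 := root_uniq hk _ g hg (s i) (s j) (hs2 i) (hs2 j) ⟨a, hij⟩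
    apply hinj
    rw [← hs1 i, ← hs1 j, h1]
  refine ⟨fun z i => if h : z ∈ Metric.ball z₀ r then s i ⟨z, h⟩ else 0, ?_, ?_⟩
  · rw [continuousOn_iff_continuous_domRestrict]
    have h1 : (Metric.ball z₀ r).domRestrict
        (fun z i => if h : z ∈ Metric.ball z₀ r then s i ⟨z, h⟩ else 0) =
        fun a i => s i a := by
      funext a i
      rw [Set.domRestrict_apply, dif_pos a.2]
    rw [h1]
    exact continuous_pi fun i => (s i).continuous
  · intro z hzz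
    have h1 : (fun i => if h : z ∈ Metric.ball z₀ r then s i ⟨z, h⟩ else 0) =
        fun i => s i ⟨z, hzz⟩ := by
      funext i
      rw [dif_pos hzz]
    simp only [h1]
    obtain ⟨h2, h3, -⟩ := of_enum k hk z (Fintype.card_fin k) (fun i => s i ⟨z, hzz⟩)
      (hsinj ⟨z, hzz⟩) (fun i => hs2 i ⟨z, hzz⟩)
    have h2' : ∑ i, s i ⟨z, hzz⟩ = 0 := h2
    refine ⟨hsinj ⟨z, hzz⟩, h2', ?_⟩
    · apply pol_inj k
      rw [pol_cf hk, h3]
      unfold cpoly
      rw [mean_zero _ h2]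
      simp only [sub_zero]

private theorem mem_Yset_of {k : ℕ} (hk : 2 ≤ k) {q : Fin k → ℂ} {l : ℂ}
    (h : Complex.exp l = (pol k (cf q)).discr) : (q, l) ∈ Yset k := by
  have h1 : (pol k (cf q)).discr ≠ 0 := by
    rw [← h]
    exact Complex.exp_ne_zero _
  refine ⟨(cf_mem_G0 hk q).1 h1, ?_⟩
  show Complex.exp l = Dsc q
  rw [h, discr_cf hk]

private theorem discr_of_Yset {k : ℕ} (hk : 2 ≤ k) {p : (Fin k → ℂ) × ℂ} (h : p ∈ Yset k) :
    Complex.exp p.2 = (pol k (cf p.1)).discr := by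
  rw [discr_cf hk]
  exact h.2

theorem descend {k : ℕ} (hk : 2 ≤ k) {Z : Type} [TopologicalSpace Z] [Nonempty Z]
    (g : (Fin k → ℂ) × ℂ → Z) (hc : ContinuousOn g (Yset k)) (hi : Inv g) :
    ∃ G : (Fin (k - 1) → ℂ) × ℂ → Z, ContinuousOn G (Ghat k) ∧
      ∀ p ∈ Yset k, ∑ i, p.1 i = 0 → G (cf p.1, p.2) = g p := by
  classical
  choose r hr1 hr2 using exists_roots k hk
  have key : ∀ p ∈ Yset k, ∑ i, p.1 i = 0 → g (r (cf p.1), p.2) = g p := by
    intro p hp hs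
    obtain ⟨π, hπ⟩ := roots_unique k hk (r (cf p.1)) p.1 (hr1 _) hs (hr2 _)
    have h1 : (r (cf p.1), p.2) ∈ Yset k := by
      apply mem_Yset_of hk
      rw [hr2]
      exact discr_of_Yset hk hp
    have h2 := hi _ h1 π
    simp only at h2
    rw [← hπ] at h2
    exact h2.symm
  refine ⟨fun p => g (r p.1, p.2), ?_, key⟩
  rintro ⟨z₀, l₀⟩ hp₀
  have hz₀ : z₀ ∈ G0 k := by
    show (pol k z₀).discr ≠ 0
    have h1 : Complex.exp l₀ = (pol k z₀).discr := hp₀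
    rw [← h1]
    exact Complex.exp_ne_zero _
  obtain ⟨V, hVo, hzV, -, q, hq, hqV⟩ := local_roots hk z₀ hz₀
  have hnhds : Prod.fst ⁻¹' V ∈ nhds ((z₀, l₀) : (Fin (k - 1) → ℂ) × ℂ) :=
    (hVo.preimage continuous_fst).mem_nhds hzV
  rw [← continuousWithinAt_inter hnhds]
  have hmem : ∀ p ∈ Ghat k ∩ Prod.fst ⁻¹' V, (q p.1, p.2) ∈ Yset k := by
    rintro p ⟨hp1, hp2⟩
    apply mem_Yset_of hk
    rw [(hqV p.1 hp2).2.2]
    exact hp1
  have hcont : ContinuousOn (fun p : (Fin (k - 1) → ℂ) × ℂ => g (q p.1, p.2))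
      (Ghat k ∩ Prod.fst ⁻¹' V) := by
    refine hc.comp (f := fun p : (Fin (k - 1) → ℂ) × ℂ => (q p.1, p.2)) ?_ hmem
    refine ContinuousOn.prodMk ?_ continuous_snd.continuousOn
    exact hq.comp continuous_fst.continuousOn fun p hp => hp.2
  refine (hcont (z₀, l₀) ⟨hp₀, hzV⟩).congr ?_ ?_
  · intro p hp
    have h1 := key _ (hmem p hp) (hqV p.1 hp.2).2.1
    simp only [(hqV p.1 hp.2).2.2] at h1
    exact h1
  · have hp : ((z₀, l₀) : (Fin (k - 1) → ℂ) × ℂ) ∈ Ghat k ∩ Prod.fst ⁻¹' V := ⟨hp₀, hzV⟩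
    have h1 := key _ (hmem _ hp) (hqV z₀ hzV).2.1
    simp only [(hqV z₀ hzV).2.2] at h1
    exact h1

/-- Every point of `Ghat k` comes from a centred point of `Yset k`. -/
theorem Ghat_lift {k : ℕ} (hk : 2 ≤ k) (p : (Fin (k - 1) → ℂ) × ℂ) (hp : p ∈ Ghat k) :
    ∃ q : Fin k → ℂ, (q, p.2) ∈ Yset k ∧ ∑ i, q i = 0 ∧ cf q = p.1 := by
  obtain ⟨q, hq1, hq2⟩ := exists_roots k hk p.1
  refine ⟨q, ?_, hq1, hq2⟩
  apply mem_Yset_of hk
  rw [hq2]
  exact hp

theorem Ghat_of_Y {k : ℕ} (hk : 2 ≤ k) (p : (Fin k → ℂ) × ℂ) (hp : p ∈ Yset k) :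
    (cf p.1, p.2) ∈ Ghat k := discr_of_Yset hk hp

end Pool.Agent.Helper2.LN
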