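import Pool.Agent.Helper2.LN.PolyA

/-!
# LN-A3 (MP_730da0_ag): the discriminant as a product

Paper proof.  `pol k (cf q) = cpoly q` (`pol_cf`) splits, is monic, with roots `x_i = q_i - mean q`; `discr_pol_eq` and `resultant_eq_prod_eval`: `Res(f, f') = ∏_i f'(x_i)`,
`f'(x_i) = ∏_(j≠i) (x_i - x_j)` (derivative of a product of linear factors, `Polynomial.derivative_prod`); `∏_i ∏_(j≠i) (x_i - x_j) = (-1)^(k(k-1)/2) ∏_(i<j) (x_j - x_i)^2`
(split the ordered pairs into `i < j` and `j < i`; the number of pairs `i < j` is `k(k-1)/2`; `(-1)^(k(k-1)/2)` squared is `1`), and `x_j - x_i = q_j - q_i`.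
-/

namespace Pool.Agent.Helper2.LN

open Polynomial

private theorem eval_der_prod {k : ℕ} (x : Fin k → ℂ) (i : Fin k) :
    (derivative (∏ j, (X - C (x j)) : ℂ[X])).eval (x i) = ∏ j ∈ Finset.univ.erase i, (x i - x j) := by
  rw [← Finset.mul_prod_erase Finset.univ (fun j => (X - C (x j) : ℂ[X])) (Finset.mem_univ i),
    derivative_mul]
  simp [eval_prod]

private theorem sum_card_Ioi (k : ℕ) : ∑ i : Fin k, (Finset.Ioi i).card = k * (k - 1) / 2 := by
  simp only [Fin.card_Ioi]
  rw [Fin.sum_univ_eq_sum_range (fun i => k - 1 - i) k, Finset.sum_range_reflect (fun i => i) k,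
    Finset.sum_range_id]

private theorem swap_prod {k : ℕ} (f : Fin k → Fin k → ℂ) :
    ∏ i, ∏ j ∈ Finset.Iio i, f i j = ∏ j, ∏ i ∈ Finset.Ioi j, f i j := by
  refine Finset.prod_comm' ?_
  intro i j
  simp

private theorem erase_split {k : ℕ} (f : Fin k → Fin k → ℂ) (i : Fin k) :
    ∏ j ∈ Finset.univ.erase i, f i j = (∏ j ∈ Finset.Iio i, f i j) * ∏ j ∈ Finset.Ioi i, f i j := by
  rw [← Finset.prod_union]
  · refine Finset.prod_congr ?_ fun _ _ => rfl
    ext j
    simp only [Finset.mem_erase, Finset.mem_univ, and_true, Finset.mem_union, Finset.mem_Iio,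
      Finset.mem_Ioi]
    exact ne_iff_lt_or_gt
  · rw [Finset.disjoint_left]
    intro j h1 h2
    rw [Finset.mem_Iio] at h1
    rw [Finset.mem_Ioi] at h2
    exact absurd (h1.trans h2) (lt_irrefl _)

private theorem neg_pow_prod {k : ℕ} (x : Fin k → ℂ) :
    ∏ i, ∏ j ∈ Finset.Ioi i, (x i - x j) =
      (-1) ^ (k * (k - 1) / 2) * ∏ i, ∏ j ∈ Finset.Ioi i, (x j - x i) := by
  have h : ∀ i : Fin k, ∏ j ∈ Finset.Ioi i, (x i - x j) =
      (-1) ^ (Finset.Ioi i).card * ∏ j ∈ Finset.Ioi i, (x j - x i) := by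
    intro i
    rw [← Finset.prod_const, ← Finset.prod_mul_distrib]
    exact Finset.prod_congr rfl fun j _ => by ring
  rw [Finset.prod_congr rfl fun i _ => h i, Finset.prod_mul_distrib, Finset.prod_pow_eq_pow_sum,
    sum_card_Ioi]

theorem discr_cf {k : ℕ} (hk : 2 ≤ k) (q : Fin k → ℂ) : (pol k (cf q)).discr = Dsc q := by
  have hm : (pol k (cf q)).Monic := monic_pol k _
  have hd : (pol k (cf q)).natDegree = k := natDegree_pol k _
  have hroots : (pol k (cf q)).roots = Finset.univ.val.map fun i => q i - mean q := by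
    rw [pol_cf hk]
    have h1 : cpoly q = ((Finset.univ.val.map fun i => q i - mean q).map fun a => X - C a).prod := by
      rw [Multiset.map_map]
      rfl
    rw [h1, roots_multiset_prod_X_sub_C]
  rw [discr_pol_eq k (by omega)]
  have hres := resultant_eq_prod_eval (pol k (cf q)) (derivative (pol k (cf q))) (k - 1)
    ((natDegree_derivative_le _).trans (by rw [hd])) (IsAlgClosed.splits _)
  rw [hd, hm.leadingCoeff, one_pow, one_mul, hroots, Multiset.map_map] at hres
  have h2 : (Multiset.map ((fun a => (derivative (pol k (cf q))).eval a) ∘ fun i => q i - mean q)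
      Finset.univ.val).prod = ∏ i : Fin k, ∏ j ∈ Finset.univ.erase i,
        ((q i - mean q) - (q j - mean q)) := by
    rw [pol_cf hk]
    refine Finset.prod_congr rfl fun i _ => ?_
    exact eval_der_prod (fun i => q i - mean q) i
  rw [hres, h2]
  have h3 : ∏ i : Fin k, ∏ j ∈ Finset.univ.erase i, ((q i - mean q) - (q j - mean q)) =
      (-1) ^ (k * (k - 1) / 2) * Dsc q := by
    have h4 : ∀ i : Fin k, ∏ j ∈ Finset.univ.erase i, ((q i - mean q) - (q j - mean q)) =
        (∏ j ∈ Finset.Iio i, (q i - q j)) * ∏ j ∈ Finset.Ioi i, (q i - q j) := by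
      intro i
      rw [← erase_split fun i j => q i - q j]
      exact Finset.prod_congr rfl fun j _ => by ring
    rw [Finset.prod_congr rfl fun i _ => h4 i, Finset.prod_mul_distrib,
      swap_prod fun i j => q i - q j, neg_pow_prod q]
    unfold Dsc
    simp only [Finset.prod_pow]
    ring
  rw [h3, ← mul_assoc, ← mul_pow]
  norm_num

end Pool.Agent.Helper2.LN
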