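import Pool.Agent.Helper2.LN.Systems
import Pool.Agent.Helper2.LN.CrossLem

/-!
# LN-K1 (MP_730da0_ag): a crossing adds `2πi` to the logarithm of the discriminant

Paper proof.  Take one crossing `a → c` at position `i` with `a ∈ Ord k` (`exists_cross`; `l, m` are the labels `i, i+1`; all pairs other than `(l, m)` keep their order of real parts on the segment `x_t = lineMap a c t`, and
`Im x_l < Im x_m` on it).  On `Ord k`: `L(q) = ∑_(u<v) 2 Log(q_v - q_u)` (principal logarithms, real parts positive) is continuous with `exp (L q) = Dsc q`; so by `T_sec` on the convex set `Ord k`: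
`val φ q = φ - L(base) + L(srt q)` for `q ∈ Gen k`.  Along the segment `x_t`:
`l(t) = ∑_(u<v, (u,v) ≠ (l,m)) 2 Log(x_v - x_u) + 2 Log(x_m - x_l)`; `x_m - x_l` has positive imaginary part on `[0,1]`, so `Log` is continuous there; `exp (l t) = Dsc x_t`.  `l(0) = L(a)`.  At `t = 1`: `z = x_m - x_l` has
`Re z < 0 < Im z`, `Log z = Log(-z) + πi`, so `l(1) = L(srt c) + 2πi` (`srt c = c ∘ swap`: the factors are the same up to the order, for the pair `(l, m)` the sorted difference is `-z`).  So `T a c (val φ a) = val φ c + 2πi = val (φ + 2πi) c`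
and `(s_i φ) = φ + 2πi` by `crossProp_s` and `val_inj`.
`log_val_add`: `T_map` for `logSys → logSys`, `x ↦ x + 2πi m`.
-/

namespace Pool.Agent.Helper2.LN

open Finset

variable {k : ℕ}

private def prs (k : ℕ) : Finset (Fin k × Fin k) := univ.filter fun p => p.1 < p.2

/-- the sum of the principal logarithms -/
private noncomputable def LL (x : Fin k → ℂ) : ℂ := ∑ p ∈ prs k, 2 * Complex.log (x p.2 - x p.1)

private theorem dsc_prs (x : Fin k → ℂ) : Dsc x = ∏ p ∈ prs k, (x p.2 - x p.1) ^ 2 := by
  unfold Dsc prs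
  rw [Finset.prod_filter, ← Finset.univ_product_univ, Finset.prod_product]
  refine Finset.prod_congr rfl fun i _ => ?_
  rw [← Finset.prod_filter]
  refine Finset.prod_congr ?_ fun _ _ => rfl
  ext j
  simp

private theorem exp_LL (x : Fin k → ℂ) (h : ∀ u v : Fin k, u < v → x v - x u ≠ 0) :
    Complex.exp (LL x) = Dsc x := by
  unfold LL
  rw [Complex.exp_sum, dsc_prs]
  refine Finset.prod_congr rfl fun p hp => ?_
  have hlt : p.1 < p.2 := (Finset.mem_filter.1 hp).2
  rw [two_mul, Complex.exp_add, Complex.exp_log (h _ _ hlt), sq]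

private theorem cont_LL (D : Set (Fin k → ℂ))
    (h : ∀ x ∈ D, ∀ u v : Fin k, u < v → x v - x u ∈ Complex.slitPlane) :
    ContinuousOn (LL : (Fin k → ℂ) → ℂ) D := by
  unfold LL
  refine continuousOn_finsetSum _ fun p hp => ?_
  have hlt : p.1 < p.2 := (Finset.mem_filter.1 hp).2
  refine continuousOn_const.mul (ContinuousOn.clog ?_ fun x hx => h x hx _ _ hlt)
  fun_prop

/-- transport along a segment in a convex set on which all differences are in the slit plane -/
private theorem T_LL (D : Set (Fin k → ℂ)) (hD : Convex ℝ D) (hDC : D ⊆ Conf k)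
    (h : ∀ x ∈ D, ∀ u v : Fin k, u < v → x v - x u ∈ Complex.slitPlane)
    (a c : Fin k → ℂ) (ha : a ∈ D) (hc : c ∈ D) (w : ℂ) (hw : Complex.exp w = Dsc a) :
    (logSys k).T a c w = w - LL a + LL c := by
  have he : ∀ x ∈ D, Complex.exp (LL x) = Dsc x := fun x hx =>
    exp_LL x fun u v huv => Complex.slitPlane_ne_zero (h x hx u v huv)
  have h1 := (logSys k).T_sec D hD hDC (fun x => w - LL a + LL x)
    (continuousOn_const.add (cont_LL D h)) (fun x hx => ?_) a c ha hc
  · simp only [sub_add_cancel] at h1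
    exact h1
  · change Complex.exp (w - LL a + LL x) = Dsc x
    rw [Complex.exp_add, Complex.exp_sub, hw, he a ha, he x hx,
      div_self ((Dsc_ne_zero a).2 (hDC ha)), one_mul]

private theorem ord_slit : ∀ x ∈ Ord k, ∀ u v : Fin k, u < v → x v - x u ∈ Complex.slitPlane := by
  intro x hx u v huv
  refine Complex.mem_slitPlane_iff.2 (Or.inl ?_)
  rw [Complex.sub_re]
  exact sub_pos.2 (hx u v huv)

private theorem val_LL (φ : (logSys k).F (base k)) (q : Fin k → ℂ) (hq : q ∈ Gen k) :
    (logSys k).val φ q = φ - LL (base k) + LL (srt q) :=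
  T_LL (Ord k) (convex_Ord k) ((Ord_subset_Gen k).trans (Gen_subset_Conf k)) ord_slit
    (base k) (srt q) (base_mem_Ord k) (srt_mem q hq) φ φ.2

/-- the convex set of the crossing -/
private def VV (l m : Fin k) : Set (Fin k → ℂ) :=
  {x | (∀ u v, u < v → ¬ (u = l ∧ v = m) → (x u).re < (x v).re) ∧ (x l).im < (x m).im}

private theorem VV_convex (l m : Fin k) : Convex ℝ (VV l m) := by
  intro x hx y hy s t hs ht hst
  refine ⟨fun u v huv hne => ?_, ?_⟩
  · have h1 := hx.1 u v huv hne
    have h2 := hy.1 u v huv hne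
    simp only [Pi.add_apply, Pi.smul_apply, Complex.add_re, Complex.real_smul, Complex.mul_re,
      Complex.ofReal_re, Complex.ofReal_im, zero_mul, sub_zero]
    rcases hs.lt_or_eq with hs' | hs'
    · nlinarith
    · have : t = 1 := by linarith
      subst hs'
      rw [this]
      linarith
  · have h1 := hx.2
    have h2 := hy.2
    simp only [Pi.add_apply, Pi.smul_apply, Complex.add_im, Complex.real_smul, Complex.mul_im,
      Complex.ofReal_re, Complex.ofReal_im, zero_mul, add_zero]
    rcases hs.lt_or_eq with hs' | hs'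
    · nlinarith
    · have : t = 1 := by linarith
      subst hs'
      rw [this]
      linarith

private theorem VV_slit (l m : Fin k) :
    ∀ x ∈ VV l m, ∀ u v : Fin k, u < v → x v - x u ∈ Complex.slitPlane := by
  intro x hx u v huv
  by_cases h : u = l ∧ v = m
  · refine Complex.mem_slitPlane_iff.2 (Or.inr ?_)
    rw [h.1, h.2, Complex.sub_im]
    exact (sub_pos.2 hx.2).ne'
  · refine Complex.mem_slitPlane_iff.2 (Or.inl ?_)
    rw [Complex.sub_re]
    exact sub_pos.2 (hx.1 u v huv h)

private theorem VV_conf (l m : Fin k) : VV l m ⊆ Conf k := by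
  intro x hx u v he
  rcases lt_trichotomy u v with h1 | h1 | h1
  · exact absurd (sub_eq_zero.2 he.symm) (Complex.slitPlane_ne_zero (VV_slit l m x hx u v h1))
  · exact h1
  · exact absurd (sub_eq_zero.2 he) (Complex.slitPlane_ne_zero (VV_slit l m x hx v u h1))

private theorem log_neg_pos {z : ℂ} (h : 0 < z.im) :
    2 * Complex.log z = 2 * Complex.log (-z) + 2 * Real.pi * Complex.I := by
  unfold Complex.log
  rw [Complex.arg_neg_eq_arg_sub_pi_of_im_pos h, norm_neg]
  push_cast
  ring

private theorem swap_pair (l m : Fin k) (hlm : (m : ℕ) = l + 1) (u v : Fin k) :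
    ((Equiv.swap l m u < Equiv.swap l m v) ∧ ¬ (Equiv.swap l m u = l ∧ Equiv.swap l m v = m)) ↔
      (u < v ∧ ¬ (u = l ∧ v = m)) := by
  rw [Equiv.swap_apply_def, Equiv.swap_apply_def]
  simp only [Fin.ext_iff, Fin.lt_def]
  split_ifs <;> omega

private theorem LL_swap (x : Fin k → ℂ) (l m : Fin k) (hlm : (m : ℕ) = l + 1)
    (h : (x l).im < (x m).im) :
    LL x = LL (x ∘ Equiv.swap l m) + 2 * Real.pi * Complex.I := by
  have hmem : (l, m) ∈ prs k := by
    unfold prs
    rw [Finset.mem_filter]
    refine ⟨Finset.mem_univ _, ?_⟩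
    rw [Fin.lt_def]
    change (l : ℕ) < (m : ℕ)
    omega
  unfold LL
  rw [← Finset.add_sum_erase _ _ hmem, ← Finset.add_sum_erase (prs k)
    (fun p => 2 * Complex.log ((x ∘ Equiv.swap l m) p.2 - (x ∘ Equiv.swap l m) p.1)) hmem]
  simp only [Function.comp_apply, Equiv.swap_apply_left, Equiv.swap_apply_right]
  have h1 : 2 * Complex.log (x m - x l) =
      2 * Complex.log (x l - x m) + 2 * Real.pi * Complex.I := by
    rw [log_neg_pos (z := x m - x l) (by rw [Complex.sub_im]; exact sub_pos.2 h), neg_sub]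
  have h2 : ∑ p ∈ (prs k).erase (l, m), 2 * Complex.log (x p.2 - x p.1) =
      ∑ p ∈ (prs k).erase (l, m),
        2 * Complex.log (x (Equiv.swap l m p.2) - x (Equiv.swap l m p.1)) := by
    symm
    refine Finset.sum_equiv (Equiv.prodCongr (Equiv.swap l m) (Equiv.swap l m)) ?_ ?_
    · rintro ⟨u, v⟩
      have h3 := swap_pair l m hlm u v
      unfold prs
      simp only [Finset.mem_erase, Finset.mem_filter, Finset.mem_univ, true_and, ne_eq,
        Prod.mk.injEq, Equiv.prodCongr_apply, Prod.map_apply]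
      rw [and_comm, ← h3, and_comm]
    · rintro ⟨u, v⟩ _
      rfl
  rw [h1, h2]
  ring

theorem log_s (k i : ℕ) (hi : i + 1 < k) (φ : (logSys k).F (base k)) :
    (((logSys k).s i φ : (logSys k).F (base k)) : ℂ) = φ + 2 * Real.pi * Complex.I := by
  obtain ⟨a, c, l, m, h, hp, ha⟩ := exists_cross (k := k) i hi
  have hpl : ∀ x : Fin k, pos a x = (x : ℕ) := by
    intro x
    unfold pos
    have h1 : (Finset.univ.filter fun j => (a j).re < (a x).re) = Finset.Iio x := by
      ext j
      simp only [Finset.mem_filter, Finset.mem_univ, true_and, Finset.mem_Iio]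
      constructor
      · intro h
        by_contra hn
        rcases (not_lt.1 hn).lt_or_eq with h1 | h1
        · exact absurd (ha x j h1) (not_lt.2 h.le)
        · rw [h1] at h
          exact lt_irrefl _ h
      · exact ha j x
    rw [h1, Fin.card_Iio]
  have hlm : (m : ℕ) = l + 1 := by
    rw [← hpl m, ← hpl l, pos_cross a c l m h]
  have hav : a ∈ VV l m := ⟨fun u v huv _ => ha u v huv, h.ima⟩
  have hcv : c ∈ VV l m := by
    refine ⟨fun u v huv hne => ?_, h.imc⟩
    refine (h.same u v hne ?_).1 (ha u v huv)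
    rintro ⟨rfl, rfl⟩
    rw [Fin.lt_def] at huv
    omega
  have hc : srt c = c ∘ Equiv.swap l m := by
    rw [← srt_perm c h.genc (Equiv.swap l m)]
    refine srt_of_Ord _ ?_
    intro u v huv
    rw [Function.comp_apply, Function.comp_apply]
    by_cases he : u = l ∧ v = m
    · rw [he.1, he.2, Equiv.swap_apply_left, Equiv.swap_apply_right]
      exact h.gt
    · have h3 := (swap_pair l m hlm u v).2 ⟨huv, he⟩
      refine (h.same _ _ h3.2 ?_).1 (ha _ _ h3.1)
      rintro ⟨e1, e2⟩
      have h4 := h3.1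
      rw [e1, e2, Fin.lt_def] at h4
      omega
  have h5 := (logSys k).crossProp_s i hi a c l m h hp φ
  rw [T_LL (VV l m) (VV_convex l m) (VV_conf l m) (VV_slit l m) a c hav hcv _
    ((logSys k).val_mem φ a h.gena), val_LL φ a h.gena, val_LL _ c h.genc, srt_of_Ord a ha, hc,
    LL_swap c l m hlm h.imc] at h5
  linear_combination -h5

/-- Names and integer translations. -/
theorem log_val_add (k : ℕ) (φ ψ : (logSys k).F (base k)) (m : ℤ)
    (h : (ψ : ℂ) = φ + m * (2 * Real.pi * Complex.I)) (q : Fin k → ℂ) (hq : q ∈ Gen k) :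
    (logSys k).val ψ q = (logSys k).val φ q + m * (2 * Real.pi * Complex.I) := by
  rw [val_LL φ q hq, val_LL ψ q hq, h]
  ring

end Pool.Agent.Helper2.LN
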