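import Pool.Agent.Helper2.LN.CrossLem

/-!
# LN-K4 (MP_730da0_ag): the product of two systems

Paper proofs.  `prodSys`: componentwise.  `T_prod`: the two projections are maps of systems (`T_map`).  `val_prod`: `val φ q = T (base k) (srt q) φ`.  `s_prod`: `crossProp_s` for the product and `T_prod`, `val_prod` at one crossing (`exists_cross`), compared with
`crossProp_s` for the factors and `val_inj`.
-/

namespace Pool.Agent.Helper2.LN

variable {k : ℕ} {W W' : Type} [TopologicalSpace W] [TopologicalSpace W']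

/-- The product of two systems. -/
def prodSys (S : Sys k W) (S' : Sys k W') : Sys k (W × W') where
  F := fun q => S.F q ×ˢ S'.F q
  perm := by
    intro q π
    rw [S.perm, S'.perm]
  lift := by
    intro A _ _ _ γ hγ a₀ w₀ hw
    obtain ⟨s, h1, h2⟩ := S.lift A γ hγ a₀ w₀.1 hw.1
    obtain ⟨s', h1', h2'⟩ := S'.lift A γ hγ a₀ w₀.2 hw.2
    exact ⟨s.prodMk s', by simp [h1, h1'], fun a => ⟨h2 a, h2' a⟩⟩
  uniq := by
    intro A _ _ γ hγ s s' hs hs' h
    obtain ⟨a, ha⟩ := h
    have e1 : (ContinuousMap.fst.comp s : C(A, W)) = ContinuousMap.fst.comp s' :=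
      S.uniq A γ hγ _ _ (fun a => (hs a).1) (fun a => (hs' a).1) ⟨a, by simp [ha]⟩
    have e2 : (ContinuousMap.snd.comp s : C(A, W')) = ContinuousMap.snd.comp s' :=
      S'.uniq A γ hγ _ _ (fun a => (hs a).2) (fun a => (hs' a).2) ⟨a, by simp [ha]⟩
    ext a
    · exact congrArg (fun f : C(A, W) => f a) e1
    · exact congrArg (fun f : C(A, W') => f a) e2

theorem T_prod (S : Sys k W) (S' : Sys k W') (a c : Fin k → ℂ) (h : segment ℝ a c ⊆ Conf k)
    (w : W × W') (hw : w ∈ (prodSys S S').F a) :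
    (prodSys S S').T a c w = (S.T a c w.1, S'.T a c w.2) := by
  have h1 : ((prodSys S S').T a c w).1 = S.T a c w.1 :=
    (prodSys S S').T_map S Prod.fst continuous_fst (fun q _ w hw => hw.1) a c h w hw
  have h2 : ((prodSys S S').T a c w).2 = S'.T a c w.2 :=
    (prodSys S S').T_map S' Prod.snd continuous_snd (fun q _ w hw => hw.2) a c h w hw
  exact Prod.ext h1 h2

private theorem seg_conf' (q : Fin k → ℂ) (hq : q ∈ Ord k) : segment ℝ (base k) q ⊆ Conf k :=
  ((convex_Ord k).segment_subset (base_mem_Ord k) hq).trans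
    ((Ord_subset_Gen k).trans (Gen_subset_Conf k))

theorem val_prod (S : Sys k W) (S' : Sys k W') (φ : (prodSys S S').F (base k)) (q : Fin k → ℂ)
    (hq : q ∈ Gen k) :
    (prodSys S S').val φ q = (S.val ⟨φ.1.1, φ.2.1⟩ q, S'.val ⟨φ.1.2, φ.2.2⟩ q) :=
  T_prod S S' (base k) (srt q) (seg_conf' _ (srt_mem q hq)) φ φ.2

theorem s_prod (S : Sys k W) (S' : Sys k W') (i : ℕ) (hi : i + 1 < k) (φ : (prodSys S S').F (base k)) :
    (((prodSys S S').s i φ : (prodSys S S').F (base k)) : W × W') =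
      ((S.s i ⟨φ.1.1, φ.2.1⟩ : W), (S'.s i ⟨φ.1.2, φ.2.2⟩ : W')) := by
  obtain ⟨a, c, l, m, h, hp, ho⟩ := exists_cross (k := k) i hi
  have hseg := segment_cross a c l m h
  have h1 := (prodSys S S').crossProp_s i hi a c l m h hp φ
  rw [T_prod S S' a c hseg _ ((prodSys S S').val_mem φ a h.gena), val_prod S S' φ a h.gena,
    val_prod S S' _ c h.genc] at h1
  have h2 := S.crossProp_s i hi a c l m h hp ⟨φ.1.1, φ.2.1⟩
  have h3 := S'.crossProp_s i hi a c l m h hp ⟨φ.1.2, φ.2.2⟩
  have h4 := congrArg Prod.fst h1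
  have h5 := congrArg Prod.snd h1
  have h6 := S.val_inj _ _ c h.genc (h4.symm.trans h2)
  have h7 := S'.val_inj _ _ c h.genc (h5.symm.trans h3)
  exact Prod.ext (congrArg Subtype.val h6) (congrArg Subtype.val h7)

end Pool.Agent.Helper2.LN
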