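import Pool.Agent.Helper2.LN.Orb
import Pool.Agent.Helper2.LN.Prod
import Pool.Agent.Helper2.LN.LogCross

/-!
# LN-K5 (MP_730da0_ag): all `s_i = τ`: single-valued sections on `Y`

Paper proof.  `P = prodSys S (logSys k)`.  `P.s i (φ, l) = (τ φ, l + 2πi)` for `i + 1 < k` (`s_prod`, `log_s`).  For `φ ∈ S.F (base k)` let `O_φ = {(τ^j φ, l₀ + 2πi j) : j ∈ ℤ} ⊆ P.F (base k)`: invariant under all `s_i`.  Let `Q_φ` be from `orb`.
(a) For every `(q, l) ∈ Yset k` and `φ` there is exactly one `w` with `(w, l) ∈ Q_φ q`.  For `q ∈ Gen k`: the points of `Q_φ q` are the `val (τ^j φ, l₀ + 2πi j) q = (val (τ^j φ) q, val l₀ q + 2πi j)` (`val_prod`, `log_val_add`), and every `l` with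
`e^l = Dsc q` is `val l₀ q + 2πi j` for exactly one `j`.  For general `q ∈ Conf k`: take `a ∈ Wset q ∩ Gen k` (`Gen_dense`, `Wset_open`); `T q a` is a bijection from `P.F q` to `P.F a`, compatible with the projections (`T_prod`) and with `Q_φ`, and bijective on the
`log`-components.
(b) `X φ (q, l)` := this `w` (anything for `(q, l) ∉ Yset k`).  (2), (5): `S.F q ∋ w ↦ φ`: for `q` generic and `l = val l₀ q + 2πi j`: `X φ (q, l) = val (τ^j φ) q`, bijective in `φ`; transport for general `q` (`T q a (X φ (q, l)) = X φ (a, T q a l)`).  (3): `Q_φ (q ∘ π) = Q_φ q`.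
(4): generic `q`: `X φ (q, l + 2πi) = val (τ^(j+1) φ) q = X (τ φ) (q, l)`; transport (translation by `2πi` commutes with transport of logarithms).
(1) Continuity at `(q₀, l₀')`: `D = Wset q₀` is open, convex, in `Conf k`; let `(σ, ρ)` be the section of `P` over `D` through `(X φ (q₀, l₀'), l₀')` (`exists_sec`).  By `orb` (`T_sec`) `(σ q, ρ q) ∈ Q_φ q` for `q ∈ D`, so `X φ (q, ρ q) = σ q`.  For `(q, l) ∈ Yset k`
near `(q₀, l₀')`: `l - ρ q` is small and in `2πiℤ`, so `l = ρ q` and `X φ (q, l) = σ q`, continuous.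
(6) If `pr (F q) ⊆ logF k q` for all `q ∈ Conf k` and `pr φ = l₀`: `pr (s_i ψ) = pr ψ + 2πi` (`T_map` to `logSys k`, `crossProp_s`, `log_s`, `val_inj`), so `pr (τ^j φ) = l₀ + 2πi j`; for generic `q`: `pr (val (τ^j φ) q) = val (pr (τ^j φ)) q` (`T_map`) `= val l₀ q + 2πi j = l`;
transport for general `q` (`T_map`).
-/

namespace Pool.Agent.Helper2.LN

variable {k : ℕ} {W : Type} [TopologicalSpace W]

/-- the invariant set of names -/
private def Oset (S : Sys k W) (τ : Equiv.Perm (S.F (base k))) (l₀ : ℂ) (φ : S.F (base k)) :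
    Set ((prodSys S (logSys k)).F (base k)) :=
  {x | ∃ j : ℤ, x.1 = (((τ ^ j) φ : S.F (base k)).1, l₀ + j * (2 * Real.pi * Complex.I))}

private theorem Oset_inv (S : Sys k W) (τ : Equiv.Perm (S.F (base k)))
    (hτ : ∀ i, i + 1 < k → S.s i = τ) (l₀ : ℂ) (φ : S.F (base k)) (i : ℕ) (hi : i + 1 < k)
    (x : (prodSys S (logSys k)).F (base k)) :
    (prodSys S (logSys k)).s i x ∈ Oset S τ l₀ φ ↔ x ∈ Oset S τ l₀ φ := by
  have h1 := s_prod S (logSys k) i hi x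
  rw [hτ i hi, log_s k i hi] at h1
  constructor
  · rintro ⟨j, hj⟩
    rw [h1, Prod.mk.injEq] at hj
    refine ⟨j - 1, ?_⟩
    have h2 : τ ⟨x.1.1, x.2.1⟩ = (τ ^ j) φ := Subtype.ext hj.1
    have h3 : (⟨x.1.1, x.2.1⟩ : S.F (base k)) = (τ ^ (j - 1)) φ := by
      apply τ.injective
      rw [h2, ← Equiv.Perm.mul_apply, ← zpow_one_add]
      congr 2
      ring
    refine Prod.ext ?_ ?_
    · exact congrArg Subtype.val h3
    · have h4 := hj.2
      simp only at h4 ⊢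
      push_cast
      linear_combination h4
  · rintro ⟨j, hj⟩
    refine ⟨j + 1, ?_⟩
    rw [h1, Prod.mk.injEq]
    have h2 : (⟨x.1.1, x.2.1⟩ : S.F (base k)) = (τ ^ j) φ :=
      Subtype.ext (congrArg Prod.fst hj)
    have h3 : x.1.2 = l₀ + j * (2 * Real.pi * Complex.I) := congrArg Prod.snd hj
    constructor
    · rw [h2, ← Equiv.Perm.mul_apply, ← zpow_one_add]
      congr 3
      ring
    · simp only
      rw [h3]
      push_cast
      ring

private theorem log_mem (l₀ : ℂ) (hl : Complex.exp l₀ = Dsc (base k)) (j : ℤ) :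
    l₀ + j * (2 * Real.pi * Complex.I) ∈ (logSys k).F (base k) := by
  change Complex.exp _ = _
  rw [Complex.exp_add, Complex.exp_int_mul_two_pi_mul_I, mul_one, hl]

private theorem exp_shift (q : Fin k → ℂ) {l : ℂ} (h : l ∈ logF k q) (j : ℤ) :
    l + j * (2 * Real.pi * Complex.I) ∈ logF k q := by
  have h' : Complex.exp l = Dsc q := h
  change Complex.exp _ = _
  rw [Complex.exp_add, Complex.exp_int_mul_two_pi_mul_I, mul_one, h']

private theorem two_pi_I_ne : (2 * Real.pi * Complex.I : ℂ) ≠ 0 := Complex.two_pi_I_ne_zero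

/-- names of the points of `Q φ` over a generic configuration -/
private theorem gen_iff (S : Sys k W) (τ : Equiv.Perm (S.F (base k))) (l₀ : ℂ)
    (hl : Complex.exp l₀ = Dsc (base k)) (φ : S.F (base k)) (Q : (Fin k → ℂ) → Set (W × ℂ))
    (hQ : ∀ q ∈ Conf k, Q q ⊆ (prodSys S (logSys k)).F q)
    (hg : ∀ q ∈ Gen k, ∀ x, (prodSys S (logSys k)).val x q ∈ Q q ↔ x ∈ Oset S τ l₀ φ)
    (a : Fin k → ℂ) (ha : a ∈ Gen k) (w : W) (l : ℂ) :
    (w, l) ∈ Q a ↔ ∃ j : ℤ, w = S.val ((τ ^ j) φ) a ∧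
      l = (logSys k).val ⟨l₀, hl⟩ a + j * (2 * Real.pi * Complex.I) := by
  constructor
  · intro h
    obtain ⟨x, hx⟩ := (prodSys S (logSys k)).val_surj a ha (w, l) (hQ a (Gen_subset_Conf k ha) h)
    rw [← hx, hg a ha] at h
    obtain ⟨j, hj⟩ := h
    refine ⟨j, ?_⟩
    rw [val_prod S (logSys k) x a ha, Prod.mk.injEq] at hx
    have h2 : (⟨x.1.1, x.2.1⟩ : S.F (base k)) = (τ ^ j) φ := Subtype.ext (congrArg Prod.fst hj)
    have h3 : x.1.2 = l₀ + j * (2 * Real.pi * Complex.I) := congrArg Prod.snd hj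
    constructor
    · rw [← hx.1, h2]
    · rw [← hx.2]
      exact log_val_add k ⟨l₀, hl⟩ ⟨x.1.2, x.2.2⟩ j h3 a ha
  · rintro ⟨j, hw, hl'⟩
    have hx : (((τ ^ j) φ : S.F (base k)).1, l₀ + j * (2 * Real.pi * Complex.I)) ∈
        (prodSys S (logSys k)).F (base k) := ⟨((τ ^ j) φ).2, log_mem l₀ hl j⟩
    have h1 := (hg a ha ⟨_, hx⟩).2 ⟨j, rfl⟩
    rw [val_prod S (logSys k) _ a ha] at h1
    rw [hw, hl']
    rw [log_val_add k ⟨l₀, hl⟩ ⟨l₀ + j * (2 * Real.pi * Complex.I), log_mem l₀ hl j⟩ j rfl a ha]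
      at h1
    exact h1

private theorem seg_W (q : Fin k → ℂ) (hq : q ∈ Conf k) (a : Fin k → ℂ) (ha : a ∈ Wset q) :
    segment ℝ q a ⊆ Conf k :=
  ((Wset_convex q).segment_subset (mem_Wset q) ha).trans (Wset_sub q hq)

/-- translation commutes with transport of logarithms -/
private theorem T_shift (q a : Fin k → ℂ) (h : segment ℝ q a ⊆ Conf k) (l : ℂ) (hl : l ∈ logF k q)
    (c : ℂ) (hc : Complex.exp c = 1) :
    (logSys k).T q a (l + c) = (logSys k).T q a l + c := by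
  have h1 := (logSys k).T_map (logSys k) (fun x => x + c) (by fun_prop) (by
    intro q' _ w hw
    have hw' : Complex.exp w = Dsc q' := hw
    change Complex.exp (w + c) = _
    rw [Complex.exp_add, hc, mul_one, hw']) q a h l hl
  exact h1.symm

/-- the name of a logarithm over a nearby generic configuration -/
private theorem exists_j (l₀ : ℂ) (hl : Complex.exp l₀ = Dsc (base k)) (q : Fin k → ℂ)
    (hq : q ∈ Conf k) (l : ℂ) (hl' : Complex.exp l = Dsc q) (a : Fin k → ℂ) (ha : a ∈ Wset q)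
    (hga : a ∈ Gen k) : ∃ j : ℤ, (logSys k).T q a l =
      (logSys k).val ⟨l₀, hl⟩ a + j * (2 * Real.pi * Complex.I) := by
  have h1 : Complex.exp ((logSys k).T q a l) = Dsc a :=
    (logSys k).T_mem q a (seg_W q hq a ha) l hl'
  have h2 : Complex.exp ((logSys k).val ⟨l₀, hl⟩ a) = Dsc a := (logSys k).val_mem _ a hga
  exact Complex.exp_eq_exp_iff_exists_int.1 (h1.trans h2.symm)

/-- membership in `Q φ` over a general configuration -/
private theorem conf_iff (S : Sys k W) (τ : Equiv.Perm (S.F (base k))) (l₀ : ℂ)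
    (hl : Complex.exp l₀ = Dsc (base k)) (φ : S.F (base k)) (Q : (Fin k → ℂ) → Set (W × ℂ))
    (hQ : ∀ q ∈ Conf k, Q q ⊆ (prodSys S (logSys k)).F q)
    (hT : ∀ a c, segment ℝ a c ⊆ Conf k → ∀ w ∈ (prodSys S (logSys k)).F a,
      ((prodSys S (logSys k)).T a c w ∈ Q c ↔ w ∈ Q a))
    (hg : ∀ q ∈ Gen k, ∀ x, (prodSys S (logSys k)).val x q ∈ Q q ↔ x ∈ Oset S τ l₀ φ)
    (q : Fin k → ℂ) (hq : q ∈ Conf k) (l : ℂ) (hl' : Complex.exp l = Dsc q) (a : Fin k → ℂ)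
    (ha : a ∈ Wset q) (hga : a ∈ Gen k) (j : ℤ)
    (hj : (logSys k).T q a l = (logSys k).val ⟨l₀, hl⟩ a + j * (2 * Real.pi * Complex.I))
    (w : W) (hw : w ∈ S.F q) : (w, l) ∈ Q q ↔ S.T q a w = S.val ((τ ^ j) φ) a := by
  have hwl : (w, l) ∈ (prodSys S (logSys k)).F q := ⟨hw, hl'⟩
  rw [← hT q a (seg_W q hq a ha) (w, l) hwl, T_prod S (logSys k) q a (seg_W q hq a ha) (w, l) hwl]
  change (S.T q a w, (logSys k).T q a l) ∈ Q a ↔ _
  rw [gen_iff S τ l₀ hl φ Q hQ hg a hga]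
  constructor
  · rintro ⟨j', h1, h2⟩
    have h3 : j' = j := by
      rw [hj, add_right_inj] at h2
      have h4 := mul_right_cancel₀ two_pi_I_ne h2
      exact_mod_cast h4.symm
    rw [h1, h3]
  · intro h
    exact ⟨j, h, hj⟩

private theorem seg_base (q : Fin k → ℂ) (hq : q ∈ Gen k) : segment ℝ (base k) (srt q) ⊆ Conf k :=
  ((convex_Ord k).segment_subset (base_mem_Ord k) (srt_mem q hq)).trans
    ((Ord_subset_Gen k).trans (Gen_subset_Conf k))

section Pr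

variable (S : Sys k W) (pr : W → ℂ) (hpr : Continuous pr)
  (hF : ∀ q ∈ Conf k, ∀ w ∈ S.F q, Complex.exp (pr w) = Dsc q)

include hpr hF

private theorem pr_mem (ψ : S.F (base k)) : pr ψ ∈ (logSys k).F (base k) :=
  hF _ (Gen_subset_Conf k (Ord_subset_Gen k (base_mem_Ord k))) ψ ψ.2

private theorem pr_T (a c : Fin k → ℂ) (h : segment ℝ a c ⊆ Conf k) (w : W) (hw : w ∈ S.F a) :
    pr (S.T a c w) = (logSys k).T a c (pr w) :=
  S.T_map (logSys k) pr hpr hF a c h w hw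

private theorem pr_val (ψ : S.F (base k)) (a : Fin k → ℂ) (ha : a ∈ Gen k) :
    pr (S.val ψ a) = (logSys k).val ⟨pr ψ, pr_mem S pr hpr hF ψ⟩ a := by
  unfold Sys.val
  exact pr_T S pr hpr hF _ _ (seg_base a ha) _ ψ.2

private theorem pr_tau (hk : 2 ≤ k) (τ : Equiv.Perm (S.F (base k)))
    (hτ : ∀ i, i + 1 < k → S.s i = τ) (ψ : S.F (base k)) :
    pr (τ ψ) = pr ψ + 2 * Real.pi * Complex.I := by
  obtain ⟨a, c, l, m, hx, hp, -⟩ := exists_cross (k := k) 0 (by omega)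
  have h1 := S.crossProp_s 0 (by omega) a c l m hx hp ψ
  rw [hτ 0 (by omega)] at h1
  have h2 := (logSys k).crossProp_s 0 (by omega) a c l m hx hp ⟨pr ψ, pr_mem S pr hpr hF ψ⟩
  have h3 := congrArg pr h1
  rw [pr_T S pr hpr hF a c (segment_cross a c l m hx) _ (S.val_mem ψ a hx.gena),
    pr_val S pr hpr hF ψ a hx.gena, h2, pr_val S pr hpr hF (τ ψ) c hx.genc] at h3
  have h4 := (logSys k).val_inj _ _ c hx.genc h3
  have h5 := congrArg Subtype.val h4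
  rw [log_s k 0 (by omega)] at h5
  exact h5.symm

private theorem pr_tau_pow (hk : 2 ≤ k) (τ : Equiv.Perm (S.F (base k)))
    (hτ : ∀ i, i + 1 < k → S.s i = τ) (φ : S.F (base k)) (j : ℤ) :
    pr ((τ ^ j) φ) = pr φ + j * (2 * Real.pi * Complex.I) := by
  induction j with
  | zero => simp
  | succ n ih =>
    have h1 : (τ ^ ((n : ℤ) + 1)) φ = τ ((τ ^ (n : ℤ)) φ) := by
      rw [← Equiv.Perm.mul_apply, ← zpow_one_add, add_comm]
    rw [h1, pr_tau S pr hpr hF hk τ hτ, ih]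
    push_cast
    ring
  | pred n ih =>
    have h1 : (τ ^ (-(n : ℤ))) φ = τ ((τ ^ (-(n : ℤ) - 1)) φ) := by
      rw [← Equiv.Perm.mul_apply, ← zpow_one_add]
      congr 2
      ring
    rw [h1, pr_tau S pr hpr hF hk τ hτ] at ih
    push_cast at ih ⊢
    linear_combination ih

end Pr

theorem Sys.gp (S : Sys k W) (hk : 2 ≤ k) (τ : Equiv.Perm (S.F (base k)))
    (hτ : ∀ i, i + 1 < k → S.s i = τ) (l₀ : ℂ) (hl : Complex.exp l₀ = Dsc (base k)) :
    ∃ X : S.F (base k) → (Fin k → ℂ) × ℂ → W,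
      (∀ φ, ContinuousOn (X φ) (Yset k)) ∧
      (∀ φ, ∀ p ∈ Yset k, X φ p ∈ S.F p.1) ∧
      (∀ φ, Inv (X φ)) ∧
      (∀ φ, ∀ p ∈ Yset k, X φ (p.1, p.2 + 2 * Real.pi * Complex.I) = X (τ φ) p) ∧
      ((∀ p ∈ Yset k, ∀ w ∈ S.F p.1, ∃ φ, X φ p = w) ∧
        (∀ p ∈ Yset k, ∀ φ ψ, X φ p = X ψ p → φ = ψ)) ∧
      (∀ pr : W → ℂ, Continuous pr → (∀ q ∈ Conf k, ∀ w ∈ S.F q, Complex.exp (pr w) = Dsc q) →
        ∀ φ : S.F (base k), pr φ = l₀ → ∀ p ∈ Yset k, pr (X φ p) = p.2) := by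
  classical
  have horb : ∀ φ : S.F (base k), ∃ Q : (Fin k → ℂ) → Set (W × ℂ),
      (∀ q ∈ Conf k, Q q ⊆ (prodSys S (logSys k)).F q) ∧
      (∀ q ∈ Conf k, ∀ π : Equiv.Perm (Fin k), Q (q ∘ π) = Q q) ∧
      (∀ a c, segment ℝ a c ⊆ Conf k → ∀ w ∈ (prodSys S (logSys k)).F a,
        ((prodSys S (logSys k)).T a c w ∈ Q c ↔ w ∈ Q a)) ∧
      (∀ q ∈ Gen k, ∀ x, (prodSys S (logSys k)).val x q ∈ Q q ↔ x ∈ Oset S τ l₀ φ) := fun φ =>
    (prodSys S (logSys k)).orb (Oset S τ l₀ φ) fun i hi x => Oset_inv S τ hτ l₀ φ i hi x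
  choose Q hQF hQp hQT hQg using horb
  -- a nearby generic configuration
  have hnear : ∀ q ∈ Conf k, ∃ a ∈ Wset q, a ∈ Gen k := fun q _ =>
    Gen_dense q (Wset q) (Wset_open q) (mem_Wset q)
  have hiff := fun φ => conf_iff S τ l₀ hl φ (Q φ) (hQF φ) (hQT φ) (hQg φ)
  have hmemF : ∀ φ, ∀ q ∈ Conf k, ∀ w l, (w, l) ∈ Q φ q → w ∈ S.F q := fun φ q hq w l h =>
    (hQF φ q hq h).1
  have hex : ∀ φ, ∀ p ∈ Yset k, ∃ w, (w, p.2) ∈ Q φ p.1 := by
    rintro φ ⟨q, l⟩ ⟨hq, hl'⟩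
    obtain ⟨a, ha, hga⟩ := hnear q hq
    obtain ⟨j, hj⟩ := exists_j l₀ hl q hq l hl' a ha hga
    obtain ⟨w, hw, hw'⟩ := S.T_surj q a (seg_W q hq a ha) _ (S.val_mem ((τ ^ j) φ) a hga)
    exact ⟨w, (hiff φ q hq l hl' a ha hga j hj w hw).2 hw'⟩
  have huniq : ∀ φ, ∀ p ∈ Yset k, ∀ w w', (w, p.2) ∈ Q φ p.1 → (w', p.2) ∈ Q φ p.1 → w = w' := by
    rintro φ ⟨q, l⟩ ⟨hq, hl'⟩ w w' h1 h2
    obtain ⟨a, ha, hga⟩ := hnear q hq
    obtain ⟨j, hj⟩ := exists_j l₀ hl q hq l hl' a ha hga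
    have hw := hmemF φ q hq w l h1
    have hw' := hmemF φ q hq w' l h2
    have h3 := (hiff φ q hq l hl' a ha hga j hj w hw).1 h1
    have h4 := (hiff φ q hq l hl' a ha hga j hj w' hw').1 h2
    exact S.T_inj q a (seg_W q hq a ha) w w' hw hw' (h3.trans h4.symm)
  obtain ⟨X, hX⟩ : ∃ X : S.F (base k) → (Fin k → ℂ) × ℂ → W, ∀ φ, ∀ p ∈ Yset k,
      (X φ p, p.2) ∈ Q φ p.1 := by
    refine ⟨fun φ p => if h : ∃ w, (w, p.2) ∈ Q φ p.1 then h.choose else φ, ?_⟩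
    intro φ p hp
    have h := hex φ p hp
    simp only [dif_pos h]
    exact h.choose_spec
  have hXF : ∀ φ, ∀ p ∈ Yset k, X φ p ∈ S.F p.1 := fun φ p hp =>
    hmemF φ p.1 hp.1 _ _ (hX φ p hp)
  have hXval : ∀ φ, ∀ q l, (hp : (q, l) ∈ Yset k) → ∀ a (ha : a ∈ Wset q) (hga : a ∈ Gen k) (j : ℤ),
      (logSys k).T q a l = (logSys k).val ⟨l₀, hl⟩ a + j * (2 * Real.pi * Complex.I) →
      S.T q a (X φ (q, l)) = S.val ((τ ^ j) φ) a := fun φ q l hp a ha hga j hj =>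
    (hiff φ q hp.1 l hp.2 a ha hga j hj _ (hXF φ _ hp)).1 (hX φ _ hp)
  refine ⟨X, ?_, hXF, ?_, ?_, ⟨?_, ?_⟩, ?_⟩
  · -- continuity
    intro φ p₀ hp₀
    obtain ⟨q₀, l₁⟩ := p₀
    have hw₀ : (X φ (q₀, l₁), l₁) ∈ (prodSys S (logSys k)).F q₀ := ⟨hXF φ _ hp₀, hp₀.2⟩
    obtain ⟨σ, hσc, hσF, hσ0⟩ := (prodSys S (logSys k)).exists_sec (Wset q₀) (Wset_convex q₀)
      (Wset_sub q₀ hp₀.1) q₀ (mem_Wset q₀) _ hw₀
    have hσQ : ∀ q ∈ Wset q₀, σ q ∈ Q φ q := by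
      intro q hq
      have h1 := (prodSys S (logSys k)).T_sec (Wset q₀) (Wset_convex q₀) (Wset_sub q₀ hp₀.1) σ hσc
        hσF q₀ q (mem_Wset q₀) hq
      rw [← h1, hQT φ q₀ q (seg_W q₀ hp₀.1 q hq) _ (hσF q₀ (mem_Wset q₀)), hσ0]
      exact hX φ _ hp₀
    have hσX : ∀ q ∈ Wset q₀, X φ (q, (σ q).2) = (σ q).1 := by
      intro q hq
      have hY : (q, (σ q).2) ∈ Yset k := ⟨Wset_sub q₀ hp₀.1 hq, (hσF q hq).2⟩
      exact huniq φ _ hY _ _ (hX φ _ hY) (hσQ q hq)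
    have hσat : ContinuousAt σ q₀ := hσc.continuousAt ((Wset_open q₀).mem_nhds (mem_Wset q₀))
    have hc1 : ContinuousAt (fun p : (Fin k → ℂ) × ℂ => (σ p.1).1) (q₀, l₁) := by
      have h1 : ContinuousAt (fun p : (Fin k → ℂ) × ℂ => σ p.1) (q₀, l₁) :=
        ContinuousAt.comp (f := fun p : (Fin k → ℂ) × ℂ => p.1) hσat continuousAt_fst
      exact h1.fst
    have hc2 : ContinuousAt (fun p : (Fin k → ℂ) × ℂ => p.2 - (σ p.1).2) (q₀, l₁) := by
      have h1 : ContinuousAt (fun p : (Fin k → ℂ) × ℂ => σ p.1) (q₀, l₁) :=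
        ContinuousAt.comp (f := fun p : (Fin k → ℂ) × ℂ => p.1) hσat continuousAt_fst
      exact continuousAt_snd.sub h1.snd
    have h0 : ‖(fun p : (Fin k → ℂ) × ℂ => p.2 - (σ p.1).2) (q₀, l₁)‖ < 2 * Real.pi := by
      simp only [hσ0, sub_self, norm_zero]
      exact Real.two_pi_pos
    have hev1 : ∀ᶠ p : (Fin k → ℂ) × ℂ in nhds (q₀, l₁), ‖p.2 - (σ p.1).2‖ < 2 * Real.pi :=
      hc2.norm.eventually_lt continuousAt_const h0
    have hev2 : ∀ᶠ p : (Fin k → ℂ) × ℂ in nhds (q₀, l₁), p.1 ∈ Wset q₀ :=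
      continuousAt_fst.eventually ((Wset_open q₀).mem_nhds (mem_Wset q₀))
    have hev : (X φ) =ᶠ[nhdsWithin (q₀, l₁) (Yset k)] fun p => (σ p.1).1 := by
      filter_upwards [mem_nhdsWithin_of_mem_nhds hev1, mem_nhdsWithin_of_mem_nhds hev2,
        self_mem_nhdsWithin] with p h1 h2 h3
      have h4 : Complex.exp p.2 = Complex.exp (σ p.1).2 := by
        rw [h3.2]
        exact ((hσF p.1 h2).2).symm
      obtain ⟨n, hn⟩ := Complex.exp_eq_exp_iff_exists_int.1 h4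
      have h5 : n = 0 := by
        by_contra hne
        rw [hn, add_sub_cancel_left, norm_mul, norm_mul, norm_mul, Complex.norm_I, mul_one,
          Complex.norm_intCast, Complex.norm_ofNat, Complex.norm_real, Real.norm_eq_abs,
          abs_of_pos Real.pi_pos] at h1
        have h6 : (1 : ℝ) ≤ |(n : ℝ)| := by
          have := Int.one_le_abs hne
          exact_mod_cast this
        have h7 := Real.two_pi_pos
        nlinarith
      rw [h5] at hn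
      simp only [Int.cast_zero, zero_mul, add_zero] at hn
      have h6 := hσX p.1 h2
      rw [← hn] at h6
      exact h6
    exact hc1.continuousWithinAt.congr_of_eventuallyEq hev (by
      have h6 := hσX q₀ (mem_Wset q₀)
      rw [hσ0] at h6 ⊢)
  · -- invariance
    intro φ p hp π
    have hq : p.1 ∘ π ∈ Conf k := fun i j hij => π.injective (hp.1 hij)
    have hY : (p.1 ∘ π, p.2) ∈ Yset k := ⟨hq, by rw [hp.2]; exact (Dsc_perm p.1 π).symm⟩
    have h1 := hX φ _ hY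
    change (X φ (p.1 ∘ π, p.2), p.2) ∈ Q φ (p.1 ∘ π) at h1
    rw [hQp φ p.1 hp.1 π] at h1
    exact huniq φ p hp _ _ h1 (hX φ p hp)
  · -- translation
    rintro φ ⟨q, l⟩ hp
    obtain ⟨a, ha, hga⟩ := hnear q hp.1
    obtain ⟨j, hj⟩ := exists_j l₀ hl q hp.1 l hp.2 a ha hga
    have hY : (q, l + 2 * Real.pi * Complex.I) ∈ Yset k := by
      refine ⟨hp.1, ?_⟩
      change Complex.exp (l + 2 * Real.pi * Complex.I) = _
      rw [Complex.exp_add, Complex.exp_two_pi_mul_I, mul_one]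
      exact hp.2
    have hj2 : (logSys k).T q a (l + 2 * Real.pi * Complex.I) =
        (logSys k).val ⟨l₀, hl⟩ a + ((j + 1 : ℤ) : ℂ) * (2 * Real.pi * Complex.I) := by
      rw [T_shift q a (seg_W q hp.1 a ha) l hp.2 _ Complex.exp_two_pi_mul_I, hj]
      push_cast
      ring
    have h1 := hXval φ q _ hY a ha hga (j + 1) hj2
    have h2 := hXval (τ φ) q l hp a ha hga j hj
    have h3 : (τ ^ (j + 1)) φ = (τ ^ j) (τ φ) := by
      rw [← Equiv.Perm.mul_apply, ← zpow_add_one]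
    rw [h3, ← h2] at h1
    exact S.T_inj q a (seg_W q hp.1 a ha) _ _ (hXF φ _ hY) (hXF _ _ hp) h1
  · -- surjectivity
    rintro ⟨q, l⟩ hp w hw
    obtain ⟨a, ha, hga⟩ := hnear q hp.1
    obtain ⟨j, hj⟩ := exists_j l₀ hl q hp.1 l hp.2 a ha hga
    have hseg := seg_W q hp.1 a ha
    obtain ⟨ψ, hψ⟩ := S.val_surj a hga _ (S.T_mem q a hseg w hw)
    refine ⟨(τ ^ (-j)) ψ, ?_⟩
    have h1 := hXval ((τ ^ (-j)) ψ) q l hp a ha hga j hj
    rw [← Equiv.Perm.mul_apply, ← zpow_add, add_neg_cancel, zpow_zero, Equiv.Perm.one_apply, hψ]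
      at h1
    exact S.T_inj q a hseg _ _ (hXF _ _ hp) hw h1
  · -- injectivity
    rintro ⟨q, l⟩ hp φ ψ h
    obtain ⟨a, ha, hga⟩ := hnear q hp.1
    obtain ⟨j, hj⟩ := exists_j l₀ hl q hp.1 l hp.2 a ha hga
    have h1 := hXval φ q l hp a ha hga j hj
    have h2 := hXval ψ q l hp a ha hga j hj
    rw [h, h2] at h1
    exact ((τ ^ j).injective (S.val_inj _ _ a hga h1)).symm
  · -- compatibility with logarithms
    rintro pr hpr hF φ hφ ⟨q, l⟩ hp
    obtain ⟨a, ha, hga⟩ := hnear q hp.1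
    obtain ⟨j, hj⟩ := exists_j l₀ hl q hp.1 l hp.2 a ha hga
    have hseg := seg_W q hp.1 a ha
    have h1 := congrArg pr (hXval φ q l hp a ha hga j hj)
    rw [pr_T S pr hpr hF q a hseg _ (hXF φ _ hp), pr_val S pr hpr hF _ a hga,
      log_val_add k ⟨l₀, hl⟩ ⟨pr ((τ ^ j) φ), pr_mem S pr hpr hF _⟩ j
        (by change pr ((τ ^ j) φ) = _; rw [pr_tau_pow S pr hpr hF hk τ hτ φ j, hφ]) a hga, ← hj] at h1
    exact (logSys k).T_inj q a hseg _ _ (hF q hp.1 _ (hXF φ _ hp)) hp.2 h1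

end Pool.Agent.Helper2.LN
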