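import Pool.Agent.Helper2.LN.Val

/-!
# LN-K2 (MP_730da0_ag): the lexicographic neighbourhood of a configuration

`Wset q`: pairs with different real parts keep the order of the real parts, pairs with equal real parts keep the order of the imaginary parts.

Paper proofs.  Open (finitely many strict inequalities), convex, contained in `Conf k` (two labels of `q` differ in the real or in the imaginary part), contains `q` if `q ∈ Conf k`.  `Gen k` is dense: `x_j + ε j` (real shift) is generic for all small
`ε ≠ 0` outside of a finite set.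
`swap_step`: let `a, a' ∈ Wset q ∩ Gen k` have different orders.  There are labels `l, m`, adjacent in `a` (`l` immediately left of `m`), in reversed order in `a'` (otherwise the order of `a'` would be the order of `a`).  As both are in `Wset q`:
`Re q_l = Re q_m`, so `Im q_l ≠ Im q_m`.  Let `b` be `a` with the real parts of `l`, `m` exchanged.  `b ∈ Gen k`; no label is between `l` and `m` in `a`, so all other order relations are unchanged, so `b ∈ Wset q`.  If `Im q_l < Im q_m`, then `Im a_l < Im a_m` and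
`Cross a b l m`; if `Im q_m < Im q_l`, then `Cross b a m l`.  The number of pairs ordered differently in `b` and `a'` is smaller than that for `a` and `a'`.
-/

namespace Pool.Agent.Helper2.LN

variable {k : ℕ}

/-- The lexicographic neighbourhood of `q`. -/
def Wset (q : Fin k → ℂ) : Set (Fin k → ℂ) :=
  {x | (∀ l m, (q l).re < (q m).re → (x l).re < (x m).re) ∧
    (∀ l m, (q l).re = (q m).re → (q l).im < (q m).im → (x l).im < (x m).im)}

/-- The number of (ordered) pairs of labels whose order of real parts is different in `a` and `c`. -/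
noncomputable def dis (a c : Fin k → ℂ) : ℕ :=
  (Finset.univ.filter fun p : Fin k × Fin k => (a p.1).re < (a p.2).re ∧ (c p.2).re < (c p.1).re).card

private theorem lex_re_comb (a c : Fin k → ℂ) (s t : ℝ) (i : Fin k) :
    ((s • a + t • c) i).re = s * (a i).re + t * (c i).re := by
  simp

private theorem lex_im_comb (a c : Fin k → ℂ) (s t : ℝ) (i : Fin k) :
    ((s • a + t • c) i).im = s * (a i).im + t * (c i).im := by
  simp

private theorem lex_comb_lt {x y x' y' s t : ℝ} (h : x < y) (h' : x' < y') (hs : 0 ≤ s) (ht : 0 ≤ t)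
    (hst : s + t = 1) : s * x + t * x' < s * y + t * y' := by
  rcases hs.eq_or_lt with h0 | h0
  · subst h0
    have : t = 1 := by linarith
    subst this
    linarith
  · have h1 : s * x < s * y := mul_lt_mul_of_pos_left h h0
    have h2 : t * x' ≤ t * y' := mul_le_mul_of_nonneg_left h'.le ht
    linarith

theorem Wset_open (q : Fin k → ℂ) : IsOpen (Wset q) := by
  have h1 : Wset q = (⋂ l, ⋂ m, {x | (q l).re < (q m).re → (x l).re < (x m).re}) ∩
      (⋂ l, ⋂ m, {x | (q l).re = (q m).re → (q l).im < (q m).im → (x l).im < (x m).im}) := by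
    ext x
    simp only [Wset, Set.mem_inter_iff, Set.mem_iInter, Set.mem_ofPred_eq]
  rw [h1]
  refine IsOpen.inter (isOpen_iInter_of_finite fun l => isOpen_iInter_of_finite fun m => ?_)
    (isOpen_iInter_of_finite fun l => isOpen_iInter_of_finite fun m => ?_)
  · by_cases h : (q l).re < (q m).re
    · simp only [h, true_imp_iff]
      exact isOpen_lt (by fun_prop) (by fun_prop)
    · simp only [h, false_imp_iff, Set.ofPred_true]
      exact isOpen_univ
  · by_cases h : (q l).re = (q m).re
    · by_cases h' : (q l).im < (q m).im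
      · simp only [h, h', true_imp_iff]
        exact isOpen_lt (by fun_prop) (by fun_prop)
      · simp only [h', false_imp_iff, imp_true_iff, Set.ofPred_true]
        exact isOpen_univ
    · simp only [h, false_imp_iff, Set.ofPred_true]
      exact isOpen_univ

theorem Wset_convex (q : Fin k → ℂ) : Convex ℝ (Wset q) := by
  intro a ha c hc s t hs ht hst
  refine ⟨fun l m h => ?_, fun l m h h' => ?_⟩
  · rw [lex_re_comb, lex_re_comb]
    exact lex_comb_lt (ha.1 l m h) (hc.1 l m h) hs ht hst
  · rw [lex_im_comb, lex_im_comb]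
    exact lex_comb_lt (ha.2 l m h h') (hc.2 l m h h') hs ht hst

theorem Wset_sub (q : Fin k → ℂ) (hq : q ∈ Conf k) : Wset q ⊆ Conf k := by
  intro x hx i j hij
  by_contra hne
  have hre := congrArg Complex.re hij
  have him := congrArg Complex.im hij
  rcases lt_trichotomy (q i).re (q j).re with h | h | h
  · exact (hx.1 i j h).ne hre
  · rcases lt_trichotomy (q i).im (q j).im with h' | h' | h'
    · exact (hx.2 i j h h').ne him
    · exact hne (hq (Complex.ext h h'))
    · exact (hx.2 j i h.symm h').ne him.symm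
  · exact (hx.1 j i h).ne hre.symm

theorem mem_Wset (q : Fin k → ℂ) : q ∈ Wset q :=
  ⟨fun _ _ h => h, fun _ _ _ h => h⟩

theorem Gen_dense (q : Fin k → ℂ) (V : Set (Fin k → ℂ)) (hV : IsOpen V) (hq : q ∈ V) : ∃ a ∈ V, a ∈ Gen k := by
  obtain ⟨f, hf⟩ : ∃ f : ℝ → (Fin k → ℂ), f = fun ε j => q j + ((ε * ((j : ℕ) : ℝ) : ℝ) : ℂ) := ⟨_, rfl⟩
  have hfc : Continuous f := by
    rw [hf]
    fun_prop
  have hf0 : f 0 = q := by
    rw [hf]
    funext j
    simp
  obtain ⟨B, hB⟩ : ∃ B : Set ℝ, B = Set.range fun p : Fin k × Fin k =>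
      ((q p.1).re - (q p.2).re) / (((p.2 : ℕ) : ℝ) - ((p.1 : ℕ) : ℝ)) := ⟨_, rfl⟩
  have hBf : B.Finite := by
    rw [hB]
    exact Set.finite_range _
  obtain ⟨ε, hε, hεV⟩ := (dense_univ.sdiff_finite hBf).exists_mem_open (hV.preimage hfc)
    ⟨0, by rw [Set.mem_preimage, hf0]; exact hq⟩
  refine ⟨f ε, hεV, ?_⟩
  intro i j hij
  by_contra hne
  apply hε.2
  rw [hB]
  refine ⟨(i, j), ?_⟩
  have h1 : (q i).re + ε * ((i : ℕ) : ℝ) = (q j).re + ε * ((j : ℕ) : ℝ) := by
    have h2 : (f ε i).re = (f ε j).re := hij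
    rw [hf] at h2
    simpa using h2
  have h3 : (((j : ℕ) : ℝ) - ((i : ℕ) : ℝ)) ≠ 0 := by
    intro h4
    apply hne
    have h5 : ((j : ℕ) : ℝ) = ((i : ℕ) : ℝ) := by linarith
    exact Fin.ext (by exact_mod_cast h5.symm)
  change ((q i).re - (q j).re) / (((j : ℕ) : ℝ) - ((i : ℕ) : ℝ)) = ε
  rw [div_eq_iff h3]
  linarith

private theorem lex_not_mem (a c : Fin k → ℂ) (h : dis a c = 0) (i j : Fin k)
    (h1 : (a i).re < (a j).re) (h2 : (c j).re < (c i).re) : False := by
  unfold dis at h
  rw [Finset.card_eq_zero] at h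
  have h3 : (i, j) ∈ (Finset.univ.filter fun p : Fin k × Fin k =>
      (a p.1).re < (a p.2).re ∧ (c p.2).re < (c p.1).re) := by
    simp [h1, h2]
  rw [h] at h3
  exact absurd h3 (Finset.notMem_empty _)

private theorem lex_ne {a : Fin k → ℂ} {i j : Fin k} (ha : a ∈ Gen k) (h : i ≠ j) :
    (a i).re ≠ (a j).re := fun hh => h (ha hh)

private theorem lex_idx {a : Fin k → ℂ} {i j : Fin k} (h : (a i).re < (a j).re) : i ≠ j := by
  rintro rfl
  exact lt_irrefl _ h

theorem same_of_dis (a c : Fin k → ℂ) (ha : a ∈ Gen k) (hc : c ∈ Gen k) (h : dis a c = 0) :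
    ∀ i j, (a i).re < (a j).re ↔ (c i).re < (c j).re := by
  intro i j
  constructor
  · intro h1
    rcases lt_or_gt_of_ne (lex_ne hc (lex_idx h1)) with h2 | h2
    · exact h2
    · exact (lex_not_mem a c h i j h1 h2).elim
  · intro h1
    rcases lt_or_gt_of_ne (lex_ne ha (lex_idx h1)) with h2 | h2
    · exact h2
    · exact (lex_not_mem a c h j i h2 h1).elim

/-- a reversed pair that is adjacent in `a` -/
private theorem lex_adj (a a' : Fin k → ℂ) (hga : a ∈ Gen k) (hga' : a' ∈ Gen k)
    (h : dis a a' ≠ 0) : ∃ l m, (a l).re < (a m).re ∧ (a' m).re < (a' l).re ∧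
      ∀ j, ¬ ((a l).re < (a j).re ∧ (a j).re < (a m).re) := by
  classical
  obtain ⟨D, hD⟩ : ∃ D : Finset (Fin k × Fin k), D = Finset.univ.filter fun p : Fin k × Fin k =>
      (a p.1).re < (a p.2).re ∧ (a' p.2).re < (a' p.1).re := ⟨_, rfl⟩
  have hne : D.Nonempty := by
    rw [Finset.nonempty_iff_ne_empty]
    intro h1
    apply h
    unfold dis
    rw [← hD, h1, Finset.card_empty]
  have hmem : ∀ i j, (i, j) ∈ D ↔ (a i).re < (a j).re ∧ (a' j).re < (a' i).re := by
    intro i j
    rw [hD]
    simp
  obtain ⟨N, hN⟩ : ∃ N : Fin k × Fin k → ℕ, N = fun p => (Finset.univ.filter fun j : Fin k =>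
      (a p.1).re < (a j).re ∧ (a j).re < (a p.2).re).card := ⟨_, rfl⟩
  obtain ⟨⟨l, m⟩, hlm, hmin⟩ := Finset.exists_min_image D N hne
  rw [hmem] at hlm
  refine ⟨l, m, hlm.1, hlm.2, fun j hj => ?_⟩
  rcases lt_or_gt_of_ne (lex_ne hga' (lex_idx hj.1)) with h1 | h1
  · -- `a' l < a' j`
    have h2 := hmin (j, m) ((hmem j m).2 ⟨hj.2, hlm.2.trans h1⟩)
    have h3 : N (j, m) < N (l, m) := by
      rw [hN]
      apply Finset.card_lt_card
      refine Finset.ssubset_iff_subset_ne.2 ⟨?_, ?_⟩
      · intro x hx
        simp only [Finset.mem_filter, Finset.mem_univ, true_and] at hx ⊢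
        exact ⟨hj.1.trans hx.1, hx.2⟩
      · intro h4
        have h5 : j ∈ Finset.univ.filter fun x : Fin k => (a (l, m).1).re < (a x).re ∧
            (a x).re < (a (l, m).2).re := by
          simp only [Finset.mem_filter, Finset.mem_univ, true_and]
          exact hj
        rw [← h4] at h5
        simp at h5
    omega
  · -- `a' j < a' l`
    have h2 := hmin (l, j) ((hmem l j).2 ⟨hj.1, h1⟩)
    have h3 : N (l, j) < N (l, m) := by
      rw [hN]
      apply Finset.card_lt_card
      refine Finset.ssubset_iff_subset_ne.2 ⟨?_, ?_⟩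
      · intro x hx
        simp only [Finset.mem_filter, Finset.mem_univ, true_and] at hx ⊢
        exact ⟨hx.1, hx.2.trans hj.2⟩
      · intro h4
        have h5 : j ∈ Finset.univ.filter fun x : Fin k => (a (l, m).1).re < (a x).re ∧
            (a x).re < (a (l, m).2).re := by
          simp only [Finset.mem_filter, Finset.mem_univ, true_and]
          exact hj
        rw [← h4] at h5
        simp at h5
    omega

theorem swap_step (q a a' : Fin k → ℂ) (hq : q ∈ Conf k) (ha : a ∈ Wset q) (ha' : a' ∈ Wset q)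
    (hga : a ∈ Gen k) (hga' : a' ∈ Gen k) (h : dis a a' ≠ 0) :
    ∃ b ∈ Wset q, b ∈ Gen k ∧ dis b a' < dis a a' ∧
      ∃ l m, Cross a b l m ∨ Cross b a m l := by
  classical
  obtain ⟨l, m, hlm, hlm', hno⟩ := lex_adj a a' hga hga' h
  have hne : l ≠ m := lex_idx hlm
  have hqre : (q l).re = (q m).re := by
    rcases lt_trichotomy (q l).re (q m).re with h1 | h1 | h1
    · exact absurd (ha'.1 l m h1) (not_lt.2 hlm'.le)
    · exact h1
    · exact absurd (ha.1 m l h1) (not_lt.2 hlm.le)
  -- comparison with the other labels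
  have hlow : ∀ x, x ≠ l → x ≠ m → ((a x).re < (a l).re ↔ (a x).re < (a m).re) := by
    intro x hxl hxm
    constructor
    · intro h1
      exact h1.trans hlm
    · intro h1
      rcases lt_or_gt_of_ne (lex_ne hga hxl) with h2 | h2
      · exact h2
      · exact (hno x ⟨h2, h1⟩).elim
  have hupp : ∀ x, x ≠ l → x ≠ m → ((a l).re < (a x).re ↔ (a m).re < (a x).re) := by
    intro x hxl hxm
    constructor
    · intro h1
      rcases lt_or_gt_of_ne (lex_ne hga hxm) with h2 | h2
      · exact (hno x ⟨h1, h2⟩).elim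
      · exact h2
    · intro h1
      exact hlm.trans h1
  obtain ⟨b, hb⟩ : ∃ b : Fin k → ℂ, b = fun j => ⟨(a (Equiv.swap l m j)).re, (a j).im⟩ := ⟨_, rfl⟩
  have hbre : ∀ j, (b j).re = (a (Equiv.swap l m j)).re := by
    intro j
    rw [hb]
  have hbim : ∀ j, (b j).im = (a j).im := by
    intro j
    rw [hb]
  have hbl : (b l).re = (a m).re := by rw [hbre, Equiv.swap_apply_left]
  have hbm : (b m).re = (a l).re := by rw [hbre, Equiv.swap_apply_right]
  have hbo : ∀ x, x ≠ l → x ≠ m → (b x).re = (a x).re := by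
    intro x h1 h2
    rw [hbre, Equiv.swap_apply_of_ne_of_ne h1 h2]
  have hsame : ∀ x y, ¬ (x = l ∧ y = m) → ¬ (x = m ∧ y = l) →
      ((a x).re < (a y).re ↔ (b x).re < (b y).re) := by
    intro x y h1 h2
    by_cases hxl : x = l
    · subst hxl
      by_cases hyx : y = x
      · subst hyx
        simp
      · have hym : y ≠ m := fun hh => h1 ⟨rfl, hh⟩
        rw [hbl, hbo y hyx hym]
        exact hupp y hyx hym
    · by_cases hxm : x = m
      · subst hxm
        by_cases hyx : y = x
        · subst hyx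
          simp
        · have hyl : y ≠ l := fun hh => h2 ⟨rfl, hh⟩
          rw [hbm, hbo y hyl hyx]
          exact (hupp y hyl hyx).symm
      · rw [hbo x hxl hxm]
        by_cases hyl : y = l
        · subst hyl
          rw [hbl]
          exact hlow x hxl hxm
        · by_cases hym : y = m
          · subst hym
            rw [hbm]
            exact (hlow x hxl hxm).symm
          · rw [hbo y hyl hym]
  have hbgen : b ∈ Gen k := by
    intro x y hxy
    simp only [hbre] at hxy
    exact (Equiv.swap l m).injective (hga hxy)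
  have hbW : b ∈ Wset q := by
    refine ⟨fun x y h1 => ?_, fun x y h1 h2 => ?_⟩
    · rw [← hsame x y]
      · exact ha.1 x y h1
      · rintro ⟨rfl, rfl⟩
        exact h1.ne hqre
      · rintro ⟨rfl, rfl⟩
        exact h1.ne hqre.symm
    · rw [hbim, hbim]
      exact ha.2 x y h1 h2
  refine ⟨b, hbW, hbgen, ?_, l, m, ?_⟩
  · unfold dis
    apply Finset.card_lt_card
    refine Finset.ssubset_iff_subset_ne.2 ⟨?_, ?_⟩
    · rintro ⟨x, y⟩ hxy
      simp only [Finset.mem_filter, Finset.mem_univ, true_and] at hxy ⊢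
      refine ⟨?_, hxy.2⟩
      rw [hsame x y]
      · exact hxy.1
      · rintro ⟨rfl, rfl⟩
        rw [hbl, hbm] at hxy
        exact absurd hxy.1 (not_lt.2 hlm.le)
      · rintro ⟨rfl, rfl⟩
        exact absurd hxy.2 (not_lt.2 hlm'.le)
    · intro h4
      have h5 : (l, m) ∈ Finset.univ.filter fun p : Fin k × Fin k =>
          (a p.1).re < (a p.2).re ∧ (a' p.2).re < (a' p.1).re := by
        simp [hlm, hlm']
      rw [← h4] at h5
      simp only [Finset.mem_filter, Finset.mem_univ, true_and, hbl, hbm] at h5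
      exact absurd h5.1 (not_lt.2 hlm.le)
  · rcases lt_trichotomy (q l).im (q m).im with h1 | h1 | h1
    · left
      refine ⟨hga, hbgen, hlm, ?_, ha.2 l m hqre h1, ?_, hsame⟩
      · rw [hbl, hbm]
        exact hlm
      · rw [hbim, hbim]
        exact ha.2 l m hqre h1
    · exact (hne (hq (Complex.ext hqre h1))).elim
    · right
      refine ⟨hbgen, hga, ?_, hlm, ?_, ha.2 m l hqre.symm h1, ?_⟩
      · rw [hbl, hbm]
        exact hlm
      · rw [hbim, hbim]
        exact ha.2 m l hqre.symm h1
      · intro x y h2 h3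
        exact (hsame x y h3 h2).symm

end Pool.Agent.Helper2.LN
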