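import Pool.Agent.Helper2.LN.Descend
import Pool.Agent.Helper2.LN.LogCross
import Pool.Agent.Helper2.LN.Lex

/-!
# LN-K7 (MP_730da0_ag): `Ghat k` is connected

Paper proof.  `Ψ (q, l) = (cf q, l)` maps `Yset k` continuously onto `Ghat k` (`Ghat_lift`, `Ghat_of_Y`) and `Ψ (q ∘ π, l) = Ψ (q, l)`.  Call two points of `Yset k` linked if their images lie in one preconnected subset of `Ghat k`; this is an equivalence relation.
(1) If `segment a c ⊆ Conf k` and `e^l = Dsc a`, then `(a, l)` and `(c, T a c l)` (`T` of `logSys k`) are linked: image of a continuous section over the segment (`exists_sec`, `T_sec`, `Convex.isPreconnected`).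
(2) Generic `q`: `(q, val φ q)` is linked to `(srt q, val φ q)` (same image) and this to `(base, φ)` (segment in `Ord k`).
(3) Every `(q, l)` is linked to some `(a, l')` with `a ∈ Wset q` generic (`Gen_dense`), so to some `(base, φ)`.
(4) `(base, φ)` is linked to `(base, φ + 2πi)`: take a crossing `a → c` at position `0` (`exists_cross`, `k ≥ 2`): `(base, φ) ~ (a, val φ a) ~ (c, T a c (val φ a)) = (c, val (s_0 φ) c) ~ (base, s_0 φ)`, `s_0 φ = φ + 2πi` (`log_s`).  So all `(base, φ)`, `e^φ = Dsc (base k)`, are linked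
(they differ by `2πi m`; induction on `m`).  Hence all points are linked and `Ghat k` is preconnected (`isPreconnected_of_forall_pair`).
-/

namespace Pool.Agent.Helper2.LN

open Pool.Agent.Helper93.LN

/-- the images of `(q, l)` and `(q', l')` are in one preconnected subset of `Ghat k` -/
private def Lk (k : ℕ) (q : Fin k → ℂ) (l : ℂ) (q' : Fin k → ℂ) (l' : ℂ) : Prop :=
  ∃ C ⊆ Ghat k, (cf q, l) ∈ C ∧ (cf q', l') ∈ C ∧ IsPreconnected C

private theorem Lk.symm {k : ℕ} {q q' : Fin k → ℂ} {l l' : ℂ} (h : Lk k q l q' l') :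
    Lk k q' l' q l := by
  obtain ⟨C, h1, h2, h3, h4⟩ := h
  exact ⟨C, h1, h3, h2, h4⟩

private theorem Lk.trans {k : ℕ} {q q' q'' : Fin k → ℂ} {l l' l'' : ℂ} (h : Lk k q l q' l')
    (h' : Lk k q' l' q'' l'') : Lk k q l q'' l'' := by
  obtain ⟨C, h1, h2, h3, h4⟩ := h
  obtain ⟨C', h1', h2', h3', h4'⟩ := h'
  exact ⟨C ∪ C', Set.union_subset h1 h1', Or.inl h2, Or.inr h3', h4.union _ h3 h2' h4'⟩

private theorem Lk.refl {k : ℕ} (hk : 2 ≤ k) (q : Fin k → ℂ) (l : ℂ) (h : (q, l) ∈ Yset k) :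
    Lk k q l q l :=
  ⟨{(cf q, l)}, Set.singleton_subset_iff.2 (Ghat_of_Y hk (q, l) h), rfl, rfl,
    isPreconnected_singleton⟩

private theorem Lk.seg {k : ℕ} (hk : 2 ≤ k) (a c : Fin k → ℂ) (l : ℂ)
    (h : segment ℝ a c ⊆ Conf k) (hl : l ∈ (logSys k).F a) : Lk k a l c ((logSys k).T a c l) := by
  obtain ⟨σ, h1, h2, h3⟩ := (logSys k).exists_sec (segment ℝ a c) (convex_segment a c) h a
    (left_mem_segment ℝ a c) l hl
  have h4 := (logSys k).T_sec (segment ℝ a c) (convex_segment a c) h σ h1 h2 a c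
    (left_mem_segment ℝ a c) (right_mem_segment ℝ a c)
  rw [h3] at h4
  refine ⟨(fun x => (cf x, σ x)) '' segment ℝ a c, ?_, ⟨a, left_mem_segment ℝ a c, by simp only [h3]⟩,
    ⟨c, right_mem_segment ℝ a c, by simp only [h4]⟩, ?_⟩
  · rintro _ ⟨x, hx, rfl⟩
    exact Ghat_of_Y hk (x, σ x) ⟨h hx, h2 x hx⟩
  · exact (convex_segment a c).isPreconnected.image _
      (((differentiable_cf k).continuous.continuousOn).prodMk h1)

private theorem Lk.gen {k : ℕ} (hk : 2 ≤ k) (q : Fin k → ℂ) (hq : q ∈ Gen k)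
    (φ : (logSys k).F (base k)) : Lk k q ((logSys k).val φ q) (base k) φ := by
  have hseg : segment ℝ (base k) (srt q) ⊆ Conf k :=
    ((convex_Ord k).segment_subset (base_mem_Ord k) (srt_mem q hq)).trans
      ((Ord_subset_Gen k).trans (Gen_subset_Conf k))
  have h := Lk.seg hk (base k) (srt q) φ hseg φ.2
  obtain ⟨C, h1, h2, h3, h4⟩ := h
  refine ⟨C, h1, ?_, h2, h4⟩
  have h5 : cf (srt q) = cf q := cf_perm q _
  rw [h5] at h3
  exact h3

private theorem Lk.any {k : ℕ} (hk : 2 ≤ k) (q : Fin k → ℂ) (l : ℂ) (h : (q, l) ∈ Yset k) :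
    ∃ φ : (logSys k).F (base k), Lk k q l (base k) φ := by
  obtain ⟨a, ha, hg⟩ := Gen_dense q (Wset q) (Wset_open q) (mem_Wset q)
  have hseg : segment ℝ q a ⊆ Conf k :=
    ((Wset_convex q).segment_subset (mem_Wset q) ha).trans (Wset_sub q h.1)
  have hl : l ∈ (logSys k).F q := h.2
  have h1 := Lk.seg hk q a l hseg hl
  obtain ⟨φ, hφ⟩ := (logSys k).val_surj a hg _ ((logSys k).T_mem q a hseg l hl)
  refine ⟨φ, h1.trans ?_⟩
  rw [← hφ]
  exact Lk.gen hk a hg φ

private theorem Lk.step {k : ℕ} (hk : 2 ≤ k) (φ : (logSys k).F (base k)) :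
    Lk k (base k) φ (base k) ((φ : ℂ) + 2 * Real.pi * Complex.I) := by
  obtain ⟨a, c, l, m, hX, hp, -⟩ := exists_cross (k := k) 0 (by omega)
  have h1 := (Lk.gen hk a hX.gena φ).symm
  have h2 := Lk.seg hk a c ((logSys k).val φ a) (segment_cross a c l m hX)
    ((logSys k).val_mem φ a hX.gena)
  rw [(logSys k).crossProp_s 0 (by omega) a c l m hX hp φ] at h2
  have h3 := Lk.gen hk c hX.genc ((logSys k).s 0 φ)
  rw [log_s k 0 (by omega) φ] at h3
  exact (h1.trans h2).trans h3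

private theorem Lk.nat {k : ℕ} (hk : 2 ≤ k) (φ : (logSys k).F (base k)) (n : ℕ) :
    Lk k (base k) φ (base k) ((φ : ℂ) + n * (2 * Real.pi * Complex.I)) := by
  induction n with
  | zero =>
    rw [Nat.cast_zero, zero_mul, add_zero]
    exact Lk.refl hk _ _ ⟨Gen_subset_Conf k (Ord_subset_Gen k (base_mem_Ord k)), φ.2⟩
  | succ n ih =>
    have hm : (φ : ℂ) + n * (2 * Real.pi * Complex.I) ∈ (logSys k).F (base k) := by
      show Complex.exp _ = _
      rw [Complex.exp_add, Complex.exp_nat_mul_two_pi_mul_I, mul_one]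
      exact φ.2
    have h := Lk.step hk ⟨_, hm⟩
    have h2 : (φ : ℂ) + n * (2 * Real.pi * Complex.I) + 2 * Real.pi * Complex.I =
        (φ : ℂ) + ((n + 1 : ℕ) : ℂ) * (2 * Real.pi * Complex.I) := by
      push_cast
      ring
    rw [← h2]
    exact ih.trans h

private theorem lk_all {k : ℕ} (hk : 2 ≤ k) (φ ψ : (logSys k).F (base k)) :
    Lk k (base k) φ (base k) ψ := by
  have h1 : Complex.exp (φ : ℂ) = Complex.exp (ψ : ℂ) := by
    have h2 : Complex.exp (φ : ℂ) = Dsc (base k) := φ.2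
    have h3 : Complex.exp (ψ : ℂ) = Dsc (base k) := ψ.2
    rw [h2, h3]
  obtain ⟨m, hm⟩ := Complex.exp_eq_exp_iff_exists_int.1 h1
  rcases Int.eq_nat_or_neg m with ⟨n, rfl | rfl⟩
  · have h := Lk.nat hk ψ n
    rw [Int.cast_natCast] at hm
    rw [← hm] at h
    exact h.symm
  · have h := Lk.nat hk φ n
    have h2 : (φ : ℂ) + n * (2 * Real.pi * Complex.I) = ψ := by
      rw [hm]
      push_cast
      ring
    rw [h2] at h
    exact h

theorem Ghat_preconnected {k : ℕ} (hk : 2 ≤ k) : IsPreconnected (Ghat k) := by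
  refine isPreconnected_of_forall_pair fun x hx y hy => ?_
  obtain ⟨q, hq, -, hq2⟩ := Ghat_lift hk x hx
  obtain ⟨q', hq', -, hq2'⟩ := Ghat_lift hk y hy
  obtain ⟨φ, h1⟩ := Lk.any hk q x.2 hq
  obtain ⟨ψ, h2⟩ := Lk.any hk q' y.2 hq'
  obtain ⟨C, c1, c2, c3, c4⟩ := (h1.trans (lk_all hk φ ψ)).trans h2.symm
  rw [hq2] at c2
  rw [hq2'] at c3
  exact ⟨C, c1, c2, c3, c4⟩

end Pool.Agent.Helper2.LN
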