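import Mathlib

/-!
# LN-G1 (MP_730da0_ag): the cyclic families of the braid group

Paper proof.  `A = s_0 s_1 ⋯ s_(k-2)`, `B = s_0 A`.
* `A s_i = s_(i+1) A` for `i + 2 < k`: in `s_0 ⋯ s_(k-2) s_i` move the last `s_i` to the left to `s_i s_(i+1) s_i`,
  replace it by `s_(i+1) s_i s_(i+1)`, move the first `s_(i+1)` to the left.
* `A^2 s_(k-2) = s_0 A^2`: `A s_j = s_(j+1) A` gives `A (s_0 ⋯ s_(k-3)) = (s_1 ⋯ s_(k-2)) A`, that is
  `A A s_(k-2)^-1 = s_0^-1 A A`.  [`A = (s_0 ⋯ s_(k-3)) s_(k-2) = s_0 (s_1 ⋯ s_(k-2))`.]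
* `sigma_j := A^j s_0 A^-j` (`j : ℤ`) has period `k` (`A^k s_0 A^-k = A^2 s_(k-2) A^-2 = s_0`); relations for the pair
  `(i, j)` follow from those for `(0, j - i)` by conjugation; for `(0, -1)`: conjugate `(0, 1)` by `A^-1`; for
  `(0, j)`, `2 ≤ j ≤ k-2`: `s_0 s_j = s_j s_0`.
* `B s_j B^-1 = s_0 s_(j+1) s_0^-1 = s_(j+1)` for `1 ≤ j ≤ k-3`;
  `B^(k-1) = s_0 (A s_0 A^-1) ⋯ (A^(k-2) s_0 A^-(k-2)) A^(k-1) = s_0 s_1 ⋯ s_(k-2) A^(k-1) = A^k`, which commutes with all `s_j`.
  So `tau_j := B^(j-1) s_1 B^(1-j)` has period `k - 1` and `tau_j = s_j` for `1 ≤ j ≤ k-2`; the relations follow as before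
  [for `(1, k-1)`, i.e. indices with difference `-1`: conjugate the pair with difference `1`; differences `2 ≤ d ≤ k-3`:
  `s_1 s_(1+d) = s_(1+d) s_1`].
-/

namespace Pool.Agent.Helper2.LN

/-- A cyclic braid family of period `N`, rotated by `A`. -/
structure Cyc {G : Type*} [Group G] (N : ℕ) (A : G) (σ : ZMod N → G) : Prop where
  conj : ∀ i, A * σ i * A⁻¹ = σ (i + 1)
  braid : ∀ i, σ i * σ (i + 1) * σ i = σ (i + 1) * σ i * σ (i + 1)
  comm : ∀ i j, j - i ≠ 1 → i - j ≠ 1 → σ i * σ j = σ j * σ i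

private def cf {G : Type*} [Group G] (A x : G) (m : ℤ) : G := A ^ m * x * (A ^ m)⁻¹

private theorem cf_add {G : Type*} [Group G] (A x : G) (m n : ℤ) :
    cf A x (m + n) = A ^ n * cf A x m * (A ^ n)⁻¹ := by
  unfold cf
  rw [add_comm m n, zpow_add]
  group

private theorem cf_per {G : Type*} [Group G] (A x : G) (N : ℕ) (h : A ^ N * x = x * A ^ N)
    (m q : ℤ) : cf A x (m + N * q) = cf A x m := by
  have h0 : Commute (A ^ N) x := h
  have h1 : Commute (A ^ ((N : ℤ) * q)) x := by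
    rw [zpow_mul, zpow_natCast]
    exact h0.zpow_left q
  unfold cf
  rw [zpow_add, mul_assoc (A ^ m), h1.eq, ← mul_assoc (A ^ m) x, mul_inv_rev]
  group

private theorem mk_cyc {G : Type*} [Group G] (N : ℕ) (hN : 2 < N) (A x : G)
    (hper : A ^ N * x = x * A ^ N) (c : ℤ)
    (hb : cf A x c * cf A x (c + 1) * cf A x c = cf A x (c + 1) * cf A x c * cf A x (c + 1))
    (hcm : ∀ d : ℕ, 2 ≤ d → d + 2 ≤ N → cf A x c * cf A x (c + d) = cf A x (c + d) * cf A x c) :
    ∃ σ : ZMod N → G, Cyc N A σ ∧ ∀ m : ℤ, σ (m : ZMod N) = cf A x m := by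
  haveI : NeZero N := ⟨by omega⟩
  have hσ : ∀ m : ℤ, cf A x ((((m : ZMod N)).val : ℕ) : ℤ) = cf A x m := by
    intro m
    rw [ZMod.val_intCast]
    have h1 := cf_per A x N hper (m % N) (m / N)
    rw [Int.emod_add_mul_ediv] at h1
    exact h1.symm
  have hi : ∀ i : ZMod N, ((i.val : ℤ) : ZMod N) = i := by
    intro i
    rw [Int.cast_natCast, ZMod.natCast_zmod_val]
  -- transport to the base point
  have hsh : ∀ m n : ℤ, cf A x (c + n + (m - c)) = A ^ (m - c) * cf A x (c + n) * (A ^ (m - c))⁻¹ :=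
    fun m n => cf_add A x (c + n) (m - c)
  have hb' : ∀ m : ℤ, cf A x m * cf A x (m + 1) * cf A x m =
      cf A x (m + 1) * cf A x m * cf A x (m + 1) := by
    intro m
    have e1 : m = c + 0 + (m - c) := by ring
    have e2 : m + 1 = c + 1 + (m - c) := by ring
    have h1 : cf A x m = A ^ (m - c) * cf A x c * (A ^ (m - c))⁻¹ := by
      have := hsh m 0
      rw [← e1, add_zero] at this
      exact this
    have h2 : cf A x (m + 1) = A ^ (m - c) * cf A x (c + 1) * (A ^ (m - c))⁻¹ := by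
      have := hsh m 1
      rw [← e2] at this
      exact this
    rw [h1, h2]
    have h3 := congrArg (fun y => A ^ (m - c) * y * (A ^ (m - c))⁻¹) hb
    calc _ = A ^ (m - c) * (cf A x c * cf A x (c + 1) * cf A x c) * (A ^ (m - c))⁻¹ := by group
      _ = _ := h3
      _ = _ := by group
  have hc' : ∀ m : ℤ, ∀ d : ℕ, 2 ≤ d → d + 2 ≤ N →
      cf A x m * cf A x (m + d) = cf A x (m + d) * cf A x m := by
    intro m d hd1 hd2
    have e1 : m = c + 0 + (m - c) := by ring
    have e2 : m + d = c + d + (m - c) := by ring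
    have h1 : cf A x m = A ^ (m - c) * cf A x c * (A ^ (m - c))⁻¹ := by
      have := hsh m 0
      rw [← e1, add_zero] at this
      exact this
    have h2 : cf A x (m + d) = A ^ (m - c) * cf A x (c + d) * (A ^ (m - c))⁻¹ := by
      have := hsh m d
      rw [← e2] at this
      exact this
    rw [h1, h2]
    have h3 := congrArg (fun y => A ^ (m - c) * y * (A ^ (m - c))⁻¹) (hcm d hd1 hd2)
    calc _ = A ^ (m - c) * (cf A x c * cf A x (c + d)) * (A ^ (m - c))⁻¹ := by group
      _ = _ := h3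
      _ = _ := by group
  have key : ∀ i : ZMod N, ∀ n : ℤ, cf A x (((i + (n : ZMod N)).val : ℕ) : ℤ) =
      cf A x ((i.val : ℤ) + n) := by
    intro i n
    have h1 := hσ ((i.val : ℤ) + n)
    rw [Int.cast_add, hi] at h1
    exact h1
  refine ⟨fun i => cf A x (i.val : ℤ), ⟨?_, ?_, ?_⟩, hσ⟩
  · intro i
    have h1 := key i 1
    rw [Int.cast_one] at h1
    rw [h1, cf_add, zpow_one]
  · intro i
    have h1 := key i 1
    rw [Int.cast_one] at h1
    rw [h1]
    exact hb' _
  · intro i j h1 h2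
    obtain ⟨d, hd⟩ : ∃ d : ℕ, d = (j - i).val := ⟨_, rfl⟩
    have hdN : d < N := by
      rw [hd]
      exact ZMod.val_lt _
    have hji : j - i = (d : ZMod N) := by
      rw [hd, ZMod.natCast_zmod_val]
    have hj : j = i + ((d : ℤ) : ZMod N) := by
      rw [Int.cast_natCast, ← hji]
      ring
    have hkey := key i d
    rw [← hj] at hkey
    rw [hkey]
    rcases Nat.lt_or_ge d 2 with h3 | h3
    · have h4 : d = 0 ∨ d = 1 := by omega
      rcases h4 with h4 | h4
      · subst h4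
        simp
      · exfalso
        apply h1
        rw [hji, h4, Nat.cast_one]
    · rcases Nat.lt_or_ge N (d + 2) with h4 | h4
      · exfalso
        apply h2
        have h5 : d + 1 = N := by omega
        have h6 : ((d : ZMod N)) + 1 = 0 := by
          have : ((d + 1 : ℕ) : ZMod N) = 0 := by rw [h5, ZMod.natCast_self]
          rw [Nat.cast_add, Nat.cast_one] at this
          exact this
        have h7 : i - j = -(j - i) := by ring
        rw [h7, hji]
        linear_combination -h6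
      · exact hc' _ d h3 h4

section braid

variable {G : Type*} [Group G] (k : ℕ) (s : ℕ → G)

private def Pr (s : ℕ → G) (m : ℕ) : G := ((List.range m).map s).prod

private theorem Pr_succ (s : ℕ → G) (m : ℕ) : Pr s (m + 1) = Pr s m * s m := by
  unfold Pr
  rw [List.range_succ, List.map_append, List.prod_append]
  simp

private theorem Pr_zero (s : ℕ → G) : Pr s 0 = 1 := by
  unfold Pr
  simp

private theorem Pr_comm (hc : ∀ i j, i + 2 ≤ j → j + 1 < k → s i * s j = s j * s i) (j : ℕ)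
    (hj : j + 1 < k) : ∀ m, m + 1 ≤ j → Pr s m * s j = s j * Pr s m := by
  intro m
  induction m with
  | zero =>
    intro _
    rw [Pr_zero, one_mul, mul_one]
  | succ m ih =>
    intro h
    rw [Pr_succ, mul_assoc, hc m j (by omega) hj, ← mul_assoc, ih (by omega), mul_assoc]

private theorem Pr_shift (hc : ∀ i j, i + 2 ≤ j → j + 1 < k → s i * s j = s j * s i)
    (hb : ∀ i, i + 2 < k → s i * s (i + 1) * s i = s (i + 1) * s i * s (i + 1)) (i : ℕ)
    (hi : i + 2 < k) : ∀ n, i + 2 + n + 1 ≤ k → Pr s (i + 2 + n) * s i = s (i + 1) * Pr s (i + 2 + n) := by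
  intro n
  induction n with
  | zero =>
    intro _
    rw [add_zero, Pr_succ, Pr_succ]
    calc Pr s i * s i * s (i + 1) * s i = Pr s i * (s i * s (i + 1) * s i) := by
          simp only [mul_assoc]
      _ = Pr s i * (s (i + 1) * s i * s (i + 1)) := by rw [hb i hi]
      _ = (Pr s i * s (i + 1)) * s i * s (i + 1) := by simp only [mul_assoc]
      _ = (s (i + 1) * Pr s i) * s i * s (i + 1) := by
          rw [Pr_comm k s hc (i + 1) (by omega) i (by omega)]
      _ = _ := by simp only [mul_assoc]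
  | succ n ih =>
    intro h
    rw [← add_assoc, Pr_succ, mul_assoc, ← hc i (i + 2 + n) (by omega) (by omega), ← mul_assoc,
      ih (by omega), mul_assoc]

private theorem A_shift (hc : ∀ i j, i + 2 ≤ j → j + 1 < k → s i * s j = s j * s i)
    (hb : ∀ i, i + 2 < k → s i * s (i + 1) * s i = s (i + 1) * s i * s (i + 1)) (i : ℕ)
    (hi : i + 2 < k) : Pr s (k - 1) * s i = s (i + 1) * Pr s (k - 1) := by
  have h := Pr_shift k s hc hb i hi (k - 1 - (i + 2)) (by omega)
  have e : i + 2 + (k - 1 - (i + 2)) = k - 1 := by omega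
  rw [e] at h
  exact h

private theorem A_two (hk : 4 < k) (hc : ∀ i j, i + 2 ≤ j → j + 1 < k → s i * s j = s j * s i)
    (hb : ∀ i, i + 2 < k → s i * s (i + 1) * s i = s (i + 1) * s i * s (i + 1)) :
    Pr s (k - 1) * Pr s (k - 1) * s (k - 2) = s 0 * (Pr s (k - 1) * Pr s (k - 1)) := by
  obtain ⟨A, hA⟩ : ∃ A, A = Pr s (k - 1) := ⟨_, rfl⟩
  have h1 : ∀ m, m + 2 ≤ k → s 0 * (A * Pr s m) = Pr s (m + 1) * A := by
    intro m
    induction m with
    | zero =>
      intro _
      rw [Pr_succ, Pr_zero, mul_one, one_mul]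
    | succ m ih =>
      intro h
      have h2 := A_shift k s hc hb m (by omega)
      rw [← hA] at h2
      rw [Pr_succ s m, ← mul_assoc A, ← mul_assoc (s 0), ih (by omega), mul_assoc, h2, ← mul_assoc,
        ← Pr_succ s (m + 1)]
  have h2 := h1 (k - 2) (by omega)
  have e1 : k - 2 + 1 = k - 1 := by omega
  have h3 : A = Pr s (k - 2) * s (k - 2) := by
    rw [← Pr_succ, e1, hA]
  rw [e1, ← hA] at h2
  rw [← hA]
  calc A * A * s (k - 2) = s 0 * (A * Pr s (k - 2)) * s (k - 2) := by rw [h2]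
    _ = s 0 * (A * (Pr s (k - 2) * s (k - 2))) := by simp only [mul_assoc]
    _ = s 0 * (A * A) := by rw [← h3]

private theorem A_cf (hc : ∀ i j, i + 2 ≤ j → j + 1 < k → s i * s j = s j * s i)
    (hb : ∀ i, i + 2 < k → s i * s (i + 1) * s i = s (i + 1) * s i * s (i + 1)) :
    ∀ i : ℕ, i + 1 < k → cf (Pr s (k - 1)) (s 0) (i : ℤ) = s i := by
  intro i
  induction i with
  | zero =>
    intro _
    unfold cf
    simp
  | succ i ih =>
    intro h
    rw [Nat.cast_add, Nat.cast_one, cf_add, ih (by omega), zpow_one,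
      A_shift k s hc hb i (by omega), mul_inv_cancel_right]

private theorem A_per (hk : 4 < k) (hc : ∀ i j, i + 2 ≤ j → j + 1 < k → s i * s j = s j * s i)
    (hb : ∀ i, i + 2 < k → s i * s (i + 1) * s i = s (i + 1) * s i * s (i + 1)) :
    Pr s (k - 1) ^ k * s 0 = s 0 * Pr s (k - 1) ^ k := by
  have h1 := A_cf k s hc hb (k - 2) (by omega)
  have h2 := A_two k s hk hc hb
  obtain ⟨A, hA⟩ : ∃ A, A = Pr s (k - 1) := ⟨_, rfl⟩
  rw [← hA] at h1 h2 ⊢
  unfold cf at h1
  rw [zpow_natCast] at h1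
  have h3 : A ^ (k - 2) * s 0 = s (k - 2) * A ^ (k - 2) := by
    rw [← h1]
    group
  have e : A ^ k = A * A * A ^ (k - 2) := by
    rw [← pow_two, ← pow_add]
    congr 1
    omega
  calc A ^ k * s 0 = A * A * (A ^ (k - 2) * s 0) := by rw [e, mul_assoc (A * A)]
    _ = A * A * s (k - 2) * A ^ (k - 2) := by rw [h3, mul_assoc (A * A)]
    _ = s 0 * (A * A) * A ^ (k - 2) := by rw [h2]
    _ = s 0 * A ^ k := by rw [e, mul_assoc (s 0)]

end braid

theorem cyc_of_braid {G : Type*} [Group G] (k : ℕ) (hk : 4 < k) (s : ℕ → G)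
    (hc : ∀ i j, i + 2 ≤ j → j + 1 < k → s i * s j = s j * s i)
    (hb : ∀ i, i + 2 < k → s i * s (i + 1) * s i = s (i + 1) * s i * s (i + 1)) :
    ∃ σ : ZMod k → G, Cyc k ((List.range (k - 1)).map s).prod σ ∧
      ∀ i : ℕ, i + 1 < k → σ (i : ZMod k) = s i := by
  have hcf := A_cf k s hc hb
  have hcf0 := hcf 0 (by omega)
  have hcf1 := hcf 1 (by omega)
  rw [Nat.cast_zero] at hcf0
  rw [Nat.cast_one] at hcf1
  obtain ⟨σ, h1, h2⟩ := mk_cyc k (by omega) (Pr s (k - 1)) (s 0) (A_per k s hk hc hb) 0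
    (by
      rw [zero_add, hcf0, hcf1]
      exact hb 0 (by omega))
    (by
      intro d hd1 hd2
      rw [zero_add, hcf0, hcf d (by omega)]
      exact hc 0 d (by omega) (by omega))
  refine ⟨σ, h1, fun i hi => ?_⟩
  have h3 := h2 (i : ℤ)
  rw [Int.cast_natCast] at h3
  rw [h3, hcf i hi]

theorem cycB_of_braid {G : Type*} [Group G] (k : ℕ) (hk : 4 < k) (s : ℕ → G)
    (hc : ∀ i j, i + 2 ≤ j → j + 1 < k → s i * s j = s j * s i)
    (hb : ∀ i, i + 2 < k → s i * s (i + 1) * s i = s (i + 1) * s i * s (i + 1)) :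
    ∃ τ : ZMod (k - 1) → G, Cyc (k - 1) (s 0 * ((List.range (k - 1)).map s).prod) τ ∧
      ∀ i : ℕ, 1 ≤ i → i + 1 < k → τ (i : ZMod (k - 1)) = s i := by
  obtain ⟨A, hA⟩ : ∃ A, A = Pr s (k - 1) := ⟨_, rfl⟩
  have hcf := A_cf k s hc hb
  have hper := A_per k s hk hc hb
  rw [← hA] at hper hcf
  have hAs : ∀ i, i + 2 < k → A * s i = s (i + 1) * A := by
    intro i hi
    rw [hA]
    exact A_shift k s hc hb i hi
  obtain ⟨B, hB⟩ : ∃ B, B = s 0 * A := ⟨_, rfl⟩
  have hBs : ∀ j, 1 ≤ j → j + 2 < k → B * s j = s (j + 1) * B := by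
    intro j hj1 hj2
    rw [hB, mul_assoc, hAs j hj2, ← mul_assoc, hc 0 (j + 1) (by omega) (by omega), mul_assoc]
  have hBp : ∀ m, m + 1 ≤ k → B ^ m = Pr s m * A ^ m := by
    intro m
    induction m with
    | zero =>
      intro _
      rw [Pr_zero]
      simp
    | succ m ih =>
      intro h
      have h1 := hcf m (by omega)
      unfold cf at h1
      rw [zpow_natCast] at h1
      have h2 : A ^ m * s 0 = s m * A ^ m := by
        rw [← h1]
        group
      rw [pow_succ, ih (by omega), hB, Pr_succ, pow_succ]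
      calc Pr s m * A ^ m * (s 0 * A) = Pr s m * (A ^ m * s 0) * A := by simp only [mul_assoc]
        _ = Pr s m * (s m * A ^ m) * A := by rw [h2]
        _ = _ := by simp only [mul_assoc]
  have hBk : B ^ (k - 1) = A ^ k := by
    rw [hBp (k - 1) (by omega), ← hA, ← pow_succ']
    congr 1
    omega
  have hAk : ∀ i, i + 1 < k → A ^ k * s i = s i * A ^ k := by
    intro i
    induction i with
    | zero =>
      intro _
      exact hper
    | succ i ih =>
      intro h
      have h1 : s (i + 1) = A * s i * A⁻¹ := by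
        rw [hAs i (by omega)]
        group
      have h2 := ih (by omega)
      have e1 : A ^ k * A = A * A ^ k := by rw [← pow_succ, ← pow_succ']
      have e2 : A⁻¹ * A ^ k = A ^ k * A⁻¹ := by
        rw [inv_mul_eq_iff_eq_mul, ← mul_assoc, ← e1]
        group
      rw [h1]
      calc A ^ k * (A * s i * A⁻¹) = (A ^ k * A) * s i * A⁻¹ := by simp only [mul_assoc]
        _ = A * (A ^ k * s i) * A⁻¹ := by rw [e1]; simp only [mul_assoc]
        _ = A * s i * (A ^ k * A⁻¹) := by rw [h2]; simp only [mul_assoc]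
        _ = A * s i * A⁻¹ * A ^ k := by rw [← e2]; simp only [mul_assoc]
  have hperB : B ^ (k - 1) * (B⁻¹ * s 1 * B) = (B⁻¹ * s 1 * B) * B ^ (k - 1) := by
    have e1 : B ^ (k - 1) * s 1 = s 1 * B ^ (k - 1) := by
      rw [hBk]
      exact hAk 1 (by omega)
    have c1 : Commute (B ^ (k - 1)) B := (Commute.refl B).pow_left _
    have c2 : Commute (B ^ (k - 1)) (s 1) := e1
    exact ((c1.inv_right.mul_right c2).mul_right c1).eq
  have hcfB : ∀ i : ℕ, 1 ≤ i → i + 1 < k → cf B (B⁻¹ * s 1 * B) (i : ℤ) = s i := by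
    intro i hi
    induction i, hi using Nat.le_induction with
    | base =>
      intro _
      unfold cf
      rw [Nat.cast_one, zpow_one]
      group
    | succ i hi ih =>
      intro h
      rw [Nat.cast_add, Nat.cast_one, cf_add, ih (by omega), zpow_one,
        hBs i hi (by omega), mul_inv_cancel_right]
  have h1 := hcfB 1 (le_refl 1) (by omega)
  have h2 := hcfB 2 (by omega) (by omega)
  obtain ⟨τ, h3, h4⟩ := mk_cyc (k - 1) (by omega) B (B⁻¹ * s 1 * B) hperB 1
    (by
      rw [Nat.cast_one] at h1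
      have e : ((1 : ℤ) + 1) = ((2 : ℕ) : ℤ) := by norm_num
      rw [e, h1, h2]
      exact hb 1 (by omega))
    (by
      intro d hd1 hd2
      have h5 := hcfB (1 + d) (by omega) (by omega)
      rw [Nat.cast_one] at h1
      rw [Nat.cast_add, Nat.cast_one] at h5
      rw [h1, h5]
      exact hc 1 (1 + d) (by omega) (by omega))
  rw [hB, hA] at h3
  refine ⟨τ, h3, fun i hi1 hi2 => ?_⟩
  have h5 := h4 (i : ℤ)
  rw [Int.cast_natCast] at h5
  rw [h5, hcfB i hi1 hi2]

end Pool.Agent.Helper2.LN
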