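import Pool.Agent.Helper2.LN.GrpA

/-!
# LN-G2 (MP_730da0_ag): collapse, and the arithmetic of the rotation

Paper proofs.
* `collapse`: conjugation by `A^M = 1` gives `σ_i = σ_(i+M)` for all `i`, and `M ≠ 0` mod `N`.  If `M = ±1` mod `N` all are equal.
  Otherwise some neighbour `e ∈ {1, -1}` of `0` has `e - M ∉ {1, -1}` mod `N` (`e = 1` unless `M = 2`; for `M = 2` take `e = -1`:
  `M + 1 = 3 ∉ {1,-1}` since `N ≥ 5`; `M = 0` is excluded), so `σ_e` commutes with `σ_M = σ_0` and `σ_e, σ_0` satisfy the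
  braid relation, so `σ_e = σ_0`; conjugate by powers of `A`.
* `rot_fix`: `A^j w = w` iff `ζ^j c(w) = c(w)`.  There is `w` with `c(w) ≠ 0` (`card ≥ 2`, `c` injective), and `ζ ≠ 0`
  (else `c ∘ A = 0` is not injective).  For `c(w) ≠ 0`: `A^j w = w` iff `ζ^j = 1`; for `c(w) = 0`: `A w = w`.  So `A^j = 1` iff
  `ζ^j = 1`.  `A` has finite order, so `e = orderOf ζ > 0` and `k ∣ e`.  The set `{w : c w ≠ 0}` is a union of cycles of length
  `e` of `A`, so its cardinality is divisible by `e`, hence by `k`; the complement has at most one element.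
  [For the count: `e` divides the number of nonzero elements, e.g. by `MulAction` of `Multiplicative (ZMod e)` / `zpowers A`, or
  by the count of the nonzero `w` modulo the relation; any proof is fine.]
  If `card F = 1 mod k` the complement is `{p}` and `A^j w = w` with `0 < j < k` forces `ζ^j ≠ 1`, `c(w) = 0`, `w = p`.
  If `k ∣ card F` the complement is empty (`k ≥ 2`), and `A w = w` would give `ζ = 1`, `A = 1`, `k ∣ 1`.
-/

namespace Pool.Agent.Helper2.LN

private lemma lnb_conj_pow {G : Type*} [Group G] {N : ℕ} {A : G} {σ : ZMod N → G} (h : Cyc N A σ)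
    (i : ZMod N) (m : ℕ) : A ^ m * σ i * (A ^ m)⁻¹ = σ (i + m) := by
  induction m with
  | zero => simp
  | succ m ih =>
    have h1 : A ^ (m + 1) * σ i * (A ^ (m + 1))⁻¹ = A * (A ^ m * σ i * (A ^ m)⁻¹) * A⁻¹ := by
      rw [pow_succ']
      group
    rw [h1, ih, h.conj]
    push_cast
    rw [add_assoc]

private lemma lnb_eq {G : Type*} [Group G] {a b : G} (hb : a * b * a = b * a * b)
    (hc : a * b = b * a) : a = b := by
  rw [mul_assoc, ← hc, ← mul_assoc, mul_assoc a a b, hc] at hb
  have h1 : a * (b * a) = a * (b * b) := by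
    rw [hb, ← hc, mul_assoc]
  exact mul_left_cancel (mul_left_cancel h1)

private lemma lnb_cast_ne {N : ℕ} (hN : 5 ≤ N) (q : ℕ) (hq : 0 < q) (hq5 : q < 5) :
    ((q : ℕ) : ZMod N) ≠ 0 := by
  intro h0
  rw [ZMod.natCast_eq_zero_iff] at h0
  have := Nat.le_of_dvd hq h0
  omega

theorem collapse {G : Type*} [Group G] (N : ℕ) (hN : 5 ≤ N) (A : G) (σ : ZMod N → G) (h : Cyc N A σ)
    (M : ℕ) (hM : ¬ N ∣ M) (hA : A ^ M = 1) : ∀ i j, σ i = σ j := by
  haveI : NeZero N := ⟨by omega⟩
  have hper : ∀ i, σ (i + (M : ZMod N)) = σ i := by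
    intro i
    rw [← lnb_conj_pow h i M, hA]
    simp
  have hm0 : (M : ZMod N) ≠ 0 := by
    intro h0
    rw [ZMod.natCast_eq_zero_iff] at h0
    exact hM h0
  have hstep : ∀ i, σ i = σ (i + 1) := by
    intro i
    refine lnb_eq (h.braid i) ?_
    by_cases hm2 : (M : ZMod N) = 2
    · have h1 : σ (i + 1) = σ (i + 1 + (M : ZMod N)) := (hper (i + 1)).symm
      rw [h1]
      apply h.comm
      · rw [hm2]
        intro h2
        have h3 : ((2 : ℕ) : ZMod N) = 0 := by
          push_cast
          linear_combination h2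
        exact lnb_cast_ne hN 2 (by norm_num) (by norm_num) h3
      · rw [hm2]
        intro h2
        have h3 : ((4 : ℕ) : ZMod N) = 0 := by
          push_cast
          linear_combination -h2
        exact lnb_cast_ne hN 4 (by norm_num) (by norm_num) h3
    · have h1 : σ i = σ (i + (M : ZMod N)) := (hper i).symm
      rw [h1]
      apply h.comm
      · intro h2
        apply hm0
        linear_combination -h2
      · intro h2
        apply hm2
        linear_combination h2
  have hall : ∀ (i : ZMod N) (n : ℕ), σ (i + n) = σ i := by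
    intro i n
    induction n with
    | zero => simp
    | succ n ih =>
      rw [← ih, hstep (i + n)]
      push_cast
      rw [add_assoc]
  intro i j
  have h1 := hall i (j - i).val
  rw [ZMod.natCast_zmod_val, add_sub_cancel] at h1
  exact h1.symm

theorem rot_fix {F : Type} [Finite F] (A : Equiv.Perm F) (c : F → ℂ) (hc : Function.Injective c) (ζ : ℂ)
    (h : ∀ w, c (A w) = ζ * c w) (k : ℕ) (hk : 2 ≤ k) (hord : ∀ M : ℕ, A ^ M = 1 → k ∣ M)
    (hcard : 2 ≤ Nat.card F) :
    (Nat.card F ≡ 1 [MOD k] → ∃ p, A p = p ∧ ∀ j : ℕ, 0 < j → j < k → ∀ w, (A ^ j) w = w → w = p) ∧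
    (k ∣ Nat.card F → ∀ w, A w ≠ w) := by
  classical
  haveI := Fintype.ofFinite F
  have hpow : ∀ (j : ℕ) (w : F), c ((A ^ j) w) = ζ ^ j * c w := by
    intro j
    induction j with
    | zero => intro w; simp
    | succ j ih =>
      intro w
      rw [pow_succ', Equiv.Perm.mul_apply, h, ih, pow_succ]
      ring
  have hA1 : ∀ M : ℕ, ζ ^ M = 1 → A ^ M = 1 := by
    intro M hM
    apply Equiv.ext
    intro w
    apply hc
    rw [hpow, hM, one_mul]
    rfl
  have hkey : ∀ (j : ℕ) (w : F), c w ≠ 0 → (A ^ j) w = w → k ∣ j := by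
    intro j w hw hj
    apply hord
    apply hA1
    have h1 := hpow j w
    rw [hj] at h1
    exact mul_right_cancel₀ hw (by rw [one_mul]; exact h1.symm)
  have hfix : ∀ w, A w = w → c w = 0 := by
    intro w hw
    by_contra hne
    have h1 := hkey 1 w hne (by rw [pow_one]; exact hw)
    have h2 := Nat.le_of_dvd one_pos h1
    omega
  have hzero : ∀ w, c w = 0 → A w = w := by
    intro w hw
    apply hc
    rw [h, hw, mul_zero]
  have hsupp : k ∣ A.support.card := by
    rw [← Equiv.Perm.sum_cycleType]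
    apply Multiset.dvd_sum
    intro n hn
    rw [Equiv.Perm.mem_cycleType_iff] at hn
    obtain ⟨g, τ, hgt, hd, hg, hgn⟩ := hn
    obtain ⟨w, hw⟩ : ∃ w, g w ≠ w := by
      obtain ⟨w, hw, -⟩ := hg
      exact ⟨w, hw⟩
    have hτ : τ w = w := by
      rcases hd w with h1 | h1
      · exact absurd h1 hw
      · exact h1
    have hAw : A w ≠ w := by
      rw [hgt, Equiv.Perm.mul_apply, hτ]
      exact hw
    have hcw : c w ≠ 0 := fun h0 => hAw (hzero w h0)
    refine hkey n w hcw ?_
    rw [hgt, hd.commute.mul_pow, Equiv.Perm.mul_apply]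
    have h1 : (τ ^ n) w = w := Equiv.Perm.pow_apply_eq_self_of_apply_eq_self hτ n
    have h2 : g ^ n = 1 := by
      rw [← hgn, ← hg.orderOf]
      exact pow_orderOf_eq_one g
    rw [h1, h2]
    rfl
  have hcc := Finset.card_add_card_compl A.support
  have hle : (A.supportᶜ).card ≤ 1 := by
    rw [Finset.card_le_one]
    intro a ha b hb
    rw [Finset.mem_compl, Equiv.Perm.notMem_support] at ha hb
    exact hc ((hfix a ha).trans (hfix b hb).symm)
  rw [Nat.card_eq_fintype_card, ← hcc]
  constructor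
  · intro hmod
    have h1 : (A.supportᶜ).card = 1 := by
      by_contra hne
      have h0 : (A.supportᶜ).card = 0 := by omega
      rw [h0, add_zero] at hmod
      have h4 : 1 ≡ 0 [MOD k] := hmod.symm.trans (Nat.modEq_zero_iff_dvd.2 hsupp)
      have h2 : k ∣ 1 := Nat.modEq_zero_iff_dvd.1 h4
      have h7 := Nat.le_of_dvd one_pos h2
      omega
    obtain ⟨p, hp⟩ := Finset.card_eq_one.1 h1
    have hpm : p ∈ A.supportᶜ := by rw [hp]; exact Finset.mem_singleton_self p
    rw [Finset.mem_compl, Equiv.Perm.notMem_support] at hpm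
    refine ⟨p, hpm, fun j hj0 hjk w hw => ?_⟩
    have hcw : c w = 0 := by
      by_contra hne
      have h2 := Nat.le_of_dvd hj0 (hkey j w hne hw)
      omega
    exact hc (hcw.trans (hfix p hpm).symm)
  · intro hdvd w hw
    have h1 : k ∣ (A.supportᶜ).card := (Nat.dvd_add_right hsupp).1 hdvd
    have h2 : w ∈ A.supportᶜ := by
      rw [Finset.mem_compl, Equiv.Perm.notMem_support]
      exact hw
    have h3 : 0 < (A.supportᶜ).card := Finset.card_pos.2 ⟨w, h2⟩
    have h4 := Nat.le_of_dvd h3 h1
    omega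

end Pool.Agent.Helper2.LN
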