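import Pool.Agent.Helper2.LN.GrpA

/-!
# LN-G3 (MP_730da0_ag): the core of the group theory: `σ_0 p = p`

`P = {g : g p = p}`.  `A ∈ P`.  Everything that commutes with some `A^j`, `0 < j < k`, is in `P`
[`A^j (g p) = g (A^j p) = g p`, so `g p = p` by `hp`].

Paper proof (refereed: helper26, helper88).
(c) Two primes `q < r` divide `k`, `q` the smallest prime factor, `a = k/q`, `b = k/r`.  `E_q(i) = ∏_(t<q) σ_(i+ta)` commutes with
`A^a`, so is in `P` (its factors commute pairwise, as `a ≥ 2`, `k ≥ 6`); same for `E_r(i)` (spacing `b`).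
(d) `k ≠ 6`: `a ≥ 5`.  `b ≥ 3`: write `E_q(0) = σ_0 X'`, `E_r(1) = σ_1 Y'`, `E_q(2) = σ_2 W'` (`X', Y', W'` = the factors `t, s ≥ 1`).
`X'` and `Y'` commute with `σ_0, σ_1, σ_2`, so `C = [E_q(0), E_r(1)] = [σ_0, σ_1] Z`, `Z = [X', Y']` commutes with `σ_0, σ_1, σ_2`.
`W'` commutes with `σ_0, σ_1, σ_2` and with `Z`: a factor `w = σ_(2+ta)`, `t ≥ 1`, commutes with `X'` and with all factors of `Y'`
except possibly ONE `y = σ_(1+sb)`, `1+sb = ta+3` (`1 + sb = ta + 2` is `w` itself; `1+sb = ta+1` is excluded: `b ∣ ta` iff `q ∣ t`),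
and `y` commutes with `X'` (`a ≥ 5`), so `Z = [X', Y' without y]` commutes with `w`.  Hence
`[C, E_q(2)] = [σ_1^-1 σ_0, σ_2]`-type word `= σ_1^-1 σ_2 σ_1 σ_2^-1 = σ_2 σ_1 σ_2^-2 ∈ P`; conjugating by `E_q(2)^-1`
(`W'` commutes with `σ_1, σ_2`): `σ_1 σ_2^-1 ∈ P`.
`b = 2`: `k = 2r`, `q = 2`, `r ≥ 5`: `C = [σ_0, σ_(-1) σ_1] ∈ P`.  `E_2(j)` acts as `σ_j` on `L = ⟨σ_-1, .., σ_2⟩` (by conjugation) for
`j = -1..2`, so `L ∩ P` is normal in `L`, i.e. every element of `L` fixing `p` fixes the orbit `L p` pointwise; on `L p`: `σ_0`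
commutes with `c = σ_-1 σ_1` and with `c' = σ_2 c σ_2^-1`, so with `c^-1 c' = σ_1^-1 σ_2 σ_1 σ_2^-1 = σ_2 σ_1 σ_2^-2`, and with
`σ_2`, so with `σ_1`; braid: `σ_0 = σ_1` on `L p`.
(e) so `σ_i σ_(i+1)^-1 ∈ P` for all `i` (conjugate by `A`), and with `E_q(0), E_r(0) ∈ P`: `σ_0^q, σ_0^r ∈ P`, `σ_0 ∈ P`.
(f) `k = 6`: `σ_(i+3) p = σ_i^-1 p`, `σ_i σ_(i+2) σ_(i+4) p = p`.  `x_i = σ_i p`.  `σ_i : x_(i+3) ↦ p ↦ x_i`, `x_(i+2) ↦ x_(i+1)`,
`x_(i-2) ↦ x_(i-1)`.  `v_i = σ_i x_i`, `u_i = σ_i x_(i+1)`, `t_i = σ_(i+1) x_i`.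
commuting 0,2 on `x_0`, `x_2`: `σ_2 v_0 = u_0`, `σ_0 v_2 = t_1`; commuting 0,3 on `x_2`: `σ_0 t_2 = x_2`; braid 0,1 on `x_3`:
`u_0 = v_1`; on `x_4`: `v_0 = t_0`.  So (rotate by `A`, `A p = p`) `t_i = v_i`: `σ_0 v_2 = t_1 = v_1` and `σ_0 v_2 = σ_0 t_2 = x_2`, so
`σ_1 x_1 = v_1 = x_2 = σ_1 x_3`, `x_1 = x_3`, `x_i = x_(i+2)`; `p = σ_0 x_3 = σ_0 x_1 = u_0 = v_1 = x_2`.
-/

namespace Pool.Agent.Helper2.LN

/-! ### Integer indices in an abstract group -/

private structure Dat {G : Type*} [Group G] (k : ℕ) (A : G) (s : ℤ → G) (P : Subgroup G) : Prop where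
  hA : A ∈ P
  hconj : ∀ m, A * s m * A⁻¹ = s (m + 1)
  hper : ∀ m, s (m + k) = s m
  hbr : ∀ m, s m * s (m + 1) * s m = s (m + 1) * s m * s (m + 1)
  hco : ∀ m n, ¬ (k : ℤ) ∣ n - m - 1 → ¬ (k : ℤ) ∣ m - n - 1 → Commute (s m) (s n)
  hP : ∀ (g : G) (j : ℕ), 0 < j → j < k → Commute g (A ^ j) → g ∈ P

/-- The product of `s (m + (t+1) a)`, `t < n`. -/
private def XX {G : Type*} [Group G] (s : ℤ → G) (a m : ℤ) : ℕ → G
  | 0 => 1
  | (n + 1) => XX s a m n * s (m + (n + 1) * a)

open scoped commutatorElement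

section abs
variable {G : Type*} [Group G] {k : ℕ} {A : G} {s : ℤ → G} {P : Subgroup G}

private lemma XX_comm (a m : ℤ) (g : G) (n : ℕ)
    (h : ∀ t : ℕ, t < n → Commute g (s (m + (t + 1) * a))) : Commute g (XX s a m n) := by
  induction n with
  | zero => exact Commute.one_right g
  | succ n ih =>
    exact (ih (fun t ht => h t (by omega))).mul_right (h n (by omega))

private lemma XX_split (a m : ℤ) (n j : ℕ) (hj : j < n) :
    ∃ U V : G, XX s a m n = U * s (m + (j + 1) * a) * V ∧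
      ∀ g, (∀ i : ℕ, i < n → i ≠ j → Commute g (s (m + (i + 1) * a))) → Commute g U ∧ Commute g V := by
  induction n with
  | zero => omega
  | succ n ih =>
    by_cases hjn : j = n
    · subst hjn
      refine ⟨XX s a m j, 1, by rw [mul_one]; rfl, fun g hg => ⟨?_, Commute.one_right g⟩⟩
      exact XX_comm a m g j (fun t ht => hg t (by omega) (by omega))
    · obtain ⟨U, V, h1, h2⟩ := ih (by omega)
      refine ⟨U, V * s (m + (n + 1) * a), ?_, fun g hg => ?_⟩
      · show XX s a m n * s (m + (n + 1) * a) = _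
        rw [h1, mul_assoc]
      · obtain ⟨h3, h4⟩ := h2 g (fun i hi hij => hg i (by omega) hij)
        exact ⟨h3, h4.mul_right (hg n (by omega) (Ne.symm hjn))⟩

private lemma XX_shift (a m : ℤ) (n : ℕ) :
    s (m + a) * XX s a (m + a) n = XX s a m (n + 1) := by
  induction n with
  | zero => simp [XX]
  | succ n ih =>
    show s (m + a) * (XX s a (m + a) n * s (m + a + (n + 1) * a)) =
      XX s a m (n + 1) * s (m + ((n + 1 : ℕ) + 1) * a)
    rw [← mul_assoc, ih]
    congr 2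
    push_cast
    ring

private lemma conj_pow (D : Dat k A s P) (j : ℕ) (m : ℤ) : A ^ j * s m * (A ^ j)⁻¹ = s (m + j) := by
  induction j with
  | zero => simp
  | succ j ih =>
    have h : A ^ (j + 1) * s m * (A ^ (j + 1))⁻¹ = A * (A ^ j * s m * (A ^ j)⁻¹) * A⁻¹ := by
      rw [pow_succ' A j]; group
    rw [h, ih, D.hconj]
    congr 1
    push_cast
    ring

private lemma XX_conj (D : Dat k A s P) (j : ℕ) (a m : ℤ) (n : ℕ) :
    A ^ j * XX s a m n * (A ^ j)⁻¹ = XX s a (m + j) n := by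
  induction n with
  | zero => simp [XX]
  | succ n ih =>
    show A ^ j * (XX s a m n * s (m + (n + 1) * a)) * (A ^ j)⁻¹ =
      XX s a (m + j) n * s (m + j + (n + 1) * a)
    have h : A ^ j * (XX s a m n * s (m + (n + 1) * a)) * (A ^ j)⁻¹ =
        (A ^ j * XX s a m n * (A ^ j)⁻¹) * (A ^ j * s (m + (n + 1) * a) * (A ^ j)⁻¹) := by group
    rw [h, ih, conj_pow D]
    congr 2
    ring

private lemma dvd_eq {a b c : ℤ} (h : a ∣ b) (e : b = c) : a ∣ c := e ▸ h

private lemma nd {k : ℕ} {a : ℤ} (ha : a ∣ (k : ℤ)) {u v : ℤ} (h : (k : ℤ) ∣ u * a + v) : a ∣ v :=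
  (Int.dvd_add_right (Dvd.intro_left u rfl)).1 (ha.trans h)

private lemma nd_lt {a v : ℤ} (hv : 0 < v) (hva : v < a) (h : a ∣ v) : False := by
  have := Int.le_of_dvd hv h
  omega

private lemma nd_lt' {a v : ℤ} (hv : 0 < v) (hva : v < a) (h : a ∣ -v) : False :=
  nd_lt hv hva ((dvd_neg).1 h)

/-- `σ_m` commutes with the rest of its arithmetic progression. -/
private lemma self_comm (D : Dat k A s P) (q α : ℕ) (hqα : q * α = k) (hα : 2 ≤ α) (m : ℤ) (u : ℤ) :
    Commute (s m) (s (m + u * α)) := by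
  have hd : (α : ℤ) ∣ (k : ℤ) := ⟨q, by rw [← hqα]; push_cast; ring⟩
  apply D.hco
  · intro h
    have h1 : (k : ℤ) ∣ u * α + -1 := by convert h using 1; ring
    exact nd_lt' one_pos (by omega) (nd hd h1)
  · intro h
    have h1 : (k : ℤ) ∣ (-u) * α + -1 := by convert h using 1; ring
    exact nd_lt' one_pos (by omega) (nd hd h1)

private lemma EE_mem (D : Dat k A s P) (q α : ℕ) (hq : 2 ≤ q) (hqα : q * α = k) (hα : 2 ≤ α) (m : ℤ) :
    s m * XX s α m (q - 1) ∈ P := by
  have hlt : α < k := by nlinarith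
  apply D.hP _ α (by omega) hlt
  have hc : Commute (s m) (XX s α m (q - 1)) :=
    XX_comm _ _ _ _ (fun t _ => by
      have := self_comm D q α hqα hα m (t + 1)
      simpa using this)
  have h1 : A ^ α * (s m * XX s α m (q - 1)) * (A ^ α)⁻¹ = s m * XX s α m (q - 1) := by
    have h2 : A ^ α * (s m * XX s α m (q - 1)) * (A ^ α)⁻¹ =
        (A ^ α * s m * (A ^ α)⁻¹) * (A ^ α * XX s α m (q - 1) * (A ^ α)⁻¹) := by group
    rw [h2, conj_pow D, XX_conj D, XX_shift]
    show XX s α m (q - 1) * s (m + (((q - 1 : ℕ) : ℤ) + 1) * α) = _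
    have h3 : m + (((q - 1 : ℕ) : ℤ) + 1) * α = m + k := by
      rw [← hqα]
      push_cast [Nat.cast_sub (by omega : 1 ≤ q)]
      ring
    rw [h3, D.hper, hc.eq]
  show (s m * XX s α m (q - 1)) * A ^ α = A ^ α * (s m * XX s α m (q - 1))
  calc (s m * XX s α m (q - 1)) * A ^ α
      = (A ^ α * (s m * XX s α m (q - 1)) * (A ^ α)⁻¹) * A ^ α := by rw [h1]
    _ = A ^ α * (s m * XX s α m (q - 1)) := by group

private lemma comm_mul_comm (a b x y : G) (hxa : Commute x a) (hxb : Commute x b) (hya : Commute y a)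
    (hyb : Commute y b) : ⁅a * x, b * y⁆ = ⁅a, b⁆ * ⁅x, y⁆ := by
  rw [commutatorElement_def, commutatorElement_def, commutatorElement_def]
  have h1 : a * x * (b * y) = a * b * (x * y) := by
    rw [mul_assoc, ← mul_assoc x b y, hxb.eq]; group
  have h2 : (a * x)⁻¹ * (b * y)⁻¹ = a⁻¹ * b⁻¹ * (x⁻¹ * y⁻¹) := by
    have h3 : (a * x)⁻¹ = a⁻¹ * x⁻¹ := by rw [← hxa.eq]; group
    have h4 : (b * y)⁻¹ = b⁻¹ * y⁻¹ := by rw [← hyb.eq]; group
    rw [h3, h4]
    have h5 : x⁻¹ * b⁻¹ = b⁻¹ * x⁻¹ := (hxb.inv_inv).eq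
    calc a⁻¹ * x⁻¹ * (b⁻¹ * y⁻¹) = a⁻¹ * (x⁻¹ * b⁻¹) * y⁻¹ := by group
      _ = a⁻¹ * b⁻¹ * (x⁻¹ * y⁻¹) := by rw [h5]; group
  have h6 : Commute (x * y) (a⁻¹ * b⁻¹) :=
    ((hxa.mul_left hya).inv_right).mul_right ((hxb.mul_left hyb).inv_right)
  calc a * x * (b * y) * (a * x)⁻¹ * (b * y)⁻¹
      = (a * x * (b * y)) * ((a * x)⁻¹ * (b * y)⁻¹) := by group
    _ = (a * b) * ((x * y) * (a⁻¹ * b⁻¹)) * (x⁻¹ * y⁻¹) := by rw [h1, h2]; group
    _ = (a * b) * ((a⁻¹ * b⁻¹) * (x * y)) * (x⁻¹ * y⁻¹) := by rw [h6.eq]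
    _ = a * b * a⁻¹ * b⁻¹ * (x * y * x⁻¹ * y⁻¹) := by group

/-- `[[x, y], z] = z y z⁻¹ z⁻¹` for a braid chain `x, y, z`. -/
private lemma chain_word (x y z : G) (hxy : x * y * x = y * x * y) (hyz : y * z * y = z * y * z)
    (hxz : Commute x z) : ⁅⁅x, y⁆, z⁆ = z * y * z⁻¹ * z⁻¹ := by
  have h1 : x * y * x⁻¹ = y⁻¹ * x * y := by
    rw [mul_inv_eq_iff_eq_mul]
    calc x * y = y⁻¹ * (y * x * y) := by group
      _ = y⁻¹ * (x * y * x) := by rw [hxy]
      _ = y⁻¹ * x * y * x := by group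
  have h2 : ⁅x, y⁆ = y⁻¹ * x := by
    rw [commutatorElement_def, h1]; group
  have h3 : y⁻¹ * z * y = z * y * z⁻¹ := by
    rw [eq_mul_inv_iff_mul_eq]
    calc y⁻¹ * z * y * z = y⁻¹ * (z * y * z) := by group
      _ = y⁻¹ * (y * z * y) := by rw [hyz]
      _ = z * y := by group
  rw [h2, commutatorElement_def]
  calc y⁻¹ * x * z * (y⁻¹ * x)⁻¹ * z⁻¹ = y⁻¹ * (x * z * x⁻¹) * y * z⁻¹ := by group
    _ = y⁻¹ * z * y * z⁻¹ := by rw [hxz.eq]; group
    _ = z * y * z⁻¹ * z⁻¹ := by rw [h3]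

private lemma comm_mem {x y : G} (hx : x ∈ P) (hy : y ∈ P) : ⁅x, y⁆ ∈ P := by
  rw [commutatorElement_def]
  exact P.mul_mem (P.mul_mem (P.mul_mem hx hy) (P.inv_mem hx)) (P.inv_mem hy)

private lemma caseA (D : Dat k A s P) (q r α β : ℕ) (hq : q.Prime) (hr : r.Prime) (hqr : q ≠ r)
    (hqα : q * α = k) (hrβ : r * β = k) (hα : 5 ≤ α) (hβ : 3 ≤ β) : s 1 * (s 2)⁻¹ ∈ P := by
  have hdα : (α : ℤ) ∣ (k : ℤ) := ⟨q, by rw [← hqα]; push_cast; ring⟩
  have hdβ : (β : ℤ) ∣ (k : ℤ) := ⟨r, by rw [← hrβ]; push_cast; ring⟩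
  have hα' : (5 : ℤ) ≤ α := by exact_mod_cast hα
  have hβ' : (3 : ℤ) ≤ β := by exact_mod_cast hβ
  have hk0 : (0 : ℤ) < k := by
    have h0 := hq.pos
    rw [← hqα]; push_cast; positivity
  -- a multiple `(t+1) β`, `t + 1 < r`, is not divisible by `k`
  have hmulβ : ∀ t : ℕ, t < r - 1 → ¬ (k : ℤ) ∣ ((t : ℤ) + 1) * β := by
    intro t ht h
    have h1 : k ∣ (t + 1) * β := by exact_mod_cast h
    rw [← hrβ] at h1
    have h2 : r ∣ t + 1 := Nat.dvd_of_mul_dvd_mul_right (by omega) h1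
    have := Nat.le_of_dvd (by omega) h2
    omega
  have hmulα : ∀ t : ℕ, t < q - 1 → ¬ (k : ℤ) ∣ ((t : ℤ) + 1) * α := by
    intro t ht h
    have h1 : k ∣ (t + 1) * α := by exact_mod_cast h
    rw [← hqα] at h1
    have h2 : q ∣ t + 1 := Nat.dvd_of_mul_dvd_mul_right (by omega) h1
    have := Nat.le_of_dvd (by omega) h2
    omega
  set X := XX s α 0 (q - 1) with hX
  set Y := XX s β 1 (r - 1) with hY
  set W := XX s α 2 (q - 1) with hW
  have e0 : s 0 * X ∈ P := EE_mem D q α hq.two_le hqα (by omega) 0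
  have e1 : s 1 * Y ∈ P := EE_mem D r β hr.two_le hrβ (by omega) 1
  have e2 : s 2 * W ∈ P := EE_mem D q α hq.two_le hqα (by omega) 2
  -- `X` commutes with `s 0, s 1, s 2`
  have cX : ∀ i : ℤ, i = 0 ∨ i = 1 ∨ i = 2 → Commute (s i) X := by
    intro i hi
    apply XX_comm
    intro t ht
    apply D.hco
    · intro h
      have h1 : (k : ℤ) ∣ ((t : ℤ) + 1) * α + (-(i + 1)) := by convert h using 1; ring
      exact nd_lt' (by omega) (by omega) (nd hdα h1)
    · intro h
      rcases hi with hi | hi | hi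
      · subst hi
        have h1 : (k : ℤ) ∣ (-((t : ℤ) + 1)) * α + (-1) := by convert h using 1; ring
        exact nd_lt' (by omega) (by omega) (nd hdα h1)
      · subst hi
        apply hmulα t ht
        have h1 : (k : ℤ) ∣ -(1 - (0 + ((t : ℤ) + 1) * α) - 1) := (dvd_neg).2 h
        convert h1 using 1; ring
      · subst hi
        have h1 : (k : ℤ) ∣ (-((t : ℤ) + 1)) * α + 1 := by convert h using 1; ring
        exact nd_lt (by omega) (by omega) (nd hdα h1)
  have cW : ∀ i : ℤ, i = 0 ∨ i = 1 ∨ i = 2 → Commute (s i) W := by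
    intro i hi
    apply XX_comm
    intro t ht
    apply D.hco
    · intro h
      rcases hi with hi | hi | hi
      · subst hi
        have h1 : (k : ℤ) ∣ (((t : ℤ) + 1)) * α + 1 := by convert h using 1; ring
        exact nd_lt (by omega) (by omega) (nd hdα h1)
      · subst hi
        apply hmulα t ht
        convert h using 1; ring
      · subst hi
        have h1 : (k : ℤ) ∣ (((t : ℤ) + 1)) * α + (-1) := by convert h using 1; ring
        exact nd_lt' (by omega) (by omega) (nd hdα h1)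
    · intro h
      have h1 : (k : ℤ) ∣ (-((t : ℤ) + 1)) * α + (-(3 - i)) := by convert h using 1; ring
      exact nd_lt' (by omega) (by omega) (nd hdα h1)
  have cY : ∀ i : ℤ, i = 0 ∨ i = 1 ∨ i = 2 → Commute (s i) Y := by
    intro i hi
    apply XX_comm
    intro t ht
    apply D.hco
    · intro h
      rcases hi with hi | hi | hi
      · subst hi
        apply hmulβ t ht
        convert h using 1; ring
      · subst hi
        have h1 : (k : ℤ) ∣ (((t : ℤ) + 1)) * β + (-1) := by convert h using 1; ring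
        exact nd_lt' (by omega) (by omega) (nd hdβ h1)
      · subst hi
        have h1 : (k : ℤ) ∣ (((t : ℤ) + 1)) * β + (-2) := by convert h using 1; ring
        exact nd_lt' (by omega) (by omega) (nd hdβ h1)
    · intro h
      rcases hi with hi | hi | hi
      · subst hi
        have h1 : (k : ℤ) ∣ (-((t : ℤ) + 1)) * β + (-2) := by convert h using 1; ring
        exact nd_lt' (by omega) (by omega) (nd hdβ h1)
      · subst hi
        have h1 : (k : ℤ) ∣ (-((t : ℤ) + 1)) * β + (-1) := by convert h using 1; ring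
        exact nd_lt' (by omega) (by omega) (nd hdβ h1)
      · subst hi
        apply hmulβ t ht
        have h1 : (k : ℤ) ∣ -(2 - (1 + ((t : ℤ) + 1) * β) - 1) := (dvd_neg).2 h
        convert h1 using 1; ring
  -- `W` commutes with `⁅X, Y⁆`
  have cZ : Commute ⁅X, Y⁆ W := by
    apply XX_comm
    intro t ht
    -- the factor `w`
    have hwX : Commute (s (2 + ((t : ℤ) + 1) * α)) X := by
      apply XX_comm
      intro t' ht'
      apply D.hco
      · intro h
        have h1 : (k : ℤ) ∣ (((t' : ℤ) - t)) * α + (-3) := by convert h using 1; ring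
        exact nd_lt' (by omega) (by omega) (nd hdα h1)
      · intro h
        have h1 : (k : ℤ) ∣ (((t : ℤ) - t')) * α + 1 := by convert h using 1; ring
        exact nd_lt (by omega) (by omega) (nd hdα h1)
    have hwY : ∀ j : ℕ, ¬ (k : ℤ) ∣ (((j : ℤ) + 1) * β - ((t : ℤ) + 1) * α - 2) →
        Commute (s (2 + ((t : ℤ) + 1) * α)) (s (1 + ((j : ℤ) + 1) * β)) := by
      intro j hj
      apply D.hco
      · intro h
        apply hj
        convert h using 1; ring
      · intro h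
        -- `(t+1) α ≡ (j+1) β`
        have h1 : (k : ℤ) ∣ ((t : ℤ) + 1) * α - ((j : ℤ) + 1) * β := by convert h using 1; ring
        have h2 : (k : ℤ) ∣ r * (((t : ℤ) + 1) * α - ((j : ℤ) + 1) * β) := h1.mul_left _
        have h3 : (k : ℤ) ∣ r * (((j : ℤ) + 1) * β) := ⟨(j : ℤ) + 1, by rw [← hrβ]; push_cast; ring⟩
        have h4 : (k : ℤ) ∣ r * (((t : ℤ) + 1) * α) := by
          have := dvd_add h2 h3
          exact dvd_eq this (by ring)
        have h5 : q * α ∣ (r * (t + 1)) * α := by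
          rw [hqα]
          have : (k : ℤ) ∣ (((r * (t + 1)) * α : ℕ) : ℤ) := by
            convert h4 using 1; push_cast; ring
          exact_mod_cast this
        have h6 : q ∣ r * (t + 1) := Nat.dvd_of_mul_dvd_mul_right (by omega) h5
        have h7 : q ∣ t + 1 := by
          rcases (hq.dvd_mul).1 h6 with h | h
          · exact absurd ((Nat.prime_dvd_prime_iff_eq hq hr).1 h) hqr
          · exact h
        have := Nat.le_of_dvd (by omega) h7
        omega
    by_cases hex : ∃ j : ℕ, j < r - 1 ∧ (k : ℤ) ∣ (((j : ℤ) + 1) * β - ((t : ℤ) + 1) * α - 2)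
    · obtain ⟨j, hj, hjd⟩ := hex
      obtain ⟨U, V, hUV, hc⟩ := XX_split (s := s) (β : ℤ) 1 (r - 1) j hj
      -- `y` commutes with `X`
      have hyX : Commute (s (1 + ((j : ℤ) + 1) * β)) X := by
        apply XX_comm
        intro t' ht'
        apply D.hco
        · intro h
          have h0 := dvd_add h hjd
          have h1 : (k : ℤ) ∣ (((t' : ℤ) - t)) * α + (-4) := dvd_eq h0 (by ring)
          exact nd_lt' (by omega) (by omega) (nd hdα h1)
        · intro h
          have h0 := dvd_sub h hjd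
          have h1 : (k : ℤ) ∣ (((t : ℤ) - t')) * α + 2 := dvd_eq h0 (by ring)
          exact nd_lt (by omega) (by omega) (nd hdα h1)
      have hyYf : ∀ i : ℕ, Commute (s (1 + ((j : ℤ) + 1) * β)) (s (1 + ((i : ℤ) + 1) * β)) := by
        intro i
        apply D.hco
        · intro h
          have h1 : (k : ℤ) ∣ (((i : ℤ) - j)) * β + (-1) := by convert h using 1; ring
          exact nd_lt' (by omega) (by omega) (nd hdβ h1)
        · intro h
          have h1 : (k : ℤ) ∣ (((j : ℤ) - i)) * β + (-1) := by convert h using 1; ring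
          exact nd_lt' (by omega) (by omega) (nd hdβ h1)
      obtain ⟨hyU, hyV⟩ := hc _ (fun i _ _ => hyYf i)
      obtain ⟨hwU, hwV⟩ := hc (s (2 + ((t : ℤ) + 1) * α)) (fun i hi hij => by
        apply hwY i
        intro h
        have h0 := dvd_sub h hjd
        have h1 : (k : ℤ) ∣ ((i : ℤ) - j) * β := dvd_eq h0 (by ring)
        have h2 : ((r * β : ℕ) : ℤ) ∣ ((i : ℤ) - j) * β := by rw [hrβ]; exact h1
        push_cast at h2
        have h3 : (r : ℤ) ∣ (i : ℤ) - j := Int.dvd_of_mul_dvd_mul_right (by omega) h2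
        apply hij
        have h4 : (i : ℤ) - j = 0 := by
          apply Int.eq_zero_of_abs_lt_dvd h3
          rw [abs_lt]
          constructor <;> omega
        omega)
      -- `⁅X, Y⁆ = ⁅X, U V⁆`
      have hYe : Y = (U * V) * s (1 + ((j : ℤ) + 1) * β) := by
        rw [hY, hUV, mul_assoc, mul_assoc, hyV.eq]
      have hZ : ⁅X, Y⁆ = ⁅X, U * V⁆ := by
        have h1 := comm_mul_comm X (U * V) 1 (s (1 + ((j : ℤ) + 1) * β)) (Commute.one_left _)
          (Commute.one_left _) hyX (hyU.mul_right hyV)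
        rw [mul_one, ← hYe] at h1
        rw [h1]
        simp [commutatorElement_def]
      rw [hZ, commutatorElement_def]
      have hw : Commute (s (2 + ((t : ℤ) + 1) * α)) (U * V) := hwU.mul_right hwV
      exact (((hwX.mul_right hw).mul_right hwX.inv_right).mul_right hw.inv_right).symm
    · have hwY' : Commute (s (2 + ((t : ℤ) + 1) * α)) Y := by
        apply XX_comm
        intro j hj
        exact hwY j (fun h => hex ⟨j, hj, h⟩)
      rw [commutatorElement_def]
      exact (((hwX.mul_right hwY').mul_right hwX.inv_right).mul_right hwY'.inv_right).symm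
  -- the double commutator
  have c1 : ⁅s 0 * X, s 1 * Y⁆ = ⁅s 0, s 1⁆ * ⁅X, Y⁆ :=
    comm_mul_comm _ _ _ _ (cX 0 (by simp)).symm (cX 1 (by simp)).symm (cY 0 (by simp)).symm
      (cY 1 (by simp)).symm
  have cZs : ∀ i : ℤ, i = 0 ∨ i = 1 ∨ i = 2 → Commute (s i) ⁅X, Y⁆ := by
    intro i hi
    rw [commutatorElement_def]
    exact ((((cX i hi).mul_right (cY i hi)).mul_right (cX i hi).inv_right).mul_right
      (cY i hi).inv_right)
  have c01 : ∀ g : G, Commute (s 0) g → Commute (s 1) g → Commute ⁅s 0, s 1⁆ g := by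
    intro g h0 h1
    rw [commutatorElement_def]
    exact ((h0.mul_left h1).mul_left h0.inv_left).mul_left h1.inv_left
  have c2 : ⁅⁅s 0, s 1⁆ * ⁅X, Y⁆, s 2 * W⁆ = ⁅⁅s 0, s 1⁆, s 2⁆ * ⁅⁅X, Y⁆, W⁆ :=
    comm_mul_comm _ _ _ _ (c01 _ (cZs 0 (by simp)) (cZs 1 (by simp))).symm (cZs 2 (by simp)).symm
      (c01 _ (cW 0 (by simp)) (cW 1 (by simp))).symm (cW 2 (by simp)).symm
  have c3 : ⁅⁅X, Y⁆, W⁆ = 1 := commutatorElement_eq_one_iff_commute.2 cZ
  have h02 : Commute (s 0) (s 2) := by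
    have hk10 : (10 : ℤ) ≤ k := by
      have := hq.two_le
      have : 10 ≤ k := by rw [← hqα]; nlinarith
      exact_mod_cast this
    apply D.hco
    · intro h
      have := Int.le_of_dvd (by norm_num) h
      omega
    · intro h
      have h1 : (k : ℤ) ∣ 3 := by
        have := (dvd_neg).2 h
        norm_num at this
        exact this
      have := Int.le_of_dvd (by norm_num) h1
      omega
  have b01 := D.hbr 0
  have b12 := D.hbr 1
  norm_num at b01 b12
  have hw := chain_word (s 0) (s 1) (s 2) b01 b12 h02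
  have m1 : s 2 * s 1 * (s 2)⁻¹ * (s 2)⁻¹ ∈ P := by
    rw [← hw]
    have := comm_mem (comm_mem e0 e1) e2
    rw [c1, c2, c3, mul_one] at this
    exact this
  have m2 : (s 2 * W)⁻¹ * (s 2 * s 1 * (s 2)⁻¹ * (s 2)⁻¹) * (s 2 * W) ∈ P :=
    P.mul_mem (P.mul_mem (P.inv_mem e2) m1) e2
  have m3 : (s 2 * W)⁻¹ * (s 2 * s 1 * (s 2)⁻¹ * (s 2)⁻¹) * (s 2 * W) = s 1 * (s 2)⁻¹ := by
    have h5 : Commute (s 1 * (s 2)⁻¹) W := (cW 1 (by simp)).mul_left (cW 2 (by simp)).inv_left
    calc (s 2 * W)⁻¹ * (s 2 * s 1 * (s 2)⁻¹ * (s 2)⁻¹) * (s 2 * W)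
        = W⁻¹ * ((s 1 * (s 2)⁻¹) * W) := by group
      _ = W⁻¹ * (W * (s 1 * (s 2)⁻¹)) := by rw [h5.eq]
      _ = s 1 * (s 2)⁻¹ := by group
  rwa [m3] at m2

/-- In a group: `a` commutes with `x b`, `c` commutes with `a` and `x`; braid relations; then `a = b`. -/
private lemma small_word {H : Type*} [Group H] (x a b c : H) (h1 : Commute a (x * b)) (hca : Commute c a)
    (hcx : Commute c x) (hbc : b * c * b = c * b * c) (hab : a * b * a = b * a * b) : a = b := by
  have h2 : Commute a (c * (x * b) * c⁻¹) := ((hca.symm.mul_right h1).mul_right hca.symm.inv_right)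
  have h3 : Commute a ((x * b)⁻¹ * (c * (x * b) * c⁻¹)) := h1.inv_right.mul_right h2
  have h4 : (x * b)⁻¹ * (c * (x * b) * c⁻¹) = c * b * c⁻¹ * c⁻¹ := by
    have h5 : b⁻¹ * c * b = c * b * c⁻¹ := by
      rw [eq_mul_inv_iff_mul_eq]
      calc b⁻¹ * c * b * c = b⁻¹ * (c * b * c) := by group
        _ = b⁻¹ * (b * c * b) := by rw [hbc]
        _ = c * b := by group
    calc (x * b)⁻¹ * (c * (x * b) * c⁻¹) = b⁻¹ * (x⁻¹ * (c * x)) * b * c⁻¹ := by group
      _ = b⁻¹ * c * b * c⁻¹ := by rw [hcx.eq]; group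
      _ = c * b * c⁻¹ * c⁻¹ := by rw [h5]
  rw [h4] at h3
  have h6 : Commute a b := by
    have h7 : b = c⁻¹ * (c * b * c⁻¹ * c⁻¹) * c * c := by group
    rw [h7]
    exact ((hca.symm.inv_right.mul_right h3).mul_right hca.symm).mul_right hca.symm
  have h8 : a * b * a = b * b * a := by
    rw [hab]
    rw [mul_assoc, h6.eq, ← mul_assoc]
  have h9 : a * b = b * b := mul_right_cancel h8
  exact mul_right_cancel h9

/-- If conjugation by elements of `P` induces on `L` the conjugations by generators of `L`, then `P ⊓ L` is normal in `L`. -/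
private lemma normal_of {L : Subgroup G} (S : Set G) (hL : L = Subgroup.closure S)
    (hS : ∀ g ∈ S, ∃ e ∈ P, ∀ x ∈ L, e * x * e⁻¹ = g * x * g⁻¹) : (P.subgroupOf L).Normal := by
  -- the set of `g` in `L` such that conjugation by `g` and by `g⁻¹` preserves `P ⊓ L`
  have key : ∀ g ∈ L, ∀ x, x ∈ P → x ∈ L → (g * x * g⁻¹ ∈ P ∧ g⁻¹ * x * g ∈ P) := by
    intro g hg
    have hSL : ∀ y ∈ S, y ∈ L := fun y hy => by rw [hL]; exact Subgroup.subset_closure hy
    rw [hL] at hg
    induction hg using Subgroup.closure_induction with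
    | mem y hy =>
      intro x hxP hxL
      obtain ⟨e, he, hc⟩ := hS y hy
      have hyL := hSL y hy
      refine ⟨?_, ?_⟩
      · rw [← hc x hxL]
        exact P.mul_mem (P.mul_mem he hxP) (P.inv_mem he)
      · have h1 := hc (y⁻¹ * x * y) (L.mul_mem (L.mul_mem (L.inv_mem hyL) hxL) hyL)
        have h2 : y⁻¹ * x * y = e⁻¹ * x * e := by
          have h3 : e * (y⁻¹ * x * y) * e⁻¹ = x := by rw [h1]; group
          calc y⁻¹ * x * y = e⁻¹ * (e * (y⁻¹ * x * y) * e⁻¹) * e := by group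
            _ = e⁻¹ * x * e := by rw [h3]
        rw [h2]
        exact P.mul_mem (P.mul_mem (P.inv_mem he) hxP) he
    | one => intro x hxP _; simpa using hxP
    | mul y z hy hz ihy ihz =>
      intro x hxP hxL
      rw [← hL] at hy hz
      refine ⟨?_, ?_⟩
      · have h1 := (ihz x hxP hxL).1
        have h2 := (ihy _ h1 (L.mul_mem (L.mul_mem hz hxL) (L.inv_mem hz))).1
        have h3 : y * z * x * (y * z)⁻¹ = y * (z * x * z⁻¹) * y⁻¹ := by group
        rw [h3]; exact h2
      · have h1 := (ihy x hxP hxL).2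
        have h2 := (ihz _ h1 (L.mul_mem (L.mul_mem (L.inv_mem hy) hxL) hy)).2
        have h3 : (y * z)⁻¹ * x * (y * z) = z⁻¹ * (y⁻¹ * x * y) * z := by group
        rw [h3]; exact h2
    | inv y hy ihy =>
      intro x hxP hxL
      have h1 := ihy x hxP hxL
      rw [inv_inv]
      exact ⟨h1.2, h1.1⟩
  constructor
  rintro ⟨n, hn⟩ hnP ⟨g, hg⟩
  rw [Subgroup.mem_subgroupOf] at hnP ⊢
  exact (key g hg n hnP hn).1

private lemma caseB (D : Dat k A s P) (r : ℕ) (hr : r.Prime) (hr5 : 5 ≤ r) (hk : 2 * r = k) :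
    s 0 * (s 1)⁻¹ ∈ P := by
  have hk' : (k : ℤ) = 2 * r := by rw [← hk]; push_cast; ring
  have hr5' : (5 : ℤ) ≤ r := by exact_mod_cast hr5
  have hodd : ¬ (2 : ℤ) ∣ r := by
    intro h
    have h1 : 2 ∣ r := by exact_mod_cast h
    have := (Nat.prime_dvd_prime_iff_eq Nat.prime_two hr).1 h1
    omega
  obtain ⟨u, hu⟩ : ∃ u : ℤ, (r : ℤ) = 2 * u + 1 := ⟨(r : ℤ) / 2, by omega⟩
  -- the products `e j = s j * s (j + r)`
  have hE : ∀ j : ℤ, s j * s (j + r) ∈ P := by
    intro j
    have h := EE_mem D 2 r le_rfl hk (by omega) j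
    have h1 : XX s r j (2 - 1) = s (j + r) := by
      show 1 * s (j + (((0 : ℕ) : ℤ) + 1) * r) = s (j + r)
      rw [one_mul]; congr 1; push_cast; ring
    rwa [h1] at h
  -- small commutations: indices in a window
  have hcw : ∀ i j : ℤ, 2 ≤ j - i → j - i ≤ k - 2 → Commute (s i) (s j) := by
    intro i j h1 h2
    apply D.hco
    · intro h
      have := Int.le_of_dvd (by omega) h
      omega
    · intro h
      have h3 : (k : ℤ) ∣ (j - i + 1) := by
        have := (dvd_neg).2 h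
        exact dvd_eq this (by ring)
      have := Int.le_of_dvd (by omega) h3
      omega
  -- the odd product
  have hO := EE_mem D r 2 (by omega) (by omega) le_rfl 1
  -- split off the last factor
  obtain ⟨n, hn⟩ : ∃ n : ℕ, r - 1 = n + 1 := ⟨r - 2, by omega⟩
  have hnr : (n : ℤ) = r - 2 := by omega
  have hYn : XX s ((2 : ℕ) : ℤ) 1 (r - 1) = XX s 2 1 n * s (-1) := by
    rw [hn]
    show XX s 2 1 n * s (1 + ((n : ℤ) + 1) * 2) = _
    have h1 := D.hper (-1)
    rw [← h1]
    congr 2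
    rw [hnr, hk']
    ring
  set M := XX s 2 1 n with hM
  rw [hYn] at hO
  have cM : ∀ i : ℤ, i = 0 ∨ i = r → Commute (s i) M := by
    intro i hi
    apply XX_comm
    intro t ht
    have ht' : (t : ℤ) < n := by exact_mod_cast ht
    rcases hi with hi | hi
    · subst hi
      exact hcw _ _ (by omega) (by omega)
    · apply D.hco
      · intro h
        have h2 : (2 : ℤ) ∣ 1 + ((t : ℤ) + 1) * 2 - i - 1 := dvd_trans ⟨r, hk'⟩ h
        omega
      · intro h
        have h2 : (2 : ℤ) ∣ i - (1 + ((t : ℤ) + 1) * 2) - 1 := dvd_trans ⟨r, hk'⟩ h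
        omega
  have c0r : Commute (s 0) (s r) := hcw _ _ (by omega) (by omega)
  have codd : ∀ i j : ℤ, (2 : ℤ) ∣ j - i → Commute (s i) (s j) := by
    intro i j hij
    apply D.hco
    · intro h
      have h2 : (2 : ℤ) ∣ j - i - 1 := dvd_trans ⟨r, hk'⟩ h
      omega
    · intro h
      have h2 : (2 : ℤ) ∣ i - j - 1 := dvd_trans ⟨r, hk'⟩ h
      omega
  have cM1 : ∀ i : ℤ, (2 : ℤ) ∣ i - 1 → Commute (s i) M := by
    intro i hi
    apply XX_comm
    intro t ht
    apply codd
    omega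
  -- `⁅s 0, s (-1) * s 1⁆ ∈ P`
  have hC : ⁅s 0, s (-1) * s 1⁆ ∈ P := by
    have h1 := comm_mem (hE 0) hO
    rw [zero_add] at h1
    have h2 : s 1 * (M * s (-1)) = (s (-1) * s 1) * M := by
      have e1 : Commute (s (-1)) M := cM1 _ (by norm_num)
      have e2 : Commute (s 1) (s (-1)) := codd _ _ (by norm_num)
      calc s 1 * (M * s (-1)) = s 1 * (s (-1) * M) := by rw [e1.eq]
        _ = (s 1 * s (-1)) * M := by group
        _ = (s (-1) * s 1) * M := by rw [e2.eq]
    rw [h2] at h1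
    have cr1 : Commute (s r) (s (-1) * s 1) :=
      (codd _ _ (by omega)).mul_right (codd _ _ (by omega))
    have crM : Commute (s r) M := cM _ (Or.inr rfl)
    have c0M : Commute (s 0) M := cM _ (Or.inl rfl)
    have hMc : Commute M (s (-1) * s 1) :=
      ((cM1 _ (by norm_num)).symm.mul_right (cM1 _ (by norm_num)).symm)
    rw [comm_mul_comm _ _ _ _ c0r.symm cr1 c0M.symm hMc] at h1
    have h3 : ⁅s r, M⁆ = 1 := commutatorElement_eq_one_iff_commute.2 crM
    rwa [h3, mul_one] at h1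
  -- the group `L`
  set S : Set G := {s (-1), s 0, s 1, s 2} with hS
  set L := Subgroup.closure S with hL
  have mS : ∀ j : ℤ, j = -1 ∨ j = 0 ∨ j = 1 ∨ j = 2 → s j ∈ L := by
    rintro j (h | h | h | h) <;> subst h <;> exact Subgroup.subset_closure (by simp [hS])
  have hfar : ∀ j : ℤ, (j = -1 ∨ j = 0 ∨ j = 1 ∨ j = 2) → ∀ x ∈ L, Commute (s (j + r)) x := by
    intro j hj x hx
    induction hx using Subgroup.closure_induction with
    | mem y hy =>
      simp only [hS, Set.mem_insert_iff, Set.mem_singleton_iff] at hy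
      rcases hy with hy | hy | hy | hy <;> subst hy <;>
        exact (hcw _ _ (by omega) (by omega)).symm
    | one => exact Commute.one_right _
    | mul y z _ _ ihy ihz => exact ihy.mul_right ihz
    | inv y _ ihy => exact ihy.inv_right
  have hN : (P.subgroupOf L).Normal := by
    apply normal_of S hL
    have hj : ∀ j : ℤ, (j = -1 ∨ j = 0 ∨ j = 1 ∨ j = 2) →
        ∃ e ∈ P, ∀ x ∈ L, e * x * e⁻¹ = s j * x * (s j)⁻¹ := by
      intro j hj
      refine ⟨s j * s (j + r), hE j, fun x hx => ?_⟩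
      have h1 := hfar j hj x hx
      calc s j * s (j + r) * x * (s j * s (j + r))⁻¹
          = s j * (s (j + r) * x * (s (j + r))⁻¹) * (s j)⁻¹ := by group
        _ = s j * x * (s j)⁻¹ := by rw [h1.eq]; group
    intro g hg
    simp only [hS, Set.mem_insert_iff, Set.mem_singleton_iff] at hg
    rcases hg with hg | hg | hg | hg <;> subst hg
    · exact hj (-1) (by norm_num)
    · exact hj 0 (by norm_num)
    · exact hj 1 (by norm_num)
    · exact hj 2 (by norm_num)
  -- pass to the quotient `L ⧸ (P ⊓ L)`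
  let π : L →* L ⧸ (P.subgroupOf L) := QuotientGroup.mk' (P.subgroupOf L)
  let x' : L := ⟨s (-1), mS _ (by norm_num)⟩
  let a' : L := ⟨s 0, mS _ (by norm_num)⟩
  let b' : L := ⟨s 1, mS _ (by norm_num)⟩
  let c' : L := ⟨s 2, mS _ (by norm_num)⟩
  have q1 : Commute (π a') (π x' * π b') := by
    rw [← map_mul]
    rw [← commutatorElement_eq_one_iff_commute, ← map_commutatorElement]
    apply (QuotientGroup.eq_one_iff _).2
    rw [Subgroup.mem_subgroupOf]
    exact hC
  have q2 : Commute (π c') (π a') := by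
    have : c' * a' = a' * c' := Subtype.ext (hcw 0 2 (by norm_num) (by omega)).symm.eq
    show π c' * π a' = π a' * π c'
    rw [← map_mul, ← map_mul, this]
  have q3 : Commute (π c') (π x') := by
    have : c' * x' = x' * c' := Subtype.ext (hcw (-1) 2 (by norm_num) (by omega)).symm.eq
    show π c' * π x' = π x' * π c'
    rw [← map_mul, ← map_mul, this]
  have q4 : π b' * π c' * π b' = π c' * π b' * π c' := by
    have : b' * c' * b' = c' * b' * c' := Subtype.ext (by have := D.hbr 1; norm_num at this; exact this)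
    rw [← map_mul, ← map_mul, ← map_mul, ← map_mul, this]
  have q5 : π a' * π b' * π a' = π b' * π a' * π b' := by
    have : a' * b' * a' = b' * a' * b' := Subtype.ext (by have := D.hbr 0; norm_num at this; exact this)
    rw [← map_mul, ← map_mul, ← map_mul, ← map_mul, this]
  have h := small_word _ _ _ _ q1 q2 q3 q4 q5
  have h1 : π (a' * b'⁻¹) = 1 := by rw [map_mul, map_inv, h, mul_inv_cancel]
  have h2 := (QuotientGroup.eq_one_iff _).1 h1
  rw [Subgroup.mem_subgroupOf] at h2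
  exact h2

private lemma pow_mem_of (D : Dat k A s P) (hall : ∀ m n : ℤ, s m * (s n)⁻¹ ∈ P) (q α : ℕ) (hq : 2 ≤ q)
    (hqα : q * α = k) (hα : 2 ≤ α) : s 0 ^ q ∈ P := by
  have hE := EE_mem D q α hq hqα hα 0
  have hc : Commute (s 0) (XX s α 0 (q - 1)) :=
    XX_comm _ _ _ _ (fun t _ => by
      have := self_comm D q α hqα hα 0 (t + 1)
      simpa using this)
  have h1 : ∀ n : ℕ, s 0 ^ n * (XX s α 0 n)⁻¹ ∈ P := by
    intro n
    induction n with
    | zero => simp [XX, P.one_mem]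
    | succ n ih =>
      have hcc : Commute (s (0 + ((n : ℤ) + 1) * α)) (s 0 ^ n) := by
        have := self_comm D q α hqα hα 0 (n + 1)
        exact (this.symm).pow_right n
      show s 0 ^ (n + 1) * (XX s α 0 n * s (0 + ((n : ℤ) + 1) * α))⁻¹ ∈ P
      have h2 : s 0 ^ (n + 1) * (XX s α 0 n * s (0 + ((n : ℤ) + 1) * α))⁻¹ =
          (s 0 * (s (0 + ((n : ℤ) + 1) * α))⁻¹) * (s 0 ^ n * (XX s α 0 n)⁻¹) := by
        have h3 : s 0 ^ n * (s (0 + ((n : ℤ) + 1) * α))⁻¹ = (s (0 + ((n : ℤ) + 1) * α))⁻¹ * s 0 ^ n :=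
          (hcc.inv_left).eq.symm
        calc s 0 ^ (n + 1) * (XX s α 0 n * s (0 + ((n : ℤ) + 1) * α))⁻¹
            = s 0 * (s 0 ^ n * (s (0 + ((n : ℤ) + 1) * α))⁻¹) * (XX s α 0 n)⁻¹ := by
              rw [pow_succ' (s 0) n]; group
          _ = _ := by rw [h3]; group
      rw [h2]
      exact P.mul_mem (hall _ _) ih
  have h2 := h1 (q - 1)
  have h3 : s 0 ^ q = (s 0 ^ (q - 1) * (XX s α 0 (q - 1))⁻¹) * (s 0 * XX s α 0 (q - 1)) := by
    have h4 : s 0 * XX s α 0 (q - 1) = XX s α 0 (q - 1) * s 0 := hc.eq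
    rw [h4]
    have h5 : s 0 ^ q = s 0 ^ (q - 1) * s 0 := by
      rw [← pow_succ]; congr 1; omega
    rw [h5]; group
  rw [h3]
  exact P.mul_mem h2 hE

private lemma final (D : Dat k A s P) (q r α β : ℕ) (hq : q.Prime) (hr : r.Prime) (hqr : q ≠ r)
    (hqα : q * α = k) (hrβ : r * β = k) (hα : 2 ≤ α) (hβ : 2 ≤ β) (m₀ : ℤ)
    (h : s m₀ * (s (m₀ + 1))⁻¹ ∈ P) : s 0 ∈ P := by
  have hup : ∀ m, s m * (s (m + 1))⁻¹ ∈ P → s (m + 1) * (s (m + 1 + 1))⁻¹ ∈ P := by
    intro m hm
    have h1 : A * (s m * (s (m + 1))⁻¹) * A⁻¹ = s (m + 1) * (s (m + 1 + 1))⁻¹ := by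
      calc A * (s m * (s (m + 1))⁻¹) * A⁻¹ = (A * s m * A⁻¹) * (A * s (m + 1) * A⁻¹)⁻¹ := by group
        _ = _ := by rw [D.hconj, D.hconj]
    rw [← h1]
    exact P.mul_mem (P.mul_mem D.hA hm) (P.inv_mem D.hA)
  have hdown : ∀ m, s (m + 1) * (s (m + 1 + 1))⁻¹ ∈ P → s m * (s (m + 1))⁻¹ ∈ P := by
    intro m hm
    have h1 : A * (s m * (s (m + 1))⁻¹) * A⁻¹ = s (m + 1) * (s (m + 1 + 1))⁻¹ := by
      calc A * (s m * (s (m + 1))⁻¹) * A⁻¹ = (A * s m * A⁻¹) * (A * s (m + 1) * A⁻¹)⁻¹ := by group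
        _ = _ := by rw [D.hconj, D.hconj]
    have h2 : s m * (s (m + 1))⁻¹ = A⁻¹ * (s (m + 1) * (s (m + 1 + 1))⁻¹) * A := by
      rw [← h1]; group
    rw [h2]
    exact P.mul_mem (P.mul_mem (P.inv_mem D.hA) hm) D.hA
  have hstep : ∀ m, s m * (s (m + 1))⁻¹ ∈ P := by
    have hu : ∀ n : ℕ, s (m₀ + n) * (s (m₀ + n + 1))⁻¹ ∈ P := by
      intro n
      induction n with
      | zero => simpa using h
      | succ n ih =>
        have := hup _ ih
        have e : m₀ + ((n + 1 : ℕ) : ℤ) = m₀ + n + 1 := by push_cast; ring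
        rw [e]; exact this
    have hd : ∀ n : ℕ, s (m₀ - n) * (s (m₀ - n + 1))⁻¹ ∈ P := by
      intro n
      induction n with
      | zero => simpa using h
      | succ n ih =>
        apply hdown
        have e : m₀ - ((n + 1 : ℕ) : ℤ) + 1 = m₀ - n := by push_cast; ring
        rw [e]; exact ih
    intro m
    rcases le_total m₀ m with h1 | h1
    · have := hu (m - m₀).toNat
      have e : m₀ + ((m - m₀).toNat : ℤ) = m := by rw [Int.toNat_of_nonneg (by omega)]; ring
      rwa [e] at this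
    · have := hd (m₀ - m).toNat
      have e : m₀ - ((m₀ - m).toNat : ℤ) = m := by rw [Int.toNat_of_nonneg (by omega)]; ring
      rwa [e] at this
  have hnat : ∀ (m : ℤ) (n : ℕ), s m * (s (m + n))⁻¹ ∈ P := by
    intro m n
    induction n with
    | zero => simp [P.one_mem]
    | succ n ih =>
      have h1 := P.mul_mem ih (hstep (m + n))
      have h2 : s m * (s (m + n))⁻¹ * (s (m + n) * (s (m + n + 1))⁻¹) = s m * (s (m + n + 1))⁻¹ := by
        group
      rw [h2] at h1
      have e : m + ((n + 1 : ℕ) : ℤ) = m + n + 1 := by push_cast; ring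
      rw [e]; exact h1
  have hall : ∀ m n : ℤ, s m * (s n)⁻¹ ∈ P := by
    intro m n
    rcases le_total m n with h1 | h1
    · have := hnat m (n - m).toNat
      have e : m + ((n - m).toNat : ℤ) = n := by rw [Int.toNat_of_nonneg (by omega)]; ring
      rwa [e] at this
    · have := P.inv_mem (hnat n (m - n).toNat)
      have e : n + ((m - n).toNat : ℤ) = m := by rw [Int.toNat_of_nonneg (by omega)]; ring
      rw [e] at this
      simpa using this
  have h1 := pow_mem_of D hall q α hq.two_le hqα hα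
  have h2 := pow_mem_of D hall r β hr.two_le hrβ hβ
  have hcop : Nat.Coprime q r := (Nat.coprime_primes hq hr).2 hqr
  have hb := Nat.gcd_eq_gcd_ab q r
  rw [Nat.Coprime] at hcop
  rw [hcop] at hb
  have h3 : s 0 = (s 0 ^ q) ^ (Nat.gcdA q r) * (s 0 ^ r) ^ (Nat.gcdB q r) := by
    rw [← zpow_natCast (s 0) q, ← zpow_natCast (s 0) r, ← zpow_mul, ← zpow_mul, ← zpow_add, ← hb]
    simp
  rw [h3]
  exact P.mul_mem (P.zpow_mem h1 _) (P.zpow_mem h2 _)

/-- The case `k = 6`. -/
private lemma caseSix {F : Type*} {k : ℕ} {A : Equiv.Perm F} {s : ℤ → Equiv.Perm F} (p : F)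
    (D : Dat k A s (MulAction.stabilizer (Equiv.Perm F) p)) (hk : k = 6) : s 0 p = p := by
  have mem : ∀ g : Equiv.Perm F, g ∈ MulAction.stabilizer (Equiv.Perm F) p ↔ g p = p := by
    intro g; rw [MulAction.mem_stabilizer_iff]; rfl
  have hper : ∀ m n : ℤ, n = m + 6 → s n = s m := by
    intro m n h
    have := D.hper m
    rw [hk] at this
    rw [h]; exact_mod_cast this
  have hAp : A p = p := (mem A).1 D.hA
  have hA : ∀ m x, A (s m x) = s (m + 1) (A x) := by
    intro m x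
    have h := D.hconj m
    have h1 : A * s m = s (m + 1) * A := by rw [← h]; group
    have h2 := congrArg (fun f : Equiv.Perm F => f x) h1
    simpa using h2
  have hcm : ∀ m n : ℤ, (n - m = 2 ∨ n - m = 3 ∨ n - m = 4) → ∀ x, s m (s n x) = s n (s m x) := by
    intro m n h x
    have hc : Commute (s m) (s n) := by
      apply D.hco
      · intro h'
        rw [hk] at h'
        have := Int.le_of_dvd (by omega) h'
        push_cast at this
        omega
      · intro h'
        rw [hk] at h'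
        have h3 : ((6 : ℕ) : ℤ) ∣ (n - m + 1) := dvd_eq ((dvd_neg).2 h') (by ring)
        have := Int.le_of_dvd (by omega) h3
        push_cast at this
        omega
    have h2 := congrArg (fun f : Equiv.Perm F => f x) hc.eq
    simpa using h2
  have hbr : ∀ m x, s m (s (m + 1) (s m x)) = s (m + 1) (s m (s (m + 1) x)) := by
    intro m x
    have h2 := congrArg (fun f : Equiv.Perm F => f x) (D.hbr m)
    simpa using h2
  -- the two products
  have hE2 : ∀ i, s i (s (i + 3) p) = p := by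
    intro i
    have h := EE_mem D 2 3 le_rfl (by omega) (by omega) i
    have h1 : XX s ((3 : ℕ) : ℤ) i (2 - 1) = s (i + 3) := by
      show 1 * s (i + (((0 : ℕ) : ℤ) + 1) * 3) = s (i + 3)
      rw [one_mul]; congr 1
    rw [h1, mem] at h
    simpa using h
  have hE3 : ∀ i, s i (s (i + 2) (s (i + 4) p)) = p := by
    intro i
    have h := EE_mem D 3 2 (by omega) (by omega) le_rfl i
    have h1 : XX s ((2 : ℕ) : ℤ) i (3 - 1) = s (i + 2) * s (i + 4) := by
      show 1 * s (i + (((0 : ℕ) : ℤ) + 1) * 2) * s (i + (((1 : ℕ) : ℤ) + 1) * 2) = _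
      rw [one_mul]; congr 2
    rw [h1, mem] at h
    simpa using h
  -- `s i` on `x (i+3)`, `x (i+2)`, `x (i-2)`
  have r3 : ∀ i j : ℤ, j = i + 3 → s i (s j p) = p := by
    intro i j h; subst h; exact hE2 i
  have r3' : ∀ i j : ℤ, j = i - 3 → s i (s j p) = p := by
    intro i j h
    have : s j = s (i + 3) := hper j (i + 3) (by omega) ▸ rfl
    rw [this]; exact hE2 i
  have r2 : ∀ i j l : ℤ, j = i + 2 → l = i + 1 → s i (s j p) = s l p := by
    intro i j l hj hl
    subst hj; subst hl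
    -- `s i (s (i+2) (s (i+4) p)) = p`, `s (i+4) (s (i+1) p) = p`
    have h1 := hE3 i
    have h2 : s (i + 4) (s (i + 1) p) = p := r3' _ _ (by ring)
    have h3 : s (i + 4) (s i (s (i + 2) p)) = p := by
      rw [← hcm i (i + 4) (by omega), ← hcm (i + 2) (i + 4) (by omega)]
      exact h1
    have h4 : s (i + 4) (s i (s (i + 2) p)) = s (i + 4) (s (i + 1) p) := by rw [h3, h2]
    exact (s (i + 4)).injective h4
  have rm2 : ∀ i j l : ℤ, j = i - 2 → l = i - 1 → s i (s j p) = s l p := by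
    intro i j l hj hl
    rw [← hcm j i (by omega) p]
    exact r2 j i l (by omega) (by omega)
  -- same with indices modulo 6
  have r2' : ∀ i j l : ℤ, j = i - 4 → l = i + 1 → s i (s j p) = s l p := by
    intro i j l hj hl
    have : s j = s (i + 2) := (hper j (i + 2) (by omega)).symm
    rw [this]; exact r2 i _ l rfl hl
  have rm2' : ∀ i j l : ℤ, j = i + 4 → l = i + 5 → s i (s j p) = s l p := by
    intro i j l hj hl
    have h1 : s j = s (i - 2) := hper (i - 2) j (by omega)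
    have h2 : s l = s (i - 1) := hper (i - 1) l (by omega)
    rw [h1, h2]; exact rm2 i _ _ rfl rfl
  -- the relations
  have e1 : s 2 (s 0 (s 0 p)) = s 0 (s 1 p) := by
    rw [← hcm 0 2 (by norm_num), rm2 2 0 1 (by norm_num) (by norm_num)]
  have e2 : s 0 (s 2 (s 2 p)) = s 2 (s 1 p) := by
    rw [hcm 0 2 (by norm_num), r2 0 2 1 (by norm_num) (by norm_num)]
  have e3 : s 0 (s 3 (s 2 p)) = s 2 p := by
    rw [hcm 0 3 (by norm_num), r2 0 2 1 (by norm_num) (by norm_num), rm2 3 1 2 (by norm_num) (by norm_num)]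
  have e4 : s 0 (s 1 p) = s 1 (s 1 p) := by
    have h := hbr 0 (s 3 p)
    rw [zero_add] at h
    rw [r3 0 3 (by norm_num), r2 1 3 2 (by norm_num) (by norm_num),
      r2 0 2 1 (by norm_num) (by norm_num)] at h
    exact h
  have e5 : s 0 (s 0 p) = s 1 (s 0 p) := by
    have h := hbr 0 (s 4 p)
    rw [zero_add] at h
    rw [rm2' 0 4 5 (by norm_num) (by norm_num), rm2' 1 5 6 (by norm_num) (by norm_num),
      r3 1 4 (by norm_num), hper 0 6 (by norm_num)] at h
    exact h
  -- rotate by `A`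
  have e5' : ∀ n : ℕ, s n (s n p) = s (n + 1) (s n p) := by
    intro n
    induction n with
    | zero => simpa using e5
    | succ n ih =>
      have h := congrArg A ih
      rw [hA, hA, hA, hA, hAp] at h
      push_cast
      exact h
  have e51 : s 1 (s 1 p) = s 2 (s 1 p) := by simpa using e5' 1
  have e52 : s 2 (s 2 p) = s 3 (s 2 p) := by simpa using e5' 2
  -- `v_1 = x_2`
  have e6 : s 1 (s 1 p) = s 2 p := by
    rw [e51, ← e2, e52, e3]
  have e7 : s 1 (s 1 p) = s 1 (s 3 p) := by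
    rw [e6, r2 1 3 2 (by norm_num) (by norm_num)]
  have e8 : s 1 p = s 3 p := (s 1).injective e7
  have e9 : p = s 2 p := by
    rw [← e6, ← e4, e8, r3 0 3 (by norm_num)]
  -- rotate back
  have h1 : s 1 p = p := by
    have h := hA 1 p
    have e : (1 : ℤ) + 1 = 2 := by norm_num
    rw [hAp, e, ← e9] at h
    exact A.injective (h.trans hAp.symm)
  have h := hA 0 p
  have h2 : A (s 0 p) = A p := by rw [h, hAp, zero_add]; exact h1
  exact A.injective h2

end abs

theorem core {F : Type} (k : ℕ) (hk : 4 < k) (hpp : ¬ IsPrimePow k) (A : Equiv.Perm F)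
    (σ : ZMod k → Equiv.Perm F) (h : Cyc k A σ) (p : F) (hAp : A p = p)
    (hp : ∀ j : ℕ, 0 < j → j < k → ∀ w, (A ^ j) w = w → w = p) : σ 0 p = p := by
  have : NeZero k := ⟨by omega⟩
  set s : ℤ → Equiv.Perm F := fun m => σ (m : ZMod k) with hs
  set P := MulAction.stabilizer (Equiv.Perm F) p with hPdef
  have mem : ∀ g : Equiv.Perm F, g ∈ P ↔ g p = p := by
    intro g; rw [hPdef, MulAction.mem_stabilizer_iff]; rfl
  have D : Dat k A s P := by
    refine ⟨(mem A).2 hAp, ?_, ?_, ?_, ?_, ?_⟩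
    · intro m
      show A * σ (m : ZMod k) * A⁻¹ = σ ((m + 1 : ℤ) : ZMod k)
      rw [h.conj]; push_cast; rfl
    · intro m
      show σ ((m + k : ℤ) : ZMod k) = σ (m : ZMod k)
      congr 1
      push_cast
      simp
    · intro m
      have := h.braid (m : ZMod k)
      simp only [hs]
      push_cast
      exact this
    · intro m n h1 h2
      apply h.comm
      · intro he
        apply h1
        rw [← ZMod.intCast_zmod_eq_zero_iff_dvd]
        push_cast
        rw [he]; ring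
      · intro he
        apply h2
        rw [← ZMod.intCast_zmod_eq_zero_iff_dvd]
        push_cast
        rw [he]; ring
    · intro g j hj0 hjk hc
      rw [mem]
      apply hp j hj0 hjk
      have hAj : (A ^ j) p = p := by
        have hAm : A ^ j ∈ P := P.pow_mem ((mem A).2 hAp) j
        exact (mem _).1 hAm
      have h1 := congrArg (fun f : Equiv.Perm F => f p) hc.eq
      simp only [Equiv.Perm.mul_apply] at h1
      rw [hAj] at h1
      exact h1.symm
  have hs0 : s 0 = σ 0 := by show σ ((0 : ℤ) : ZMod k) = σ 0; simp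
  rw [← hs0]
  -- two primes
  have hk1 : k ≠ 1 := by omega
  set q := k.minFac with hqdef
  have hq : q.Prime := Nat.minFac_prime hk1
  have hqk : q ∣ k := Nat.minFac_dvd k
  obtain ⟨r, hr, hrk, hrq⟩ : ∃ r, r.Prime ∧ r ∣ k ∧ r ≠ q := by
    by_contra hcon
    push Not at hcon
    apply hpp
    rw [isPrimePow_iff_unique_prime_dvd]
    exact ⟨q, ⟨hq, hqk⟩, fun y hy => hcon y hy.1 hy.2⟩
  have hqr : q < r := lt_of_le_of_ne (Nat.minFac_le_of_dvd hr.two_le hrk) (Ne.symm hrq)
  obtain ⟨α, hα⟩ := hqk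
  obtain ⟨β, hβ⟩ := hrk
  have hcop : Nat.Coprime q r := (Nat.coprime_primes hq hr).2 (Ne.symm hrq)
  have hrα : r ∣ α := by
    have : r ∣ q * α := ⟨β, by rw [← hα, hβ]⟩
    exact (Nat.Coprime.dvd_of_dvd_mul_left hcop.symm this)
  have hqβ : q ∣ β := by
    have : q ∣ r * β := ⟨α, by rw [← hβ, hα]⟩
    exact (Nat.Coprime.dvd_of_dvd_mul_left hcop this)
  have hα0 : 0 < α := by
    rcases Nat.eq_zero_or_pos α with h0 | h0
    · rw [h0] at hα; omega
    · exact h0
  have hβ0 : 0 < β := by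
    rcases Nat.eq_zero_or_pos β with h0 | h0
    · rw [h0] at hβ; omega
    · exact h0
  have hq2 := hq.two_le
  have hrα' := Nat.le_of_dvd hα0 hrα
  have hqβ' := Nat.le_of_dvd hβ0 hqβ
  by_cases h6 : k = 6
  · exact caseSix p D h6
  have hα5 : 5 ≤ α := by
    by_contra hlt
    push Not at hlt
    have hr3 : 3 ≤ r := by omega
    have hr4 : r ≤ 4 := by omega
    interval_cases r
    · -- r = 3
      have hq' : q = 2 := by omega
      have hα3 : α = 3 := by
        obtain ⟨c, hc⟩ := hrα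
        omega
      rw [hq', hα3] at hα
      omega
    · exact absurd hr (by norm_num)
  by_cases hb3 : 3 ≤ β
  · have h1 := caseA D q r α β hq hr (Ne.symm hrq) hα.symm hβ.symm hα5 hb3
    have h2 := final D q r α β hq hr (Ne.symm hrq) hα.symm hβ.symm (by omega) (by omega) 1 (by
      norm_num; exact h1)
    exact (mem _).1 h2
  · have hβ2 : β = 2 := by omega
    have hq' : q = 2 := by omega
    have hr5 : 5 ≤ r := by
      rw [hβ2] at hβ
      by_contra hlt
      push Not at hlt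
      have hr3 : 3 ≤ r := by omega
      interval_cases r
      · omega
      · exact absurd hr (by norm_num)
    have h1 := caseB D r hr hr5 (by rw [hβ, hβ2]; ring)
    have h2 := final D q r α β hq hr (Ne.symm hrq) hα.symm hβ.symm (by omega) (by omega) 0 (by
      norm_num; exact h1)
    exact (mem _).1 h2

end Pool.Agent.Helper2.LN
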