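import Pool.Agent.Helper2.LN.GrpB
import Pool.Agent.Helper2.LN.GrpC

/-!
# LN-G4 (MP_730da0_ag): all `s_i` are equal

Paper proof.  Suppose not all `s_i` are equal.  `cyc_of_braid`, `collapse` (`k ≥ 5`): `A^M = 1` implies `k ∣ M` (if not, all `σ_i` are
equal, so all `s_i`).  `cycB_of_braid`, `collapse` with `N = k - 1 ≥ 5` (`k` is not a prime power and `k > 4`, so `k ≥ 6`): `B^M = 1`
implies `(k-1) ∣ M` (if not, `s_1 = .. = s_(k-2)`, and conjugation by `A`, `A s_0 A^-1 = s_1`, `A s_1 A^-1 = s_2`, gives `s_0 = s_1`).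
`rot_fix` for `A`: `p`; `core`: `σ_0 p = p`, so all `σ_i p = p` by conjugation with `A` (`A p = p`); `rot_fix` for `B`: `B p ≠ p`, but
`B p = s_0 (A p) = s_0 p = p`.  Contradiction.
-/

namespace Pool.Agent.Helper2.LN

theorem group_main {F : Type} [Finite F] (k : ℕ) (hk : 4 < k) (hpp : ¬ IsPrimePow k) (s : ℕ → Equiv.Perm F)
    (hc : ∀ i j, i + 2 ≤ j → j + 1 < k → s i * s j = s j * s i)
    (hb : ∀ i, i + 2 < k → s i * s (i + 1) * s i = s (i + 1) * s i * s (i + 1))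
    (hn1 : Nat.card F ≡ 1 [MOD k]) (hn2 : (k - 1) ∣ Nat.card F) (hn3 : 2 ≤ Nat.card F)
    (rotA : ∃ c : F → ℂ, Function.Injective c ∧ ∃ ζ : ℂ, ∀ w,
      c (((List.range (k - 1)).map s).prod w) = ζ * c w)
    (rotB : ∃ c : F → ℂ, Function.Injective c ∧ ∃ ζ : ℂ, ∀ w,
      c ((s 0 * ((List.range (k - 1)).map s).prod) w) = ζ * c w) :
    ∀ i, i + 1 < k → s i = s 0 := by
  by_contra hcon
  push Not at hcon
  obtain ⟨i0, hi0, hne⟩ := hcon
  have hk5 : k ≠ 5 := by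
    rintro rfl
    exact hpp (Nat.Prime.isPrimePow (by norm_num))
  have hk6 : 6 ≤ k := by omega
  obtain ⟨A, hA⟩ : ∃ A, A = ((List.range (k - 1)).map s).prod := ⟨_, rfl⟩
  obtain ⟨σ, hσ, hσs⟩ := cyc_of_braid k hk s hc hb
  obtain ⟨τ, hτ, hτs⟩ := cycB_of_braid k hk s hc hb
  rw [← hA] at rotA rotB hσ hτ
  have h0 : σ 0 = s 0 := by
    have h := hσs 0 (by omega)
    rwa [Nat.cast_zero] at h
  have ordA : ∀ M : ℕ, A ^ M = 1 → k ∣ M := by
    intro M hM
    by_contra hkM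
    have h1 := collapse k (by omega) A σ hσ M hkM hM
    apply hne
    rw [← hσs i0 hi0, ← h0]
    exact h1 _ _
  have ordB : ∀ M : ℕ, (s 0 * A) ^ M = 1 → (k - 1) ∣ M := by
    intro M hM
    by_contra hkM
    have h1 := collapse (k - 1) (by omega) (s 0 * A) τ hτ M hkM hM
    have h12 : s 1 = s 2 := by
      rw [← hτs 1 (le_refl 1) (by omega), ← hτs 2 (by omega) (by omega)]
      exact h1 _ _
    have c0 : A * s 0 * A⁻¹ = s 1 := by
      have h := hσ.conj 0
      rw [h0, zero_add] at h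
      rw [h, ← hσs 1 (by omega), Nat.cast_one]
    have c1 : A * s 1 * A⁻¹ = s 2 := by
      have h := hσ.conj 1
      have e1 : σ 1 = s 1 := by
        rw [← hσs 1 (by omega), Nat.cast_one]
      rw [e1] at h
      rw [h, ← hσs 2 (by omega)]
      congr 1
      norm_num
    have h01 : s 0 = s 1 := by
      have h : A * s 0 * A⁻¹ = A * s 1 * A⁻¹ := by rw [c0, c1, h12]
      exact mul_left_cancel (mul_right_cancel h)
    apply hne
    rcases Nat.eq_zero_or_pos i0 with h | h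
    · rw [h]
    · rw [h01, ← hτs i0 h hi0, ← hτs 1 (le_refl 1) (by omega)]
      exact h1 _ _
  obtain ⟨cA, hcA, ζA, hζA⟩ := rotA
  obtain ⟨cB, hcB, ζB, hζB⟩ := rotB
  obtain ⟨p, hp1, hp2⟩ := (rot_fix A cA hcA ζA hζA k (by omega) ordA hn3).1 hn1
  have hB := (rot_fix (s 0 * A) cB hcB ζB hζB (k - 1) (by omega) ordB hn3).2 hn2 p
  have hcore := core k hk hpp A σ hσ p hp1 hp2
  apply hB
  rw [Equiv.Perm.mul_apply, hp1, ← h0]
  exact hcore

end Pool.Agent.Helper2.LN
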