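import Mathlib

/-!
# LN-P2 (MP_730da0_ag): the net `cosh² ∈ ℤ` and the algebra of the Landau function

Paper proofs.
* `net`: `w = x + iy`.  Choose `j ∈ ℤ` with `|y - jπ/2| ≤ π/4 < 1`.  `cosh(x' + ijπ/2)^2` is `cosh(x')^2` for `j` even and `-sinh(x')^2 = 1 - cosh(x')^2` for
  `j` odd.  On the interval `[x, x+1]` (if `x ≥ 0`) resp. `[x-1, x]` (if `x < 0`) the continuous function `cosh^2` changes by at least
  `cosh(1)^2 - 1 > 1` [`cosh(t+1)^2 - cosh(t)^2 = sinh(1) sinh(2t+1) ≥ sinh(1)^2 > 1` for `t ≥ 0`], so it takes an integer value (intermediate value theorem)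
  at some `x'` with `|x' - x| ≤ 1`.  `g = x' + ijπ/2`, `|g - w| ≤ sqrt 2 < 2`.
* `landau_alg`: `(e^(α/2) - e^(β/2)) (e^(α/2) + e^(β/2)) = e^α - e^β = 1`, so `e^(-G) = e^(α/2) + e^(β/2)`, `cosh G = e^(α/2)`.
* `diffAt_of_comp`: slopes: `Ψ(g t) - Ψ(g t₀) = (g t - g t₀) (Ψ'(g t₀) + o(1))`; or the local inverse of `Ψ` (`HasStrictDerivAt.to_localInverse`).
* `diffAt_landau`: `Ψ(g) = exp(2πi cosh² g)` has derivative `Ψ(g) 2πi sinh(2g)`, `sinh(2g) = 2 sinh g cosh g ≠ 0` as `cosh² g ≠ 0, 1`.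
-/
namespace Pool.Agent.Helper2.LN

private theorem cosh_step (t : ℝ) (ht : 0 ≤ t) : Real.cosh t ^ 2 + 1 ≤ Real.cosh (t + 1) ^ 2 := by
  rw [Real.cosh_add]
  have h1 : 1 ≤ Real.sinh 1 := Real.self_le_sinh_iff.mpr zero_le_one
  have h2 : Real.cosh 1 ^ 2 = Real.sinh 1 ^ 2 + 1 := Real.cosh_sq 1
  have h3 : 0 ≤ Real.sinh t := Real.sinh_nonneg_iff.mpr ht
  have h4 : 1 ≤ Real.cosh t := Real.one_le_cosh t
  have h5 : 1 ≤ Real.cosh 1 := Real.one_le_cosh 1
  have h6 : 0 ≤ Real.sinh t * Real.sinh 1 := by positivity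
  have h7 : 0 ≤ Real.cosh t * Real.cosh 1 := by positivity
  have h8 : (Real.cosh t * Real.cosh 1) ^ 2 ≤
      (Real.cosh t * Real.cosh 1 + Real.sinh t * Real.sinh 1) ^ 2 := by
    apply pow_le_pow_left₀ h7
    linarith
  have h9 : 1 ≤ Real.sinh 1 ^ 2 := by nlinarith
  have h10 : 1 ≤ Real.cosh t ^ 2 := by nlinarith
  have h11 : (Real.cosh t * Real.cosh 1) ^ 2 = Real.cosh t ^ 2 * Real.sinh 1 ^ 2 + Real.cosh t ^ 2 := by
    rw [mul_pow, h2]
    ring
  nlinarith

private theorem cosh_int_nonneg (x : ℝ) (hx : 0 ≤ x) :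
    ∃ x' : ℝ, |x' - x| ≤ 1 ∧ ∃ m : ℤ, Real.cosh x' ^ 2 = m := by
  have h1 := cosh_step x hx
  have h2 : Real.cosh x ^ 2 ≤ ((⌊Real.cosh x ^ 2⌋ + 1 : ℤ) : ℝ) := by
    push_cast
    exact (Int.lt_floor_add_one _).le
  have h3 : ((⌊Real.cosh x ^ 2⌋ + 1 : ℤ) : ℝ) ≤ Real.cosh (x + 1) ^ 2 := by
    push_cast
    have := Int.floor_le (Real.cosh x ^ 2)
    linarith
  have hc : ContinuousOn (fun t : ℝ => Real.cosh t ^ 2) (Set.Icc x (x + 1)) :=
    (Real.continuous_cosh.pow 2).continuousOn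
  obtain ⟨x', hx', hm⟩ := intermediate_value_Icc (by linarith : x ≤ x + 1) hc ⟨h2, h3⟩
  refine ⟨x', ?_, _, hm⟩
  rw [abs_le]
  constructor <;> linarith [hx'.1, hx'.2]

private theorem cosh_int (x : ℝ) : ∃ x' : ℝ, |x' - x| ≤ 1 ∧ ∃ m : ℤ, Real.cosh x' ^ 2 = m := by
  rcases le_total 0 x with h | h
  · exact cosh_int_nonneg x h
  · obtain ⟨x', h1, m, hm⟩ := cosh_int_nonneg (-x) (by linarith)
    refine ⟨-x', ?_, m, ?_⟩
    · rw [abs_le] at h1 ⊢
      constructor <;> linarith [h1.1, h1.2]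
    · rw [Real.cosh_neg, hm]

private theorem cosh_half_pi (x : ℝ) (j : ℤ) :
    Complex.cosh ((x : ℂ) + ((j * (Real.pi / 2) : ℝ) : ℂ) * Complex.I) ^ 2 = ((Real.cosh x ^ 2 : ℝ) : ℂ) ∨
    Complex.cosh ((x : ℂ) + ((j * (Real.pi / 2) : ℝ) : ℂ) * Complex.I) ^ 2 =
      ((1 - Real.cosh x ^ 2 : ℝ) : ℂ) := by
  have e : Complex.cosh ((x : ℂ) + ((j * (Real.pi / 2) : ℝ) : ℂ) * Complex.I) =
      ((Real.cosh x * Real.cos (j * (Real.pi / 2)) : ℝ) : ℂ) +
        ((Real.sinh x * Real.sin (j * (Real.pi / 2)) : ℝ) : ℂ) * Complex.I := by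
    rw [Complex.cosh_add, Complex.cosh_mul_I, Complex.sinh_mul_I]
    push_cast
    ring
  rw [e]
  rcases Int.even_or_odd' j with ⟨l, h | h⟩
  · left
    have h1 : Real.sin (j * (Real.pi / 2)) = 0 := by
      rw [h]
      push_cast
      rw [show (2 * (l : ℝ)) * (Real.pi / 2) = l * Real.pi by ring]
      exact Real.sin_int_mul_pi l
    have h2 : Real.cos (j * (Real.pi / 2)) ^ 2 = 1 := by
      have := Real.sin_sq_add_cos_sq ((j : ℝ) * (Real.pi / 2))
      rw [h1] at this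
      linarith
    rw [h1, mul_zero, Complex.ofReal_zero, zero_mul, add_zero, ← Complex.ofReal_pow, mul_pow, h2,
      mul_one]
  · right
    have h1 : Real.cos (j * (Real.pi / 2)) = 0 := by
      rw [h]
      push_cast
      rw [show (2 * (l : ℝ) + 1) * (Real.pi / 2) = l * Real.pi + Real.pi / 2 by ring,
        Real.cos_add_pi_div_two, Real.sin_int_mul_pi, neg_zero]
    have h2 : Real.sin (j * (Real.pi / 2)) ^ 2 = 1 := by
      have := Real.sin_sq_add_cos_sq ((j : ℝ) * (Real.pi / 2))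
      rw [h1] at this
      linarith
    rw [h1, mul_zero, Complex.ofReal_zero, zero_add, mul_pow, Complex.I_sq, ← Complex.ofReal_pow,
      mul_pow, h2, mul_one, Real.cosh_sq]
    push_cast
    ring

theorem net (w : ℂ) : ∃ g ∈ Metric.ball w 2, ∃ m : ℤ, Complex.cosh g ^ 2 = m := by
  obtain ⟨x', hx', m, hm⟩ := cosh_int w.re
  obtain ⟨j, hj⟩ : ∃ j : ℤ, |(j : ℝ) * (Real.pi / 2) - w.im| ≤ Real.pi / 4 := by
    refine ⟨round (w.im / (Real.pi / 2)), ?_⟩
    have h := abs_sub_round (w.im / (Real.pi / 2))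
    have hp := Real.pi_pos
    have e : (round (w.im / (Real.pi / 2)) : ℝ) * (Real.pi / 2) - w.im =
        -((w.im / (Real.pi / 2) - round (w.im / (Real.pi / 2))) * (Real.pi / 2)) := by
      field_simp
      ring
    rw [e, abs_neg, abs_mul, abs_of_pos (by positivity : (0 : ℝ) < Real.pi / 2)]
    nlinarith
  refine ⟨(x' : ℂ) + ((j * (Real.pi / 2) : ℝ) : ℂ) * Complex.I, ?_, ?_⟩
  · rw [Metric.mem_ball, dist_eq_norm]
    refine (Complex.norm_le_abs_re_add_abs_im _).trans_lt ?_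
    have e1 : ((x' : ℂ) + ((j * (Real.pi / 2) : ℝ) : ℂ) * Complex.I - w).re = x' - w.re := by
      simp
    have e2 : ((x' : ℂ) + ((j * (Real.pi / 2) : ℝ) : ℂ) * Complex.I - w).im =
        j * (Real.pi / 2) - w.im := by
      simp
    rw [e1, e2]
    have := Real.pi_lt_four
    linarith
  · rcases cosh_half_pi x' j with h | h
    · exact ⟨m, by rw [h, hm]; simp⟩
    · exact ⟨1 - m, by rw [h, hm]; push_cast; ring⟩

theorem landau_ne (α β m : ℂ) (h1 : Complex.exp α = m) (h2 : Complex.exp β = m - 1) :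
    Complex.exp (α / 2) - Complex.exp (β / 2) ≠ 0 := by
  intro h
  have h3 : Complex.exp (α / 2) = Complex.exp (β / 2) := sub_eq_zero.mp h
  have e : ∀ z : ℂ, Complex.exp z = Complex.exp (z / 2) * Complex.exp (z / 2) := by
    intro z
    rw [← Complex.exp_add, add_halves]
  rw [e α] at h1
  rw [e β, ← h3, h1] at h2
  exact one_ne_zero (α := ℂ) (by linear_combination h2)

theorem landau_alg (α β m G : ℂ) (h1 : Complex.exp α = m) (h2 : Complex.exp β = m - 1)
    (h3 : Complex.exp G = Complex.exp (α / 2) - Complex.exp (β / 2)) : Complex.cosh G ^ 2 = m := by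
  have hne := landau_ne α β m h1 h2
  have e : ∀ z : ℂ, Complex.exp z = Complex.exp (z / 2) * Complex.exp (z / 2) := by
    intro z
    rw [← Complex.exp_add, add_halves]
  rw [e α] at h1
  rw [e β] at h2
  have h4 : Complex.exp (-G) = Complex.exp (α / 2) + Complex.exp (β / 2) := by
    have h5 : Complex.exp G * Complex.exp (-G) = 1 := by
      rw [← Complex.exp_add, add_neg_cancel, Complex.exp_zero]
    rw [h3] at h5
    apply mul_left_cancel₀ hne
    rw [h5]
    linear_combination h2 - h1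
  have h6 : Complex.cosh G = Complex.exp (α / 2) := by
    rw [Complex.cosh, h4, h3]
    ring
  rw [h6, sq, h1]

theorem diffAt_of_comp (g Ψ : ℂ → ℂ) (t : ℂ) (hg : ContinuousAt g t) (hΨ : Differentiable ℂ Ψ)
    (h0 : deriv Ψ (g t) ≠ 0) (h : DifferentiableAt ℂ (fun x => Ψ (g x)) t) : DifferentiableAt ℂ g t := by
  have hs : HasStrictDerivAt Ψ (deriv Ψ (g t)) (g t) :=
    (hΨ.analyticAt (g t)).hasStrictDerivAt
  have h1 := hs.to_localInverse h0
  have h2 : ∀ᶠ y in nhds (g t), hs.localInverse Ψ (deriv Ψ (g t)) (g t) h0 (Ψ y) = y :=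
    (hs.hasStrictFDerivAt_equiv h0).eventually_left_inverse
  have h3 : ∀ᶠ x in nhds t, hs.localInverse Ψ (deriv Ψ (g t)) (g t) h0 (Ψ (g x)) = g x :=
    hg.eventually h2
  have h4 : DifferentiableAt ℂ (fun x => hs.localInverse Ψ (deriv Ψ (g t)) (g t) h0 (Ψ (g x))) t :=
    DifferentiableAt.comp t (g := hs.localInverse Ψ (deriv Ψ (g t)) (g t) h0)
      h1.hasDerivAt.differentiableAt h
  exact h4.congr_of_eventuallyEq (h3.mono fun x hx => hx.symm)

theorem diffAt_landau (g : ℂ → ℂ) (t : ℂ) (hg : ContinuousAt g t) (hn : ∀ m : ℤ, Complex.cosh (g t) ^ 2 ≠ m)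
    (h : DifferentiableAt ℂ (fun x => Complex.exp (2 * Real.pi * Complex.I * Complex.cosh (g x) ^ 2)) t) :
    DifferentiableAt ℂ g t := by
  have hd : ∀ z : ℂ, HasDerivAt (fun z => Complex.exp (2 * Real.pi * Complex.I * Complex.cosh z ^ 2))
      (Complex.exp (2 * Real.pi * Complex.I * Complex.cosh z ^ 2) *
        (2 * Real.pi * Complex.I * (2 * Complex.cosh z * Complex.sinh z))) z := by
    intro z
    have h1 : HasDerivAt (fun z => Complex.cosh z ^ 2) (2 * Complex.cosh z * Complex.sinh z) z := by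
      have e : ((2 : ℕ) : ℂ) * Complex.cosh z ^ (2 - 1) * Complex.sinh z =
          2 * Complex.cosh z * Complex.sinh z := by norm_num
      rw [← e]
      exact (Complex.hasDerivAt_cosh z).pow 2
    exact (h1.const_mul (2 * Real.pi * Complex.I)).cexp
  refine diffAt_of_comp g (fun z => Complex.exp (2 * Real.pi * Complex.I * Complex.cosh z ^ 2)) t hg
    (fun z => (hd z).differentiableAt) ?_ h
  rw [(hd (g t)).deriv]
  have h1 : Complex.cosh (g t) ≠ 0 := by
    intro h0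
    apply hn 0
    rw [h0]
    simp
  have h2 : Complex.sinh (g t) ≠ 0 := by
    intro h0
    apply hn 1
    have := Complex.cosh_sq (g t)
    rw [this, h0]
    simp
  have h3 : (Real.pi : ℂ) ≠ 0 := by
    exact_mod_cast Real.pi_ne_zero
  refine mul_ne_zero (Complex.exp_ne_zero _) (mul_ne_zero ?_ ?_)
  · exact mul_ne_zero (mul_ne_zero two_ne_zero h3) Complex.I_ne_zero
  · exact mul_ne_zero (mul_ne_zero two_ne_zero h1) h2

end Pool.Agent.Helper2.LN
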