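import Pool.Agent.Helper2.LN.Bloch
import Pool.Agent.Helper2.LN.Net

/-!
# LN-P3 (MP_730da0_ag): functions omitting the net; little Picard

Paper proofs.
* `landau_bound`: by `bloch` the image of `ball z₀ R` contains a ball of radius `β R |g'(z₀)|`; if this is `≥ 2` it meets the net (`net`).  So
  `|g'(z₀)| ≤ 2/(β R)`; `C = 2/β`.
* `landau_osc`: for `z` in the closed ball of radius `R/2` the bound for the ball of radius `R/2` around `z` gives `|g'(z)| ≤ 2C/R`; mean value
  inequality on the convex closed ball of radius `R/2`: `|g(z) - g(z₀)| ≤ C`.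
* `landau_entire`: `R → ∞`: `g' = 0`.
* `little_picard`: on `ℂ` (simply connected) `f = e^(2πi m)` with `m` entire (a nonvanishing entire function has an entire logarithm: primitive of `f'/f`,
  see `DifferentiableOn.isExactOn_ball` / `Complex.exists_...` or the primitive on a disc / star-shaped region; ready-made lemmas in Mathlib), `m` omits all integers;
  `m = e^α`, `m - 1 = e^β`, `e^(α/2) - e^(β/2) = e^G` (never zero: `landau_ne`), all entire; `cosh² G = m` (`landau_alg`) omits the integers, so `G`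
  is constant, so `m`, `f` are.
-/

namespace Pool.Agent.Helper2.LN

private lemma exists_entire_log (f : ℂ → ℂ) (hf : Differentiable ℂ f) (h0 : ∀ z, f z ≠ 0) :
    ∃ m : ℂ → ℂ, Differentiable ℂ m ∧ ∀ z, Complex.exp (m z) = f z := by
  have hd : Differentiable ℂ (fun z => deriv f z / f z) := by
    intro z
    have h1 : DifferentiableAt ℂ (deriv f) z := by
      have h2 : DifferentiableOn ℂ (deriv f) Set.univ := hf.differentiableOn.deriv isOpen_univ
      exact h2.differentiableAt Filter.univ_mem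
    exact h1.div (hf z) (h0 z)
  obtain ⟨p, hp⟩ := hd.isExactOn_univ
  have hp' : ∀ z, HasDerivAt p (deriv f z / f z) z := fun z => hp z (Set.mem_univ z)
  have hq : ∀ z, HasDerivAt (fun z => f z * Complex.exp (-p z)) 0 z := by
    intro z
    have h1 := (hf z).hasDerivAt.mul ((hp' z).neg.cexp)
    have h2 : deriv f z * Complex.exp (-p z) +
        f z * (Complex.exp (-p z) * -(deriv f z / f z)) = 0 := by
      have := h0 z
      field_simp
      ring
    have h3 := h1
    rw [show (deriv f z * Complex.exp ((-p) z) +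
        f z * (Complex.exp ((-p) z) * -(deriv f z / f z))) = 0 from h2] at h3
    exact h3
  have hconst : ∀ z z', f z * Complex.exp (-p z) = f z' * Complex.exp (-p z') := by
    intro z z'
    have hdq : Differentiable ℂ (fun z => f z * Complex.exp (-p z)) :=
      fun z => (hq z).differentiableAt
    exact is_const_of_deriv_eq_zero hdq (fun z => (hq z).deriv) z z'
  set c : ℂ := f 0 * Complex.exp (-p 0) with hc
  have hc0 : c ≠ 0 := mul_ne_zero (h0 0) (Complex.exp_ne_zero _)
  refine ⟨fun z => p z + Complex.log c, ?_, ?_⟩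
  · intro z
    exact (hp' z).differentiableAt.add_const _
  · intro z
    show Complex.exp (p z + Complex.log c) = f z
    rw [Complex.exp_add, Complex.exp_log hc0, hc, ← hconst z 0, Complex.exp_neg]
    have := Complex.exp_ne_zero (p z)
    field_simp

theorem landau_bound : ∃ C : ℝ, 0 < C ∧ ∀ (g : ℂ → ℂ) (z₀ : ℂ) (R : ℝ), 0 < R →
    DifferentiableOn ℂ g (Metric.ball z₀ R) →
    (∀ z ∈ Metric.ball z₀ R, ∀ m : ℤ, Complex.cosh (g z) ^ 2 ≠ m) → ‖deriv g z₀‖ ≤ C / R := by
  obtain ⟨β, hβ, hB⟩ := bloch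
  refine ⟨2 / β, by positivity, ?_⟩
  intro g z₀ R hR hg hn
  obtain ⟨w, hw⟩ := hB g z₀ R hR hg
  have h1 : β * R * ‖deriv g z₀‖ < 2 := by
    by_contra hcon
    rw [not_lt] at hcon
    obtain ⟨y, hy, m, hm⟩ := net w
    obtain ⟨z, hz, hzy⟩ := hw (Metric.ball_subset_ball hcon hy)
    exact hn z hz m (by rw [hzy]; exact hm)
  rw [div_div, le_div_iff₀ (by positivity)]
  calc ‖deriv g z₀‖ * (β * R) = β * R * ‖deriv g z₀‖ := by ring
    _ ≤ 2 := h1.le

theorem landau_osc : ∃ C : ℝ, 0 < C ∧ ∀ (g : ℂ → ℂ) (z₀ : ℂ) (R : ℝ), 0 < R →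
    DifferentiableOn ℂ g (Metric.ball z₀ R) →
    (∀ z ∈ Metric.ball z₀ R, ∀ m : ℤ, Complex.cosh (g z) ^ 2 ≠ m) →
    ∀ z ∈ Metric.closedBall z₀ (R / 2), ‖g z - g z₀‖ ≤ C := by
  obtain ⟨C, hC, hB⟩ := landau_bound
  refine ⟨C, hC, ?_⟩
  intro g z₀ R hR hg hn z hz
  have hR2 : 0 < R / 2 := by positivity
  have hsub : ∀ x ∈ Metric.closedBall z₀ (R / 2), Metric.ball x (R / 2) ⊆ Metric.ball z₀ R := by
    intro x hx y hy
    rw [Metric.mem_closedBall] at hx
    rw [Metric.mem_ball] at hy ⊢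
    calc dist y z₀ ≤ dist y x + dist x z₀ := dist_triangle _ _ _
      _ < R / 2 + R / 2 := add_lt_add_of_lt_of_le hy hx
      _ = R := by ring
  have hdiff : ∀ x ∈ Metric.closedBall z₀ (R / 2), DifferentiableAt ℂ g x := by
    intro x hx
    apply hg.differentiableAt
    exact Metric.isOpen_ball.mem_nhds (hsub x hx (Metric.mem_ball_self hR2))
  have hbound : ∀ x ∈ Metric.closedBall z₀ (R / 2), ‖deriv g x‖ ≤ C / (R / 2) := by
    intro x hx
    exact hB g x (R / 2) hR2 (hg.mono (hsub x hx)) (fun y hy m => hn y (hsub x hx hy) m)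
  have h1 := (convex_closedBall z₀ (R / 2)).norm_image_sub_le_of_norm_deriv_le hdiff hbound
    (Metric.mem_closedBall_self hR2.le) hz
  rw [Metric.mem_closedBall, dist_eq_norm] at hz
  calc ‖g z - g z₀‖ ≤ C / (R / 2) * ‖z - z₀‖ := h1
    _ ≤ C / (R / 2) * (R / 2) := mul_le_mul_of_nonneg_left hz (by positivity)
    _ = C := by field_simp

theorem landau_entire (g : ℂ → ℂ) (hg : Differentiable ℂ g)
    (hn : ∀ z, ∀ m : ℤ, Complex.cosh (g z) ^ 2 ≠ m) : ∀ z z', g z = g z' := by
  obtain ⟨C, hC, hB⟩ := landau_bound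
  apply is_const_of_deriv_eq_zero hg
  intro z
  by_contra hne
  have hpos : 0 < ‖deriv g z‖ := norm_pos_iff.2 hne
  have hR : 0 < C / ‖deriv g z‖ + 1 := by positivity
  have h1 := hB g z (C / ‖deriv g z‖ + 1) hR hg.differentiableOn (fun x _ m => hn x m)
  rw [le_div_iff₀ hR] at h1
  have h2 : ‖deriv g z‖ * (C / ‖deriv g z‖ + 1) = C + ‖deriv g z‖ := by
    field_simp
  rw [h2] at h1
  linarith

theorem little_picard (f : ℂ → ℂ) (hf : Differentiable ℂ f) (h0 : ∀ z, f z ≠ 0) (h1 : ∀ z, f z ≠ 1) :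
    ∀ z z', f z = f z' := by
  obtain ⟨M, hM, hMf⟩ := exists_entire_log f hf h0
  have hpi : (2 * Real.pi * Complex.I : ℂ) ≠ 0 := Complex.two_pi_I_ne_zero
  set m : ℂ → ℂ := fun z => M z / (2 * Real.pi * Complex.I) with hm
  have hmd : Differentiable ℂ m := hM.div_const _
  have hmf : ∀ z, Complex.exp (2 * Real.pi * Complex.I * m z) = f z := by
    intro z
    rw [← hMf z, hm]
    congr 1
    field_simp
  have hmi : ∀ z, ∀ k : ℤ, m z ≠ k := by
    intro z k hk
    apply h1 z
    rw [← hmf z, hk, Complex.exp_eq_one_iff]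
    exact ⟨k, by ring⟩
  obtain ⟨α, hα, hαm⟩ := exists_entire_log m hmd (fun z => by simpa using hmi z 0)
  obtain ⟨β, hβ, hβm⟩ := exists_entire_log (fun z => m z - 1) (hmd.sub_const 1) (fun z => by
    have := hmi z 1
    rw [Int.cast_one] at this
    exact sub_ne_zero.2 this)
  obtain ⟨G, hG, hGe⟩ := exists_entire_log
    (fun z => Complex.exp (α z / 2) - Complex.exp (β z / 2))
    ((hα.div_const 2).cexp.sub (hβ.div_const 2).cexp)
    (fun z => landau_ne (α z) (β z) (m z) (hαm z) (hβm z))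
  have hGm : ∀ z, Complex.cosh (G z) ^ 2 = m z := fun z =>
    landau_alg (α z) (β z) (m z) (G z) (hαm z) (hβm z) (hGe z)
  have hGc := landau_entire G hG (fun z k => by rw [hGm z]; exact hmi z k)
  intro z z'
  rw [← hmf z, ← hmf z', ← hGm z, ← hGm z', hGc z z']

end Pool.Agent.Helper2.LN
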