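import Mathlib

/-!
# LN-H0 (MP_730da0_ag): growth at the punctures and at infinity, and Liouville

Paper proof.  `M` is bounded on every compact subset of the complement of `Z` (each `t₁ ∉ Z` has a neighbourhood on which `M ≤ M t₁ + C`).
NEAR `t₀ ∈ Z`: let `δ > 0` be such that all other `z ∈ Z` have `|z - t₀| ≥ 4δ`.  For `0 < |t - t₀| ≤ δ` put `t' = t₀ + (3/2)(t - t₀)`:
`2 |t - t'| = |t - t₀| ≤ |z - t'|` for all `z ∈ Z`, so `M t ≤ M t' + C`.  Iterating, `M t ≤ M₀ + C (1 + log(δ/|t-t₀|)/log(3/2))` with `M₀` a bound of `M` on the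
annulus `δ ≤ |t - t₀| ≤ (3/2) δ`.  [Or: by induction on `j`: `(2/3)^(j+1) δ ≤ |t - t₀| ≤ (2/3)^j δ` implies `M t ≤ M₀ + (j+1) C`.]  So `|h t| ≤ (a + M t)^K` is
`o(1/|t - t₀|)`, the singularity is removable (`Complex.differentiableOn_update_limUnder_of_isLittleO`).
AT INFINITY: `Z ⊂ {|z| ≤ R₀}`, `R₀ ≥ 1`; for `|t| ≥ 4R₀`, `t' = (4/5) t`: `2|t - t'| = (2/5)|t| ≤ (11/20)|t| ≤ |z - t'|`, so `M t ≤ M t' + C`, and
`M t ≤ M₀ + C (1 + log(|t|/(4R₀))/log(5/4))`; so the entire extension `H` of `h` satisfies `H(t) = O((log|t|)^K) = o(|t|)`; Cauchy's estimate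
for the derivative on discs of radius `R → ∞` gives `H' = 0`.  (If `Z` is empty: `M t ≤ M 0 + C` for all `t`, `h` is bounded.)
-/

namespace Pool.Agent.Helper2.LN

open Metric Filter Topology Set

private theorem ll_bdd (Z : Set ℂ) (hZ : Z.Finite) (M : ℂ → ℝ) (C : ℝ)
    (hM : ∀ t₁ ∉ Z, ∀ t, (∀ z ∈ Z, 2 * ‖t - t₁‖ ≤ ‖z - t₁‖) → M t ≤ M t₁ + C)
    (S : Set ℂ) (hS : IsCompact S) (hSZ : ∀ t ∈ S, t ∉ Z) : ∃ B, ∀ t ∈ S, M t ≤ B := by
  -- local bound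
  have hloc : ∀ t₁ ∈ S, ∃ r > 0, ∀ t ∈ ball t₁ r, M t ≤ M t₁ + C := by
    intro t₁ ht₁
    have hc : IsClosed Z := hZ.isClosed
    have : Zᶜ ∈ 𝓝 t₁ := hc.isOpen_compl.mem_nhds (hSZ t₁ ht₁)
    obtain ⟨r, hr, hrZ⟩ := Metric.mem_nhds_iff.1 this
    refine ⟨r / 2, by positivity, fun t ht => hM t₁ (hSZ t₁ ht₁) t fun z hz => ?_⟩
    have h1 : ¬ z ∈ ball t₁ r := fun h => hrZ h hz
    rw [mem_ball, dist_eq_norm] at h1 ht
    linarith
  choose! r hr hb using hloc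
  obtain ⟨T, hTS, hT⟩ := hS.elim_nhds_subcover (fun t => ball t (r t))
    (fun t ht => ball_mem_nhds t (hr t ht))
  refine ⟨∑ x ∈ T, (|M x| + |C|), fun t ht => ?_⟩
  obtain ⟨x, hx, hxt⟩ := mem_iUnion₂.1 (hT ht)
  have h1 := hb x (hTS x hx) t hxt
  have h2 : |M x| + |C| ≤ ∑ x ∈ T, (|M x| + |C|) :=
    Finset.single_le_sum (f := fun x => |M x| + |C|) (fun i _ => by positivity) hx
  have h3 := le_abs_self (M x)
  have h4 := le_abs_self C
  linarith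

private theorem ll_tend (a b c r : ℝ) (ha : 0 ≤ a) (hc : 0 ≤ c) (hr0 : 0 ≤ r) (hr : r < 1) (K : ℕ) :
    Tendsto (fun j : ℕ => (a + c * j) ^ K * r ^ j * b) atTop (𝓝 0) := by
  have h1 : Tendsto (fun j : ℕ => ((a + c) ^ K) * ((j : ℝ) ^ K * r ^ j) * |b|) atTop (𝓝 0) := by
    have := ((tendsto_pow_const_mul_const_pow_of_abs_lt_one K (r := r)
      (by rw [abs_of_nonneg hr0]; exact hr)).const_mul ((a + c) ^ K)).mul_const |b|
    simpa using this
  refine squeeze_zero_norm' ?_ h1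
  filter_upwards [eventually_ge_atTop 1] with j hj
  have hj' : (1 : ℝ) ≤ j := by exact_mod_cast hj
  rw [norm_mul, norm_mul, norm_pow, norm_pow, Real.norm_eq_abs, Real.norm_eq_abs, Real.norm_eq_abs,
    abs_of_nonneg hr0, abs_of_nonneg (by positivity : (0 : ℝ) ≤ a + c * j)]
  refine mul_le_mul_of_nonneg_right ?_ (abs_nonneg b)
  rw [← mul_assoc, ← mul_pow]
  refine mul_le_mul_of_nonneg_right ?_ (by positivity)
  refine pow_le_pow_left₀ (by positivity) ?_ K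
  nlinarith

private theorem ll_near (Z : Set ℂ) (hZ : Z.Finite) (M : ℂ → ℝ) (C : ℝ)
    (hM : ∀ t₁ ∉ Z, ∀ t, (∀ z ∈ Z, 2 * ‖t - t₁‖ ≤ ‖z - t₁‖) → M t ≤ M t₁ + C)
    (t₀ : ℂ) (ht₀ : t₀ ∈ Z) : ∃ δ > 0, ∃ B, 0 ≤ B ∧
      (∀ t, t ≠ t₀ → ‖t - t₀‖ ≤ δ → t ∉ Z) ∧
      ∀ j : ℕ, ∀ t, (2 / 3 : ℝ) ^ (j + 1) * δ ≤ ‖t - t₀‖ → ‖t - t₀‖ ≤ (2 / 3 : ℝ) ^ j * δ →
        M t ≤ B + C * j := by
  -- separation
  have hc : IsClosed (Z \ {t₀}) := (hZ.subset sdiff_subset).isClosed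
  have hmem : (Z \ {t₀})ᶜ ∈ 𝓝 t₀ := hc.isOpen_compl.mem_nhds (by simp)
  obtain ⟨r, hr, hrZ⟩ := Metric.mem_nhds_iff.1 hmem
  have hsep : ∀ z ∈ Z, z ≠ t₀ → r ≤ ‖z - t₀‖ := by
    intro z hz hzt
    by_contra hcon
    push Not at hcon
    exact hrZ (by rw [mem_ball, dist_eq_norm]; exact hcon) ⟨hz, by simpa using hzt⟩
  set δ := r / 4 with hδ
  have hδ0 : 0 < δ := by positivity
  have hout : ∀ t, t ≠ t₀ → ‖t - t₀‖ ≤ δ → t ∉ Z := by
    intro t ht htd htZ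
    have := hsep t htZ ht
    linarith
  -- annulus
  have hann : IsCompact {t : ℂ | (2 / 3 : ℝ) * δ ≤ ‖t - t₀‖ ∧ ‖t - t₀‖ ≤ δ} := by
    have h1 : {t : ℂ | (2 / 3 : ℝ) * δ ≤ ‖t - t₀‖ ∧ ‖t - t₀‖ ≤ δ} =
        closedBall t₀ δ ∩ {t | (2 / 3 : ℝ) * δ ≤ ‖t - t₀‖} := by
      ext t
      simp only [mem_ofPred_eq, mem_inter_iff, mem_closedBall, dist_eq_norm]
      tauto
    rw [h1]
    exact (isCompact_closedBall t₀ δ).inter_right
      (isClosed_le continuous_const (continuous_id.sub continuous_const).norm)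
  obtain ⟨B, hB⟩ := ll_bdd Z hZ M C hM _ hann (by
    rintro t ⟨h1, h2⟩
    refine hout t ?_ h2
    rintro rfl
    simp at h1
    linarith)
  refine ⟨δ, hδ0, |B|, abs_nonneg B, hout, ?_⟩
  intro j
  induction j with
  | zero =>
    intro t h1 h2
    simp only [zero_add, pow_one, pow_zero, one_mul] at h1 h2
    have := hB t ⟨h1, h2⟩
    have := le_abs_self B
    push_cast
    linarith
  | succ j ih =>
    intro t h1 h2
    set t' : ℂ := t₀ + (3 / 2 : ℝ) * (t - t₀) with ht'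
    have hn : ‖t' - t₀‖ = 3 / 2 * ‖t - t₀‖ := by
      rw [ht', add_sub_cancel_left, norm_mul, Complex.norm_real]
      norm_num
    have htt : t - t' = -((1 / 2 : ℝ) : ℂ) * (t - t₀) := by
      rw [ht']
      push_cast
      ring
    have hn2 : ‖t - t'‖ = 1 / 2 * ‖t - t₀‖ := by
      rw [htt, norm_mul, norm_neg, Complex.norm_real]
      norm_num
    have e1 : (2 / 3 : ℝ) ^ (j + 1 + 1) * δ = 2 / 3 * ((2 / 3 : ℝ) ^ (j + 1) * δ) := by ring
    have e2 : (2 / 3 : ℝ) ^ (j + 1) * δ = 2 / 3 * ((2 / 3 : ℝ) ^ j * δ) := by ring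
    have hp : (2 / 3 : ℝ) ^ j * δ ≤ δ := by
      have : (2 / 3 : ℝ) ^ j ≤ 1 := pow_le_one₀ (by norm_num) (by norm_num)
      nlinarith
    have hpp : 0 < (2 / 3 : ℝ) ^ (j + 1) * δ := by positivity
    have h3 := ih t' (by rw [hn]; linarith) (by rw [hn]; linarith)
    have htpos : 0 < ‖t - t₀‖ := by rw [e1] at h1; linarith
    have ht'Z : t' ∉ Z := by
      refine hout t' ?_ (by rw [hn]; linarith)
      intro h
      rw [h, sub_self, norm_zero] at hn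
      linarith
    have h4 := hM t' ht'Z t (by
      intro z hz
      rw [hn2]
      by_cases hzt : z = t₀
      · rw [hzt, norm_sub_rev t₀ t', hn]
        linarith
      · have h5 := hsep z hz hzt
        have h6 : ‖z - t₀‖ ≤ ‖z - t'‖ + ‖t' - t₀‖ := by
          have := norm_add_le (z - t') (t' - t₀)
          simpa using this
        rw [hn] at h6
        linarith)
    push_cast
    linarith

private theorem ll_littleo (Z : Set ℂ) (hZ : Z.Finite) (M : ℂ → ℝ) (hM0 : ∀ t, 0 ≤ M t) (C : ℝ) (hC : 0 ≤ C)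
    (hM : ∀ t₁ ∉ Z, ∀ t, (∀ z ∈ Z, 2 * ‖t - t₁‖ ≤ ‖z - t₁‖) → M t ≤ M t₁ + C)
    (h : ℂ → ℂ) (a : ℝ) (ha : 0 ≤ a) (K : ℕ) (hb : ∀ t ∉ Z, ‖h t‖ ≤ (a + M t) ^ K)
    (t₀ : ℂ) (ht₀ : t₀ ∈ Z) :
    (fun z => h z - h t₀) =o[𝓝[≠] t₀] fun z => (z - t₀)⁻¹ := by
  obtain ⟨δ, hδ, B, hB0, hout, hB⟩ := ll_near Z hZ M C hM t₀ ht₀
  rw [Asymptotics.isLittleO_iff]
  intro c hc
  have ht := ll_tend (a + B) (δ * 1) C (2 / 3) (by positivity) hC (by norm_num) (by norm_num) K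
  have ht2 : Tendsto (fun j : ℕ => ‖h t₀‖ * ((2 / 3 : ℝ) ^ j * δ)) atTop (𝓝 0) := by
    have := ((tendsto_pow_atTop_nhds_zero_of_lt_one (r := (2 / 3 : ℝ)) (by norm_num) (by norm_num)).mul_const
      δ).const_mul ‖h t₀‖
    simpa using this
  have ht3 := ht.add ht2
  rw [add_zero] at ht3
  obtain ⟨J, hJ⟩ := (eventually_atTop.1 (ht3.eventually (gt_mem_nhds hc)))
  have hnb : ∀ᶠ z in 𝓝[≠] t₀, ‖z - t₀‖ < (2 / 3 : ℝ) ^ J * δ := by
    refine mem_nhdsWithin_of_mem_nhds ?_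
    have := Metric.ball_mem_nhds t₀ (by positivity : 0 < (2 / 3 : ℝ) ^ J * δ)
    filter_upwards [this] with z hz
    rwa [mem_ball, dist_eq_norm] at hz
  filter_upwards [hnb, self_mem_nhdsWithin] with z hz hz0
  have hz0' : z ≠ t₀ := hz0
  have hpos : 0 < ‖z - t₀‖ := norm_pos_iff.2 (sub_ne_zero.2 hz0')
  have hJ1 : (2 / 3 : ℝ) ^ J * δ ≤ δ := by
    have : (2 / 3 : ℝ) ^ J ≤ 1 := pow_le_one₀ (by norm_num) (by norm_num)
    nlinarith
  obtain ⟨j, hj1, hj2⟩ := exists_nat_pow_near_of_lt_one (x := ‖z - t₀‖ / δ) (y := (2 / 3 : ℝ))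
    (by positivity) (by rw [div_le_one hδ]; linarith) (by norm_num) (by norm_num)
  rw [lt_div_iff₀ hδ] at hj1
  rw [div_le_iff₀ hδ] at hj2
  have hjJ : J ≤ j := by
    by_contra hcon
    push Not at hcon
    have : (2 / 3 : ℝ) ^ J ≤ (2 / 3 : ℝ) ^ (j + 1) :=
      pow_le_pow_of_le_one (by norm_num) (by norm_num) (by omega)
    nlinarith
  have hMz := hB j z hj1.le hj2
  have hz1 := hb z (hout z hz0' (by linarith))
  have hJ2 := hJ j hjJ
  rw [norm_inv, ← div_eq_mul_inv, le_div_iff₀ hpos]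
  have h5 : ‖h z - h t₀‖ ≤ (a + B + C * j) ^ K + ‖h t₀‖ := by
    refine (norm_sub_le _ _).trans ?_
    have : (a + M z) ^ K ≤ (a + B + C * j) ^ K :=
      pow_le_pow_left₀ (by have := hM0 z; linarith) (by linarith) K
    linarith
  have h6 : 0 ≤ (a + B + C * j) ^ K + ‖h t₀‖ := by positivity
  calc ‖h z - h t₀‖ * ‖z - t₀‖ ≤ ((a + B + C * j) ^ K + ‖h t₀‖) * ((2 / 3 : ℝ) ^ j * δ) :=
        mul_le_mul h5 hj2 (norm_nonneg _) h6
    _ = (a + B + C * j) ^ K * (2 / 3) ^ j * (δ * 1) + ‖h t₀‖ * ((2 / 3) ^ j * δ) := by ring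
    _ ≤ c := hJ2.le

private theorem ll_far (Z : Set ℂ) (hZ : Z.Finite) (M : ℂ → ℝ) (C : ℝ)
    (hM : ∀ t₁ ∉ Z, ∀ t, (∀ z ∈ Z, 2 * ‖t - t₁‖ ≤ ‖z - t₁‖) → M t ≤ M t₁ + C)
    (R₀ : ℝ) (hR₀ : 0 < R₀) (hR : ∀ z ∈ Z, ‖z‖ ≤ R₀) : ∃ B, 0 ≤ B ∧
      ∀ j : ℕ, ∀ t : ℂ, (5 / 4 : ℝ) ^ j * (4 * R₀) ≤ ‖t‖ → ‖t‖ ≤ (5 / 4 : ℝ) ^ (j + 1) * (4 * R₀) →
        M t ≤ B + C * j := by
  have hout : ∀ t : ℂ, 4 * R₀ ≤ ‖t‖ → t ∉ Z := by
    intro t ht htZ
    have := hR t htZ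
    linarith
  have hann : IsCompact {t : ℂ | 4 * R₀ ≤ ‖t‖ ∧ ‖t‖ ≤ 5 / 4 * (4 * R₀)} := by
    have h1 : {t : ℂ | 4 * R₀ ≤ ‖t‖ ∧ ‖t‖ ≤ 5 / 4 * (4 * R₀)} =
        closedBall 0 (5 / 4 * (4 * R₀)) ∩ {t | 4 * R₀ ≤ ‖t‖} := by
      ext t
      simp only [mem_ofPred_eq, mem_inter_iff, mem_closedBall, dist_eq_norm, sub_zero]
      tauto
    rw [h1]
    exact (isCompact_closedBall _ _).inter_right (isClosed_le continuous_const continuous_norm)
  obtain ⟨B, hB⟩ := ll_bdd Z hZ M C hM _ hann (fun t ht => hout t ht.1)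
  refine ⟨|B|, abs_nonneg B, ?_⟩
  intro j
  induction j with
  | zero =>
    intro t h1 h2
    simp only [pow_zero, one_mul, zero_add, pow_one] at h1 h2
    have := hB t ⟨h1, h2⟩
    have := le_abs_self B
    push_cast
    linarith
  | succ j ih =>
    intro t h1 h2
    set t' : ℂ := ((4 / 5 : ℝ) : ℂ) * t with ht'
    have hn : ‖t'‖ = 4 / 5 * ‖t‖ := by
      rw [ht', norm_mul, Complex.norm_real]
      norm_num
    have htt : t - t' = ((1 / 5 : ℝ) : ℂ) * t := by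
      rw [ht']
      push_cast
      ring
    have hn2 : ‖t - t'‖ = 1 / 5 * ‖t‖ := by
      rw [htt, norm_mul, Complex.norm_real]
      norm_num
    have e1 : (5 / 4 : ℝ) ^ (j + 1 + 1) * (4 * R₀) = 5 / 4 * ((5 / 4 : ℝ) ^ (j + 1) * (4 * R₀)) := by ring
    have e2 : (5 / 4 : ℝ) ^ (j + 1) * (4 * R₀) = 5 / 4 * ((5 / 4 : ℝ) ^ j * (4 * R₀)) := by ring
    have hp : 4 * R₀ ≤ (5 / 4 : ℝ) ^ j * (4 * R₀) := by
      have : 1 ≤ (5 / 4 : ℝ) ^ j := one_le_pow₀ (by norm_num)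
      nlinarith
    have h3 := ih t' (by rw [hn]; linarith) (by rw [hn]; linarith)
    have h4 := hM t' (hout t' (by rw [hn]; linarith)) t (by
      intro z hz
      rw [hn2]
      have h5 := hR z hz
      have h6 : ‖t'‖ ≤ ‖z - t'‖ + ‖z‖ := by
        have := norm_add_le (t' - z) z
        rw [sub_add_cancel, norm_sub_rev] at this
        exact this
      rw [hn] at h6
      linarith)
    push_cast
    linarith

theorem line_liouville (Z : Set ℂ) (hZ : Z.Finite) (M : ℂ → ℝ) (hM0 : ∀ t, 0 ≤ M t) (C : ℝ) (hC : 0 ≤ C)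
    (hM : ∀ t₁ ∉ Z, ∀ t, (∀ z ∈ Z, 2 * ‖t - t₁‖ ≤ ‖z - t₁‖) → M t ≤ M t₁ + C)
    (h : ℂ → ℂ) (hd : DifferentiableOn ℂ h Zᶜ) (a : ℝ) (ha : 0 ≤ a) (K : ℕ)
    (hb : ∀ t ∉ Z, ‖h t‖ ≤ (a + M t) ^ K) : ∀ t ∉ Z, ∀ t' ∉ Z, h t = h t' := by
  classical
  have hZo : IsOpen Zᶜ := hZ.isClosed.isOpen_compl
  set H : ℂ → ℂ := fun t => if t ∈ Z then limUnder (𝓝[≠] t) h else h t with hH
  have hHd : Differentiable ℂ H := by
    intro t₀
    by_cases ht₀ : t₀ ∈ Z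
    · obtain ⟨δ, hδ, B, hB0, hout, hB⟩ := ll_near Z hZ M C hM t₀ ht₀
      have hs : ball t₀ δ ∈ 𝓝 t₀ := ball_mem_nhds t₀ hδ
      have h1 := Complex.differentiableOn_update_limUnder_of_isLittleO hs
        (hd.mono (by
          rintro t ⟨ht1, ht2⟩
          rw [mem_ball, dist_eq_norm] at ht1
          exact hout t (by simpa using ht2) ht1.le))
        (ll_littleo Z hZ M hM0 C hC hM h a ha K hb t₀ ht₀)
      refine (h1.differentiableAt hs).congr_of_eventuallyEq ?_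
      filter_upwards [hs] with t ht
      rw [mem_ball, dist_eq_norm] at ht
      by_cases htt : t = t₀
      · subst htt
        simp [hH, ht₀]
      · have := hout t htt ht.le
        simp [hH, this, Function.update_of_ne htt]
    · have h1 : DifferentiableAt ℂ h t₀ := hd.differentiableAt (hZo.mem_nhds ht₀)
      refine h1.congr_of_eventuallyEq ?_
      filter_upwards [hZo.mem_nhds ht₀] with t ht
      have : t ∉ Z := ht
      simp [hH, this]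
  obtain ⟨R₀, hR₀, hR⟩ : ∃ R₀ : ℝ, 0 < R₀ ∧ ∀ z ∈ Z, ‖z‖ ≤ R₀ := by
    obtain ⟨r, hr⟩ := hZ.isBounded.exists_norm_le
    exact ⟨|r| + 1, by positivity, fun z hz => (hr z hz).trans (by have := le_abs_self r; linarith)⟩
  obtain ⟨B, hB0, hB⟩ := ll_far Z hZ M C hM R₀ hR₀ hR
  obtain ⟨D, hD⟩ := (isCompact_closedBall (0 : ℂ) (4 * R₀)).exists_bound_of_continuousOn
    hHd.continuous.continuousOn
  have hbound : ∀ j : ℕ, ∀ t : ℂ, ‖t‖ ≤ (5 / 4 : ℝ) ^ (j + 1) * (4 * R₀) →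
      ‖H t‖ ≤ |D| + (a + B + C * j) ^ K := by
    intro j t ht
    by_cases h1 : ‖t‖ ≤ 4 * R₀
    · have := hD t (by simpa using h1)
      have h2 : 0 ≤ (a + B + C * j) ^ K := by positivity
      have := le_abs_self D
      linarith
    · push Not at h1
      obtain ⟨i, hi1, hi2⟩ := exists_nat_pow_near (x := ‖t‖ / (4 * R₀)) (y := (5 / 4 : ℝ))
        (by rw [le_div_iff₀ (by positivity)]; linarith) (by norm_num)
      rw [le_div_iff₀ (by positivity)] at hi1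
      rw [div_lt_iff₀ (by positivity)] at hi2
      have htZ : t ∉ Z := fun htZ => by have := hR t htZ; linarith
      have h3 : H t = h t := by simp [hH, htZ]
      rw [h3]
      have h4 := hb t htZ
      have h5 : M t ≤ B + C * j := by
        by_cases hij : i ≤ j
        · have h5 := hB i t hi1 hi2.le
          have h6 : C * (i : ℝ) ≤ C * j := mul_le_mul_of_nonneg_left (by exact_mod_cast hij) hC
          linarith
        · refine hB j t ?_ ht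
          have h6 : (5 / 4 : ℝ) ^ j ≤ (5 / 4 : ℝ) ^ i := pow_le_pow_right₀ (by norm_num) (by omega)
          nlinarith
      have h7 : (a + M t) ^ K ≤ (a + B + C * j) ^ K :=
        pow_le_pow_left₀ (by have := hM0 t; linarith) (by linarith) K
      have := abs_nonneg D
      linarith
  have hder : ∀ z, deriv H z = 0 := by
    intro z
    have hkey : ∀ᶠ j : ℕ in atTop, ‖deriv H z‖ ≤
        (|D| + (a + B + C * j) ^ K) / ((4 / 5 : ℝ) ^ j)⁻¹ * (1 / (R₀)) := by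
      obtain ⟨J, hJ⟩ := pow_unbounded_of_one_lt (‖z‖ / R₀) (by norm_num : (1 : ℝ) < 5 / 4)
      rw [div_lt_iff₀ hR₀] at hJ
      filter_upwards [eventually_ge_atTop J] with j hj
      have h1 : (5 / 4 : ℝ) ^ J ≤ (5 / 4 : ℝ) ^ j := pow_le_pow_right₀ (by norm_num) hj
      have h2 : ‖z‖ ≤ (5 / 4 : ℝ) ^ j * R₀ := by nlinarith
      have hρ : 0 < (5 / 4 : ℝ) ^ j * R₀ := by positivity
      have h3 := Complex.norm_deriv_le_of_forall_mem_sphere_norm_le (c := z) (R := (5 / 4 : ℝ) ^ j * R₀)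
        (C := |D| + (a + B + C * j) ^ K) (f := H) hρ hHd.diffContOnCl (by
          intro w hw
          refine hbound j w ?_
          rw [mem_sphere, dist_eq_norm] at hw
          have h4 : ‖w‖ ≤ ‖w - z‖ + ‖z‖ := by
            have := norm_add_le (w - z) z
            simpa using this
          have h5 : (5 / 4 : ℝ) ^ (j + 1) * (4 * R₀) = 5 * ((5 / 4 : ℝ) ^ j * R₀) := by ring
          rw [h5]
          linarith)
      refine h3.trans (le_of_eq ?_)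
      have h6 : ((4 / 5 : ℝ) ^ j)⁻¹ = (5 / 4 : ℝ) ^ j := by
        rw [← inv_pow]
        norm_num
      rw [h6]
      field_simp
    have hlim : Tendsto (fun j : ℕ => (|D| + (a + B + C * j) ^ K) / ((4 / 5 : ℝ) ^ j)⁻¹ * (1 / R₀)) atTop
        (𝓝 0) := by
      have h1 := ll_tend (a + B) (1 / R₀) C (4 / 5) (by positivity) hC (by norm_num) (by norm_num) K
      have h2 : Tendsto (fun j : ℕ => |D| * ((4 / 5 : ℝ) ^ j) * (1 / R₀)) atTop (𝓝 0) := by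
        have := ((tendsto_pow_atTop_nhds_zero_of_lt_one (r := (4 / 5 : ℝ)) (by norm_num)
          (by norm_num)).const_mul |D|).mul_const (1 / R₀)
        simpa using this
      have h3 := h2.add h1
      rw [add_zero] at h3
      refine h3.congr fun j => ?_
      rw [div_inv_eq_mul]
      ring
    have h0 : ‖deriv H z‖ ≤ 0 := ge_of_tendsto hlim hkey
    exact norm_le_zero_iff.1 h0
  have hconst : ∀ t t', H t = H t' := fun t t' => is_const_of_deriv_eq_zero hHd hder t t'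
  intro t ht t' ht'
  have h1 : H t = h t := by simp [hH, ht]
  have h2 : H t' = h t' := by simp [hH, ht']
  rw [← h1, ← h2]
  exact hconst t t'

end Pool.Agent.Helper2.LN
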