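import Pool.Agent.Helper2.LN.CrossLem

/-!
# LN-C4 (MP_730da0_ag): the mover lemma

Paper proof.  `e` is the last label.  `D = {x : Re x_u < Re x_v for u < v < e, Im x_u < Im x_e for u ≠ e}` is convex, in `Conf k`, and contains `a`, `c`.  Let
`x^(j)` (`j = k-1, .., 0`) be the point with the coordinates `x_u = u + 0·I` for `u ≠ e`, `x_e = (j - 1/2) + I` (`j` points left of `e`).  All are in `D`.  `x^(k-1) ∈ Ord k`, so `T a x^(k-1) (val φ a) = val φ x^(k-1)` (`T_val`).
`x^(j+1) → x^(j)` is a crossing (`l = j`, `m = e`) at position `j`, so `T x^(j+1) x^(j) (val ψ x^(j+1)) = val (s_j ψ) x^(j)`.  `x^(0)` and `c` have the same order.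
`T_trans` in `D`: `T a c (val φ a) = val (s_0 (s_1 ⋯ (s_(k-2) φ))) c`, which is `val (A φ) c`, `A = s_0 s_1 ⋯ s_(k-2)` (`List.range_succ`, induction).
-/

namespace Pool.Agent.Helper2.LN

variable {k : ℕ} {W : Type} [TopologicalSpace W]

/-- the convex set of the mover lemma -/
private def DM (e : Fin k) : Set (Fin k → ℂ) :=
  {x | (∀ u v, u < v → v ≠ e → (x u).re < (x v).re) ∧ ∀ u, u ≠ e → (x u).im < (x e).im}

private theorem mover_comb {x y x' y' s t : ℝ} (h : x < y) (h' : x' < y') (hs : 0 ≤ s) (ht : 0 ≤ t)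
    (hst : s + t = 1) : s * x + t * x' < s * y + t * y' := by
  rcases hs.eq_or_lt with h0 | h0
  · subst h0
    have : t = 1 := by linarith
    subst this
    linarith
  · have h1 : s * x < s * y := mul_lt_mul_of_pos_left h h0
    have h2 : t * x' ≤ t * y' := mul_le_mul_of_nonneg_left h'.le ht
    linarith

private theorem DM_convex (e : Fin k) : Convex ℝ (DM e) := by
  intro x hx y hy s t hs ht hst
  refine ⟨fun u v huv hne => ?_, fun u hu => ?_⟩
  · have h := mover_comb (hx.1 u v huv hne) (hy.1 u v huv hne) hs ht hst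
    simpa using h
  · have h := mover_comb (hx.2 u hu) (hy.2 u hu) hs ht hst
    simpa using h

private theorem DM_conf (e : Fin k) (he : (e : ℕ) + 1 = k) : DM e ⊆ Conf k := by
  intro x hx
  have key : ∀ u v, u < v → x u ≠ x v := by
    intro u v huv hh
    by_cases hv : v = e
    · have hu : u ≠ e := by
        rw [← hv]
        exact huv.ne
      have h1 := hx.2 u hu
      rw [← hv, hh] at h1
      exact lt_irrefl _ h1
    · have h1 := hx.1 u v huv hv
      rw [hh] at h1
      exact lt_irrefl _ h1
  intro u v hh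
  rcases lt_trichotomy u v with h1 | h1 | h1
  · exact absurd hh (key u v h1)
  · exact h1
  · exact absurd hh.symm (key v u h1)

/-- the intermediate configurations -/
private noncomputable def XM (e : Fin k) (j : ℕ) : Fin k → ℂ := fun u =>
  if u = e then (((j : ℝ) - 1 / 2 : ℝ) : ℂ) + Complex.I else (((u : ℕ) : ℝ) : ℂ)

private theorem XM_re_e (e : Fin k) (j : ℕ) : (XM e j e).re = (j : ℝ) - 1 / 2 := by
  simp [XM]

private theorem XM_im_e (e : Fin k) (j : ℕ) : (XM e j e).im = 1 := by
  simp [XM]

private theorem XM_re (e : Fin k) (j : ℕ) (u : Fin k) (hu : u ≠ e) : (XM e j u).re = (u : ℕ) := by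
  simp [XM, hu]

private theorem XM_im (e : Fin k) (j : ℕ) (u : Fin k) (hu : u ≠ e) : (XM e j u).im = 0 := by
  simp [XM, hu]

private theorem XM_DM (e : Fin k) (he : (e : ℕ) + 1 = k) (j : ℕ) : XM e j ∈ DM e := by
  refine ⟨fun u v huv hne => ?_, fun u hu => ?_⟩
  · have hu : u ≠ e := by
      rintro rfl
      have h1 := v.2
      have h2 : (u : ℕ) < (v : ℕ) := huv
      omega
    rw [XM_re e j u hu, XM_re e j v hne]
    exact_mod_cast (huv : (u : ℕ) < (v : ℕ))
  · rw [XM_im e j u hu, XM_im_e]
    norm_num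

private theorem half_ne (u j : ℕ) : (u : ℝ) ≠ (j : ℝ) - 1 / 2 := by
  intro h
  have h1 : (2 * u + 1 : ℝ) = 2 * j := by linarith
  have h2 : 2 * u + 1 = 2 * j := by exact_mod_cast h1
  omega

private theorem half_lt_iff (u j : ℕ) : (u : ℝ) < (j : ℝ) - 1 / 2 ↔ u < j := by
  constructor
  · intro h
    have h1 : (u : ℝ) < (j : ℝ) := by linarith
    exact_mod_cast h1
  · intro h
    have h1 : ((u + 1 : ℕ) : ℝ) ≤ (j : ℝ) := by exact_mod_cast h
    push_cast at h1
    linarith

private theorem XM_gen (e : Fin k) (j : ℕ) : XM e j ∈ Gen k := by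
  intro u v huv
  have huv' : (XM e j u).re = (XM e j v).re := huv
  by_cases hu : u = e
  · by_cases hv : v = e
    · rw [hu, hv]
    · rw [hu, XM_re_e, XM_re e j v hv] at huv'
      exact absurd huv'.symm (half_ne _ _)
  · by_cases hv : v = e
    · rw [hv, XM_re_e, XM_re e j u hu] at huv'
      exact absurd huv' (half_ne _ _)
    · rw [XM_re e j u hu, XM_re e j v hv] at huv'
      apply Fin.ext
      exact_mod_cast huv'

private theorem lt_e (e : Fin k) (he : (e : ℕ) + 1 = k) (u : Fin k) (hu : u ≠ e) :
    (u : ℕ) < (e : ℕ) := by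
  have h1 := u.2
  have h2 : (u : ℕ) ≠ (e : ℕ) := fun h => hu (Fin.ext h)
  omega

private theorem XM_cross (e : Fin k) (he : (e : ℕ) + 1 = k) (j : ℕ) (l : Fin k) (hl : (l : ℕ) = j)
    (hle : l ≠ e) : Cross (XM e (j + 1)) (XM e j) l e where
  gena := XM_gen e _
  genc := XM_gen e _
  lt := by
    rw [XM_re e _ l hle, XM_re_e, half_lt_iff]
    omega
  gt := by
    rw [XM_re e _ l hle, XM_re_e, hl]
    linarith
  ima := by
    rw [XM_im e _ l hle, XM_im_e]
    norm_num
  imc := by
    rw [XM_im e _ l hle, XM_im_e]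
    norm_num
  same := by
    intro x y h1 h2
    by_cases hx : x = e
    · by_cases hy : y = e
      · rw [hx, hy]
        exact ⟨fun h => absurd h (lt_irrefl _), fun h => absurd h (lt_irrefl _)⟩
      · have hyl : (y : ℕ) ≠ j := fun h => h2 ⟨hx, Fin.ext (by rw [h, hl])⟩
        rw [hx, XM_re_e, XM_re_e, XM_re e _ y hy, XM_re e _ y hy]
        have a1 := half_lt_iff (y : ℕ) (j + 1)
        have a2 := half_lt_iff (y : ℕ) j
        have b1 := half_ne (y : ℕ) (j + 1)
        have b2 := half_ne (y : ℕ) j
        constructor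
        · intro h
          by_contra hn
          have hn' : ((y : ℕ) : ℝ) < (j : ℝ) - 1 / 2 := lt_of_le_of_ne (not_lt.1 hn) b2
          have h3 := a2.1 hn'
          have h4 := a1.2 (by omega)
          exact absurd h (not_lt.2 h4.le)
        · intro h
          by_contra hn
          have hn' : ((y : ℕ) : ℝ) < ((j + 1 : ℕ) : ℝ) - 1 / 2 := lt_of_le_of_ne (not_lt.1 hn) b1
          have h3 := a1.1 hn'
          have h4 := a2.2 (by omega)
          exact absurd h (not_lt.2 h4.le)
    · by_cases hy : y = e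
      · have hxl : (x : ℕ) ≠ j := fun h => h1 ⟨Fin.ext (by rw [h, hl]), hy⟩
        rw [hy, XM_re_e, XM_re_e, XM_re e _ x hx, XM_re e _ x hx, half_lt_iff, half_lt_iff]
        omega
      · rw [XM_re e _ x hx, XM_re e _ x hx, XM_re e _ y hy, XM_re e _ y hy]

private theorem XM_pos (e : Fin k) (he : (e : ℕ) + 1 = k) (j : ℕ) (l : Fin k) (hl : (l : ℕ) = j)
    (hle : l ≠ e) : pos (XM e (j + 1)) l = j := by
  unfold pos
  have h1 : (Finset.univ.filter fun u => (XM e (j + 1) u).re < (XM e (j + 1) l).re) =
      Finset.Iio l := by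
    ext u
    simp only [Finset.mem_filter, Finset.mem_univ, true_and, Finset.mem_Iio]
    by_cases hu : u = e
    · rw [hu, XM_re_e, XM_re e _ l hle, hl]
      have h2 := lt_e e he l hle
      constructor
      · intro h
        push_cast at h
        linarith
      · intro h
        have h3 : (e : ℕ) < (l : ℕ) := h
        omega
    · rw [XM_re e _ u hu, XM_re e _ l hle]
      constructor
      · intro h
        exact (by exact_mod_cast h : (u : ℕ) < (l : ℕ))
      · intro h
        exact_mod_cast (h : (u : ℕ) < (l : ℕ))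
  rw [h1, Fin.card_Iio, hl]

private theorem mem_ord_gen {a : Fin k → ℂ} (ha : a ∈ Ord k) : a ∈ Gen k := Ord_subset_Gen k ha

private theorem mover_aux (S : Sys k W) (a : Fin k → ℂ) (e : Fin k) (he : (e : ℕ) + 1 = k)
    (ha : a ∈ Ord k) (hia : ∀ j, j ≠ e → (a j).im < (a e).im) (φ : S.F (base k)) (n : ℕ) :
    ∀ j, j + n = k - 1 →
      S.T a (XM e j) (S.val φ a) = S.val (((List.range' j n).map S.s).prod φ) (XM e j) := by
  have haD : a ∈ DM e := ⟨fun u v huv _ => ha u v huv, hia⟩
  induction n with
  | zero =>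
    intro j hj
    have hX : XM e j ∈ Ord k := by
      intro u v huv
      by_cases hv : v = e
      · have hu : u ≠ e := by
          rw [← hv]
          exact huv.ne
        rw [hv, XM_re_e, XM_re e _ u hu, half_lt_iff]
        have := lt_e e he u hu
        omega
      · exact (XM_DM e he j).1 u v huv hv
    have h1 := S.T_val a (XM e j) (mem_ord_gen ha) (XM_gen e j) (fun x y => by
      constructor
      · intro h
        rcases lt_trichotomy x y with h2 | h2 | h2
        · exact hX x y h2
        · rw [h2] at h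
          exact absurd h (lt_irrefl _)
        · exact absurd (ha y x h2) (not_lt.2 h.le)
      · intro h
        rcases lt_trichotomy x y with h2 | h2 | h2
        · exact ha x y h2
        · rw [h2] at h
          exact absurd h (lt_irrefl _)
        · exact absurd (hX y x h2) (not_lt.2 h.le)) φ
    rw [h1]
    rfl
  | succ n ih =>
    intro j hj
    have h1 := ih (j + 1) (by omega)
    have hjk : j + 1 < k := by omega
    let l : Fin k := ⟨j, by omega⟩
    have hle : l ≠ e := by
      intro h
      have h2 : (l : ℕ) = (e : ℕ) := by rw [h]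
      change j = (e : ℕ) at h2
      omega
    have hc := XM_cross e he j l rfl hle
    have hp := XM_pos e he j l rfl hle
    rw [← S.T_trans (DM e) (DM_convex e) (DM_conf e he) a (XM e (j + 1)) (XM e j) haD
      (XM_DM e he _) (XM_DM e he _) _ (S.val_mem φ a (mem_ord_gen ha)), h1,
      S.crossProp_s j hjk _ _ l e hc hp, List.range'_succ, List.map_cons, List.prod_cons]
    rfl

theorem Sys.mover (S : Sys k W) (hk : 2 ≤ k) (a c : Fin k → ℂ) (e : Fin k) (he : (e : ℕ) + 1 = k)
    (ha : a ∈ Ord k) (hia : ∀ j, j ≠ e → (a j).im < (a e).im) (hic : ∀ j, j ≠ e → (c j).im < (c e).im)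
    (hoc : ∀ i j, i < j → j ≠ e → (c i).re < (c j).re) (hl : ∀ j, j ≠ e → (c e).re < (c j).re)
    (φ : S.F (base k)) : S.T a c (S.val φ a) = S.val (S.A φ) c := by
  have haD : a ∈ DM e := ⟨fun u v huv _ => ha u v huv, hia⟩
  have hcD : c ∈ DM e := ⟨hoc, hic⟩
  have h1 := mover_aux S a e he ha hia φ (k - 1) 0 (by omega)
  have hA : ((List.range' 0 (k - 1)).map S.s).prod = S.A := by
    unfold Sys.A
    rw [List.range_eq_range']
  rw [hA] at h1
  have hcg : c ∈ Gen k := by
    intro u v huv
    have huv' : (c u).re = (c v).re := huv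
    by_cases hu : u = e
    · by_cases hv : v = e
      · rw [hu, hv]
      · rw [hu] at huv'
        exact absurd huv' (hl v hv).ne
    · by_cases hv : v = e
      · rw [hv] at huv'
        exact absurd huv'.symm (hl u hu).ne
      · rcases lt_trichotomy u v with h2 | h2 | h2
        · exact absurd huv' (hoc u v h2 hv).ne
        · exact h2
        · exact absurd huv'.symm (hoc v u h2 hu).ne
  rw [← S.T_trans (DM e) (DM_convex e) (DM_conf e he) a (XM e 0) c haD (XM_DM e he _) hcD _
    (S.val_mem φ a (mem_ord_gen ha)), h1]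
  refine S.T_val (XM e 0) c (XM_gen e 0) hcg (fun x y => ?_) (S.A φ)
  by_cases hx : x = e
  · by_cases hy : y = e
    · rw [hx, hy]
      exact ⟨fun h => absurd h (lt_irrefl _), fun h => absurd h (lt_irrefl _)⟩
    · rw [hx]
      refine ⟨fun _ => hl y hy, fun _ => ?_⟩
      rw [XM_re_e, XM_re e _ y hy]
      have : (0 : ℝ) ≤ ((y : ℕ) : ℝ) := Nat.cast_nonneg _
      push_cast
      linarith
  · by_cases hy : y = e
    · rw [hy]
      refine ⟨fun h => ?_, fun h => absurd h (not_lt.2 (hl x hx).le)⟩
      rw [XM_re_e, XM_re e _ x hx, half_lt_iff] at h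
      omega
    · rw [XM_re e _ x hx, XM_re e _ y hy]
      constructor
      · intro h
        exact hoc x y (by exact_mod_cast h) hy
      · intro h
        rcases lt_trichotomy x y with h2 | h2 | h2
        · exact_mod_cast (h2 : (x : ℕ) < (y : ℕ))
        · rw [h2] at h
          exact absurd h (lt_irrefl _)
        · exact absurd (hoc y x h2 hx) (not_lt.2 h.le)

end Pool.Agent.Helper2.LN
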