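import Pool.Agent.Helper2.LN.LinkAbs
import Pool.Agent.Helper2.LN.Mover
import Pool.Agent.Helper2.LN.Circle

/-!
# LN-R2 (MP_730da0_ag): LINK A: the rotation of the regular `k`-gon acts as `A`

Paper proof.  `θ_j(t) = π (2(j+t)+1)/k`.  `μ₀ = tan(π/(4k))/2 < 1`, `clip u = max 0 (min 1 u)`, `μ(u) = 1 - (1 - μ₀) clip u > 0`.  `H (u, t)_j = cp (μ u) (θ_j t)`: continuous, injective in `j` (`cp_inj`: the angles
differ by `2π (j - j')/k`), `H (u, t+1) = H (u, t) ∘ ρ` with `ρ j = j + 1 mod k` (`cp_add_two_pi`), `H (0, t) = rotA k t` (`cp_one`).  `t₀ = 1/4`, `e` the last label.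
At `u = 1` (`μ = μ₀`): for labels `j ≠ e` and `t ∈ [0, 5/4]` the half angle `θ_j/2` is in `[π/(2k), π - π/(4k)]`, for `e` and `t ∈ [0,1/4]` too; on the half angle interval `[π/(4k), π - π/(4k)]` one has
`|μ₀ cos| ≤ sin` (`|cot| ≤ cot(π/(4k))`, `μ₀ cot(π/(4k)) = 1/2`), so there `Re H` is strictly increasing in the angle (`cp_re_lt`).
* `H (1, 1/4) ∈ Ord k`.
* On `[1/4, 3/4]`: `θ_e - 2π ∈ [-π/(2k), π/(2k)]`, so `cos(θ_e/2)² ≥ cos(π/(4k))²`, and `cos(θ_j/2)² ≤ cos(3π/(4k))²` for `j ≠ e`: `Im H_j < Im H_e` (`cp_im_lt`).  So the path is in the convex set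
  `M = {Re x_i < Re x_j for i < j ≠ e, Im x_j < Im x_e for j ≠ e}`; at `t = 3/4` the mover `e` (angle `π/(2k)` mod `2π`) has the smallest real part (`cp_add_two_pi`, `cp_re_lt`).  `T_along` and `Sys.mover`: `s (3/4) = val (A φ) (H (1, 3/4))`.
* On `[3/4, 5/4]`: the order of the real parts is `e, 0, 1, .., k-2` throughout (mover angle mod `2π` in `[π/(2k), 3π/(2k)]`, less than `θ_0 = π(2t+1)/k ≥ 5π/(2k)`), so `s (5/4) = val (A φ) (H (1, 5/4))` (`T_along` in the convex set of this order, `T_val`),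
  and `val (A φ) (H (1, 5/4)) = val (A φ) (H (1, 1/4))` by `val_perm`.
Then `Sys.link_abs`.
-/

namespace Pool.Agent.Helper2.LN

/-- The rotating regular `k`-gon. -/
noncomputable def rotA (k : ℕ) (t : ℝ) : Fin k → ℂ :=
  fun j => Complex.I * Complex.exp (((Real.pi * (2 * ((j : ℕ) + t) + 1) / k : ℝ) : ℂ) * Complex.I)

variable {k : ℕ} {W : Type} [TopologicalSpace W]

open Real in
private theorem la_sin_ge {δ α : ℝ} (h0 : 0 ≤ δ) (h1 : δ ≤ α) (h2 : α ≤ π - δ) : sin δ ≤ sin α := by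
  rcases le_total α (π / 2) with h | h
  · exact sin_le_sin_of_le_of_le_pi_div_two (by linarith [pi_pos]) h h1
  · rw [← sin_pi_sub α]
    exact sin_le_sin_of_le_of_le_pi_div_two (by linarith [pi_pos]) (by linarith) (by linarith)

open Real in
private theorem la_cos_le {δ α : ℝ} (h0 : 0 ≤ δ) (h1 : δ ≤ α) (h2 : α ≤ 2 * π - δ) :
    cos α ≤ cos δ := by
  rcases le_total α π with h | h
  · exact cos_le_cos_of_nonneg_of_le_pi h0 h h1
  · have h3 : cos α = cos (2 * π - α) := by rw [cos_two_pi_sub]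
    rw [h3]
    exact cos_le_cos_of_nonneg_of_le_pi h0 (by linarith) (by linarith)

open Real in
/-- the comparison of real parts -/
private theorem la_re {δ θ θ' : ℝ} (h0 : 0 < δ) (hδ : δ ≤ π / 2) (h1 : 2 * δ ≤ θ) (h : θ < θ')
    (h2 : θ' ≤ 2 * π - 2 * δ) : (cp (sin δ) θ).re < (cp (sin δ) θ').re := by
  have hs : 0 < sin δ := sin_pos_of_pos_of_lt_pi h0 (by linarith [pi_pos])
  have key : ∀ α, 2 * δ ≤ α → α ≤ 2 * π - 2 * δ → |sin δ * cos (α / 2)| ≤ sin (α / 2) := by
    intro α ha hb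
    rw [abs_mul, abs_of_pos hs]
    calc sin δ * |cos (α / 2)| ≤ sin δ * 1 :=
          mul_le_mul_of_nonneg_left (abs_cos_le_one _) hs.le
      _ = sin δ := mul_one _
      _ ≤ sin (α / 2) := la_sin_ge h0.le (by linarith) (by linarith)
  have k1 := abs_le.1 (key θ h1 (by linarith))
  have k2 := abs_le.1 (key θ' (by linarith) h2)
  exact cp_re_lt _ _ _ hs (by linarith) h (by linarith) k1.2 k2.1

/-- the angles -/
private noncomputable def la_th (k : ℕ) (t : ℝ) (j : Fin k) : ℝ :=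
  Real.pi * (2 * ((j : ℕ) + t) + 1) / k

private theorem la_th_eq (k : ℕ) (hk : 2 ≤ k) (t : ℝ) (j : Fin k) :
    la_th k t j = 4 * (Real.pi / (4 * k)) * (2 * ((j : ℕ) + t) + 1) := by
  have : (k : ℝ) ≠ 0 := by positivity
  unfold la_th
  field_simp

private theorem la_pi (k : ℕ) (hk : 2 ≤ k) : Real.pi = 4 * k * (Real.pi / (4 * k)) := by
  have : (k : ℝ) ≠ 0 := by positivity
  field_simp

/-- the squeezing -/
private noncomputable def la_mu (k : ℕ) (u : ℝ) : ℝ :=
  1 - (1 - Real.sin (Real.pi / (4 * k))) * max 0 (min 1 u)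

private theorem la_delta (k : ℕ) (hk : 2 ≤ k) :
    0 < Real.pi / (4 * k) ∧ Real.pi / (4 * k) ≤ Real.pi / 8 := by
  have h2 : (2 : ℝ) ≤ k := by exact_mod_cast hk
  constructor
  · positivity
  · apply div_le_div_of_nonneg_left Real.pi_pos.le (by norm_num)
    linarith

private theorem la_sin_pos (k : ℕ) (hk : 2 ≤ k) : 0 < Real.sin (Real.pi / (4 * k)) := by
  obtain ⟨h1, h2⟩ := la_delta k hk
  exact Real.sin_pos_of_pos_of_lt_pi h1 (by linarith [Real.pi_pos])

private theorem la_mu_pos (k : ℕ) (hk : 2 ≤ k) (u : ℝ) : 0 < la_mu k u := by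
  unfold la_mu
  have h1 := la_sin_pos k hk
  have h2 := Real.sin_le_one (Real.pi / (4 * k))
  have h3 : max 0 (min 1 u) ≤ 1 := max_le zero_le_one (min_le_left _ _)
  have h4 : 0 ≤ max 0 (min 1 u) := le_max_left _ _
  nlinarith

private theorem la_mu_zero (k : ℕ) : la_mu k 0 = 1 := by
  unfold la_mu
  norm_num

private theorem la_mu_one (k : ℕ) : la_mu k 1 = Real.sin (Real.pi / (4 * k)) := by
  unfold la_mu
  norm_num

private theorem la_mu_cont (k : ℕ) : Continuous (la_mu k) := by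
  unfold la_mu
  fun_prop

/-- the homotopy -/
private noncomputable def la_H (k : ℕ) (x : ℝ × ℝ) : Fin k → ℂ :=
  fun j => cp (la_mu k x.1) (la_th k x.2 j)

private theorem la_H_cont (k : ℕ) (hk : 2 ≤ k) : Continuous (la_H k) := by
  refine continuous_pi fun j => ?_
  refine cp_continuous (fun x : ℝ × ℝ => la_mu k x.1) (fun x : ℝ × ℝ => la_th k x.2 j)
    ((la_mu_cont k).comp continuous_fst) ?_ fun x => la_mu_pos k hk _
  unfold la_th
  fun_prop

private theorem la_H_conf (k : ℕ) (hk : 2 ≤ k) (x : ℝ × ℝ) : la_H k x ∈ Conf k := by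
  intro i j hij
  obtain ⟨m, hm⟩ := cp_inj _ _ _ (la_mu_pos k hk x.1) hij
  have hk0 : (k : ℝ) ≠ 0 := by positivity
  have hpi : Real.pi ≠ 0 := Real.pi_ne_zero
  have h1 : ((j : ℕ) : ℝ) - ((i : ℕ) : ℝ) = k * m := by
    unfold la_th at hm
    field_simp at hm
    linarith
  have h2 : ((j : ℕ) : ℤ) - ((i : ℕ) : ℤ) = k * m := by exact_mod_cast h1
  have hi := i.2
  have hj := j.2
  have h3 : m = 0 := by
    by_contra hne
    rcases lt_or_gt_of_ne hne with h | h
    · have : (k : ℤ) * m ≤ k * (-1) := mul_le_mul_of_nonneg_left (by omega) (by omega)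
      omega
    · have : (k : ℤ) * 1 ≤ k * m := mul_le_mul_of_nonneg_left (by omega) (by omega)
      omega
  rw [h3, mul_zero] at h2
  apply Fin.ext
  omega

private theorem la_H_zero (k : ℕ) (t : ℝ) : la_H k (0, t) = rotA k t := by
  funext j
  show cp (la_mu k 0) (la_th k t j) = _
  rw [la_mu_zero, cp_one]
  rfl

private theorem la_rot (n : ℕ) (j : Fin (n + 2)) :
    ((finRotate (n + 2) j : Fin (n + 2)) : ℕ) = if (j : ℕ) = n + 1 then 0 else (j : ℕ) + 1 := by
  rcases eq_or_ne j (Fin.last (n + 1)) with h | h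
  · subst h
    rw [finRotate_last]
    simp
  · have h1 : (j : ℕ) ≠ n + 1 := fun h2 => h (Fin.ext h2)
    rw [coe_finRotate_of_ne_last h, if_neg h1]

private theorem la_H_per (n : ℕ) (u t : ℝ) :
    la_H (n + 2) (u, t + 1) = la_H (n + 2) (u, t) ∘ finRotate (n + 2) := by
  funext j
  show cp (la_mu (n + 2) u) (la_th (n + 2) (t + 1) j) =
    cp (la_mu (n + 2) u) (la_th (n + 2) t (finRotate (n + 2) j))
  have hn : ((n : ℝ) + 2) ≠ 0 := by positivity
  by_cases h : (j : ℕ) = n + 1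
  · have h1 : la_th (n + 2) (t + 1) j = la_th (n + 2) t (finRotate (n + 2) j) + 2 * Real.pi := by
      unfold la_th
      rw [la_rot, if_pos h, h]
      push_cast
      field_simp
      ring
    rw [h1, cp_add_two_pi]
  · have h1 : la_th (n + 2) (t + 1) j = la_th (n + 2) t (finRotate (n + 2) j) := by
      unfold la_th
      rw [la_rot, if_neg h]
      push_cast
      ring
    rw [h1]

/-- increasing real parts of the labels `< k - 1` -/
private theorem la_order (k : ℕ) (hk : 2 ≤ k) (t : ℝ) (h1 : 1 / 4 ≤ t) (i j : Fin k) (hij : i < j)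
    (hj : 4 * ((j : ℕ) + t) + 3 ≤ 4 * k) : (la_H k (1, t) i).re < (la_H k (1, t) j).re := by
  obtain ⟨hd, hd'⟩ := la_delta k hk
  have hpi := la_pi k hk
  show (cp (la_mu k 1) (la_th k t i)).re < (cp (la_mu k 1) (la_th k t j)).re
  rw [la_mu_one]
  have hi0 : (0 : ℝ) ≤ ((i : ℕ) : ℝ) := Nat.cast_nonneg _
  have hlt : ((i : ℕ) : ℝ) < ((j : ℕ) : ℝ) := by exact_mod_cast hij
  have e1 := mul_nonneg hd.le hi0
  have e2 := mul_nonneg hd.le (sub_nonneg.2 h1)
  have e3 := mul_nonneg hd.le (sub_nonneg.2 hj)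
  have e4 := mul_pos hd (sub_pos.2 hlt)
  refine la_re hd (by linarith [Real.pi_pos]) ?_ ?_ ?_
  · rw [la_th_eq k hk]
    linarith
  · rw [la_th_eq k hk, la_th_eq k hk]
    linarith
  · rw [la_th_eq k hk]
    linarith

/-- the imaginary part of the mover is the largest -/
private theorem la_im (k : ℕ) (hk : 2 ≤ k) (t : ℝ) (h1 : 1 / 4 ≤ t) (h2 : t ≤ 3 / 4) (j e : Fin k)
    (he : (e : ℕ) + 1 = k) (hj : j ≠ e) : (la_H k (1, t) j).im < (la_H k (1, t) e).im := by
  obtain ⟨hd, hd'⟩ := la_delta k hk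
  have hpi := la_pi k hk
  show (cp (la_mu k 1) (la_th k t j)).im < (cp (la_mu k 1) (la_th k t e)).im
  have hj2 : ((j : ℕ) : ℝ) + 2 ≤ k := by
    have h3 : (j : ℕ) + 2 ≤ k := by
      have := j.2
      have h4 : (j : ℕ) ≠ e := fun h => hj (Fin.ext h)
      omega
    exact_mod_cast h3
  have he2 : ((e : ℕ) : ℝ) = k - 1 := by
    have : ((e : ℕ) : ℝ) + 1 = k := by exact_mod_cast he
    linarith
  have hj0 : (0 : ℝ) ≤ ((j : ℕ) : ℝ) := Nat.cast_nonneg _
  have e1 := mul_nonneg hd.le hj0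
  have e2 := mul_nonneg hd.le (sub_nonneg.2 h1)
  have e3 := mul_nonneg hd.le (sub_nonneg.2 hj2)
  have e4 := mul_nonneg hd.le (sub_nonneg.2 h2)
  apply cp_im_lt _ _ _ (la_mu_pos k hk 1)
  rw [Real.cos_sq, Real.cos_sq]
  have c1 : Real.cos (2 * (la_th k t j / 2)) ≤ Real.cos (6 * (Real.pi / (4 * k))) := by
    have h5 : 2 * (la_th k t j / 2) = la_th k t j := by ring
    rw [h5]
    refine la_cos_le (by linarith) ?_ ?_
    · rw [la_th_eq k hk]
      linarith
    · rw [la_th_eq k hk]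
      linarith
  have c2 : Real.cos (2 * (Real.pi / (4 * k))) ≤ Real.cos (2 * (la_th k t e / 2)) := by
    have h5 : 2 * (la_th k t e / 2) =
        4 * (Real.pi / (4 * k)) * (2 * t - 1) + 2 * Real.pi := by
      rw [mul_div_cancel₀ _ (by norm_num : (2 : ℝ) ≠ 0), la_th_eq k hk, he2]
      linarith
    rw [h5, Real.cos_add_two_pi]
    rw [← Real.cos_abs (4 * (Real.pi / (4 * k)) * (2 * t - 1))]
    refine Real.cos_le_cos_of_nonneg_of_le_pi (abs_nonneg _) (by linarith [Real.pi_pos]) ?_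
    rw [abs_le]
    constructor <;> linarith
  have c3 : Real.cos (6 * (Real.pi / (4 * k))) < Real.cos (2 * (Real.pi / (4 * k))) :=
    Real.cos_lt_cos_of_nonneg_of_le_pi (by linarith) (by linarith [Real.pi_pos]) (by linarith)
  linarith

/-- the mover is the leftmost point -/
private theorem la_left (k : ℕ) (hk : 2 ≤ k) (t : ℝ) (h1 : 3 / 4 ≤ t) (h2 : t ≤ 5 / 4)
    (j e : Fin k) (he : (e : ℕ) + 1 = k) (hj : j ≠ e) :
    (la_H k (1, t) e).re < (la_H k (1, t) j).re := by
  obtain ⟨hd, hd'⟩ := la_delta k hk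
  have hpi := la_pi k hk
  show (cp (la_mu k 1) (la_th k t e)).re < (cp (la_mu k 1) (la_th k t j)).re
  have hj2 : ((j : ℕ) : ℝ) + 2 ≤ k := by
    have h3 : (j : ℕ) + 2 ≤ k := by
      have := j.2
      have h4 : (j : ℕ) ≠ e := fun h => hj (Fin.ext h)
      omega
    exact_mod_cast h3
  have he2 : ((e : ℕ) : ℝ) = k - 1 := by
    have : ((e : ℕ) : ℝ) + 1 = k := by exact_mod_cast he
    linarith
  have hj0 : (0 : ℝ) ≤ ((j : ℕ) : ℝ) := Nat.cast_nonneg _
  have e1 := mul_nonneg hd.le hj0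
  have e2 := mul_nonneg hd.le (sub_nonneg.2 h1)
  have e3 := mul_nonneg hd.le (sub_nonneg.2 hj2)
  have e4 := mul_nonneg hd.le (sub_nonneg.2 h2)
  have h5 : la_th k t e = 4 * (Real.pi / (4 * k)) * (2 * t - 1) + 2 * Real.pi := by
    rw [la_th_eq k hk, he2]
    linarith
  rw [h5, cp_add_two_pi, la_mu_one]
  refine la_re hd (by linarith [Real.pi_pos]) ?_ ?_ ?_
  · linarith
  · rw [la_th_eq k hk]
    linarith
  · rw [la_th_eq k hk]
    linarith

private theorem la_comb {x y x' y' s t : ℝ} (h : x < y) (h' : x' < y') (hs : 0 ≤ s) (ht : 0 ≤ t)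
    (hst : s + t = 1) : s * x + t * x' < s * y + t * y' := by
  rcases hs.eq_or_lt with h0 | h0
  · subst h0
    have : t = 1 := by linarith
    subst this
    linarith
  · have h1 : s * x < s * y := mul_lt_mul_of_pos_left h h0
    have h2 : t * x' ≤ t * y' := mul_le_mul_of_nonneg_left h'.le ht
    linarith

private theorem la_re_comb (a c : Fin k → ℂ) (s t : ℝ) (i : Fin k) :
    ((s • a + t • c) i).re = s * (a i).re + t * (c i).re := by
  simp

private theorem la_im_comb (a c : Fin k → ℂ) (s t : ℝ) (i : Fin k) :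
    ((s • a + t • c) i).im = s * (a i).im + t * (c i).im := by
  simp

/-- the first convex set -/
private def la_M (e : Fin k) : Set (Fin k → ℂ) :=
  {x | (∀ i j, i < j → j ≠ e → (x i).re < (x j).re) ∧ ∀ j, j ≠ e → (x j).im < (x e).im}

private theorem la_M_convex (e : Fin k) : Convex ℝ (la_M e) := by
  intro a ha c hc s t hs ht hst
  constructor
  · intro i j hij hj
    rw [la_re_comb, la_re_comb]
    exact la_comb (ha.1 i j hij hj) (hc.1 i j hij hj) hs ht hst
  · intro j hj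
    rw [la_im_comb, la_im_comb]
    exact la_comb (ha.2 j hj) (hc.2 j hj) hs ht hst

private theorem la_M_conf (e : Fin k) : la_M e ⊆ Conf k := by
  intro x hx i j hij
  by_contra hne
  by_cases hi : i = e
  · subst hi
    have := hx.2 j (Ne.symm hne)
    rw [hij] at this
    exact lt_irrefl _ this
  · by_cases hj : j = e
    · subst hj
      have := hx.2 i hi
      rw [hij] at this
      exact lt_irrefl _ this
    · rcases lt_or_gt_of_ne hne with h | h
      · have := hx.1 i j h hj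
        rw [hij] at this
        exact lt_irrefl _ this
      · have := hx.1 j i h hi
        rw [hij] at this
        exact lt_irrefl _ this

/-- the second convex set -/
private def la_M' (e : Fin k) : Set (Fin k → ℂ) :=
  {x | (∀ i j, i < j → j ≠ e → (x i).re < (x j).re) ∧ ∀ j, j ≠ e → (x e).re < (x j).re}

private theorem la_M'_convex (e : Fin k) : Convex ℝ (la_M' e) := by
  intro a ha c hc s t hs ht hst
  constructor
  · intro i j hij hj
    rw [la_re_comb, la_re_comb]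
    exact la_comb (ha.1 i j hij hj) (hc.1 i j hij hj) hs ht hst
  · intro j hj
    rw [la_re_comb, la_re_comb]
    exact la_comb (ha.2 j hj) (hc.2 j hj) hs ht hst

private theorem la_M'_gen (e : Fin k) : la_M' e ⊆ Gen k := by
  intro x hx i j hij
  by_contra hne
  have hij : (x i).re = (x j).re := hij
  by_cases hi : i = e
  · subst hi
    have := hx.2 j (Ne.symm hne)
    linarith
  · by_cases hj : j = e
    · subst hj
      have := hx.2 i hi
      linarith
    · rcases lt_or_gt_of_ne hne with h | h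
      · have := hx.1 i j h hj
        linarith
      · have := hx.1 j i h hi
        linarith

private theorem la_M'_order (e : Fin k) (he : (e : ℕ) + 1 = k) (x y : Fin k → ℂ) (hx : x ∈ la_M' e)
    (hy : y ∈ la_M' e) (i j : Fin k) (h : (x i).re < (x j).re) : (y i).re < (y j).re := by
  by_cases hj : j = e
  · subst hj
    by_cases hi : i = j
    · subst hi
      exact absurd h (lt_irrefl _)
    · have := hx.2 i hi
      linarith
  · by_cases hi : i = e
    · subst hi
      exact hy.2 j hj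
    · rcases lt_trichotomy i j with h1 | h1 | h1
      · exact hy.1 i j h1 hj
      · subst h1
        exact absurd h (lt_irrefl _)
      · have := hx.1 j i h1 hi
        linarith

theorem Sys.linkA (S : Sys k W) (hk : 2 ≤ k) :
    ∃ Φ : S.F (base k) → ℝ → W, (∀ w, Continuous (Φ w)) ∧ (∀ w t, Φ w t ∈ S.F (rotA k t)) ∧
      (∀ x ∈ S.F (rotA k 0), ∃ w, Φ w 0 = x) ∧ (∀ w w', Φ w 0 = Φ w' 0 → w = w') ∧
      ∀ w t, Φ w (t + 1) = Φ (S.A w) t := by
  obtain ⟨n, rfl⟩ : ∃ n, k = n + 2 := ⟨k - 2, by omega⟩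
  obtain ⟨e, he⟩ : ∃ e : Fin (n + 2), (e : ℕ) + 1 = n + 2 := ⟨Fin.last (n + 1), rfl⟩
  have hle : ∀ j : Fin (n + 2), j ≠ e → ((j : ℕ) : ℝ) + 2 ≤ ((n + 2 : ℕ) : ℝ) := by
    intro j hj
    have h3 : (j : ℕ) + 2 ≤ n + 2 := by
      have := j.2
      have h4 : (j : ℕ) ≠ e := fun h => hj (Fin.ext h)
      omega
    exact_mod_cast h3
  have hall : ∀ j : Fin (n + 2), ((j : ℕ) : ℝ) + 1 ≤ ((n + 2 : ℕ) : ℝ) := by
    intro j
    have h3 : (j : ℕ) + 1 ≤ n + 2 := j.2
    exact_mod_cast h3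
  have hord : la_H (n + 2) (1, 1 / 4) ∈ Ord (n + 2) := by
    intro i j hij
    exact la_order _ hk _ le_rfl i j hij (by linarith [hall j])
  have hgen : la_H (n + 2) (1, 1 / 4) ∈ Gen (n + 2) := Ord_subset_Gen _ hord
  have hM : ∀ t : ℝ, 1 / 4 ≤ t → t ≤ 3 / 4 → la_H (n + 2) (1, t) ∈ la_M e := by
    intro t h1 h2
    refine ⟨fun i j hij hj => la_order _ hk _ h1 i j hij (by linarith [hle j hj]),
      fun j hj => la_im _ hk t h1 h2 j e he hj⟩
  have hM' : ∀ t : ℝ, 3 / 4 ≤ t → t ≤ 5 / 4 → la_H (n + 2) (1, t) ∈ la_M' e := by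
    intro t h1 h2
    refine ⟨fun i j hij hj => la_order _ hk _ (by linarith) i j hij (by linarith [hle j hj]),
      fun j hj => la_left _ hk t h1 h2 j e he hj⟩
  have hcont : Continuous fun t : ℝ => la_H (n + 2) (1, t) :=
    (la_H_cont (n + 2) hk).comp (by fun_prop)
  have main : ∀ φ, ∀ s : C(ℝ, W), (∀ t, s t ∈ S.F (la_H (n + 2) (1, t))) →
      s (1 / 4) = S.val φ (la_H (n + 2) (1, 1 / 4)) →
      s (1 / 4 + 1) = S.val (S.A φ) (la_H (n + 2) (1, 1 / 4)) := by
    intro φ s hs h0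
    -- the first half
    have h1 : s (3 / 4) = S.val (S.A φ) (la_H (n + 2) (1, 3 / 4)) := by
      have hp : PreconnectedSpace (Set.Icc (1 / 4 : ℝ) (3 / 4)) :=
        Subtype.preconnectedSpace isPreconnected_Icc
      have h2 := S.T_along (la_M e) (la_M_convex e) (la_M_conf e) (Set.Icc (1 / 4 : ℝ) (3 / 4))
        ⟨fun t => la_H (n + 2) (1, (t : ℝ)), hcont.comp continuous_subtype_val⟩
        (fun t => hM t t.2.1 t.2.2) (s.comp ⟨Subtype.val, continuous_subtype_val⟩)
        (fun t => hs t) ⟨1 / 4, by norm_num, by norm_num⟩ ⟨3 / 4, by norm_num, by norm_num⟩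
      have h3 : s (3 / 4) = S.T (la_H (n + 2) (1, 1 / 4)) (la_H (n + 2) (1, 3 / 4)) (s (1 / 4)) := h2
      rw [h3, h0]
      have hA := hM (1 / 4) (by norm_num) (by norm_num)
      have hC := hM (3 / 4) (by norm_num) (by norm_num)
      have hC' := hM' (3 / 4) (by norm_num) (by norm_num)
      exact S.mover hk _ _ e he hord hA.2 hC.2 hC.1 hC'.2 φ
    -- the second half
    have hp : PreconnectedSpace (Set.Icc (3 / 4 : ℝ) (5 / 4)) :=
      Subtype.preconnectedSpace isPreconnected_Icc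
    have h2 := S.T_along (la_M' e) (la_M'_convex e) ((la_M'_gen e).trans (Gen_subset_Conf _))
      (Set.Icc (3 / 4 : ℝ) (5 / 4))
      ⟨fun t => la_H (n + 2) (1, (t : ℝ)), hcont.comp continuous_subtype_val⟩
      (fun t => hM' t t.2.1 t.2.2) (s.comp ⟨Subtype.val, continuous_subtype_val⟩)
      (fun t => hs t) ⟨3 / 4, by norm_num, by norm_num⟩ ⟨5 / 4, by norm_num, by norm_num⟩
    have h3 : s (5 / 4) = S.T (la_H (n + 2) (1, 3 / 4)) (la_H (n + 2) (1, 5 / 4)) (s (3 / 4)) := h2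
    have hC := hM' (3 / 4) (by norm_num) (by norm_num)
    have hE := hM' (5 / 4) (by norm_num) (by norm_num)
    have h4 : s (5 / 4) = S.val (S.A φ) (la_H (n + 2) (1, 5 / 4)) := by
      rw [h3, h1]
      exact S.T_val _ _ (la_M'_gen e hC) (la_M'_gen e hE)
        (fun i j => ⟨la_M'_order e he _ _ hC hE i j, la_M'_order e he _ _ hE hC i j⟩) _
    have h5 : (1 / 4 + 1 : ℝ) = 5 / 4 := by norm_num
    have h6 : la_H (n + 2) (1, 5 / 4) = la_H (n + 2) (1, 1 / 4) ∘ finRotate (n + 2) := by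
      rw [← h5]
      exact la_H_per n 1 (1 / 4)
    rw [h5, h4, h6]
    exact S.val_perm _ _ hgen _
  obtain ⟨Φ, h1, h2, h3, h4, h5⟩ := S.link_abs (la_H (n + 2)) (la_H_cont _ hk) (la_H_conf _ hk)
    (finRotate (n + 2)) (la_H_per n) (1 / 4) hgen S.A main
  refine ⟨Φ, h1, fun w t => ?_, fun x hx => ?_, h4, h5⟩
  · rw [← la_H_zero]
    exact h2 w t
  · rw [← la_H_zero] at hx
    exact h3 x hx

end Pool.Agent.Helper2.LN
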