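import Pool.Agent.Helper2.LN.CrossLem

/-!
# LN-R1 (MP_730da0_ag): transport of a periodic family along a homotopy

Paper proof.  `ℝ × ℝ` is contractible and locally path connected.  For `w ∈ F (base k)` let `L_w : ℝ × ℝ → W` be the lift of `H` with `L_w (1, t₀) = val w (H (1, t₀))`; `Φ w t = L_w (0, t)`.
The map `(u, t) ↦ L_w (u, t+1)` takes values in `F (H (u, t+1)) = F (H (u, t) ∘ ρ) = F (H (u, t))`, so it is again a lift of `H`; at `(1, t₀)` it has the value `L_w (1, t₀+1) = val (g w) (H (1, t₀))` (by `hg`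
for `s = L_w (1, ·)`), so it equals `L_(g w)` (`Sys.uniq`).  Every `x ∈ F (H (0,0))` is on a lift `L`; `L (1, t₀) ∈ F (H (1, t₀))` is `val w (H (1,t₀))` for some `w` (`val_surj`), so `L = L_w`.  If `Φ w 0 = Φ w' 0` then
`L_w = L_w'` (`uniq`), so `val w = val w'` at `H (1, t₀)`, `w = w'` (`val_inj`).
-/

namespace Pool.Agent.Helper2.LN

variable {k : ℕ} {W : Type} [TopologicalSpace W]

theorem Sys.link_abs (S : Sys k W) (H : ℝ × ℝ → (Fin k → ℂ)) (hH : Continuous H) (hC : ∀ x, H x ∈ Conf k)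
    (ρ : Equiv.Perm (Fin k)) (hper : ∀ u t, H (u, t + 1) = H (u, t) ∘ ρ) (t₀ : ℝ) (hGen : H (1, t₀) ∈ Gen k)
    (g : Equiv.Perm (S.F (base k)))
    (hg : ∀ φ, ∀ s : C(ℝ, W), (∀ t, s t ∈ S.F (H (1, t))) → s t₀ = S.val φ (H (1, t₀)) →
      s (t₀ + 1) = S.val (g φ) (H (1, t₀))) :
    ∃ Φ : S.F (base k) → ℝ → W, (∀ w, Continuous (Φ w)) ∧ (∀ w t, Φ w t ∈ S.F (H (0, t))) ∧
      (∀ x ∈ S.F (H (0, 0)), ∃ w, Φ w 0 = x) ∧ (∀ w w', Φ w 0 = Φ w' 0 → w = w') ∧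
      ∀ w t, Φ w (t + 1) = Φ (g w) t := by
  have hlift := fun w => S.lift (ℝ × ℝ) ⟨H, hH⟩ hC (1, t₀) (S.val w (H (1, t₀)))
    (S.val_mem w _ hGen)
  choose L hL0 hLF using hlift
  have huniq : ∀ s s' : C(ℝ × ℝ, W), (∀ a, s a ∈ S.F (H a)) → (∀ a, s' a ∈ S.F (H a)) →
      (∃ a, s a = s' a) → s = s' := fun s s' h h' h'' =>
    S.uniq (ℝ × ℝ) ⟨H, hH⟩ hC s s' h h' h''
  refine ⟨fun w t => L w (0, t), ?_, ?_, ?_, ?_, ?_⟩
  · intro w
    exact (L w).continuous.comp (continuous_const.prodMk continuous_id)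
  · intro w t
    exact hLF w (0, t)
  · intro x hx
    obtain ⟨L', h0, hF⟩ := S.lift (ℝ × ℝ) ⟨H, hH⟩ hC (0, 0) x hx
    obtain ⟨w, hw⟩ := S.val_surj (H (1, t₀)) hGen (L' (1, t₀)) (hF (1, t₀))
    have h1 : L' = L w := huniq _ _ hF (hLF w) ⟨(1, t₀), by rw [hL0, hw]⟩
    exact ⟨w, by rw [← h0, h1]⟩
  · intro w w' h
    have h1 : L w = L w' := huniq _ _ (hLF w) (hLF w') ⟨(0, 0), h⟩
    refine S.val_inj w w' (H (1, t₀)) hGen ?_
    rw [← hL0 w, ← hL0 w', h1]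
  · intro w t
    let sh : C(ℝ × ℝ, ℝ × ℝ) := ⟨fun x => (x.1, x.2 + 1), by fun_prop⟩
    let ln : C(ℝ, ℝ × ℝ) := ⟨fun t => (1, t), by fun_prop⟩
    have hM : ∀ a, ((L w).comp sh) a ∈ S.F (H a) := by
      rintro ⟨u, t⟩
      have h1 := hLF w (u, t + 1)
      have h2 : S.F (H (u, t + 1)) = S.F (H (u, t)) := by rw [hper, S.perm]
      rw [← h2]
      exact h1
    have h1 : (L w).comp sh = L (g w) := by
      refine huniq _ _ hM (hLF (g w)) ⟨(1, t₀), ?_⟩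
      rw [hL0]
      exact hg w ((L w).comp ln) (fun t => hLF w (1, t)) (hL0 w)
    exact congrArg (fun f : C(ℝ × ℝ, W) => f (0, t)) h1

end Pool.Agent.Helper2.LN
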