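import Pool.Agent.Helper2.LN.LinkAbs
import Pool.Agent.Helper2.LN.Mover
import Pool.Agent.Helper2.LN.Circle

/-!
# LN-R3 (MP_730da0_ag): LINK B: the rotation of the centred regular `(k-1)`-gon acts as `B = s_0 A`

Paper proof.  `K = k - 1 ≥ 3`.  Label `0` is the inner point, label `j = 1, .., K` has the angle `θ_j(t) = π (2(j-1+t)+1)/K`; the mover is `e = K` (last label), `θ_e(t) = 2π - π/K + 2πt/K`.
`μ₀ = tan(π/(2K))/8 < 1`, `clip u = max 0 (min 1 u)`, `μ(u) = 1 - (1-μ₀) clip u`, `H (u, t)_0 = -(clip u)/2`, `H (u, t)_j = cp (μ u) (θ_j t)`.  Injective: the outer points have norm `1` and are distinct (`cp_inj`), the inner point has norm `≤ 1/2`.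
`H (u, t+1) = H (u, t) ∘ ρ`, `ρ 0 = 0`, `ρ` cyclic on `1, .., K`.  `H (0, t) = rotB k t`.
At `u = 1`: `y = μ₀ cot(θ/2)`, `Re = -2y/(1+y²)`, `Im = (y²-1)/(y²+1)`; inner point at `(-1/2, 0)`.  For `θ = π/K` `y = 1/8`.  Let `θ₁ < θ₂ < π/K` be the angles with `y = 2` resp. `y = 1/2` (`tan(θ/2) = μ₀/y`, `θ = 2 arctan(μ₀/y)`).
Times: `t₀ = 1/2 - θ₁K/(2π)` (mover angle `2π - θ₁`), `t₁ = 1/2 + θ₁K/(2π)` (mover angle `2π + θ₁`), `t₂ = 1/2 + θ₂K/(2π) < 1` (mover angle `2π + θ₂`).  `0 < t₀ < t₁ < t₂ < 1`.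
All labels `1 ≤ j < K` have for `t ∈ [0,1]` angles in `[π/K, 2π - π/K]`, `|y| ≤ 1/8`, `|Re| ≤ 1/4 < 1/2`, `Im < 0`, and the real part is increasing in `j`.
* `t₀`: mover at `y = -2`: `(4/5, 3/5)`.  `H (1, t₀) ∈ Ord k` (inner point leftmost, mover rightmost).
* `[t₀, t₁]`: mover has `|y| ≥ 2` or `b = 0`, `Im ≥ 3/5 > 0 ≥` all other imaginary parts; the others keep their order: the path is in the convex set of `Sys.mover`; at `t₁` the mover is at `(-4/5, 3/5)`, left of everybody.  So `s t₁ = val (A φ)`.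
* `[t₁, t₂]`: mover has `y ∈ [1/2, 2]`, `Re ≤ -4/5 < -1/2`: constant order `e, 0, 1, .., K-1`: `s t₂ = val (A φ)`.
* `t₂ → 1`: mover from `(-4/5, -3/5)` to `y = 1/8`, `Re = -16/65 > -1/2`, always `Im < 0` (`y < 1`): with `l = e`, `m = 0` this is a crossing at position `0` (the left point, the mover, is the lower one), the path is in the
  convex set `{Im x_e < Im x_0, all other order relations fixed (x_e, x_0 left of x_1, .., x_(K-1))}` [mover is left of label `1`: real part increasing in the angle, `cp_re_lt`].  `CrossProp 0 (s 0)`: `s 1 = val (s_0 (A φ)) (H (1,1))`.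
* `[1, t₀+1]`: constant order `0, e, 1, .., K-1` (label `K-1` runs from `y = -1/8` to `y = -2`, `Re ≥ 16/65 >` the real parts of the others, which have `|y| < 1/8` or negative real part):
  `s (t₀+1) = val (B φ) (H (1, t₀+1)) = val (B φ) (H (1, t₀))` (`val_perm`).
Then `Sys.link_abs`.
-/

namespace Pool.Agent.Helper2.LN

/-- The rotating regular `(k-1)`-gon with its centre (label `0`). -/
noncomputable def rotB (k : ℕ) (t : ℝ) : Fin k → ℂ :=
  fun j => if (j : ℕ) = 0 then 0 else
    Complex.I * Complex.exp (((Real.pi * (2 * ((j : ℕ) - 1 + t) + 1) / (k - 1) : ℝ) : ℂ) * Complex.I)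

variable {k : ℕ} {W : Type} [TopologicalSpace W]

/-! ### geometry -/

private noncomputable def al (k : ℕ) : ℝ := Real.pi / (2 * ((k : ℝ) - 1))

private noncomputable def mm (k : ℕ) : ℝ := Real.tan (al k) / 8

private noncomputable def clip (u : ℝ) : ℝ := max 0 (min 1 u)

private noncomputable def mu (k : ℕ) (u : ℝ) : ℝ := (1 - clip u) + mm k * clip u

private noncomputable def HB (k : ℕ) (x : ℝ × ℝ) : Fin k → ℂ := fun j =>
  if (j : ℕ) = 0 then ((-(clip x.1) / 2 : ℝ) : ℂ) else
    cp (mu k x.1) (2 * (al k * (2 * ((j : ℕ) : ℝ) - 1 + 2 * x.2)))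

private theorem al_pos (hk : 4 ≤ k) : 0 < al k := by
  have h : (4 : ℝ) ≤ k := by exact_mod_cast hk
  unfold al
  have := Real.pi_pos
  apply div_pos this
  linarith

private theorem al_K (hk : 4 ≤ k) : al k * (2 * ((k : ℝ) - 1)) = Real.pi := by
  have h : (4 : ℝ) ≤ k := by exact_mod_cast hk
  unfold al
  have : (2 * ((k : ℝ) - 1)) ≠ 0 := by nlinarith
  exact div_mul_cancel₀ _ this

private theorem al_lt (hk : 4 ≤ k) : 6 * al k ≤ Real.pi := by
  have h : (4 : ℝ) ≤ k := by exact_mod_cast hk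
  have h1 := al_K hk
  have h2 := al_pos hk
  nlinarith

private theorem cosal_pos (hk : 4 ≤ k) : 0 < Real.cos (al k) := by
  have h1 := al_pos hk
  have h2 := al_lt hk
  have := Real.pi_pos
  apply Real.cos_pos_of_mem_Ioo
  constructor <;> linarith

private theorem mm_eq (hk : 4 ≤ k) : Real.sin (al k) = 8 * mm k * Real.cos (al k) := by
  have h := cosal_pos hk
  unfold mm
  rw [Real.tan_eq_sin_div_cos]
  field_simp

private theorem mm_pos (hk : 4 ≤ k) : 0 < mm k := by
  have h1 := al_pos hk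
  have h2 := al_lt hk
  have := Real.pi_pos
  unfold mm
  have := Real.tan_pos_of_pos_of_lt_pi_div_two h1 (by linarith)
  positivity

private theorem al_arctan (hk : 4 ≤ k) : Real.arctan (8 * mm k) = al k := by
  have h1 := al_pos hk
  have h2 := al_lt hk
  have := Real.pi_pos
  have h3 : 8 * mm k = Real.tan (al k) := by unfold mm; ring
  rw [h3]
  exact Real.arctan_tan (by linarith) (by linarith)

private theorem clip_nonneg (u : ℝ) : 0 ≤ clip u := le_max_left _ _

private theorem clip_le (u : ℝ) : clip u ≤ 1 := max_le zero_le_one (min_le_left _ _)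

private theorem mu_pos (hk : 4 ≤ k) (u : ℝ) : 0 < mu k u := by
  have h1 := clip_nonneg u
  have h2 := clip_le u
  have h3 := mm_pos hk
  unfold mu
  rcases h1.eq_or_lt with h | h
  · rw [← h]
    norm_num
  · have : 0 < mm k * clip u := mul_pos h3 h
    linarith

private theorem sincos_arctan (x : ℝ) : Real.sin (Real.arctan x) = x * Real.cos (Real.arctan x) := by
  rw [Real.sin_arctan, Real.cos_arctan]
  ring

private theorem G1 (x h : ℝ) (hh : 0 ≤ Real.sin (h - Real.arctan x)) : x * Real.cos h ≤ Real.sin h := by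
  rw [Real.sin_sub, sincos_arctan] at hh
  have h1 := Real.cos_arctan_pos x
  by_contra hn
  push Not at hn
  have : Real.cos (Real.arctan x) * (Real.sin h - x * Real.cos h) < 0 :=
    mul_neg_of_pos_of_neg h1 (by linarith)
  linarith

private theorem G2 (x h : ℝ) (hh : 0 ≤ Real.sin (Real.arctan x - h)) : Real.sin h ≤ x * Real.cos h := by
  rw [Real.sin_sub, sincos_arctan] at hh
  have h1 := Real.cos_arctan_pos x
  by_contra hn
  push Not at hn
  have : 0 < Real.cos (Real.arctan x) * (Real.sin h - x * Real.cos h) :=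
    mul_pos h1 (by linarith)
  linarith

private theorem cpre (m h : ℝ) : (cp m (2 * h)).re =
    -2 * m * Real.cos h * Real.sin h / (m ^ 2 * Real.cos h ^ 2 + Real.sin h ^ 2) := by
  have : 2 * h / 2 = h := by ring
  unfold cp
  simp only [this]

private theorem cpim (m h : ℝ) : (cp m (2 * h)).im =
    (m ^ 2 * Real.cos h ^ 2 - Real.sin h ^ 2) / (m ^ 2 * Real.cos h ^ 2 + Real.sin h ^ 2) := by
  have : 2 * h / 2 = h := by ring
  unfold cp
  simp only [this]

private theorem den_pos (m h : ℝ) (hm : 0 < m) : 0 < m ^ 2 * Real.cos h ^ 2 + Real.sin h ^ 2 := by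
  have := cp_den_pos m (2 * h) hm
  have h2 : 2 * h / 2 = h := by ring
  rwa [h2] at this

/-- the half angles of the slow labels -/
private theorem F1 (hk : 4 ≤ k) (h : ℝ) (h1 : al k ≤ h) (h2 : h ≤ Real.pi - al k) :
    8 * mm k * Real.cos h ≤ Real.sin h ∧ -(8 * mm k * Real.cos h) ≤ Real.sin h := by
  have h3 := al_pos hk
  have e := al_arctan hk
  constructor
  · refine G1 (8 * mm k) h ?_
    rw [e]
    exact Real.sin_nonneg_of_nonneg_of_le_pi (by linarith) (by linarith)
  · have h4 := G1 (-(8 * mm k)) h (by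
      rw [Real.arctan_neg, e]
      exact Real.sin_nonneg_of_nonneg_of_le_pi (by linarith) (by linarith))
    linarith

private theorem sin_pos' (hk : 4 ≤ k) (h : ℝ) (h1 : al k ≤ h) (h2 : h ≤ Real.pi - al k) :
    0 < Real.sin h := by
  have h3 := al_pos hk
  exact Real.sin_pos_of_pos_of_lt_pi (by linarith) (by linarith)

private theorem slow_im (hk : 4 ≤ k) (h : ℝ) (h1 : al k ≤ h) (h2 : h ≤ Real.pi - al k) :
    (cp (mm k) (2 * h)).im < 0 := by
  obtain ⟨f1, f2⟩ := F1 hk h h1 h2
  have h3 := sin_pos' hk h h1 h2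
  rw [cpim]
  apply div_neg_of_neg_of_pos _ (den_pos _ _ (mm_pos hk))
  have h5 : (mm k * Real.cos h) ^ 2 ≤ (Real.sin h / 8) ^ 2 := by
    apply sq_le_sq'
    · linarith
    · linarith
  have h6 : 0 < Real.sin h ^ 2 := by positivity
  nlinarith

private theorem slow_re (hk : 4 ≤ k) (h : ℝ) (h1 : al k ≤ h) (h2 : h ≤ Real.pi - al k) :
    -(1 / 4) ≤ (cp (mm k) (2 * h)).re := by
  obtain ⟨f1, f2⟩ := F1 hk h h1 h2
  have h3 := sin_pos' hk h h1 h2
  rw [cpre, le_div_iff₀ (den_pos _ _ (mm_pos hk))]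
  nlinarith [sq_nonneg (mm k * Real.cos h)]

private theorem slow_lt (hk : 4 ≤ k) (h h' : ℝ) (h1 : al k ≤ h) (h2 : h < h')
    (h3 : h' ≤ Real.pi - al k) : (cp (mm k) (2 * h)).re < (cp (mm k) (2 * h')).re := by
  have ha := al_pos hk
  have hm := mm_pos hk
  obtain ⟨f1, f2⟩ := F1 hk h h1 (by linarith)
  obtain ⟨g1, g2⟩ := F1 hk h' (by linarith) h3
  have s1 := sin_pos' hk h h1 (by linarith)
  have s2 := sin_pos' hk h' (by linarith) h3
  have e : 2 * h / 2 = h := by ring
  have e' : 2 * h' / 2 = h' := by ring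
  apply cp_re_lt _ _ _ hm
  · linarith
  · linarith
  · linarith
  · rw [e]
    rcases le_or_gt 0 (Real.cos h) with hc | hc
    · nlinarith [mul_nonneg hm.le hc]
    · nlinarith [mul_pos hm (neg_pos.2 hc)]
  · rw [e']
    rcases le_or_gt 0 (Real.cos h') with hc | hc
    · nlinarith [mul_nonneg hm.le hc]
    · nlinarith [mul_pos hm (neg_pos.2 hc)]

/-- the mover near the top -/
private theorem top_im (hk : 4 ≤ k) (h : ℝ) (h1 : -Real.arctan (mm k / 2) ≤ h)
    (h2 : h ≤ Real.arctan (mm k / 2)) : 0 < (cp (mm k) (2 * h)).im := by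
  have hm := mm_pos hk
  have hp := Real.pi_pos
  have hlt := Real.arctan_lt_pi_div_two (mm k / 2)
  have f1 := G2 (mm k / 2) h (Real.sin_nonneg_of_nonneg_of_le_pi (by linarith) (by linarith))
  have f2 := G1 (-(mm k / 2)) h (by
    rw [Real.arctan_neg]
    exact Real.sin_nonneg_of_nonneg_of_le_pi (by linarith) (by linarith))
  have hc : 0 < Real.cos h := Real.cos_pos_of_mem_Ioo ⟨by linarith, by linarith⟩
  rw [cpim]
  apply div_pos _ (den_pos _ _ hm)
  have h5 : Real.sin h ^ 2 ≤ (mm k / 2 * Real.cos h) ^ 2 := by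
    apply sq_le_sq'
    · linarith
    · linarith
  have h6 : 0 < (mm k * Real.cos h) ^ 2 := by positivity
  nlinarith

/-- the mover at the left -/
private theorem left_re (hk : 4 ≤ k) (h : ℝ) (h1 : Real.arctan (mm k / 2) ≤ h)
    (h2 : h ≤ Real.arctan (2 * mm k)) : (cp (mm k) (2 * h)).re ≤ -(4 / 5) := by
  have hm := mm_pos hk
  have hp := Real.pi_pos
  have hlt := Real.arctan_lt_pi_div_two (mm k / 2)
  have hlt2 := Real.arctan_lt_pi_div_two (2 * mm k)
  have h0 : 0 < Real.arctan (mm k / 2) := Real.arctan_pos.2 (by linarith)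
  have f1 := G1 (mm k / 2) h (Real.sin_nonneg_of_nonneg_of_le_pi (by linarith) (by linarith))
  have f2 := G2 (2 * mm k) h (Real.sin_nonneg_of_nonneg_of_le_pi (by linarith) (by linarith))
  rw [cpre, div_le_iff₀ (den_pos _ _ hm)]
  have h3 : 0 ≤ (Real.sin h - mm k / 2 * Real.cos h) * (2 * mm k * Real.cos h - Real.sin h) :=
    mul_nonneg (by linarith) (by linarith)
  nlinarith

/-- the mover on its way down -/
private theorem down_im (hk : 4 ≤ k) (h : ℝ) (h1 : Real.arctan (2 * mm k) ≤ h)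
    (h2 : h ≤ al k) : mm k * Real.cos h ≤ Real.sin h ∧ (cp (mm k) (2 * h)).im < 0 := by
  have hm := mm_pos hk
  have hp := Real.pi_pos
  have ha := al_lt hk
  have h0 : 0 < Real.arctan (2 * mm k) := Real.arctan_pos.2 (by linarith)
  have f1 := G1 (2 * mm k) h (Real.sin_nonneg_of_nonneg_of_le_pi (by linarith) (by linarith))
  have hc : 0 < Real.cos h := Real.cos_pos_of_mem_Ioo ⟨by linarith, by linarith⟩
  have hmc : 0 < mm k * Real.cos h := mul_pos hm hc
  refine ⟨by nlinarith, ?_⟩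
  rw [cpim]
  apply div_neg_of_neg_of_pos _ (den_pos _ _ hm)
  have h5 : (mm k * Real.cos h) ^ 2 ≤ (Real.sin h / 2) ^ 2 := by
    apply sq_le_sq'
    · nlinarith
    · linarith
  have h6 : 0 < Real.sin h ^ 2 := by
    have : 0 < Real.sin h := by linarith
    positivity
  nlinarith

private theorem end_re (hk : 4 ≤ k) : (cp (mm k) (2 * al k)).re = -(16 / 65) := by
  have hm := mm_pos hk
  have hc := cosal_pos hk
  rw [cpre, mm_eq hk]
  field_simp
  ring

private theorem end_re' (hk : 4 ≤ k) : (cp (mm k) (2 * (Real.pi - al k))).re = 16 / 65 := by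
  have hm := mm_pos hk
  have hc := cosal_pos hk
  rw [cpre, Real.cos_pi_sub, Real.sin_pi_sub, mm_eq hk]
  field_simp
  ring

/-- the mover at the right -/
private theorem right_re (hk : 4 ≤ k) (h : ℝ) (h1 : -al k ≤ h)
    (h2 : h ≤ -Real.arctan (mm k / 2)) : 16 / 65 ≤ (cp (mm k) (2 * h)).re := by
  have hm := mm_pos hk
  have hp := Real.pi_pos
  have ha := al_lt hk
  have ha0 := al_pos hk
  have h0 : 0 < Real.arctan (mm k / 2) := Real.arctan_pos.2 (by linarith)
  have hlt := Real.arctan_lt_pi_div_two (mm k / 2)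
  have f1 := G2 (-(mm k / 2)) h (by
    rw [Real.arctan_neg]
    exact Real.sin_nonneg_of_nonneg_of_le_pi (by linarith) (by linarith))
  have f2 := G1 (-(8 * mm k)) h (by
    rw [Real.arctan_neg, al_arctan hk]
    exact Real.sin_nonneg_of_nonneg_of_le_pi (by linarith) (by linarith))
  have hc : 0 < Real.cos h := Real.cos_pos_of_mem_Ioo ⟨by linarith, by linarith⟩
  rw [cpre, le_div_iff₀ (den_pos _ _ hm)]
  have hmc : 0 < mm k * Real.cos h := mul_pos hm hc
  have h3 : 0 ≤ (8 * (mm k * Real.cos h) + Real.sin h) * (-8 * Real.sin h - mm k * Real.cos h) :=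
    mul_nonneg (by linarith) (by linarith)
  nlinarith

/-! ### the family -/

private theorem HB_zero (x : ℝ × ℝ) (j : Fin k) (hj : (j : ℕ) = 0) :
    HB k x j = ((-(clip x.1) / 2 : ℝ) : ℂ) := if_pos hj

private theorem HB_pos (x : ℝ × ℝ) (j : Fin k) (hj : (j : ℕ) ≠ 0) :
    HB k x j = cp (mu k x.1) (2 * (al k * (2 * ((j : ℕ) : ℝ) - 1 + 2 * x.2))) := if_neg hj

private theorem HB_cont (hk : 4 ≤ k) : Continuous (HB k) := by
  have hc : Continuous clip := continuous_const.max (continuous_const.min continuous_id)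
  refine continuous_pi fun j => ?_
  by_cases hj : (j : ℕ) = 0
  · have : (fun x => HB k x j) = fun x : ℝ × ℝ => ((-(clip x.1) / 2 : ℝ) : ℂ) := by
      funext x
      exact HB_zero x j hj
    rw [this]
    exact Complex.continuous_ofReal.comp (((hc.comp continuous_fst).neg).div_const 2)
  · have : (fun x => HB k x j) = fun x : ℝ × ℝ =>
        cp (mu k x.1) (2 * (al k * (2 * ((j : ℕ) : ℝ) - 1 + 2 * x.2))) := by
      funext x
      exact HB_pos x j hj
    rw [this]
    refine cp_continuous (X := ℝ × ℝ) _ _ ?_ ?_ ?_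
    · unfold mu
      exact (continuous_const.sub (hc.comp continuous_fst)).add
        (continuous_const.mul (hc.comp continuous_fst))
    · fun_prop
    · intro x
      exact mu_pos hk _

private theorem HB_conf (hk : 4 ≤ k) (x : ℝ × ℝ) : HB k x ∈ Conf k := by
  have hm := mu_pos hk x.1
  have h01 : ∀ i j : Fin k, (i : ℕ) = 0 → (j : ℕ) ≠ 0 → HB k x i ≠ HB k x j := by
    intro i j hi hj he
    rw [HB_zero x i hi, HB_pos x j hj] at he
    have h1 := norm_cp (mu k x.1) (2 * (al k * (2 * ((j : ℕ) : ℝ) - 1 + 2 * x.2))) hm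
    rw [← he, Complex.norm_real, Real.norm_eq_abs] at h1
    have h2 := clip_nonneg x.1
    have h3 := clip_le x.1
    rw [abs_of_nonpos (by linarith)] at h1
    linarith
  intro i j hij
  by_cases hi : (i : ℕ) = 0
  · by_cases hj : (j : ℕ) = 0
    · exact Fin.ext (by rw [hi, hj])
    · exact absurd hij (h01 i j hi hj)
  · by_cases hj : (j : ℕ) = 0
    · exact absurd hij.symm (h01 j i hj hi)
    · rw [HB_pos x i hi, HB_pos x j hj] at hij
      obtain ⟨m, hm'⟩ := cp_inj _ _ _ hm hij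
      have ha := al_pos hk
      have hK := al_K hk
      have h4 : ((j : ℕ) : ℝ) - ((i : ℕ) : ℝ) = ((k : ℝ) - 1) * m := by
        have h5 : al k * (4 * (((j : ℕ) : ℝ) - ((i : ℕ) : ℝ))) = al k * (4 * (((k : ℝ) - 1) * m)) := by
          have h6 : 2 * Real.pi * m = al k * (4 * (((k : ℝ) - 1) * m)) := by
            rw [← hK]
            ring
          rw [← h6, ← hm']
          ring
        have := mul_left_cancel₀ ha.ne' h5
        linarith
      have h5 : ((j : ℕ) : ℤ) - ((i : ℕ) : ℤ) = ((k : ℤ) - 1) * m := by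
        have : ((((j : ℕ) : ℤ) - ((i : ℕ) : ℤ) : ℤ) : ℝ) = ((((k : ℤ) - 1) * m : ℤ) : ℝ) := by
          push_cast
          exact h4
        exact_mod_cast this
      have hi2 := i.2
      have hj2 := j.2
      have hm0 : m = 0 := by
        by_contra hne
        rcases lt_or_gt_of_ne hne with h6 | h6
        · have h7 : m ≤ -1 := by omega
          have h8 : ((k : ℤ) - 1) * m ≤ ((k : ℤ) - 1) * (-1) :=
            mul_le_mul_of_nonneg_left h7 (by omega)
          omega
        · have h7 : 1 ≤ m := by omega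
          have h8 : ((k : ℤ) - 1) * 1 ≤ ((k : ℤ) - 1) * m :=
            mul_le_mul_of_nonneg_left h7 (by omega)
          omega
      rw [hm0, mul_zero] at h5
      exact Fin.ext (by omega)

private def rhof (k : ℕ) (j : Fin k) : Fin k :=
  if h : (j : ℕ) + 1 < k then (if (j : ℕ) = 0 then j else ⟨(j : ℕ) + 1, h⟩) else ⟨1 % k, Nat.mod_lt _ (j.pos)⟩

private theorem rhof_val (hk : 4 ≤ k) (j : Fin k) : (rhof k j : ℕ) =
    if (j : ℕ) + 1 < k then (if (j : ℕ) = 0 then 0 else (j : ℕ) + 1) else 1 := by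
  unfold rhof
  split_ifs with h1 h2
  · exact h2
  · rfl
  · exact Nat.mod_eq_of_lt (by omega)

private theorem rhof_inj (hk : 4 ≤ k) : Function.Injective (rhof k) := by
  intro i j hij
  have h := congrArg Fin.val hij
  rw [rhof_val hk, rhof_val hk] at h
  have hi := i.2
  have hj := j.2
  apply Fin.ext
  split_ifs at h <;> omega

private noncomputable def rho (hk : 4 ≤ k) : Equiv.Perm (Fin k) :=
  Equiv.ofBijective (rhof k) (Finite.injective_iff_bijective.1 (rhof_inj hk))

private theorem rho_val (hk : 4 ≤ k) (j : Fin k) : (rho hk j : ℕ) =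
    if (j : ℕ) + 1 < k then (if (j : ℕ) = 0 then 0 else (j : ℕ) + 1) else 1 := rhof_val hk j

private theorem HB_per (hk : 4 ≤ k) (u t : ℝ) : HB k (u, t + 1) = HB k (u, t) ∘ rho hk := by
  funext j
  have hv := rho_val hk j
  have hj := j.2
  rw [Function.comp_apply]
  by_cases h0 : (j : ℕ) = 0
  · have h1 : (rho hk j : ℕ) = 0 := by
      rw [hv, if_pos (by omega), if_pos h0]
    rw [HB_zero _ _ h0, HB_zero _ _ h1]
  · by_cases h1 : (j : ℕ) + 1 < k
    · rw [if_pos h1, if_neg h0] at hv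
      rw [HB_pos _ _ h0, HB_pos _ _ (by omega), hv]
      congr 2
      push_cast
      ring
    · rw [if_neg h1] at hv
      rw [HB_pos _ _ h0, HB_pos _ _ (by omega), hv]
      have h2 : ((j : ℕ) : ℝ) = (k : ℝ) - 1 := by
        have h4 : (j : ℕ) + 1 = k := by omega
        have h5 : ((j : ℕ) : ℝ) + 1 = (k : ℝ) := by exact_mod_cast h4
        linarith
      have hK := al_K hk
      have h3 : 2 * (al k * (2 * ((j : ℕ) : ℝ) - 1 + 2 * (t + 1))) =
          2 * (al k * (2 * ((1 : ℕ) : ℝ) - 1 + 2 * t)) + 2 * Real.pi := by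
        rw [h2, ← hK]
        push_cast
        ring
      show cp (mu k u) _ = cp (mu k u) _
      rw [h3, cp_add_two_pi]

private theorem mu_one : mu k 1 = mm k := by
  unfold mu clip
  norm_num

private theorem clip_one : clip 1 = 1 := by
  unfold clip
  norm_num

private theorem HB_rot (t : ℝ) : HB k (0, t) = rotB k t := by
  funext j
  have h0 : clip 0 = 0 := by
    unfold clip
    norm_num
  have h1 : mu k 0 = 1 := by
    unfold mu
    rw [h0]
    norm_num
  by_cases hj : (j : ℕ) = 0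
  · rw [HB_zero _ _ hj]
    unfold rotB
    rw [if_pos hj]
    simp [h0]
  · rw [HB_pos _ _ hj]
    unfold rotB
    rw [if_neg hj]
    have e : 2 * (al k * (2 * ((j : ℕ) : ℝ) - 1 + 2 * t)) =
        Real.pi * (2 * (((j : ℕ) : ℝ) - 1 + t) + 1) / ((k : ℝ) - 1) := by
      have e2 : al k = Real.pi / ((k : ℝ) - 1) / 2 := by
        unfold al
        rw [div_div, mul_comm]
      rw [e2]
      ring
    show cp (mu k 0) (2 * (al k * (2 * ((j : ℕ) : ℝ) - 1 + 2 * t))) = _
    rw [h1, cp_one, e]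

/-! ### convex sets of configurations given by order relations -/

private def RQ (R Q : Fin k → Fin k → Prop) : Set (Fin k → ℂ) :=
  {x | (∀ i j, R i j → (x i).re < (x j).re) ∧ ∀ i j, Q i j → (x i).im < (x j).im}

private theorem comb_lt' {x y x' y' s t : ℝ} (h : x < y) (h' : x' < y') (hs : 0 ≤ s) (ht : 0 ≤ t)
    (hst : s + t = 1) : s * x + t * x' < s * y + t * y' := by
  rcases hs.eq_or_lt with h0 | h0
  · subst h0
    have : t = 1 := by linarith
    subst this
    linarith
  · have h1 : s * x < s * y := mul_lt_mul_of_pos_left h h0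
    have h2 : t * x' ≤ t * y' := mul_le_mul_of_nonneg_left h'.le ht
    linarith

private theorem RQ_convex (R Q : Fin k → Fin k → Prop) : Convex ℝ (RQ R Q) := by
  intro a ha c hc s t hs ht hst
  refine ⟨fun i j hij => ?_, fun i j hij => ?_⟩
  · have h1 : ∀ i, ((s • a + t • c) i).re = s * (a i).re + t * (c i).re := fun i => by simp
    rw [h1, h1]
    exact comb_lt' (ha.1 i j hij) (hc.1 i j hij) hs ht hst
  · have h1 : ∀ i, ((s • a + t • c) i).im = s * (a i).im + t * (c i).im := fun i => by simp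
    rw [h1, h1]
    exact comb_lt' (ha.2 i j hij) (hc.2 i j hij) hs ht hst

private theorem RQ_conf (R Q : Fin k → Fin k → Prop)
    (h : ∀ i j, i ≠ j → R i j ∨ R j i ∨ Q i j ∨ Q j i) : RQ R Q ⊆ Conf k := by
  intro x hx i j hij
  by_contra hne
  rcases h i j hne with h1 | h1 | h1 | h1
  · exact absurd (congrArg Complex.re hij) (hx.1 _ _ h1).ne
  · exact absurd (congrArg Complex.re hij) (hx.1 _ _ h1).ne'
  · exact absurd (congrArg Complex.im hij) (hx.2 _ _ h1).ne
  · exact absurd (congrArg Complex.im hij) (hx.2 _ _ h1).ne'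

private theorem RQ_gen (R Q : Fin k → Fin k → Prop)
    (h : ∀ i j, i ≠ j → R i j ∨ R j i) : RQ R Q ⊆ Gen k := by
  intro x hx i j hij
  by_contra hne
  rcases h i j hne with h1 | h1
  · exact absurd hij (hx.1 _ _ h1).ne
  · exact absurd hij (hx.1 _ _ h1).ne'

private theorem RQ_iff (R Q : Fin k → Fin k → Prop)
    (h : ∀ i j, i ≠ j → R i j ∨ R j i) (a c : Fin k → ℂ) (ha : a ∈ RQ R Q) (hc : c ∈ RQ R Q)
    (i j : Fin k) : (a i).re < (a j).re ↔ (c i).re < (c j).re := by
  have key : ∀ x ∈ RQ R Q, (x i).re < (x j).re → R i j := by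
    intro x hx hlt
    have hne : i ≠ j := fun hh => by
      rw [hh] at hlt
      exact lt_irrefl _ hlt
    rcases h i j hne with h1 | h1
    · exact h1
    · exact absurd (hx.1 _ _ h1) (not_lt.2 hlt.le)
  exact ⟨fun hh => hc.1 _ _ (key a ha hh), fun hh => ha.1 _ _ (key c hc hh)⟩

private theorem along (S : Sys k W) (D : Set (Fin k → ℂ)) (hD : Convex ℝ D) (hDC : D ⊆ Conf k)
    (γ : ℝ → (Fin k → ℂ)) (hγ : Continuous γ) (s : C(ℝ, W)) (hs : ∀ t, s t ∈ S.F (γ t))
    (p q : ℝ) (hpq : p ≤ q) (h : ∀ t, p ≤ t → t ≤ q → γ t ∈ D) : s q = S.T (γ p) (γ q) (s p) := by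
  have : PreconnectedSpace (Set.Icc p q) := Subtype.preconnectedSpace isPreconnected_Icc
  exact S.T_along D hD hDC (Set.Icc p q) ⟨fun t => γ t, hγ.comp continuous_subtype_val⟩
    (fun a => h a a.2.1 a.2.2) ⟨fun t => s t, s.continuous.comp continuous_subtype_val⟩
    (fun a => hs a) ⟨p, le_refl p, hpq⟩ ⟨q, hpq, le_refl q⟩

/-! ### the path at `u = 1` -/

private theorem inn_re (t : ℝ) (j : Fin k) (hj : (j : ℕ) = 0) : (HB k (1, t) j).re = -(1 / 2) := by
  rw [HB_zero _ _ hj]
  simp only [clip_one, Complex.ofReal_re]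
  norm_num

private theorem inn_im (t : ℝ) (j : Fin k) (hj : (j : ℕ) = 0) : (HB k (1, t) j).im = 0 := by
  rw [HB_zero _ _ hj]
  exact Complex.ofReal_im _

private theorem slo (t : ℝ) (j : Fin k) (hj : (j : ℕ) ≠ 0) :
    HB k (1, t) j = cp (mm k) (2 * (al k * (2 * ((j : ℕ) : ℝ) - 1 + 2 * t))) := by
  rw [HB_pos _ _ hj]
  simp only [mu_one]

private theorem mov (hk : 4 ≤ k) (t : ℝ) (j : Fin k) (hj : (j : ℕ) + 1 = k) :
    HB k (1, t) j = cp (mm k) (2 * (al k * (2 * t - 1))) := by
  have h5 : ((j : ℕ) : ℝ) + 1 = (k : ℝ) := by exact_mod_cast hj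
  rw [slo t j (by omega)]
  have hK := al_K hk
  have : 2 * (al k * (2 * ((j : ℕ) : ℝ) - 1 + 2 * t)) =
      2 * (al k * (2 * t - 1)) + 2 * Real.pi := by
    rw [← hK, ← h5]
    ring
  rw [this, cp_add_two_pi]

private theorem ang_lo (hk : 4 ≤ k) (t : ℝ) (j : Fin k) (hj : (j : ℕ) ≠ 0) (ht : 0 ≤ t) :
    al k ≤ al k * (2 * ((j : ℕ) : ℝ) - 1 + 2 * t) := by
  have h1 : (1 : ℝ) ≤ ((j : ℕ) : ℝ) := by exact_mod_cast (by omega : 1 ≤ (j : ℕ))
  have ha := al_pos hk
  nlinarith

private theorem ang_hi (hk : 4 ≤ k) (t : ℝ) (j : Fin k) (hj : (j : ℕ) + 1 < k) (ht : t ≤ 1) :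
    al k * (2 * ((j : ℕ) : ℝ) - 1 + 2 * t) ≤ Real.pi - al k := by
  have h1 : ((j : ℕ) : ℝ) + 2 ≤ (k : ℝ) := by exact_mod_cast (by omega : (j : ℕ) + 2 ≤ k)
  have ha := al_pos hk
  have hK := al_K hk
  nlinarith

private theorem s_im (hk : 4 ≤ k) (t : ℝ) (h0 : 0 ≤ t) (h1 : t ≤ 1) (j : Fin k)
    (hj : (j : ℕ) + 1 < k) : (HB k (1, t) j).im ≤ 0 := by
  by_cases h : (j : ℕ) = 0
  · rw [inn_im t j h]
  · rw [slo t j h]
    exact (slow_im hk _ (ang_lo hk t j h h0) (ang_hi hk t j hj h1)).le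

private theorem s_re (hk : 4 ≤ k) (t : ℝ) (h0 : 0 ≤ t) (h1 : t ≤ 1) (j : Fin k)
    (hj : (j : ℕ) + 1 < k) : -(1 / 2) ≤ (HB k (1, t) j).re := by
  by_cases h : (j : ℕ) = 0
  · rw [inn_re t j h]
  · rw [slo t j h]
    have := slow_re hk _ (ang_lo hk t j h h0) (ang_hi hk t j hj h1)
    linarith

private theorem s_lt (hk : 4 ≤ k) (t : ℝ) (h0 : 0 ≤ t) (h1 : t ≤ 1) (i j : Fin k)
    (hij : i < j) (hj : (j : ℕ) + 1 < k) : (HB k (1, t) i).re < (HB k (1, t) j).re := by
  have hij' : (i : ℕ) < (j : ℕ) := hij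
  have hj0 : (j : ℕ) ≠ 0 := by omega
  by_cases h : (i : ℕ) = 0
  · rw [inn_re t i h, slo t j hj0]
    have := slow_re hk _ (ang_lo hk t j hj0 h0) (ang_hi hk t j hj h1)
    linarith
  · rw [slo t i h, slo t j hj0]
    refine slow_lt hk _ _ (ang_lo hk t i h h0) ?_ (ang_hi hk t j hj h1)
    apply mul_lt_mul_of_pos_left _ (al_pos hk)
    have : ((i : ℕ) : ℝ) < ((j : ℕ) : ℝ) := by exact_mod_cast hij'
    linarith

/-- the configuration is ordered until the mover passes the top -/
private theorem H_ord (hk : 4 ≤ k) (t : ℝ) (h0 : 0 ≤ t) (h1 : t < 1)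
    (h2 : al k * (2 * t - 1) ≤ -Real.arctan (mm k / 2)) : HB k (1, t) ∈ Ord k := by
  intro i j hij
  have hij' : (i : ℕ) < (j : ℕ) := hij
  have ha := al_pos hk
  rcases Nat.lt_or_ge ((j : ℕ) + 1) k with hj | hj
  · exact s_lt hk t h0 h1.le i j hij hj
  · have hj' : (j : ℕ) + 1 = k := le_antisymm j.2 hj
    have hr := right_re hk (al k * (2 * t - 1)) (by nlinarith) h2
    rw [mov hk t j hj']
    refine lt_of_lt_of_le ?_ hr
    by_cases h : (i : ℕ) = 0
    · rw [inn_re t i h]
      norm_num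
    · rw [slo t i h, ← end_re' hk]
      refine slow_lt hk _ _ (ang_lo hk t i h h0) ?_ le_rfl
      have h3 : ((i : ℕ) : ℝ) + 2 ≤ (k : ℝ) := by exact_mod_cast (by omega : (i : ℕ) + 2 ≤ k)
      have hK := al_K hk
      nlinarith

theorem Sys.linkB (S : Sys k W) (hk : 4 ≤ k) :
    ∃ Φ : S.F (base k) → ℝ → W, (∀ w, Continuous (Φ w)) ∧ (∀ w t, Φ w t ∈ S.F (rotB k t)) ∧
      (∀ x ∈ S.F (rotB k 0), ∃ w, Φ w 0 = x) ∧ (∀ w w', Φ w 0 = Φ w' 0 → w = w') ∧
      ∀ w t, Φ w (t + 1) = Φ (S.B w) t := by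
  have hm := mm_pos hk
  have ha := al_pos hk
  have hb1 : 0 < Real.arctan (mm k / 2) := Real.arctan_pos.2 (by linarith)
  have hb2 : Real.arctan (mm k / 2) < Real.arctan (2 * mm k) := Real.arctan_strictMono (by linarith)
  have hb3 : Real.arctan (2 * mm k) < al k := by
    rw [← al_arctan hk]
    exact Real.arctan_strictMono (by linarith)
  obtain ⟨t₀, ht₀⟩ : ∃ t₀, al k * (2 * t₀ - 1) = -Real.arctan (mm k / 2) :=
    ⟨(1 - Real.arctan (mm k / 2) / al k) / 2, by field_simp; ring⟩
  obtain ⟨t₁, ht₁⟩ : ∃ t₁, al k * (2 * t₁ - 1) = Real.arctan (mm k / 2) :=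
    ⟨(1 + Real.arctan (mm k / 2) / al k) / 2, by field_simp; ring⟩
  obtain ⟨t₂, ht₂⟩ : ∃ t₂, al k * (2 * t₂ - 1) = Real.arctan (2 * mm k) :=
    ⟨(1 + Real.arctan (2 * mm k) / al k) / 2, by field_simp; ring⟩
  have h00 : 0 ≤ t₀ := by nlinarith
  have h01 : t₀ ≤ t₁ := by nlinarith
  have h12 : t₁ ≤ t₂ := by nlinarith
  have h2' : t₂ ≤ 1 := by nlinarith
  have h0' : t₀ < 1 := by nlinarith
  let e : Fin k := ⟨k - 1, by omega⟩
  let z : Fin k := ⟨0, by omega⟩
  have he : (e : ℕ) + 1 = k := by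
    show k - 1 + 1 = k
    omega
  have hz : (z : ℕ) = 0 := rfl
  have hez : e ≠ z := fun h => by
    have := congrArg Fin.val h
    omega
  have hne : ∀ j : Fin k, j ≠ e → (j : ℕ) + 1 < k := by
    intro j hj
    have h1 := j.2
    have h2 : (j : ℕ) ≠ (e : ℕ) := fun h => hj (Fin.ext h)
    omega
  have hγ : Continuous fun t : ℝ => HB k (1, t) :=
    (HB_cont hk).comp (continuous_const.prodMk continuous_id)
  have key : ∀ φ, ∀ s : C(ℝ, W), (∀ t, s t ∈ S.F (HB k (1, t))) →
      s t₀ = S.val φ (HB k (1, t₀)) → s (t₀ + 1) = S.val (S.B φ) (HB k (1, t₀)) := by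
    intro φ s hs hs0
    -- step 1
    have hmono : ∀ t t' : ℝ, t ≤ t' → al k * (2 * t - 1) ≤ al k * (2 * t' - 1) := fun t t' h =>
      mul_le_mul_of_nonneg_left (by linarith) ha.le
    have e1 : s t₁ = S.val (S.A φ) (HB k (1, t₁)) := by
      have hin : ∀ t, t₀ ≤ t → t ≤ t₁ → HB k (1, t) ∈
          RQ (k := k) (fun i j => i < j ∧ j ≠ e) (fun i j => i ≠ e ∧ j = e) := by
        intro t p1 p2
        refine ⟨fun i j hij => s_lt hk t (by linarith) (by linarith) i j hij.1 (hne j hij.2), ?_⟩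
        rintro i j ⟨hi, rfl⟩
        have q1 := s_im hk t (by linarith) (by linarith) i (hne i hi)
        rw [mov hk t e he]
        refine lt_of_le_of_lt q1 (top_im hk _ ?_ ?_)
        · rw [← ht₀]
          exact hmono _ _ p1
        · rw [← ht₁]
          exact hmono _ _ p2
      rw [along S _ (RQ_convex _ _) (RQ_conf _ _ ?_) (fun t => HB k (1, t)) hγ s hs t₀ t₁ h01 hin,
        hs0]
      · have q0 := hin t₀ le_rfl h01
        have q1 := hin t₁ h01 le_rfl
        refine S.mover (by omega) _ _ e he (H_ord hk t₀ h00 h0' ht₀.le)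
          (fun j hj => q0.2 j e ⟨hj, rfl⟩) (fun j hj => q1.2 j e ⟨hj, rfl⟩)
          (fun i j hij hj => q1.1 i j ⟨hij, hj⟩) (fun j hj => ?_) φ
        have r1 := s_re hk t₁ (by linarith) (by linarith) j (hne j hj)
        have r2 := left_re hk (al k * (2 * t₁ - 1)) ht₁.ge (by linarith)
        show (HB k (1, t₁) e).re < (HB k (1, t₁) j).re
        rw [mov hk t₁ e he]
        linarith
      · intro i j hij
        by_cases hi : i = e
        · exact Or.inr (Or.inr (Or.inr ⟨fun hh => hij (by rw [hi, hh]), hi⟩))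
        · by_cases hj : j = e
          · exact Or.inr (Or.inr (Or.inl ⟨hi, hj⟩))
          · rcases lt_or_gt_of_ne hij with h | h
            · exact Or.inl ⟨h, hj⟩
            · exact Or.inr (Or.inl ⟨h, hi⟩)
    -- step 2
    have e2 : s t₂ = S.val (S.A φ) (HB k (1, t₂)) := by
      have hin : ∀ t, t₁ ≤ t → t ≤ t₂ → HB k (1, t) ∈
          RQ (k := k) (fun i j => j ≠ e ∧ (i < j ∨ i = e)) (fun _ _ => False) := by
        intro t p1 p2
        refine ⟨?_, fun i j hij => hij.elim⟩
        rintro i j ⟨hj, hij | rfl⟩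
        · exact s_lt hk t (by linarith) (by linarith) i j hij (hne j hj)
        · have r1 := s_re hk t (by linarith) (by linarith) j (hne j hj)
          have r2 := left_re hk (al k * (2 * t - 1)) (by rw [← ht₁]; exact hmono _ _ p1)
            (by rw [← ht₂]; exact hmono _ _ p2)
          rw [mov hk t e he]
          linarith
      have htot : ∀ i j : Fin k, i ≠ j → (j ≠ e ∧ (i < j ∨ i = e)) ∨ (i ≠ e ∧ (j < i ∨ j = e)) := by
        intro i j hij
        by_cases hi : i = e
        · exact Or.inl ⟨fun hh => hij (by rw [hi, hh]), Or.inr hi⟩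
        · by_cases hj : j = e
          · exact Or.inr ⟨hi, Or.inr hj⟩
          · rcases lt_or_gt_of_ne hij with h | h
            · exact Or.inl ⟨hj, Or.inl h⟩
            · exact Or.inr ⟨hi, Or.inl h⟩
      rw [along S _ (RQ_convex _ _) ((RQ_gen _ _ htot).trans (Gen_subset_Conf k))
        (fun t => HB k (1, t)) hγ s hs t₁ t₂ h12 hin, e1]
      have q0 := hin t₁ le_rfl h12
      have q1 := hin t₂ h12 le_rfl
      exact S.T_val _ _ (RQ_gen _ _ htot q0) (RQ_gen _ _ htot q1) (RQ_iff _ _ htot _ _ q0 q1) _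
    -- step 3
    have e3 : s 1 = S.val (S.B φ) (HB k (1, 1)) := by
      have hin : ∀ t, t₂ ≤ t → t ≤ 1 → HB k (1, t) ∈
          RQ (k := k) (fun i j => j ≠ e ∧ j ≠ z ∧ (i < j ∨ i = e)) (fun i j => i = e ∧ j = z) := by
        intro t p1 p2
        have hd := down_im hk (al k * (2 * t - 1)) (by rw [← ht₂]; exact hmono _ _ p1)
          (by nlinarith)
        refine ⟨?_, ?_⟩
        · rintro i j ⟨hj, hjz, hij | rfl⟩
          · exact s_lt hk t (by linarith) (by linarith) i j hij (hne j hj)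
          · have hj0 : (j : ℕ) ≠ 0 := fun h => hjz (Fin.ext h)
            have l1 := ang_lo hk t j hj0 (by linarith)
            have l2 := ang_hi hk t j (hne j hj) p2
            have hpos : 0 < al k * (2 * t - 1) := by
              have := hmono _ _ p1
              linarith
            have hd1 : 2 * (al k * (2 * t - 1)) / 2 = al k * (2 * t - 1) := by ring
            have hd2 : 2 * (al k * (2 * ((j : ℕ) : ℝ) - 1 + 2 * t)) / 2 =
              al k * (2 * ((j : ℕ) : ℝ) - 1 + 2 * t) := by ring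
            have hj1 : (1 : ℝ) ≤ ((j : ℕ) : ℝ) := by exact_mod_cast (by omega : 1 ≤ (j : ℕ))
            rw [mov hk t e he, slo t j hj0]
            refine cp_re_lt _ _ _ hm (by linarith) ?_ (by linarith) ?_ ?_
            · nlinarith
            · rw [hd1]
              exact hd.1
            · rw [hd2]
              obtain ⟨g1, g2⟩ := F1 hk _ l1 l2
              have s2 := sin_pos' hk _ l1 l2
              rcases le_or_gt 0 (Real.cos (al k * (2 * ((j : ℕ) : ℝ) - 1 + 2 * t))) with hc | hc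
              · nlinarith [mul_nonneg hm.le hc]
              · nlinarith [mul_pos hm (neg_pos.2 hc)]
        · rintro i j ⟨rfl, rfl⟩
          rw [mov hk t e he, inn_im t z hz]
          exact hd.2
      have htot : ∀ i j : Fin k, i ≠ j → (j ≠ e ∧ j ≠ z ∧ (i < j ∨ i = e)) ∨
          (i ≠ e ∧ i ≠ z ∧ (j < i ∨ j = e)) ∨ (i = e ∧ j = z) ∨ (j = e ∧ i = z) := by
        intro i j hij
        by_cases hi : i = e
        · by_cases hj : j = z
          · exact Or.inr (Or.inr (Or.inl ⟨hi, hj⟩))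
          · exact Or.inl ⟨fun hh => hij (by rw [hi, hh]), hj, Or.inr hi⟩
        · by_cases hj : j = e
          · by_cases hiz : i = z
            · exact Or.inr (Or.inr (Or.inr ⟨hj, hiz⟩))
            · exact Or.inr (Or.inl ⟨hi, hiz, Or.inr hj⟩)
          · rcases lt_or_gt_of_ne hij with h | h
            · refine Or.inl ⟨hj, fun hh => ?_, Or.inl h⟩
              rw [hh] at h
              exact absurd (show (i : ℕ) < (z : ℕ) from h) (by omega)
            · refine Or.inr (Or.inl ⟨hi, fun hh => ?_, Or.inl h⟩)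
              rw [hh] at h
              exact absurd (show (j : ℕ) < (z : ℕ) from h) (by omega)
      have q0 := hin t₂ le_rfl h2'
      have q1 := hin 1 h2' le_rfl
      rw [along S _ (RQ_convex _ _) (RQ_conf _ _ htot) (fun t => HB k (1, t)) hγ s hs t₂ 1 h2' hin,
        e2]
      have lt2 : (HB k (1, t₂) e).re < (HB k (1, t₂) z).re := by
        have r2 := left_re hk (al k * (2 * t₂ - 1)) (by linarith) ht₂.le
        rw [mov hk t₂ e he, inn_re t₂ z hz]
        linarith
      have gt1 : (HB k (1, 1) z).re < (HB k (1, 1) e).re := by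
        have r2 := end_re hk
        have r3 : al k * (2 * 1 - 1) = al k := by ring
        rw [mov hk 1 e he, inn_re 1 z hz, r3, r2]
        norm_num
      have hgen : ∀ x : Fin k → ℂ, x ∈ RQ (k := k) (fun i j => j ≠ e ∧ j ≠ z ∧ (i < j ∨ i = e))
          (fun i j => i = e ∧ j = z) → (x e).re ≠ (x z).re → x ∈ Gen k := by
        intro x hx hxx i j hij
        by_contra hn
        rcases htot i j hn with h | h | h | h
        · exact absurd hij (hx.1 _ _ h).ne
        · exact absurd hij (hx.1 _ _ h).ne'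
        · rw [h.1, h.2] at hij
          exact hxx hij
        · rw [h.1, h.2] at hij
          exact hxx hij.symm
      have hcross : Cross (HB k (1, t₂)) (HB k (1, 1)) e z := by
        refine ⟨hgen _ q0 lt2.ne, hgen _ q1 gt1.ne', lt2, gt1, q0.2 e z ⟨rfl, rfl⟩,
          q1.2 e z ⟨rfl, rfl⟩, ?_⟩
        intro x y n1 n2
        by_cases hxy : x = y
        · rw [hxy]
          exact ⟨fun h => absurd h (lt_irrefl _), fun h => absurd h (lt_irrefl _)⟩
        · rcases htot x y hxy with h | h | h | h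
          · exact ⟨fun _ => q1.1 _ _ h, fun _ => q0.1 _ _ h⟩
          · exact ⟨fun hh => absurd hh (not_lt.2 (q0.1 _ _ h).le),
              fun hh => absurd hh (not_lt.2 (q1.1 _ _ h).le)⟩
          · exact absurd h n1
          · exact absurd ⟨h.2, h.1⟩ n2
      have hpos : pos (HB k (1, t₂)) e = 0 := by
        unfold pos
        rw [Finset.card_eq_zero, Finset.filter_eq_empty_iff]
        intro j _ hlt
        by_cases hje : j = e
        · rw [hje] at hlt
          exact lt_irrefl _ hlt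
        · by_cases hjz : j = z
          · rw [hjz] at hlt
            exact absurd hlt (not_lt.2 lt2.le)
          · exact absurd hlt (not_lt.2 (q0.1 e j ⟨hje, hjz, Or.inr rfl⟩).le)
      exact S.crossProp_s 0 (by omega) _ _ e z hcross hpos (S.A φ)
    -- step 4
    have hin : ∀ t, 1 ≤ t → t ≤ t₀ + 1 → HB k (1, t) ∈
        RQ (k := k) (fun i j => rho hk i < rho hk j) (fun _ _ => False) := by
      intro t p1 p2
      refine ⟨fun i j hij => ?_, fun i j hij => hij.elim⟩
      have hH : HB k (1, t) = HB k (1, t - 1) ∘ rho hk := by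
        have := HB_per hk 1 (t - 1)
        rwa [sub_add_cancel] at this
      rw [hH]
      refine H_ord hk (t - 1) (by linarith) (by linarith) ?_ _ _ hij
      rw [← ht₀]
      exact hmono _ _ (by linarith)
    have htot : ∀ i j : Fin k, i ≠ j → rho hk i < rho hk j ∨ rho hk j < rho hk i := by
      intro i j hij
      exact lt_or_gt_of_ne fun hh => hij ((rho hk).injective hh)
    have q0 := hin 1 le_rfl (by linarith)
    have q1 := hin (t₀ + 1) (by linarith) le_rfl
    rw [along S _ (RQ_convex _ _) ((RQ_gen _ _ htot).trans (Gen_subset_Conf k))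
      (fun t => HB k (1, t)) hγ s hs 1 (t₀ + 1) (by linarith) hin, e3]
    show S.T (HB k (1, 1)) (HB k (1, t₀ + 1)) (S.val (S.B φ) (HB k (1, 1))) = _
    rw [S.T_val _ _ (RQ_gen _ _ htot q0) (RQ_gen _ _ htot q1) (RQ_iff _ _ htot _ _ q0 q1),
      HB_per hk 1 t₀, S.val_perm _ _ (Ord_subset_Gen k (H_ord hk t₀ h00 h0' ht₀.le))]
  obtain ⟨Φ, h1, h2, h3, h4, h5⟩ := S.link_abs (HB k) (HB_cont hk) (HB_conf hk) (rho hk) (HB_per hk)
    t₀ (Ord_subset_Gen k (H_ord hk t₀ h00 h0' ht₀.le)) S.B key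
  refine ⟨Φ, h1, fun w t => ?_, ?_, h4, h5⟩
  · rw [← HB_rot]
    exact h2 w t
  · rw [← HB_rot]
    exact h3

end Pool.Agent.Helper2.LN
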