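import Mathlib

/-!
# LN-L1 (MP_730da0_ag): a quotient of the braid group with commuting `s_0 s_3^-1`, `s_1 s_3^-1`

Paper proof.  `t = s_3` commutes with `s_0` and with `s_1`.  `x = s_0 t^-1`, `y = s_1 t^-1` commute with `t` and with each other, so `s_0 = x t` and `s_1 = y t` commute; the braid relation `s_0 s_1 s_0 = s_1 s_0 s_1` gives `s_0 = s_1`.  Then `s_1 = s_0` commutes with `s_2`
(as `s_0` does), so `s_1 = s_2`, and so on: if `s_(i-1) = s_i` and `i + 2 < k`, then `s_(i+1)` commutes with `s_(i-1) = s_i`, so `s_(i+1) = s_i`.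
-/

namespace Pool.Agent.Helper2.LN

theorem eq_of_comm_braid {G : Type*} [Group G] {a b : G} (hc : a * b = b * a)
    (hb : a * b * a = b * a * b) : a = b := by
  have h1 : a * b * a = a * b * b := by
    rw [hb, hc]
  exact mul_left_cancel h1

theorem braid_collapse {G : Type*} [Group G] (k : ℕ) (hk : 4 < k) (s : ℕ → G)
    (hc : ∀ i j, i + 2 ≤ j → j + 1 < k → s i * s j = s j * s i)
    (hb : ∀ i, i + 2 < k → s i * s (i + 1) * s i = s (i + 1) * s i * s (i + 1))
    (h : (s 0 * (s 3)⁻¹) * (s 1 * (s 3)⁻¹) = (s 1 * (s 3)⁻¹) * (s 0 * (s 3)⁻¹)) :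
    ∀ i, i + 1 < k → s i = s 0 := by
  have c0 : Commute (s 0) (s 3) := hc 0 3 (by omega) (by omega)
  have c1 : Commute (s 1) (s 3) := hc 1 3 (by omega) (by omega)
  have h01 : s 0 * s 1 = s 1 * s 0 := by
    have e1 : (s 0 * (s 3)⁻¹) * (s 1 * (s 3)⁻¹) = s 0 * s 1 * ((s 3)⁻¹ * (s 3)⁻¹) := by
      rw [mul_assoc (s 0), ← mul_assoc ((s 3)⁻¹) (s 1), (c1.inv_right.eq).symm]
      simp only [mul_assoc]
    have e2 : (s 1 * (s 3)⁻¹) * (s 0 * (s 3)⁻¹) = s 1 * s 0 * ((s 3)⁻¹ * (s 3)⁻¹) := by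
      rw [mul_assoc (s 1), ← mul_assoc ((s 3)⁻¹) (s 0), (c0.inv_right.eq).symm]
      simp only [mul_assoc]
    rw [e1, e2] at h
    exact mul_right_cancel h
  intro i
  induction i using Nat.strong_induction_on with
  | _ i ih =>
    intro hi
    match i, ih, hi with
    | 0, _, _ => rfl
    | 1, _, _ => exact (eq_of_comm_braid h01 (hb 0 (by omega))).symm
    | m + 2, ih, hi =>
      have h1 := ih (m + 1) (by omega) (by omega)
      have h2 := ih m (by omega) (by omega)
      have h3 := hc m (m + 2) le_rfl (by omega)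
      have h4 := hb (m + 1) (by omega)
      rw [h2, ← h1] at h3
      exact (eq_of_comm_braid h3 h4).symm.trans h1

end Pool.Agent.Helper2.LN
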