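import Pool.Agent.Helper2.LN.PairComm
import Pool.Agent.Helper2.LN.GP
import Pool.Agent.Helper2.LN.Descend

/-!
# LN-L3 (MP_730da0_ag): the LOG LEMMA on `Y` and on `Ghat k`

Paper proofs.  `log_lemma`: `S = pairSys u`, `τ = s_0` (`pair_equal`).  Choose `l₀` with `e^(l₀) = Dsc (base k)` (nonzero) and `m₀` with `e^(m₀) = u (base, l₀)`; `φ = (l₀, m₀)`.  `gp` gives `X φ : Y → ℂ × ℂ`, continuous, invariant, `X φ (q, l) ∈ pairF u q`; by the last clause with `pr = Prod.fst`: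
`(X φ (q, l)).1 = l`, so `g = (X φ ·).2` satisfies `e^(g (q, l)) = u (q, l)`.
`logProp`: for `v` on `Ghat k` put `u (q, l) = v (cf q, l)`: continuous on `Yset k`, nonvanishing, invariant (`Ghat_of_Y`, `cf_perm`, `differentiable_cf`); `log_lemma`; `descend`; `Ghat_lift`.
-/

namespace Pool.Agent.Helper2.LN

open Pool.Agent.Helper93.LN

theorem log_lemma {k : ℕ} (hk : 4 < k) (u : (Fin k → ℂ) × ℂ → ℂ) (hc : ContinuousOn u (Yset k))
    (h0 : ∀ p ∈ Yset k, u p ≠ 0) (hi : Inv u) :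
    ∃ g : (Fin k → ℂ) × ℂ → ℂ, ContinuousOn g (Yset k) ∧ Inv g ∧ ∀ p ∈ Yset k, Complex.exp (g p) = u p := by
  have hb : base k ∈ Conf k := by
    intro i j h
    have h1 : ((i : ℕ) : ℂ) = ((j : ℕ) : ℂ) := h
    exact Fin.ext (by exact_mod_cast h1)
  have hD : Dsc (base k) ≠ 0 := (Dsc_ne_zero _).2 hb
  have hl : Complex.exp (Complex.log (Dsc (base k))) = Dsc (base k) := Complex.exp_log hD
  have hY : (base k, Complex.log (Dsc (base k))) ∈ Yset k := ⟨hb, hl⟩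
  obtain ⟨X, h1, h2, h3, -, -, h6⟩ := (pairSys u hc h0 hi).gp (by omega)
    ((pairSys u hc h0 hi).s 0) (pair_equal hk u hc h0 hi) _ hl
  obtain ⟨φ, hφ⟩ : ∃ φ : (pairSys u hc h0 hi).F (base k),
      (φ : ℂ × ℂ) = (Complex.log (Dsc (base k)),
        Complex.log (u (base k, Complex.log (Dsc (base k))))) :=
    ⟨⟨_, ⟨hY, Complex.exp_log (h0 _ hY)⟩⟩, rfl⟩
  have h7 := h6 Prod.fst continuous_fst (fun q _ w hw => hw.1.2) φ (by rw [hφ])
  refine ⟨fun p => (X φ p).2, continuous_snd.comp_continuousOn (h1 φ), ?_, ?_⟩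
  · intro p hp π
    exact congrArg Prod.snd (h3 φ p hp π)
  · intro p hp
    have h8 : Complex.exp (X φ p).2 = u (p.1, (X φ p).1) := (h2 φ p hp).2
    rw [h8, h7 p hp]

theorem logProp {k : ℕ} (hk : 4 < k) : LogProp k := by
  intro v hv hv0
  have hk2 : 2 ≤ k := by omega
  obtain ⟨g, hg, hgi, hge⟩ := log_lemma hk (fun p => v (cf p.1, p.2))
    (by
      refine hv.comp ?_ (fun p hp => Ghat_of_Y hk2 p hp)
      exact (((differentiable_cf k).continuous.comp continuous_fst).prodMk continuous_snd).continuousOn)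
    (fun p hp => hv0 _ (Ghat_of_Y hk2 p hp))
    (by
      intro p _ π
      show v (cf (p.1 ∘ π), p.2) = v (cf p.1, p.2)
      rw [cf_perm])
  obtain ⟨G, hG, hGe⟩ := descend hk2 g hg hgi
  refine ⟨G, hG, fun p hp => ?_⟩
  obtain ⟨q, hq, hq0, hq1⟩ := Ghat_lift hk2 p hp
  have h1 := hGe (q, p.2) hq hq0
  have h2 : G p = g (q, p.2) := by
    rw [← h1]
    show G p = G (cf q, p.2)
    rw [hq1]
  rw [h2, hge _ hq]
  show v (cf q, p.2) = v p
  rw [hq1]

end Pool.Agent.Helper2.LN
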