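import Pool.Agent.Helper2.LN.Lex
import Pool.Agent.Helper2.LN.CrossLem

/-!
# LN-K3 (MP_730da0_ag): the gluing lemma (helper93's ORB)

Paper proof.  For `a ∈ Gen k` put `Q₀ a = {val φ a : φ ∈ O}`.
STEP 1 (`orb_gen`).  `a, a' ∈ Wset q ∩ Gen k`, `w ∈ F a`: `T a a' w ∈ Q₀ a' ↔ w ∈ Q₀ a`.  Induction on `dis a a'`.  `dis = 0`: same order, `T_val`, `val_inj`, `val_surj`.  Otherwise take `b, l, m` from `swap_step`.  If `Cross a b l m`, then with `i = pos a l`
(`i + 1 < k`: `pos_cross` and `pos < k`): `T a b (val φ a) = val (s_i φ) b` (`crossProp_s`), and `s_i φ ∈ O ↔ φ ∈ O`; if `Cross b a m l`, then `T b a (val ψ b) = val (s_i ψ) a`, so `T a b (val φ a) = val (s_i⁻¹ φ) b` (`T b a` inverse to `T a b`).  In both cases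
`T a b w ∈ Q₀ b ↔ w ∈ Q₀ a`, and `T a a' w = T b a' (T a b w)` (`T_trans` in the convex set `Wset q ⊆ Conf k`).
STEP 2.  `Q q = {w ∈ F q : ∃ a ∈ Wset q ∩ Gen k, T q a w ∈ Q₀ a}`; by Step 1 (and `T q a' w = T a a' (T q a w)`) the condition then holds for all `a ∈ Wset q ∩ Gen k`.  For `q ∈ Gen k`: `Q q = Q₀ q` (`a = q`, `T_self`).  `Q (q ∘ π) = Q q`:
`Wset (q ∘ π) = {x ∘ π}`, `T_perm`, `val_perm`.
STEP 3 (local).  `c ∈ Wset a`, `w ∈ F a`: `T a c w ∈ Q c ↔ w ∈ Q a`: take a generic `b` in the open set `Wset a ∩ Wset c ∋ c` (`Gen_dense`); `T a b w = T c b (T a c w)`.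
STEP 4.  `segment a c ⊆ Conf k`, `w ∈ F a`; `x_t = lineMap a c t`.  `{t ∈ [0,1] : T a x_t w ∈ Q x_t ↔ w ∈ Q a}` is open and closed in `[0,1]` and contains `0`: for `t` near `t₀` (`x_t ∈ Wset x_(t₀)`) `T a x_t w = T x_(t₀) x_t (T a x_(t₀) w)` (`T_trans` on the segment) and Step 3.
-/

namespace Pool.Agent.Helper2.LN

variable {k : ℕ} {W : Type} [TopologicalSpace W]

private theorem orb_pos_lt (a : Fin k → ℂ) (m : Fin k) : pos a m < k := by
  unfold pos
  have h : (Finset.univ.filter fun j => (a j).re < (a m).re).card < Fintype.card (Fin k) := by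
    refine Finset.card_lt_univ_of_notMem (x := m) ?_
    simp
  rwa [Fintype.card_fin] at h

private theorem orb_ex (S : Sys k W) (O : Set (S.F (base k))) (a : Fin k → ℂ) (ha : a ∈ Gen k)
    (φ : S.F (base k)) : (∃ ψ ∈ O, S.val ψ a = S.val φ a) ↔ φ ∈ O := by
  constructor
  · rintro ⟨ψ, hψ, h⟩
    rw [← S.val_inj ψ φ a ha h]
    exact hψ
  · intro h
    exact ⟨φ, h, rfl⟩

private theorem orb_seg (q a c : Fin k → ℂ) (hq : q ∈ Conf k) (ha : a ∈ Wset q) (hc : c ∈ Wset q) :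
    segment ℝ a c ⊆ Conf k :=
  ((Wset_convex q).segment_subset ha hc).trans (Wset_sub q hq)

private theorem orb_back (S : Sys k W) (a c : Fin k → ℂ) (h : segment ℝ a c ⊆ Conf k) (w : W)
    (hw : w ∈ S.F a) : S.T c a (S.T a c w) = w := by
  rw [S.T_trans (segment ℝ a c) (convex_segment a c) h a c a (left_mem_segment ℝ a c)
    (right_mem_segment ℝ a c) (left_mem_segment ℝ a c) w hw,
    S.T_self a (h (left_mem_segment ℝ a c)) w hw]

theorem Sys.orb_gen (S : Sys k W) (O : Set (S.F (base k)))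
    (hO : ∀ i, i + 1 < k → ∀ φ, S.s i φ ∈ O ↔ φ ∈ O) (q : Fin k → ℂ) (hq : q ∈ Conf k)
    (a a' : Fin k → ℂ) (ha : a ∈ Wset q) (ha' : a' ∈ Wset q) (hga : a ∈ Gen k) (hga' : a' ∈ Gen k)
    (w : W) (hw : w ∈ S.F a) :
    (∃ φ ∈ O, S.val φ a' = S.T a a' w) ↔ ∃ φ ∈ O, S.val φ a = w := by
  obtain ⟨N, hN⟩ : ∃ N, N = dis a a' := ⟨_, rfl⟩
  induction N using Nat.strong_induction_on generalizing a w with
  | _ N ih =>
    obtain ⟨φ₀, hφ₀⟩ := S.val_surj a hga w hw
    by_cases h0 : dis a a' = 0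
    · have hs := same_of_dis a a' hga hga' h0
      rw [← hφ₀, S.T_val a a' hga hga' hs φ₀, orb_ex S O a' hga' φ₀, orb_ex S O a hga φ₀]
    · obtain ⟨b, hbW, hbG, hlt, l, m, hcr⟩ := swap_step q a a' hq ha ha' hga hga' h0
      have hseg := orb_seg q a b hq ha hbW
      have hTb : S.T a b w ∈ S.F b := S.T_mem a b hseg w hw
      have h1 := ih (dis b a') (by rw [hN]; exact hlt) b hbW hbG (S.T a b w) hTb rfl
      rw [S.T_trans (Wset q) (Wset_convex q) (Wset_sub q hq) a b a' ha hbW ha' w hw] at h1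
      rw [h1]
      rcases hcr with h | h
      · have hi : pos a l + 1 < k := by
          rw [← pos_cross a b l m h]
          exact orb_pos_lt a m
        have h2 := S.crossProp_s (pos a l) hi a b l m h rfl φ₀
        rw [← hφ₀, h2, orb_ex S O b hbG, orb_ex S O a hga, hO _ hi]
      · have hi : pos b m + 1 < k := by
          rw [← pos_cross b a m l h]
          exact orb_pos_lt b l
        obtain ⟨ψ, hψ⟩ := S.val_surj b hbG (S.T a b w) hTb
        have h2 := S.crossProp_s (pos b m) hi b a m l h rfl ψ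
        rw [hψ, orb_back S a b hseg w hw] at h2
        rw [← hψ, orb_ex S O b hbG, h2, orb_ex S O a hga, hO _ hi]

private def OQ (S : Sys k W) (O : Set (S.F (base k))) (q : Fin k → ℂ) : Set W :=
  {w | w ∈ S.F q ∧ ∃ a ∈ Wset q, a ∈ Gen k ∧ ∃ φ ∈ O, S.val φ a = S.T q a w}

private theorem mem_OQ (S : Sys k W) (O : Set (S.F (base k)))
    (hO : ∀ i, i + 1 < k → ∀ φ, S.s i φ ∈ O ↔ φ ∈ O) (q : Fin k → ℂ) (hq : q ∈ Conf k)
    (a : Fin k → ℂ) (ha : a ∈ Wset q) (hga : a ∈ Gen k) (w : W) (hw : w ∈ S.F q) :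
    w ∈ OQ S O q ↔ ∃ φ ∈ O, S.val φ a = S.T q a w := by
  constructor
  · rintro ⟨-, b, hb, hgb, h⟩
    have hseg := orb_seg q q b hq (mem_Wset q) hb
    have h1 := S.orb_gen O hO q hq b a hb ha hgb hga (S.T q b w) (S.T_mem q b hseg w hw)
    rw [S.T_trans (Wset q) (Wset_convex q) (Wset_sub q hq) q b a (mem_Wset q) hb ha w hw] at h1
    exact h1.2 h
  · intro h
    exact ⟨hw, a, ha, hga, h⟩

private theorem orb_gen_comp {a : Fin k → ℂ} (ha : a ∈ Gen k) (π : Equiv.Perm (Fin k)) :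
    a ∘ π ∈ Gen k := by
  intro i j h
  exact π.injective (ha h)

private theorem OQ_perm (S : Sys k W) (O : Set (S.F (base k))) (q : Fin k → ℂ)
    (π : Equiv.Perm (Fin k)) (w : W) (hw : w ∈ OQ S O q) : w ∈ OQ S O (q ∘ π) := by
  obtain ⟨h1, a, ha, hga, φ, hφ, h⟩ := hw
  refine ⟨?_, a ∘ π, ?_, orb_gen_comp hga π, φ, hφ, ?_⟩
  · rw [S.perm]
    exact h1
  · exact ⟨fun l m h2 => ha.1 (π l) (π m) h2, fun l m h2 h3 => ha.2 (π l) (π m) h2 h3⟩
  · rw [S.val_perm φ a hga, S.T_perm]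
    exact h

private theorem orb_local (S : Sys k W) (O : Set (S.F (base k)))
    (hO : ∀ i, i + 1 < k → ∀ φ, S.s i φ ∈ O ↔ φ ∈ O) (a : Fin k → ℂ) (ha : a ∈ Conf k)
    (c : Fin k → ℂ) (hc : c ∈ Wset a) (w : W) (hw : w ∈ S.F a) :
    S.T a c w ∈ OQ S O c ↔ w ∈ OQ S O a := by
  have hcC := Wset_sub a ha hc
  obtain ⟨b, ⟨hba, hbc⟩, hgb⟩ := Gen_dense c (Wset a ∩ Wset c) ((Wset_open a).inter (Wset_open c))
    ⟨hc, mem_Wset c⟩
  have hT : S.T a c w ∈ S.F c := S.T_mem a c (orb_seg a a c ha (mem_Wset a) hc) w hw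
  rw [mem_OQ S O hO a ha b hba hgb w hw, mem_OQ S O hO c hcC b hbc hgb _ hT,
    S.T_trans (Wset a) (Wset_convex a) (Wset_sub a ha) a c b (mem_Wset a) hc hba w hw]

theorem Sys.orb (S : Sys k W) (O : Set (S.F (base k)))
    (hO : ∀ i, i + 1 < k → ∀ φ, S.s i φ ∈ O ↔ φ ∈ O) :
    ∃ Q : (Fin k → ℂ) → Set W,
      (∀ q ∈ Conf k, Q q ⊆ S.F q) ∧
      (∀ q ∈ Conf k, ∀ π : Equiv.Perm (Fin k), Q (q ∘ π) = Q q) ∧
      (∀ a c, segment ℝ a c ⊆ Conf k → ∀ w ∈ S.F a, (S.T a c w ∈ Q c ↔ w ∈ Q a)) ∧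
      (∀ q ∈ Gen k, ∀ φ, S.val φ q ∈ Q q ↔ φ ∈ O) := by
  refine ⟨OQ S O, ?_, ?_, ?_, ?_⟩
  · intro q _ w hw
    exact hw.1
  · intro q _ π
    ext w
    constructor
    · intro h
      have h1 := OQ_perm S O (q ∘ π) π⁻¹ w h
      have h2 : (q ∘ π) ∘ (π⁻¹ : Equiv.Perm (Fin k)) = q := by
        funext i
        simp
      rw [h2] at h1
      exact h1
    · exact OQ_perm S O q π w
  · intro a c hseg w hw
    have hcl : Continuous fun t : unitInterval => AffineMap.lineMap a c (t : ℝ) :=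
      AffineMap.lineMap_continuous.comp continuous_subtype_val
    have hmem : ∀ t : unitInterval, AffineMap.lineMap a c (t : ℝ) ∈ segment ℝ a c := by
      intro t
      rw [segment_eq_image_lineMap]
      exact ⟨t, t.2, rfl⟩
    obtain ⟨p, hp⟩ : ∃ p : unitInterval → Prop, p = fun t : unitInterval =>
        S.T a (AffineMap.lineMap a c (t : ℝ)) w ∈ OQ S O (AffineMap.lineMap a c (t : ℝ)) := ⟨_, rfl⟩
    have hlc : IsLocallyConstant p := by
      rw [IsLocallyConstant.iff_eventually_eq]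
      intro t₀
      have hev : ∀ᶠ t : unitInterval in nhds t₀, AffineMap.lineMap a c (t : ℝ) ∈
          Wset (AffineMap.lineMap a c (t₀ : ℝ)) :=
        hcl.continuousAt.eventually ((Wset_open _).mem_nhds (mem_Wset _))
      filter_upwards [hev] with t ht
      have hT : S.T a (AffineMap.lineMap a c (t₀ : ℝ)) w ∈ S.F (AffineMap.lineMap a c (t₀ : ℝ)) := by
        refine S.T_mem a _ ?_ w hw
        exact ((convex_segment a c).segment_subset (left_mem_segment ℝ a c) (hmem t₀)).trans hseg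
      have h1 := orb_local S O hO _ (hseg (hmem t₀)) _ ht _ hT
      rw [S.T_trans (segment ℝ a c) (convex_segment a c) hseg a _ _ (left_mem_segment ℝ a c)
        (hmem t₀) (hmem t) w hw] at h1
      rw [hp]
      exact propext h1
    have h2 := hlc.apply_eq_of_preconnectedSpace 1 0
    rw [hp] at h2
    simp only [Set.Icc.coe_one, Set.Icc.coe_zero, AffineMap.lineMap_apply_one,
      AffineMap.lineMap_apply_zero] at h2
    rw [S.T_self a (hseg (left_mem_segment ℝ a c)) w hw] at h2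
    exact iff_of_eq h2
  · intro q hq φ
    have hC := Gen_subset_Conf k hq
    have hv := S.val_mem φ q hq
    rw [mem_OQ S O hO q hC q (mem_Wset q) hq _ hv, S.T_self q hC _ hv, orb_ex S O q hq]

end Pool.Agent.Helper2.LN
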