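import Pool.Agent.Helper2.LN.LogCross
import Pool.Agent.Helper2.LN.BraidRel
import Pool.Agent.Helper2.LN.LogAlg

/-!
# LN-L2 (MP_730da0_ag): all `s_i` of a pair system are equal (`k ≥ 5`)

Paper proof.  `S = pairSys u`.  The first projection maps `S` to `logSys k` (`T_map`), so the first component of `s_i (l, m)` is `l + 2πi` (`crossProp_s`, `log_s`, `val_inj`).  So `g = s_i s_j^-1` preserves the first component, and
`g (l, m) = (l, m')` with `e^(m') = u(base, l) = e^m`.  The map `c_r : (l, m) ↦ (l, m + 2πi r)` (`r ∈ ℤ`) is a map of systems `S → S` (`T_map`), so it commutes with all `s_i` and with `g`.  For fixed `l` all `m` differ by integer multiples of `2πi`, so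
`g (l, m) = (l, m + 2πi d(l))` with `d(l) ∈ ℤ` independent of `m`.  Two such permutations `g, g'` commute.  With `i, j ∈ {0, 1, 3}`: `braid_collapse` (`s_comm`, `s_braid`).
-/

namespace Pool.Agent.Helper2.LN

private theorem pc_inv {α : Type} (e : Equiv.Perm α) (x : α) : e⁻¹ (e x) = x :=
  e.symm_apply_apply x

private theorem pc_val {k : ℕ} {W W' : Type} [TopologicalSpace W] [TopologicalSpace W']
    (S : Sys k W) (S' : Sys k W') (p : W → W') (hp : Continuous p)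
    (hF : ∀ q ∈ Conf k, ∀ w ∈ S.F q, p w ∈ S'.F q) (φ : S.F (base k)) (ψ : S'.F (base k))
    (h : (ψ : W') = p φ) (q : Fin k → ℂ) (hq : q ∈ Gen k) : S'.val ψ q = p (S.val φ q) := by
  have hseg : segment ℝ (base k) (srt q) ⊆ Conf k :=
    ((convex_Ord k).segment_subset (base_mem_Ord k) (srt_mem q hq)).trans
      ((Ord_subset_Gen k).trans (Gen_subset_Conf k))
  have h1 := S.T_map S' p hp hF (base k) (srt q) hseg φ φ.2
  unfold Sys.val
  rw [h, h1]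

private theorem pc_s {k : ℕ} {W W' : Type} [TopologicalSpace W] [TopologicalSpace W']
    (S : Sys k W) (S' : Sys k W') (p : W → W') (hp : Continuous p)
    (hF : ∀ q ∈ Conf k, ∀ w ∈ S.F q, p w ∈ S'.F q) (φ : S.F (base k)) (ψ : S'.F (base k))
    (h : (ψ : W') = p φ) (i : ℕ) (hi : i + 1 < k) :
    ((S'.s i ψ : S'.F (base k)) : W') = p (S.s i φ : S.F (base k)) := by
  obtain ⟨a, c, l, m, hx, hpos, -⟩ := exists_cross (k := k) i hi
  have hb : base k ∈ Conf k := Gen_subset_Conf k (Ord_subset_Gen k (base_mem_Ord k))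
  have h1 := S.crossProp_s i hi a c l m hx hpos φ
  have h2 := S'.crossProp_s i hi a c l m hx hpos ψ
  have h3 := S.T_map S' p hp hF a c (segment_cross a c l m hx) (S.val φ a)
    (S.val_mem φ a hx.gena)
  rw [h1, ← pc_val S S' p hp hF φ ψ h a hx.gena, h2] at h3
  have h4 := pc_val S S' p hp hF (S.s i φ)
    ⟨p (S.s i φ : S.F (base k)), hF (base k) hb _ (S.s i φ : S.F (base k)).2⟩ rfl c hx.genc
  rw [h3] at h4
  have h5 := S'.val_inj _ _ c hx.genc h4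
  exact (congrArg Subtype.val h5).symm

private theorem pc_fst {k : ℕ} (u : (Fin k → ℂ) × ℂ → ℂ) (hc : ContinuousOn u (Yset k))
    (h0 : ∀ p ∈ Yset k, u p ≠ 0) (hi : Inv u) (i : ℕ) (hk : i + 1 < k)
    (φ : (pairSys u hc h0 hi).F (base k)) :
    (((pairSys u hc h0 hi).s i φ : (pairSys u hc h0 hi).F (base k)) : ℂ × ℂ).1 =
      (φ : ℂ × ℂ).1 + 2 * Real.pi * Complex.I := by
  have hF : ∀ q ∈ Conf k, ∀ w ∈ (pairSys u hc h0 hi).F q, w.1 ∈ (logSys k).F q :=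
    fun q _ w hw => hw.1.2
  have hb : base k ∈ Conf k := Gen_subset_Conf k (Ord_subset_Gen k (base_mem_Ord k))
  have h1 := pc_s (pairSys u hc h0 hi) (logSys k) Prod.fst continuous_fst hF φ
    ⟨(φ : ℂ × ℂ).1, hF (base k) hb _ φ.2⟩ rfl i hk
  rw [← h1, log_s k i hk]

private theorem pc_exp (x : ℂ) (r : ℤ) :
    Complex.exp (x + r * (2 * Real.pi * Complex.I)) = Complex.exp x :=
  Complex.exp_eq_exp_iff_exists_int.2 ⟨r, rfl⟩

private theorem pc_shift {k : ℕ} (u : (Fin k → ℂ) × ℂ → ℂ) (hc : ContinuousOn u (Yset k))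
    (h0 : ∀ p ∈ Yset k, u p ≠ 0) (hi : Inv u) (i : ℕ) (hk : i + 1 < k) (r : ℤ)
    (φ ψ : (pairSys u hc h0 hi).F (base k))
    (h : (ψ : ℂ × ℂ) = ((φ : ℂ × ℂ).1, (φ : ℂ × ℂ).2 + r * (2 * Real.pi * Complex.I))) :
    (((pairSys u hc h0 hi).s i ψ : (pairSys u hc h0 hi).F (base k)) : ℂ × ℂ) =
      ((((pairSys u hc h0 hi).s i φ : (pairSys u hc h0 hi).F (base k)) : ℂ × ℂ).1,
        (((pairSys u hc h0 hi).s i φ : (pairSys u hc h0 hi).F (base k)) : ℂ × ℂ).2 +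
          r * (2 * Real.pi * Complex.I)) := by
  have hF : ∀ q ∈ Conf k, ∀ w ∈ (pairSys u hc h0 hi).F q,
      ((w.1, w.2 + r * (2 * Real.pi * Complex.I)) : ℂ × ℂ) ∈ (pairSys u hc h0 hi).F q :=
    fun q _ w hw => ⟨hw.1, (pc_exp w.2 r).trans hw.2⟩
  exact pc_s (pairSys u hc h0 hi) (pairSys u hc h0 hi)
    (fun w => (w.1, w.2 + r * (2 * Real.pi * Complex.I)))
    (continuous_fst.prodMk (continuous_snd.add continuous_const)) hF φ ψ h i hk

private theorem pc_shift_inv {k : ℕ} (u : (Fin k → ℂ) × ℂ → ℂ) (hc : ContinuousOn u (Yset k))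
    (h0 : ∀ p ∈ Yset k, u p ≠ 0) (hi : Inv u) (i : ℕ) (hk : i + 1 < k) (r : ℤ)
    (φ ψ : (pairSys u hc h0 hi).F (base k))
    (h : (ψ : ℂ × ℂ) = ((φ : ℂ × ℂ).1, (φ : ℂ × ℂ).2 + r * (2 * Real.pi * Complex.I))) :
    ((((pairSys u hc h0 hi).s i)⁻¹ ψ : (pairSys u hc h0 hi).F (base k)) : ℂ × ℂ) =
      (((((pairSys u hc h0 hi).s i)⁻¹ φ : (pairSys u hc h0 hi).F (base k)) : ℂ × ℂ).1,
        ((((pairSys u hc h0 hi).s i)⁻¹ φ : (pairSys u hc h0 hi).F (base k)) : ℂ × ℂ).2 +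
          r * (2 * Real.pi * Complex.I)) := by
  obtain ⟨φ', rfl⟩ := ((pairSys u hc h0 hi).s i).surjective φ
  have hm : (((φ' : ℂ × ℂ).1, (φ' : ℂ × ℂ).2 + r * (2 * Real.pi * Complex.I)) : ℂ × ℂ) ∈
      (pairSys u hc h0 hi).F (base k) := ⟨φ'.2.1, (pc_exp _ r).trans φ'.2.2⟩
  have h1 := pc_shift u hc h0 hi i hk r φ' ⟨_, hm⟩ rfl
  have h2 : ψ = (pairSys u hc h0 hi).s i ⟨_, hm⟩ := Subtype.ext (h.trans h1.symm)
  rw [h2, pc_inv, pc_inv]

/-- the permutation `s_i s_j⁻¹` -/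
private theorem pc_g {k : ℕ} (u : (Fin k → ℂ) × ℂ → ℂ) (hc : ContinuousOn u (Yset k))
    (h0 : ∀ p ∈ Yset k, u p ≠ 0) (hi : Inv u) (i j : ℕ) (hik : i + 1 < k) (hjk : j + 1 < k) :
    (∀ φ, ((((pairSys u hc h0 hi).s i * ((pairSys u hc h0 hi).s j)⁻¹) φ :
      (pairSys u hc h0 hi).F (base k)) : ℂ × ℂ).1 = (φ : ℂ × ℂ).1) ∧
    ∀ (r : ℤ) (φ ψ : (pairSys u hc h0 hi).F (base k)),
      (ψ : ℂ × ℂ) = ((φ : ℂ × ℂ).1, (φ : ℂ × ℂ).2 + r * (2 * Real.pi * Complex.I)) →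
      ((((pairSys u hc h0 hi).s i * ((pairSys u hc h0 hi).s j)⁻¹) ψ :
        (pairSys u hc h0 hi).F (base k)) : ℂ × ℂ) =
      (((((pairSys u hc h0 hi).s i * ((pairSys u hc h0 hi).s j)⁻¹) φ :
        (pairSys u hc h0 hi).F (base k)) : ℂ × ℂ).1,
       ((((pairSys u hc h0 hi).s i * ((pairSys u hc h0 hi).s j)⁻¹) φ :
        (pairSys u hc h0 hi).F (base k)) : ℂ × ℂ).2 + r * (2 * Real.pi * Complex.I)) := by
  constructor
  · intro φ
    obtain ⟨φ', rfl⟩ := ((pairSys u hc h0 hi).s j).surjective φ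
    rw [Equiv.Perm.mul_apply, pc_inv, pc_fst u hc h0 hi i hik,
      pc_fst u hc h0 hi j hjk]
  · intro r φ ψ h
    rw [Equiv.Perm.mul_apply, Equiv.Perm.mul_apply]
    exact pc_shift u hc h0 hi i hik r _ _ (pc_shift_inv u hc h0 hi j hjk r φ ψ h)

private theorem pc_rel {k : ℕ} (u : (Fin k → ℂ) × ℂ → ℂ) (hc : ContinuousOn u (Yset k))
    (h0 : ∀ p ∈ Yset k, u p ≠ 0) (hi : Inv u) (φ ψ : (pairSys u hc h0 hi).F (base k))
    (h : (ψ : ℂ × ℂ).1 = (φ : ℂ × ℂ).1) :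
    ∃ r : ℤ, (ψ : ℂ × ℂ) = ((φ : ℂ × ℂ).1, (φ : ℂ × ℂ).2 + r * (2 * Real.pi * Complex.I)) := by
  have h1 : Complex.exp (ψ : ℂ × ℂ).2 = u (base k, (ψ : ℂ × ℂ).1) := ψ.2.2
  have h2 : Complex.exp (φ : ℂ × ℂ).2 = u (base k, (φ : ℂ × ℂ).1) := φ.2.2
  rw [h, ← h2] at h1
  obtain ⟨r, hr⟩ := Complex.exp_eq_exp_iff_exists_int.1 h1
  exact ⟨r, Prod.ext h hr⟩

theorem pair_equal {k : ℕ} (hk : 4 < k) (u : (Fin k → ℂ) × ℂ → ℂ) (hc : ContinuousOn u (Yset k))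
    (h0 : ∀ p ∈ Yset k, u p ≠ 0) (hi : Inv u) :
    ∀ i, i + 1 < k → (pairSys u hc h0 hi).s i = (pairSys u hc h0 hi).s 0 := by
  intro i hik
  have hcomm : ((pairSys u hc h0 hi).s 0 * ((pairSys u hc h0 hi).s 3)⁻¹) *
      ((pairSys u hc h0 hi).s 1 * ((pairSys u hc h0 hi).s 3)⁻¹) =
      ((pairSys u hc h0 hi).s 1 * ((pairSys u hc h0 hi).s 3)⁻¹) *
      ((pairSys u hc h0 hi).s 0 * ((pairSys u hc h0 hi).s 3)⁻¹) := by
    obtain ⟨f1, t1⟩ := pc_g u hc h0 hi 0 3 (by omega) (by omega)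
    obtain ⟨f2, t2⟩ := pc_g u hc h0 hi 1 3 (by omega) (by omega)
    ext1 φ
    rw [Equiv.Perm.mul_apply, Equiv.Perm.mul_apply
      ((pairSys u hc h0 hi).s 1 * ((pairSys u hc h0 hi).s 3)⁻¹)]
    obtain ⟨r, hr⟩ := pc_rel u hc h0 hi φ _ (f1 φ)
    obtain ⟨r', hr'⟩ := pc_rel u hc h0 hi φ _ (f2 φ)
    have e1 := t1 r' _ _ hr'
    have e2 := t2 r _ _ hr
    refine Subtype.ext ?_
    rw [e1, e2, hr, hr']
    refine Prod.ext rfl ?_
    change (φ : ℂ × ℂ).2 + r * (2 * Real.pi * Complex.I) + r' * (2 * Real.pi * Complex.I) =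
      (φ : ℂ × ℂ).2 + r' * (2 * Real.pi * Complex.I) + r * (2 * Real.pi * Complex.I)
    ring
  exact braid_collapse k hk (pairSys u hc h0 hi).s
    (fun i j h1 h2 => (pairSys u hc h0 hi).s_comm i j h1 h2)
    (fun i h1 => (pairSys u hc h0 hi).s_braid i h1) hcomm i hik

end Pool.Agent.Helper2.LN
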