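import Pool.Agent.Helper2.LN.Defs2

/-!
# LN-A1 (MP_730da0_ag): the centred polynomial of a configuration

Paper proofs.  `cpoly q` is monic of degree `k`; its coefficient at `X^(k-1)` is `-∑ (q_i - mean q) = 0` (`k ≥ 2`); the other coefficients are those of `pol k (cf q)` by
definition (`X^i` with `i = k - 2 - j`).  `pol_coeff`: `(pol m w).coeff (m - 2 - j) = w j` for `j < m - 1` (`2 ≤ m`).  `cf_perm`: reindex the product; `mean` is invariant.  Continuity / differentiability
of `cf` and `Dsc`: the coefficients of a product of linear factors are polynomials in the `q_i` (`Finset.prod_X_sub_C_coeff` / Vieta with `esymm`, or induction over the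
product: coefficients of a product of polynomials with differentiable coefficients are differentiable).
-/

namespace Pool.Agent.Helper2.LN

open Polynomial

theorem pol_coeff (m : ℕ) (hm : 2 ≤ m) (w : Fin (m - 1) → ℂ) (j : Fin (m - 1)) :
    (pol m w).coeff (m - 2 - (j : ℕ)) = w j := by
  unfold pol
  rw [coeff_add, coeff_X_pow, if_neg (by omega), zero_add, finsetSum_coeff,
    Finset.sum_eq_single j]
  · rw [coeff_C_mul, coeff_X_pow, if_pos rfl, mul_one]
  · intro i _ hij
    rw [coeff_C_mul, coeff_X_pow, if_neg, mul_zero]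
    intro h
    apply hij
    have h1 := i.2
    have h2 := j.2
    exact Fin.ext (by omega)
  · intro h
    exact absurd (Finset.mem_univ j) h

theorem pol_coeff_sub_one (m : ℕ) (hm : 2 ≤ m) (w : Fin (m - 1) → ℂ) : (pol m w).coeff (m - 1) = 0 := by
  unfold pol
  rw [coeff_add, coeff_X_pow, if_neg (by omega), zero_add, finsetSum_coeff]
  refine Finset.sum_eq_zero fun i _ => ?_
  rw [coeff_C_mul, coeff_X_pow, if_neg (by omega), mul_zero]

theorem pol_inj (m : ℕ) (w w' : Fin (m - 1) → ℂ) (h : pol m w = pol m w') : w = w' := by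
  funext j
  have hj := j.2
  have hm : 2 ≤ m := by omega
  rw [← pol_coeff m hm w j, ← pol_coeff m hm w' j, h]

/-- Every monic polynomial of degree `m` with vanishing `X^(m-1)`-coefficient is a `pol m w`. -/
theorem exists_pol (m : ℕ) (hm : 2 ≤ m) (P : ℂ[X]) (hP : P.Monic) (hd : P.natDegree = m)
    (h0 : P.coeff (m - 1) = 0) : P = pol m (fun j => P.coeff (m - 2 - (j : ℕ))) := by
  ext i
  rcases lt_trichotomy i m with h | h | h
  · rcases Nat.lt_or_ge i (m - 1) with h1 | h1
    · have e : i = m - 2 - ((⟨m - 2 - i, by omega⟩ : Fin (m - 1)) : ℕ) := by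
        simp only
        omega
      have h2 := pol_coeff m hm (fun j => P.coeff (m - 2 - (j : ℕ))) ⟨m - 2 - i, by omega⟩
      rw [← e] at h2
      exact h2.symm
    · have e : i = m - 1 := by omega
      rw [e, h0, pol_coeff_sub_one m hm]
  · rw [h]
    have h1 : P.coeff m = 1 := by
      rw [← hd]
      exact hP
    have h2 := monic_pol m (fun j => P.coeff (m - 2 - (j : ℕ)))
    rw [Monic, leadingCoeff, natDegree_pol] at h2
    rw [h1, h2]
  · rw [coeff_eq_zero_of_natDegree_lt (by omega), coeff_eq_zero_of_natDegree_lt]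
    rw [natDegree_pol]
    exact h

private theorem cpoly_monic {k : ℕ} (q : Fin k → ℂ) : (cpoly q).Monic := by
  unfold cpoly
  exact monic_prod_of_monic _ _ fun i _ => monic_X_sub_C _

private theorem cpoly_natDegree {k : ℕ} (q : Fin k → ℂ) : (cpoly q).natDegree = k := by
  unfold cpoly
  rw [natDegree_prod_of_monic _ _ fun i _ => monic_X_sub_C _,
    Finset.sum_congr rfl fun i _ => natDegree_X_sub_C _, Finset.sum_const, Finset.card_univ,
    Fintype.card_fin, smul_eq_mul, mul_one]

private theorem sum_sub_mean {k : ℕ} (hk : 1 ≤ k) (q : Fin k → ℂ) : ∑ i, (q i - mean q) = 0 := by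
  have hk' : (k : ℂ) ≠ 0 := by
    have : k ≠ 0 := by omega
    exact_mod_cast this
  rw [Finset.sum_sub_distrib, Finset.sum_const, Finset.card_univ, Fintype.card_fin, nsmul_eq_mul]
  unfold mean
  field_simp
  ring

theorem pol_cf {k : ℕ} (hk : 2 ≤ k) (q : Fin k → ℂ) : pol k (cf q) = cpoly q := by
  refine (exists_pol k hk (cpoly q) (cpoly_monic q) (cpoly_natDegree q) ?_).symm
  have h1 := Polynomial.prod_X_sub_C_coeff_card_pred (Finset.univ : Finset (Fin k))
    (fun i => q i - mean q) (by rw [Finset.card_univ, Fintype.card_fin]; omega)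
  rw [Finset.card_univ, Fintype.card_fin] at h1
  unfold cpoly
  rw [h1, sum_sub_mean (by omega) q, neg_zero]

private theorem mean_perm {k : ℕ} (q : Fin k → ℂ) (π : Equiv.Perm (Fin k)) :
    mean (q ∘ π) = mean q := by
  unfold mean
  congr 1
  exact Equiv.sum_comp π q

theorem cf_perm {k : ℕ} (q : Fin k → ℂ) (π : Equiv.Perm (Fin k)) : cf (q ∘ π) = cf q := by
  have h1 : cpoly (q ∘ π) = cpoly q := by
    unfold cpoly
    rw [mean_perm]
    exact Equiv.prod_comp π (fun i => (X - C (q i - mean q) : ℂ[X]))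
  unfold cf
  rw [h1]

theorem cf_add {k : ℕ} (hk : 1 ≤ k) (q : Fin k → ℂ) (c : ℂ) : cf (fun i => q i + c) = cf q := by
  have hk' : (k : ℂ) ≠ 0 := by
    have : k ≠ 0 := by omega
    exact_mod_cast this
  have h0 : mean (fun i => q i + c) = mean q + c := by
    unfold mean
    rw [Finset.sum_add_distrib, Finset.sum_const, Finset.card_univ, Fintype.card_fin, nsmul_eq_mul]
    field_simp
  have h1 : cpoly (fun i => q i + c) = cpoly q := by
    unfold cpoly
    rw [h0]
    refine Finset.prod_congr rfl fun i _ => ?_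
    rw [add_sub_add_right_eq_sub]
  unfold cf
  rw [h1]

private theorem diff_coeff {E ι : Type*} [NormedAddCommGroup E] [NormedSpace ℂ E]
    (f : ι → E → ℂ) (s : Finset ι) (hf : ∀ i ∈ s, Differentiable ℂ (f i)) :
    ∀ n : ℕ, Differentiable ℂ (fun q : E => (∏ i ∈ s, (X - C (f i q)) : ℂ[X]).coeff n) := by
  classical
  induction s using Finset.induction_on with
  | empty =>
    intro n
    simp only [Finset.prod_empty]
    exact differentiable_const _
  | insert a s ha ih =>
    intro n
    have ih' := ih fun i hi => hf i (Finset.mem_insert_of_mem hi)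
    have h1 : (fun q : E => (∏ i ∈ insert a s, (X - C (f i q)) : ℂ[X]).coeff n) =
        fun q : E => (X * ∏ i ∈ s, (X - C (f i q)) : ℂ[X]).coeff n -
          f a q * (∏ i ∈ s, (X - C (f i q)) : ℂ[X]).coeff n := by
      funext q
      rw [Finset.prod_insert ha, sub_mul, coeff_sub, coeff_C_mul]
    rw [h1]
    refine Differentiable.sub ?_ ((hf a (Finset.mem_insert_self _ _)).mul (ih' n))
    cases n with
    | zero =>
      simp only [coeff_X_mul_zero]
      exact differentiable_const _
    | succ n =>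
      simp only [coeff_X_mul]
      exact ih' n

theorem differentiable_cf (k : ℕ) : Differentiable ℂ (cf : (Fin k → ℂ) → (Fin (k - 1) → ℂ)) := by
  rw [differentiable_pi]
  intro j
  unfold cf cpoly
  refine diff_coeff (fun (i : Fin k) (q : Fin k → ℂ) => q i - mean q) Finset.univ ?_ _
  intro i _
  unfold mean
  fun_prop

private theorem Dsc_eq {k : ℕ} (q : Fin k → ℂ) : Dsc q = (Matrix.vandermonde q).det ^ 2 := by
  unfold Dsc
  rw [Matrix.det_vandermonde, ← Finset.prod_pow]
  refine Finset.prod_congr rfl fun i _ => ?_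
  rw [← Finset.prod_pow]

theorem Dsc_perm {k : ℕ} (q : Fin k → ℂ) (π : Equiv.Perm (Fin k)) : Dsc (q ∘ π) = Dsc q := by
  rw [Dsc_eq, Dsc_eq]
  have h1 : Matrix.vandermonde (q ∘ π) = (Matrix.vandermonde q).submatrix π id := by
    ext i j
    simp [Matrix.vandermonde_apply]
  rw [h1, Matrix.det_permute, mul_pow]
  have h2 : (((Equiv.Perm.sign π : ℤˣ) : ℤ) : ℂ) ^ 2 = 1 := by
    rw [← Int.cast_pow, ← Units.val_pow_eq_pow_val, Int.units_sq]
    simp
  rw [h2, one_mul]

theorem Dsc_add {k : ℕ} (q : Fin k → ℂ) (c : ℂ) : Dsc (fun i => q i + c) = Dsc q := by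
  unfold Dsc
  simp only [add_sub_add_right_eq_sub]

theorem Dsc_smul {k : ℕ} (q : Fin k → ℂ) (a : ℂ) : Dsc (fun i => a * q i) = a ^ (k * (k - 1)) * Dsc q := by
  unfold Dsc
  have h1 : ∀ i : Fin k, ∏ j ∈ Finset.Ioi i, (a * q j - a * q i) ^ 2 =
      a ^ (2 * (k - 1 - (i : ℕ))) * ∏ j ∈ Finset.Ioi i, (q j - q i) ^ 2 := by
    intro i
    have h2 : ∀ j ∈ Finset.Ioi i, (a * q j - a * q i) ^ 2 = a ^ 2 * (q j - q i) ^ 2 := by
      intro j _
      ring
    rw [Finset.prod_congr rfl h2, Finset.prod_mul_distrib, Finset.prod_const, Fin.card_Ioi, ← pow_mul]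
  rw [Finset.prod_congr rfl fun i _ => h1 i, Finset.prod_mul_distrib, Finset.prod_pow_eq_pow_sum]
  congr 2
  rw [← Finset.mul_sum, Fin.sum_univ_eq_sum_range (fun i => k - 1 - i) k,
    Finset.sum_range_reflect (fun i => i) k, mul_comm, Finset.sum_range_id_mul_two]

theorem differentiable_Dsc (k : ℕ) : Differentiable ℂ (Dsc : (Fin k → ℂ) → ℂ) := by
  unfold Dsc
  fun_prop

theorem Dsc_ne_zero {k : ℕ} (q : Fin k → ℂ) : Dsc q ≠ 0 ↔ q ∈ Conf k := by
  rw [Dsc_eq]
  have h1 : (Matrix.vandermonde q).det ^ 2 ≠ 0 ↔ (Matrix.vandermonde q).det ≠ 0 := by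
    rw [Ne, pow_eq_zero_iff two_ne_zero]
  rw [h1, Matrix.det_vandermonde_ne_zero_iff]
  rfl

end Pool.Agent.Helper2.LN
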