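import Pool.Agent.Helper2.LN.DiscrCf

/-!
# LN-A2 (MP_730da0_ag): roots and scaling

Paper proofs.  `ℂ` is algebraically closed: `pol m w` splits; its root multiset has `m` elements with sum `0` (the `X^(m-1)`-coefficient vanishes); enumerate it by
`q : Fin m → ℂ`; then `mean q = 0` and `cpoly q = pol m w`, so `cf q = w`.  Two centred `q, q'` with the same `cf` have the same root multiset, hence differ by a
permutation.  `w ∈ G0 m` iff `q ∈ Conf m` (`discr_cf`, `Dsc_ne_zero`).  For `w ∈ G0 m` the root set is `q '' univ` with `q` injective.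
`pol_scale`: `a^m P(X/a)`: the coefficients of `X^(m-2-j)` are multiplied by `a^(j+2)`; `a^m (pol m w)(x) = (pol m (scale a w))(a x)`.  Discriminant: take centred roots `q` of `w`; `a q` are
the centred roots of `scale a w`; `Dsc_smul`.
-/

namespace Pool.Agent.Helper2.LN

open Polynomial

private theorem pb_sum_coeff {m : ℕ} (hm : 2 ≤ m) (w : Fin (m - 1) → ℂ) {ι : Type} [Fintype ι]
    (hι : Fintype.card ι = m) (x : ι → ℂ) (h : pol m w = ∏ i, (X - C (x i))) : ∑ i, x i = 0 := by
  have h1 := pol_coeff_sub_one m hm w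
  have h2 := Polynomial.prod_X_sub_C_coeff_card_pred (Finset.univ : Finset ι) x
    (by rw [Finset.card_univ, hι]; omega)
  rw [Finset.card_univ, hι, ← h, h1] at h2
  exact neg_eq_zero.1 h2.symm

private theorem pb_mean {k : ℕ} (q : Fin k → ℂ) (hq : ∑ i, q i = 0) : mean q = 0 := by
  unfold mean
  rw [hq, zero_div]

private theorem pb_cpoly {k : ℕ} (q : Fin k → ℂ) (hq : ∑ i, q i = 0) :
    cpoly q = ∏ i, (X - C (q i)) := by
  unfold cpoly
  rw [pb_mean q hq]
  simp only [sub_zero]

theorem exists_roots (m : ℕ) (hm : 2 ≤ m) (w : Fin (m - 1) → ℂ) : ∃ q : Fin m → ℂ, ∑ i, q i = 0 ∧ cf q = w := by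
  have hc : (pol m w).roots.card = m := by
    rw [IsAlgClosed.card_roots_eq_natDegree, natDegree_pol]
  have hl : (pol m w).roots.toList.length = m := by
    rw [Multiset.length_toList, hc]
  let q : Fin m → ℂ := fun i => (pol m w).roots.toList.get (Fin.cast hl.symm i)
  have hq : (Finset.univ : Finset (Fin m)).val.map q = (pol m w).roots := by
    rw [Fin.univ_val_map]
    conv_rhs => rw [← Multiset.coe_toList (pol m w).roots]
    congr 1
    apply List.ext_get
    · rw [List.length_ofFn, hl]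
    · intro i h1 h2
      simp [q]
  have hp : pol m w = ∏ i, (X - C (q i)) := by
    have h1 := Polynomial.prod_multiset_X_sub_C_of_monic_of_roots_card_eq (monic_pol m w)
      (by rw [hc, natDegree_pol])
    rw [← hq, Multiset.map_map] at h1
    exact h1.symm
  have hs : ∑ i, q i = 0 := pb_sum_coeff hm w (Fintype.card_fin m) q hp
  refine ⟨q, hs, ?_⟩
  have h2 : pol m (cf q) = pol m w := by
    rw [pol_cf hm, pb_cpoly q hs, hp]
  exact pol_inj m _ _ h2

theorem roots_unique (m : ℕ) (hm : 2 ≤ m) (q q' : Fin m → ℂ) (hq : ∑ i, q i = 0) (hq' : ∑ i, q' i = 0)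
    (h : cf q = cf q') : ∃ π : Equiv.Perm (Fin m), q' = q ∘ π := by
  classical
  have h1 : cpoly q = cpoly q' := by
    rw [← pol_cf hm, ← pol_cf hm, h]
  rw [pb_cpoly q hq, pb_cpoly q' hq'] at h1
  have h2 : (Finset.univ : Finset (Fin m)).val.map q = (Finset.univ : Finset (Fin m)).val.map q' := by
    have e0 : ∀ f : Fin m → ℂ, (∏ i, (X - C (f i)) : ℂ[X]).roots
        = (Finset.univ : Finset (Fin m)).val.map f := by
      intro f
      have h3 := Polynomial.roots_multiset_prod_X_sub_C ((Finset.univ : Finset (Fin m)).val.map f)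
      rw [Multiset.map_map] at h3
      exact h3
    rw [← e0 q, ← e0 q', h1]
  have h4 : ∀ c : ℂ, Nonempty ({ a // q' a = c } ≃ { a // q a = c }) := by
    intro c
    have h5 := congrArg (Multiset.count c) h2
    rw [Multiset.count_map, Multiset.count_map] at h5
    refine ⟨Fintype.equivOfCardEq ?_⟩
    rw [Fintype.card_subtype, Fintype.card_subtype]
    have e1 : ∀ f : Fin m → ℂ, (Multiset.filter (fun a => c = f a) (Finset.univ : Finset (Fin m)).val).card
        = (Finset.univ.filter (fun a => f a = c)).card := by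
      intro f
      rw [← Finset.filter_val, Finset.card_val]
      congr 1
      refine Finset.filter_congr fun a _ => ?_
      exact eq_comm
    rw [e1, e1] at h5
    exact h5.symm
  let e : ∀ c : ℂ, { a // q' a = c } ≃ { a // q a = c } := fun c => Classical.choice (h4 c)
  refine ⟨Equiv.ofFiberEquiv e, ?_⟩
  funext a
  exact (Equiv.ofFiberEquiv_map e a).symm

theorem cf_mem_G0 {k : ℕ} (hk : 2 ≤ k) (q : Fin k → ℂ) : cf q ∈ G0 k ↔ q ∈ Conf k := by
  rw [← Dsc_ne_zero]
  show (pol k (cf q)).discr ≠ 0 ↔ _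
  rw [discr_cf hk]

theorem isOpen_G0 (m : ℕ) : IsOpen (G0 m) :=
  isOpen_ne.preimage (continuous_discr m)

theorem isOpen_Conf (k : ℕ) : IsOpen (Conf k) := by
  have h : Conf k = (Dsc : (Fin k → ℂ) → ℂ) ⁻¹' {x | x ≠ 0} := by
    ext q
    exact (Dsc_ne_zero q).symm
  rw [h]
  exact isOpen_ne.preimage (differentiable_Dsc k).continuous

theorem eval_cf {k : ℕ} (hk : 2 ≤ k) (q : Fin k → ℂ) (hq : ∑ i, q i = 0) (x : ℂ) :
    (pol k (cf q)).eval x = 0 ↔ ∃ i, q i = x := by
  rw [pol_cf hk, pb_cpoly q hq, Polynomial.eval_prod, Finset.prod_eq_zero_iff]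
  constructor
  · rintro ⟨i, _, hi⟩
    refine ⟨i, ?_⟩
    rw [Polynomial.eval_sub, Polynomial.eval_X, Polynomial.eval_C] at hi
    exact (sub_eq_zero.1 hi).symm
  · rintro ⟨i, hi⟩
    refine ⟨i, Finset.mem_univ i, ?_⟩
    rw [Polynomial.eval_sub, Polynomial.eval_X, Polynomial.eval_C, hi, sub_self]

/-- The root set of a point of `G0 m`, enumerated. -/
theorem exists_enum (m : ℕ) (hm : 2 ≤ m) (w : Fin (m - 1) → ℂ) (hw : w ∈ G0 m) :
    ∃ q : Fin m → ℂ, Function.Injective q ∧ ∑ i, q i = 0 ∧ cf q = w ∧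
      ∀ x, (pol m w).eval x = 0 ↔ ∃ i, q i = x := by
  obtain ⟨q, hq, hw'⟩ := exists_roots m hm w
  refine ⟨q, ?_, hq, hw', ?_⟩
  · rw [← hw'] at hw
    exact (cf_mem_G0 hm q).1 hw
  · intro x
    rw [← hw']
    exact eval_cf hm q hq x

/-- An enumeration of `m` distinct roots determines the point, and the roots have sum zero. -/
theorem of_enum (m : ℕ) (hm : 2 ≤ m) (w : Fin (m - 1) → ℂ) {ι : Type} [Fintype ι] (hι : Fintype.card ι = m)
    (x : ι → ℂ) (hx : Function.Injective x) (h : ∀ i, (pol m w).eval (x i) = 0) :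
    ∑ i, x i = 0 ∧ pol m w = ∏ i, (X - C (x i)) ∧ w ∈ G0 m := by
  classical
  have hdvd : (∏ i, (X - C (x i))) ∣ pol m w := by
    refine Finset.prod_dvd_of_coprime ?_ fun i _ => Polynomial.dvd_iff_isRoot.2 (h i)
    intro i _ j _ hij
    exact Polynomial.isCoprime_X_sub_C_of_isUnit_sub (sub_ne_zero.2 (hx.ne hij)).isUnit
  have hmon : (∏ i, (X - C (x i))).Monic := Polynomial.monic_prod_of_monic _ _ fun i _ =>
    Polynomial.monic_X_sub_C _
  have hdeg : (∏ i, (X - C (x i))).natDegree = m := by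
    rw [Polynomial.natDegree_prod_of_monic _ _ fun i _ => Polynomial.monic_X_sub_C _]
    simp [hι]
  have heq : pol m w = ∏ i, (X - C (x i)) := by
    refine Polynomial.eq_of_monic_of_dvd_of_natDegree_le hmon (monic_pol m w) hdvd ?_
    rw [hdeg, natDegree_pol]
  have hs := pb_sum_coeff hm w hι x heq
  refine ⟨hs, heq, ?_⟩
  let e : Fin m ≃ ι := (Fintype.equivFinOfCardEq hι).symm
  have hs' : ∑ i, (x ∘ e) i = 0 := by
    rw [← hs]
    exact Equiv.sum_comp e x
  have h2 : pol m (cf (x ∘ e)) = pol m w := by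
    rw [pol_cf hm, pb_cpoly _ hs', heq]
    exact Equiv.prod_comp e fun i => (X - C (x i))
  have h3 := pol_inj m _ _ h2
  rw [← h3, cf_mem_G0 hm]
  exact hx.comp e.injective

theorem eval_scale {m : ℕ} (hm : 2 ≤ m) (a x : ℂ) (w : Fin (m - 1) → ℂ) :
    (pol m (scale a w)).eval (a * x) = a ^ m * (pol m w).eval x := by
  unfold pol
  rw [Polynomial.eval_add, Polynomial.eval_add, Polynomial.eval_finsetSum, Polynomial.eval_finsetSum,
    mul_add, Finset.mul_sum]
  simp only [Polynomial.eval_mul, Polynomial.eval_pow, Polynomial.eval_X, Polynomial.eval_C, scale]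
  congr 1
  · rw [mul_pow]
  · refine Finset.sum_congr rfl fun j _ => ?_
    have hj := j.2
    have e : m = ((j : ℕ) + 2) + (m - 2 - (j : ℕ)) := by omega
    have e2 : a ^ m = a ^ ((j : ℕ) + 2) * a ^ (m - 2 - (j : ℕ)) := by
      rw [← pow_add, ← e]
    rw [mul_pow, e2]
    ring

theorem scale_mem_G0 {m : ℕ} (hm : 2 ≤ m) (a : ℂ) (ha : a ≠ 0) (w : Fin (m - 1) → ℂ) (hw : w ∈ G0 m) :
    (scale a w : Fin (m - 1) → ℂ) ∈ G0 m := by
  obtain ⟨q, hi, _, _, hr⟩ := exists_enum m hm w hw
  refine (of_enum m hm (scale a w) (Fintype.card_fin m) (fun i => a * q i) ?_ ?_).2.2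
  · intro i j hij
    exact hi (mul_left_cancel₀ ha hij)
  · intro i
    rw [eval_scale hm, (hr (q i)).2 ⟨i, rfl⟩, mul_zero]

theorem scale_scale {m : ℕ} (a b : ℂ) (w : Fin (m - 1) → ℂ) :
    (scale a (scale b w) : Fin (m - 1) → ℂ) = scale (a * b) w := by
  funext j
  unfold scale
  rw [mul_pow]
  ring

theorem scale_one {m : ℕ} (w : Fin (m - 1) → ℂ) : (scale 1 w : Fin (m - 1) → ℂ) = w := by
  funext j
  unfold scale
  rw [one_pow, one_mul]

theorem continuous_scale {m : ℕ} : Continuous fun p : ℂ × (Fin (m - 1) → ℂ) =>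
    (scale p.1 p.2 : Fin (m - 1) → ℂ) := by
  unfold scale
  refine continuous_pi fun j => ?_
  exact (continuous_fst.pow _).mul ((continuous_apply j).comp continuous_snd)

end Pool.Agent.Helper2.LN
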