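import Pool.Agent.Helper2.LN.RootHol
import Pool.Agent.Helper2.LN.Landau

/-!
# LN-R4 (MP_730da0_ag): rigidity on `ℂ^*`-orbits

Paper proof.  Let `x : Fin n → ℂ` enumerate the root set over `q` (`rootF_enum`, `∑ x = 0`).  `ℂ` is simply connected and locally path connected: for each `i` there is a continuous lift `X_i : ℂ → ℂ`,
`X_i 0 = x_i`, `X_i s ∈ rootF f (e^s q)` (`rootF_lift`), entire by `rootF_diff` (`Ω = univ`, `γ s = e^s q ∈ Conf k`); for `i ≠ j` never equal (`rootF_uniq`).  So for every `s` the values `X_i s` are the `n` points of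
`rootF f (e^s q)`, and `∑ X_i s = 0` (`rootF_enum` at `e^s q`; `n` distinct roots).  For distinct `a, b, w` (here `n ≥ 3`) the entire function `(X_w - X_b)/(X_a - X_b)` omits `0` and `1`, so it is constant (`little_picard`).  Fix `a ≠ b`
and put `y = (X_a - X_b)/(x_a - x_b)`: continuous, nonvanishing, `y 0 = 1`, and `X_w - X_b = y (x_w - x_b)` for all `w` (also `w = a, b`).  Summing over `w`: `-n X_b = y (0 - n x_b)`, so `X_b = y x_b` and `X_w = y x_w`.
A continuous `X` with `X s ∈ rootF f (e^s q)` is one of the `X_i` (`rootF_uniq` at `s = 0`).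
-/

namespace Pool.Agent.Helper2.LN

theorem rigid {k n : ℕ} (hk : 2 ≤ k) (hn : 3 ≤ n) (f : C(G0 k, G0 n)) (hf : Holo f) (q : Fin k → ℂ)
    (hq : q ∈ Conf k) :
    ∃ y : ℂ → ℂ, Continuous y ∧ (∀ s, y s ≠ 0) ∧ y 0 = 1 ∧
      ∀ X : ℂ → ℂ, Continuous X → (∀ s, X s ∈ rootF f (fun i => Complex.exp s * q i)) →
        ∀ s, X s = y s * X 0 := by
  have hn2 : 2 ≤ n := by omega
  let γ : ℂ → (Fin k → ℂ) := fun s i => Complex.exp s * q i
  have hγd : Differentiable ℂ γ := by
    rw [differentiable_pi]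
    intro i
    exact Complex.differentiable_exp.mul_const _
  have hγC : ∀ s, γ s ∈ Conf k := by
    intro s i j hij
    exact hq (mul_left_cancel₀ (Complex.exp_ne_zero s) hij)
  have hγ0 : γ 0 = q := by
    funext i
    show Complex.exp 0 * q i = q i
    rw [Complex.exp_zero, one_mul]
  let γc : C(ℂ, Fin k → ℂ) := ⟨γ, hγd.continuous⟩
  obtain ⟨x, hxi, hxm, hxs, hx0⟩ := rootF_enum hk hn2 f q hq
  have hlift : ∀ i, ∃ s : C(ℂ, ℂ), s 0 = x i ∧ ∀ a, s a ∈ rootF f (γ a) := by
    intro i
    exact rootF_lift hk hn2 f ℂ γc hγC 0 (x i) (by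
      show x i ∈ rootF f (γ 0)
      rw [hγ0]; exact hxm i)
  choose X hX0 hXr using hlift
  have huniq : ∀ s s' : C(ℂ, ℂ), (∀ a, s a ∈ rootF f (γ a)) → (∀ a, s' a ∈ rootF f (γ a)) →
      (∃ a, s a = s' a) → s = s' := by
    intro s s' h1 h2 h3
    exact rootF_uniq hk hn2 f ℂ γc hγC s s' h1 h2 h3
  have hXinj : ∀ i j s, X i s = X j s → i = j := by
    intro i j s h
    have h1 := huniq (X i) (X j) (hXr i) (hXr j) ⟨s, h⟩
    apply hxi
    rw [← hX0 i, ← hX0 j, h1]
  have hXd : ∀ i, Differentiable ℂ (X i) := by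
    intro i
    have h1 := rootF_diff hk hn2 f hf Set.univ isOpen_univ γ hγd.differentiableOn (fun t _ => hγC t)
      (X i) (X i).continuous.continuousOn (fun t _ => hXr i t)
    exact differentiableOn_univ.1 h1
  have hsum : ∀ s, ∑ i, X i s = 0 := by
    intro s
    obtain ⟨x', hx'i, _, hx's, hx'0⟩ := rootF_enum hk hn2 f (γ s) (hγC s)
    have h1 : ∀ i, ∃ j, x' j = X i s := fun i => hx's _ (hXr i s)
    choose e he using h1
    have hei : Function.Injective e := by
      intro i j hij
      apply hXinj i j s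
      rw [← he i, ← he j, hij]
    have heb : Function.Bijective e := Finite.injective_iff_bijective.1 hei
    rw [← hx'0, ← heb.sum_comp x']
    exact Finset.sum_congr rfl fun i _ => (he i).symm
  let a : Fin n := ⟨0, by omega⟩
  let b : Fin n := ⟨1, by omega⟩
  have hab : a ≠ b := by
    intro h
    have := congrArg Fin.val h
    simp [a, b] at this
  have hxab : x a - x b ≠ 0 := sub_ne_zero.2 (hxi.ne hab)
  have hXab : ∀ s, X a s - X b s ≠ 0 := fun s => sub_ne_zero.2 fun h => hab (hXinj a b s h)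
  have hlin : ∀ w s, X w s - X b s = (X a s - X b s) / (x a - x b) * (x w - x b) := by
    intro w s
    by_cases hwb : w = b
    · rw [hwb]; ring
    by_cases hwa : w = a
    · rw [hwa]; field_simp
    have hφ := little_picard (fun s => (X w s - X b s) / (X a s - X b s))
      (((hXd w).sub (hXd b)).div ((hXd a).sub (hXd b)) hXab)
      (fun z => div_ne_zero (sub_ne_zero.2 fun h => hwb (hXinj w b z h)) (hXab z))
      (fun z h => by
        rw [div_eq_one_iff_eq (hXab z)] at h
        exact hwa (hXinj w a z (sub_left_injective h)))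
    have h1 := hφ s 0
    rw [hX0, hX0, hX0] at h1
    have h2 := hXab s
    rw [div_eq_div_iff h2 hxab] at h1
    rw [div_mul_eq_mul_div, eq_div_iff hxab, h1]
    ring
  have hn0 : (n : ℂ) ≠ 0 := by
    have : n ≠ 0 := by omega
    exact_mod_cast this
  have hXb : ∀ s, X b s = (X a s - X b s) / (x a - x b) * x b := by
    intro s
    have h1 : ∑ w, (X w s - X b s) = ∑ w, (X a s - X b s) / (x a - x b) * (x w - x b) :=
      Finset.sum_congr rfl fun w _ => hlin w s
    rw [← Finset.mul_sum, Finset.sum_sub_distrib, Finset.sum_sub_distrib, hsum, hx0, Finset.sum_const,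
      Finset.sum_const, Finset.card_univ, Fintype.card_fin, nsmul_eq_mul, nsmul_eq_mul] at h1
    have h2 : (n : ℂ) * X b s = (n : ℂ) * ((X a s - X b s) / (x a - x b) * x b) := by
      linear_combination -h1
    exact mul_left_cancel₀ hn0 h2
  have hXw : ∀ w s, X w s = (X a s - X b s) / (x a - x b) * x w := by
    intro w s
    have h1 := hlin w s
    have h2 := hXb s
    linear_combination h1 + h2
  refine ⟨fun s => (X a s - X b s) / (x a - x b), ?_, ?_, ?_, ?_⟩
  · exact ((X a).continuous.sub (X b).continuous).div_const _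
  · exact fun s => div_ne_zero (hXab s) hxab
  · show (X a 0 - X b 0) / (x a - x b) = 1
    rw [hX0, hX0, div_self hxab]
  · intro Z hZ hZr s
    have h0 : Z 0 ∈ rootF f q := by
      have := hZr 0
      have e : (fun i => Complex.exp 0 * q i) = q := hγ0
      rwa [e] at this
    obtain ⟨i, hi⟩ := hxs _ h0
    have h1 := huniq ⟨Z, hZ⟩ (X i) hZr (hXr i) ⟨0, by
      show Z 0 = X i 0
      rw [hX0, hi]⟩
    have h2 : Z s = X i s := congrArg (fun g : C(ℂ, ℂ) => g s) h1
    rw [h2, hXw i s, ← hi]

end Pool.Agent.Helper2.LN
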