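import Pool.Agent.Helper2.LN.PolyB

/-!
# LN-B1 (MP_730da0_ag): unique lifting of roots over `G0 n`, and holomorphy of roots

Paper proofs.  `E = {(w, x) : (pol n w)(x) = 0}`, `p : E → (Fin (n-1) → ℂ)` the projection.  `p` is closed (proper): the roots are bounded by `1 + ∑ |w_j|` (Cauchy bound), so over a compact set of `w` the set
`E` is compact (or `isProperMap_iff_isCompact_preimage`); fibres are finite; over `G0 n` it is a local homeomorphism: at a simple root `x₀` of `pol n w₀`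
the implicit function theorem (strict derivative of `(w, x) ↦ (pol n w)(x)` with invertible `x`-derivative, `HasStrictFDerivAt.implicitFunction...` or
`OpenPartialHomeomorph` of `(w, x) ↦ (w, (pol n w)(x))` restricted to `E`) gives a local inverse.  So `IsCoveringMapOn p (G0 n)`
(`IsClosedMap.isCoveringMapOn_of_isLocalHomeomorphOn`) and `IsCoveringMapOn.existsUnique_continuousMap_lifts` gives `root_lift`.
`root_uniq`: the set where `s = s'` is closed and it is open: near a point with `s a = s' a = x₀` (simple root) the factorisation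
`P_w(x) - P_w(x') = (x - x') Q(w, x, x')` with `Q(w₀, x₀, x₀) = P'(x₀) ≠ 0`, `Q` continuous, shows `s = s'` nearby.  (Or use the covering map property.)
`root_diff`: with the same `Q`: `0 = P_(w t)(s t) - P_(w t₀)(s t₀) = (s t - s t₀) Q(w t, s t, s t₀) + (P_(w t)(s t₀) - P_(w t₀)(s t₀))`, and the last difference has a derivative in `t`; divide.
For `root_lift` with `n ≥ 1` only; `n ≥ 2` is assumed for convenience.
-/

namespace Pool.Agent.Helper2.LN

open Polynomial

private theorem eval_pol (n : ℕ) (w : Fin (n - 1) → ℂ) (x : ℂ) :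
    (pol n w).eval x = x ^ n + ∑ j : Fin (n - 1), w j * x ^ (n - 2 - (j : ℕ)) := by
  unfold pol
  rw [Polynomial.eval_add, Polynomial.eval_finsetSum]
  simp only [Polynomial.eval_mul, Polynomial.eval_pow, Polynomial.eval_X, Polynomial.eval_C]

private theorem eval_prod_roots {n : ℕ} (hn : 2 ≤ n) (q : Fin n → ℂ) (hq : ∑ i, q i = 0) (x : ℂ) :
    (pol n (cf q)).eval x = ∏ i, (x - q i) := by
  rw [pol_cf hn]
  unfold cpoly
  have h : mean q = 0 := by
    unfold mean
    rw [hq, zero_div]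
  rw [h, Polynomial.eval_prod]
  simp only [sub_zero, Polynomial.eval_sub, Polynomial.eval_X, Polynomial.eval_C]

private theorem near_root {n : ℕ} (hn : 2 ≤ n) (w₁ : Fin (n - 1) → ℂ) (x₁ : ℂ)
    (h : (pol n w₁).eval x₁ = 0) (ε : ℝ) (hε : 0 < ε) :
    ∀ᶠ w in nhds w₁, ∃ x, (pol n w).eval x = 0 ∧ ‖x - x₁‖ < ε := by
  have hc : Continuous fun w : Fin (n - 1) → ℂ => ‖(pol n w).eval x₁‖ := by
    simp only [eval_pol]
    fun_prop
  have h1 : ∀ᶠ w in nhds w₁, ‖(pol n w).eval x₁‖ < ε ^ n := by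
    refine hc.continuousAt.eventually_lt_const ?_
    show ‖(pol n w₁).eval x₁‖ < ε ^ n
    rw [h, norm_zero]
    exact pow_pos hε n
  filter_upwards [h1] with w hw
  obtain ⟨q, hq, hcf⟩ := exists_roots n hn w
  by_contra hcon
  push Not at hcon
  have h2 : ∀ i, ε ≤ ‖x₁ - q i‖ := by
    intro i
    rw [norm_sub_rev]
    refine hcon (q i) ?_
    rw [← hcf]
    exact (eval_cf hn q hq (q i)).2 ⟨i, rfl⟩
  rw [← hcf, eval_prod_roots hn q hq, norm_prod] at hw
  have h3 : ε ^ n ≤ ∏ i, ‖x₁ - q i‖ := by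
    have h4 := Finset.prod_le_prod (s := (Finset.univ : Finset (Fin n))) (f := fun _ => ε)
      (g := fun i => ‖x₁ - q i‖) (fun i _ => hε.le) (fun i _ => h2 i)
    simpa using h4
  exact absurd hw (not_lt.2 h3)

private theorem local_sec {n : ℕ} (hn : 2 ≤ n) (w₀ : Fin (n - 1) → ℂ) (hw : w₀ ∈ G0 n) :
    ∃ (V : Set (Fin (n - 1) → ℂ)) (q : Fin n → ℂ) (ρ : ℝ) (r : (Fin (n - 1) → ℂ) → Fin n → ℂ),
      IsOpen V ∧ w₀ ∈ V ∧ (∀ i j, i ≠ j → 2 * ρ ≤ ‖q i - q j‖) ∧ ContinuousOn r V ∧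
      (∀ w ∈ V, ∀ i, (pol n w).eval (r w i) = 0 ∧ ‖r w i - q i‖ < ρ) ∧
      (∀ w ∈ V, ∀ x, (pol n w).eval x = 0 → ∃ i, x = r w i) := by
  classical
  obtain ⟨q, hinj, hsum, hcf, hroot⟩ := exists_enum n hn w₀ hw
  have hρ : ∃ ρ : ℝ, 0 < ρ ∧ ∀ i j, i ≠ j → 2 * ρ ≤ ‖q i - q j‖ := by
    have h1 : ∀ᶠ ρ in nhdsWithin (0 : ℝ) (Set.Ioi 0), ∀ i j : Fin n, i ≠ j → 2 * ρ ≤ ‖q i - q j‖ := by
      refine Filter.eventually_all.2 fun i => Filter.eventually_all.2 fun j => ?_
      by_cases hij : i = j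
      · exact Filter.Eventually.of_forall fun ρ h => absurd hij h
      · have hpos : 0 < ‖q i - q j‖ := norm_pos_iff.2 (sub_ne_zero.2 (hinj.ne hij))
        have hc : ContinuousAt (fun ρ : ℝ => 2 * ρ) 0 := by fun_prop
        have h2 : ∀ᶠ ρ in nhds (0 : ℝ), 2 * ρ < ‖q i - q j‖ :=
          hc.eventually_lt_const (by simpa using hpos)
        exact (h2.filter_mono nhdsWithin_le_nhds).mono fun ρ h _ => h.le
    obtain ⟨ρ, h2, h3⟩ := (h1.and self_mem_nhdsWithin).exists
    exact ⟨ρ, h3, h2⟩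
  obtain ⟨ρ, hρ0, hρ⟩ := hρ
  let S : Set (Fin (n - 1) → ℂ) := {w | ∀ i, ∃ x, (pol n w).eval x = 0 ∧ ‖x - q i‖ < ρ}
  let r : (Fin (n - 1) → ℂ) → Fin n → ℂ := fun w i =>
    if h : ∃ x, (pol n w).eval x = 0 ∧ ‖x - q i‖ < ρ then h.choose else 0
  have hr : ∀ w ∈ S, ∀ i, (pol n w).eval (r w i) = 0 ∧ ‖r w i - q i‖ < ρ := by
    intro w hwS i
    have h1 : r w i = (hwS i).choose := dif_pos (hwS i)
    rw [h1]
    exact (hwS i).choose_spec
  have hsep : ∀ i j x y, ‖x - q i‖ < ρ → ‖y - q j‖ < ρ → x = y → i = j := by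
    intro i j x y hx hy hxy
    by_contra hij
    have h1 := hρ i j hij
    subst hxy
    have h2 : ‖q i - q j‖ ≤ ‖x - q i‖ + ‖x - q j‖ := by
      have : q i - q j = (x - q j) - (x - q i) := by ring
      rw [this]
      refine (norm_sub_le _ _).trans ?_
      rw [add_comm]
    linarith
  have hall : ∀ w ∈ S, ∀ x, (pol n w).eval x = 0 → ∃ i, x = r w i := by
    intro w hwS x hx
    have hinj' : Function.Injective (r w) := fun i j hij =>
      hsep i j _ _ (hr w hwS i).2 (hr w hwS j).2 hij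
    obtain ⟨-, h2, -⟩ := of_enum n hn w (Fintype.card_fin n) (r w) hinj' fun i => (hr w hwS i).1
    rw [h2, Polynomial.eval_prod, Finset.prod_eq_zero_iff] at hx
    obtain ⟨i, -, hi⟩ := hx
    rw [Polynomial.eval_sub, Polynomial.eval_X, Polynomial.eval_C] at hi
    exact ⟨i, sub_eq_zero.1 hi⟩
  have hw₀ : w₀ ∈ interior S := by
    rw [mem_interior_iff_mem_nhds]
    have h1 : ∀ᶠ w in nhds w₀, ∀ i, ∃ x, (pol n w).eval x = 0 ∧ ‖x - q i‖ < ρ :=
      Filter.eventually_all.2 fun i => near_root hn w₀ (q i) ((hroot (q i)).2 ⟨i, rfl⟩) ρ hρ0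
    exact h1
  refine ⟨interior S, q, ρ, r, isOpen_interior, hw₀, hρ, ?_, fun w h => hr w (interior_subset h),
    fun w h => hall w (interior_subset h)⟩
  refine continuousOn_pi.2 fun i => ?_
  intro w₁ hw₁
  refine ContinuousAt.continuousWithinAt ?_
  have hS₁ := interior_subset hw₁
  rw [Metric.continuousAt_iff']
  intro ε hε
  have hd : 0 < ρ - ‖r w₁ i - q i‖ := sub_pos.2 (hr w₁ hS₁ i).2
  have h1 := near_root hn w₁ (r w₁ i) (hr w₁ hS₁ i).1 (min ε (ρ - ‖r w₁ i - q i‖)) (lt_min hε hd)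
  have h2 : ∀ᶠ w in nhds w₁, w ∈ interior S := isOpen_interior.mem_nhds hw₁
  filter_upwards [h1, h2] with w hx hwS
  obtain ⟨x, hx0, hx1⟩ := hx
  have hS := interior_subset hwS
  obtain ⟨j, hj⟩ := hall w hS x hx0
  have h3 : ‖x - q i‖ < ρ := by
    have h4 : x - q i = (x - r w₁ i) + (r w₁ i - q i) := by ring
    have h5 := norm_add_le (x - r w₁ i) (r w₁ i - q i)
    rw [← h4] at h5
    have h6 := lt_of_lt_of_le hx1 (min_le_right _ _)
    linarith
  have h4 : i = j := hsep i j x (r w j) h3 (hr w hS j).2 hj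
  subst h4
  rw [dist_eq_norm, ← hj]
  exact lt_of_lt_of_le hx1 (min_le_left _ _)

private def EE (n : ℕ) : Type := {p : (Fin (n - 1) → ℂ) × ℂ // (pol n p.1).eval p.2 = 0}

private instance (n : ℕ) : TopologicalSpace (EE n) :=
  inferInstanceAs (TopologicalSpace {p : (Fin (n - 1) → ℂ) × ℂ // (pol n p.1).eval p.2 = 0})

private def pr (n : ℕ) : EE n → (Fin (n - 1) → ℂ) := fun e => e.1.1

private theorem continuous_pr (n : ℕ) : Continuous (pr n) :=
  continuous_fst.comp continuous_subtype_val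

private theorem cover {n : ℕ} (hn : 2 ≤ n) : IsCoveringMapOn (pr n) (G0 n) := by
  classical
  intro w₀ hw₀
  obtain ⟨V, q, ρ, r, hVo, hwV, hρ, hc, hr, hall⟩ := local_sec hn w₀ hw₀
  have hsep : ∀ i j x, ‖x - q i‖ < ρ → ‖x - q j‖ < ρ → i = j := by
    intro i j x hx hy
    by_contra hij
    have h1 := hρ i j hij
    have h2 : ‖q i - q j‖ ≤ ‖x - q i‖ + ‖x - q j‖ := by
      have : q i - q j = (x - q j) - (x - q i) := by ring
      rw [this]
      refine (norm_sub_le _ _).trans ?_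
      rw [add_comm]
    linarith
  have hex : ∀ e : pr n ⁻¹' V, ∃ i, e.1.1.2 = r e.1.1.1 i := fun e =>
    hall e.1.1.1 e.2 e.1.1.2 e.1.2
  choose idx hidx using hex
  refine IsEvenlyCovered.to_isEvenlyCovered_preimage (I := Fin n) ?_
  refine ⟨inferInstance, V, hwV, hVo, hVo.preimage (continuous_pr n), ?_⟩
  refine ⟨{ toFun := fun e => (⟨e.1.1.1, e.2⟩, idx e)
            invFun := fun p => ⟨⟨(p.1.1, r p.1.1 p.2), (hr p.1.1 p.1.2 p.2).1⟩, p.1.2⟩
            left_inv := ?_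
            right_inv := ?_
            continuous_toFun := ?_
            continuous_invFun := ?_ }, fun e => rfl⟩
  · intro e
    apply Subtype.ext
    apply Subtype.ext
    exact Prod.ext rfl (hidx e).symm
  · intro p
    refine Prod.ext rfl ?_
    have h1 := hidx ⟨⟨(p.1.1, r p.1.1 p.2), (hr p.1.1 p.1.2 p.2).1⟩, p.1.2⟩
    have h2 := (hr p.1.1 p.1.2 p.2).2
    have h3 := (hr p.1.1 p.1.2 (idx ⟨⟨(p.1.1, r p.1.1 p.2), (hr p.1.1 p.1.2 p.2).1⟩, p.1.2⟩)).2
    simp only at h1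
    rw [← h1] at h3
    exact hsep _ _ _ h3 h2
  · have c0 : Continuous fun e : pr n ⁻¹' V => e.1.1 :=
      continuous_subtype_val.comp continuous_subtype_val
    refine Continuous.prodMk (Continuous.subtype_mk (continuous_fst.comp c0) _) ?_
    rw [continuous_discrete_rng]
    intro i
    have h1 : idx ⁻¹' {i} = {e : pr n ⁻¹' V | ‖e.1.1.2 - q i‖ < ρ} := by
      ext e
      constructor
      · intro h
        have h2 : idx e = i := h
        have h3 := (hr e.1.1.1 e.2 i).2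
        have h4 := hidx e
        rw [h2] at h4
        rw [← h4] at h3
        exact h3
      · intro h
        have h3 := (hr e.1.1.1 e.2 (idx e)).2
        rw [← hidx e] at h3
        exact hsep _ _ _ h3 h
    rw [h1]
    exact isOpen_lt (((continuous_snd.comp c0).sub continuous_const).norm) continuous_const
  · refine Continuous.subtype_mk (Continuous.subtype_mk (Continuous.prodMk
      (continuous_subtype_val.comp continuous_fst) ?_) _) _
    have h1 : Continuous fun w : V => r w.1 := continuousOn_iff_continuous_domRestrict.1 hc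
    rw [continuous_prod_of_discrete_right]
    intro i
    exact (continuous_apply i).comp h1

theorem root_lift {n : ℕ} (hn : 2 ≤ n) (A : Type) [TopologicalSpace A] [SimplyConnectedSpace A]
    [LocallyPathConnectedSpace A] (g : C(A, Fin (n - 1) → ℂ)) (hg : ∀ a, g a ∈ G0 n) (a₀ : A) (x₀ : ℂ)
    (hx : (pol n (g a₀)).eval x₀ = 0) :
    ∃ s : C(A, ℂ), s a₀ = x₀ ∧ ∀ a, (pol n (g a)).eval (s a) = 0 := by
  obtain ⟨F, ⟨h1, h2⟩, -⟩ := (cover hn).existsUnique_continuousMap_lifts g (a₀ := a₀)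
    (e₀ := ⟨(g a₀, x₀), hx⟩) rfl hg
  refine ⟨⟨fun a => (F a).1.2, continuous_snd.comp (continuous_subtype_val.comp F.continuous)⟩,
    ?_, ?_⟩
  · show (F a₀).1.2 = x₀
    rw [h1]
  · intro a
    have h3 : (F a).1.1 = g a := congrFun h2 a
    have h4 := (F a).2
    rw [h3] at h4
    exact h4

theorem root_uniq {n : ℕ} (hn : 2 ≤ n) (A : Type) [TopologicalSpace A] [PreconnectedSpace A]
    (g : C(A, Fin (n - 1) → ℂ)) (hg : ∀ a, g a ∈ G0 n) (s s' : C(A, ℂ))
    (hs : ∀ a, (pol n (g a)).eval (s a) = 0) (hs' : ∀ a, (pol n (g a)).eval (s' a) = 0)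
    (h : ∃ a, s a = s' a) : s = s' := by
  obtain ⟨a₀, ha₀⟩ := h
  have hcov := (cover hn).isCoveringMap_restrictPreimage
  let F : ∀ t : C(A, ℂ), (∀ a, (pol n (g a)).eval (t a) = 0) → A → (pr n ⁻¹' (G0 n)) :=
    fun t ht a => ⟨⟨(g a, t a), ht a⟩, hg a⟩
  have hF : ∀ t ht, Continuous (F t ht) := fun t ht =>
    Continuous.subtype_mk (Continuous.subtype_mk (g.continuous.prodMk t.continuous) _) _
  have h1 := hcov.eq_of_comp_eq (hF s hs) (hF s' hs') rfl a₀ (by
    apply Subtype.ext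
    apply Subtype.ext
    exact Prod.ext rfl ha₀)
  ext a
  have h2 := congrFun h1 a
  have h3 : (F s hs a).1.1.2 = (F s' hs' a).1.1.2 := by rw [h2]
  exact h3

theorem root_diff {n : ℕ} (hn : 2 ≤ n) (Ω : Set ℂ) (hΩ : IsOpen Ω) (g : ℂ → (Fin (n - 1) → ℂ))
    (hgd : DifferentiableOn ℂ g Ω) (hg : ∀ t ∈ Ω, g t ∈ G0 n) (s : ℂ → ℂ) (hs : ContinuousOn s Ω)
    (hr : ∀ t ∈ Ω, (pol n (g t)).eval (s t) = 0) : DifferentiableOn ℂ s Ω := by
  classical
  intro t₀ ht₀
  refine DifferentiableAt.differentiableWithinAt ?_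
  obtain ⟨q, hinj, hsum, hcf, hroot⟩ := exists_enum n hn (g t₀) (hg t₀ ht₀)
  obtain ⟨i₀, hi₀⟩ := (hroot (s t₀)).1 (hr t₀ ht₀)
  let R : ℂ → ℂ := fun x => ∏ i ∈ Finset.univ.erase i₀, (x - q i)
  have hP : ∀ x, (pol n (g t₀)).eval x = (x - s t₀) * R x := by
    intro x
    rw [← hcf, eval_prod_roots hn q hsum, ← hi₀,
      ← Finset.mul_prod_erase Finset.univ (fun i => x - q i) (Finset.mem_univ i₀)]
  have hR0 : R (s t₀) ≠ 0 := by
    refine Finset.prod_ne_zero_iff.2 fun i hi => ?_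
    rw [← hi₀]
    exact sub_ne_zero.2 (hinj.ne (Finset.ne_of_mem_erase hi).symm)
  have hRc : Continuous R := by
    refine continuous_finset_prod _ fun i _ => ?_
    fun_prop
  have hg0 : ∀ j, DifferentiableAt ℂ (fun t => g t j) t₀ := by
    intro j
    have h1 : DifferentiableAt ℂ g t₀ := hgd.differentiableAt (hΩ.mem_nhds ht₀)
    exact differentiableAt_pi.1 h1 j
  have hsc : ContinuousAt s t₀ := hs.continuousAt (hΩ.mem_nhds ht₀)
  have hD : HasDerivAt s (-(∑ j : Fin (n - 1), deriv (fun t => g t j) t₀ * s t₀ ^ (n - 2 - (j : ℕ)))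
      / R (s t₀)) t₀ := by
    rw [hasDerivAt_iff_tendsto_slope]
    have hRn : ∀ᶠ t in nhds t₀, R (s t) ≠ 0 :=
      (hRc.continuousAt.comp hsc).eventually_ne hR0
    have hΩn : ∀ᶠ t in nhds t₀, t ∈ Ω := hΩ.mem_nhds ht₀
    have hlim : Filter.Tendsto (fun t => -(∑ j : Fin (n - 1), slope (fun t => g t j) t₀ t *
        s t ^ (n - 2 - (j : ℕ))) / R (s t)) (nhdsWithin t₀ {t₀}ᶜ)
        (nhds (-(∑ j : Fin (n - 1), deriv (fun t => g t j) t₀ * s t₀ ^ (n - 2 - (j : ℕ)))
      / R (s t₀))) := by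
      have hs1 : Filter.Tendsto s (nhdsWithin t₀ {t₀}ᶜ) (nhds (s t₀)) :=
        hsc.tendsto.mono_left nhdsWithin_le_nhds
      refine Filter.Tendsto.div (Filter.Tendsto.neg (tendsto_finset_sum _ fun j _ => ?_)) ?_ hR0
      · exact (hasDerivAt_iff_tendsto_slope.1 (hg0 j).hasDerivAt).mul (hs1.pow _)
      · exact (hRc.tendsto (s t₀)).comp hs1
    refine hlim.congr' ?_
    have hself : ∀ᶠ t in nhdsWithin t₀ {t₀}ᶜ, t ∈ ({t₀}ᶜ : Set ℂ) := self_mem_nhdsWithin
    filter_upwards [hRn.filter_mono nhdsWithin_le_nhds, hΩn.filter_mono nhdsWithin_le_nhds,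
      hself] with t h1 h2 h3
    have hne : t - t₀ ≠ 0 := sub_ne_zero.2 h3
    have h4 := hr t h2
    have h5 : (s t - s t₀) * R (s t) = -(∑ j : Fin (n - 1), (g t j - g t₀ j) *
        s t ^ (n - 2 - (j : ℕ))) := by
      rw [← hP (s t), eval_pol]
      rw [eval_pol] at h4
      simp only [sub_mul, Finset.sum_sub_distrib]
      linear_combination h4
    simp only [slope_def_field]
    rw [div_eq_div_iff h1 hne, h5, neg_mul, Finset.sum_mul]
    congr 1
    refine Finset.sum_congr rfl fun j _ => ?_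
    field_simp
  exact hD.differentiableAt

end Pool.Agent.Helper2.LN
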