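import Pool.Agent.Helper2.LN.Systems

/-!
# LN-H1 (MP_730da0_ag): root functions are holomorphic along holomorphic curves

Paper proof.  Let `F` be the differentiable extension of `f` (`Holo`), `g t = F (cf (γ t))`: differentiable on `Ω` (`differentiable_cf`, chain rule; `cf (γ t) ∈ G0 k` by `cf_mem_G0`), `g t ∈ G0 n`, and
`X t ∈ rootF f (γ t)` says that `X t` is a root of `pol n (g t)`.  Apply `root_diff`.
-/

namespace Pool.Agent.Helper2.LN

theorem rootF_diff {k n : ℕ} (hk : 2 ≤ k) (hn : 2 ≤ n) (f : C(G0 k, G0 n)) (hf : Holo f) (Ω : Set ℂ)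
    (hΩ : IsOpen Ω) (γ : ℂ → (Fin k → ℂ)) (hγ : DifferentiableOn ℂ γ Ω) (hC : ∀ t ∈ Ω, γ t ∈ Conf k)
    (X : ℂ → ℂ) (hX : ContinuousOn X Ω) (hr : ∀ t ∈ Ω, X t ∈ rootF f (γ t)) : DifferentiableOn ℂ X Ω := by
  obtain ⟨F, hF, hFf⟩ := hf
  have hmem : ∀ t ∈ Ω, cf (γ t) ∈ G0 k := fun t ht => (cf_mem_G0 hk (γ t)).2 (hC t ht)
  have hg : DifferentiableOn ℂ (fun t => F (cf (γ t))) Ω :=
    hF.comp ((differentiable_cf k).comp_differentiableOn hγ) hmem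
  refine root_diff hn Ω hΩ (fun t => F (cf (γ t))) hg (fun t ht => ?_) X hX (fun t ht => ?_)
  · have h := hFf ⟨cf (γ t), hmem t ht⟩
    have h2 := (f ⟨cf (γ t), hmem t ht⟩).2
    rw [h] at h2
    exact h2
  · obtain ⟨h, h1⟩ := hr t ht
    rw [hFf ⟨cf (γ t), h⟩] at h1
    exact h1

end Pool.Agent.Helper2.LN
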