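import Pool.Agent.Helper2.LN.Rigid
import Pool.Agent.Helper2.LN.LinkA
import Pool.Agent.Helper2.LN.LinkB

/-!
# LN-R5 (MP_730da0_ag): ROT(A) and ROT(B)

Paper proof.  `rot_of_link`: let `y` be from `rigid` for `q`.  For `w ∈ F (base k)` let `X` be the lift over `ℂ` of `s ↦ e^s q` with `X 0 = Φ w 0` (`rootF_lift`).  `t ↦ X (ω t)` and `Φ w` are lifts over `ℝ` of `t ↦ e^(ωt) q` with the same value at
`0`, so they are equal (`rootF_uniq`): `Φ w t = y (ω t) Φ w 0`.  `c w = Φ w 0` is injective and `c (g w) = Φ (g w) 0 = Φ w 1 = y ω · c w`.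
`rotA k t = e^(2πit/k) rotA k 0`, `rotB k t = e^(2πit/(k-1)) rotB k 0`; both are in `Conf k` (distinct roots of unity times `i e^(iπ/k)`, and `0`).
-/

namespace Pool.Agent.Helper2.LN

theorem rot_of_link {k n : ℕ} (hk : 2 ≤ k) (hn : 3 ≤ n) (f : C(G0 k, G0 n)) (hf : Holo f) (q : Fin k → ℂ)
    (hq : q ∈ Conf k) (ω : ℂ) {ι : Type} (g : Equiv.Perm ι) (Φ : ι → ℝ → ℂ) (hc : ∀ w, Continuous (Φ w))
    (hF : ∀ w (t : ℝ), Φ w t ∈ rootF f (fun i => Complex.exp (ω * t) * q i))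
    (hi : ∀ w w', Φ w 0 = Φ w' 0 → w = w') (hg : ∀ w t, Φ w (t + 1) = Φ (g w) t) :
    ∃ c : ι → ℂ, Function.Injective c ∧ ∃ ζ : ℂ, ∀ w, c (g w) = ζ * c w := by
  obtain ⟨y, hy, hy0, hy1, hyX⟩ := rigid hk hn f hf q hq
  have hconf : ∀ s : ℂ, (fun i => Complex.exp s * q i) ∈ Conf k := by
    intro s i j hij
    exact hq (mul_left_cancel₀ (Complex.exp_ne_zero s) hij)
  have key : ∀ w (t : ℝ), Φ w t = y (ω * t) * Φ w 0 := by
    intro w t
    have h0 : Φ w 0 ∈ rootF f (fun i => Complex.exp 0 * q i) := by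
      have h1 := hF w 0
      rwa [Complex.ofReal_zero, mul_zero] at h1
    obtain ⟨X, hX0, hX⟩ := rootF_lift hk (by omega) f ℂ
      ⟨fun s i => Complex.exp s * q i, by fun_prop⟩ (fun s => hconf s) 0 (Φ w 0) h0
    have h2 := hyX X X.continuous hX
    have hcts : Continuous fun t : ℝ => ω * (t : ℂ) := by fun_prop
    have h3 := rootF_uniq hk (by omega) f ℝ
      ⟨fun t i => Complex.exp (ω * t) * q i, by fun_prop⟩ (fun t => hconf _)
      ⟨Φ w, hc w⟩ ⟨fun t => X (ω * t), X.continuous.comp hcts⟩ (hF w) (fun t => hX _)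
      ⟨0, by
        change Φ w 0 = X (ω * ((0 : ℝ) : ℂ))
        rw [Complex.ofReal_zero, mul_zero, hX0]⟩
    have h4 : Φ w t = X (ω * t) := congrArg (fun F : C(ℝ, ℂ) => F t) h3
    rw [h4, h2, hX0]
  refine ⟨fun w => Φ w 0, fun w w' h => hi w w' h, y ω, fun w => ?_⟩
  have h1 := hg w 0
  rw [zero_add] at h1
  change Φ (g w) 0 = y ω * Φ w 0
  rw [← h1, key w 1, Complex.ofReal_one, mul_one]

theorem rotA_mem (k : ℕ) (t : ℝ) : rotA k t ∈ Conf k := by
  intro i j hij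
  have hk : 0 < k := lt_of_le_of_lt (Nat.zero_le _) i.2
  have hkR : (k : ℝ) ≠ 0 := by
    have : (0 : ℝ) < k := by exact_mod_cast hk
    exact ne_of_gt this
  have h1 := mul_left_cancel₀ Complex.I_ne_zero hij
  obtain ⟨n, hn⟩ := Complex.exp_eq_exp_iff_exists_int.1 h1
  have h2 : Real.pi * (2 * ((i : ℕ) + t) + 1) / k =
      Real.pi * (2 * ((j : ℕ) + t) + 1) / k + n * (2 * Real.pi) := by
    have h3 : (((Real.pi * (2 * ((i : ℕ) + t) + 1) / k : ℝ) : ℂ)) * Complex.I =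
        (((Real.pi * (2 * ((j : ℕ) + t) + 1) / k + n * (2 * Real.pi) : ℝ) : ℂ)) * Complex.I := by
      rw [hn]
      push_cast
      ring
    exact_mod_cast mul_right_cancel₀ Complex.I_ne_zero h3
  have h4 : ((i : ℕ) : ℝ) = (j : ℕ) + n * k := by
    have hpi := Real.pi_ne_zero
    field_simp at h2
    linear_combination h2 / 2
  have h5 : ((i : ℕ) : ℤ) = (j : ℕ) + n * k := by exact_mod_cast h4
  have h6 : n = 0 := by
    have hi := i.2
    have hj := j.2
    by_contra hne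
    rcases lt_or_gt_of_ne hne with h | h
    · have : n * (k : ℤ) ≤ -k := by nlinarith
      omega
    · have : (k : ℤ) ≤ n * (k : ℤ) := by nlinarith
      omega
  rw [h6, zero_mul, add_zero] at h5
  exact Fin.ext (by exact_mod_cast h5)

theorem rotB_mem (k : ℕ) (hk : 2 ≤ k) (t : ℝ) : rotB k t ∈ Conf k := by
  have hkR : (k : ℝ) - 1 ≠ 0 := by
    have : (2 : ℝ) ≤ k := by exact_mod_cast hk
    linarith
  have hne0 : ∀ z : ℂ, Complex.I * Complex.exp z ≠ 0 := fun z =>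
    mul_ne_zero Complex.I_ne_zero (Complex.exp_ne_zero z)
  intro i j hij
  unfold rotB at hij
  by_cases hi0 : (i : ℕ) = 0
  · by_cases hj0 : (j : ℕ) = 0
    · exact Fin.ext (by omega)
    · rw [if_pos hi0, if_neg hj0] at hij
      exact absurd hij.symm (hne0 _)
  · by_cases hj0 : (j : ℕ) = 0
    · rw [if_neg hi0, if_pos hj0] at hij
      exact absurd hij (hne0 _)
    · rw [if_neg hi0, if_neg hj0] at hij
      have h1 := mul_left_cancel₀ Complex.I_ne_zero hij
      obtain ⟨n, hn⟩ := Complex.exp_eq_exp_iff_exists_int.1 h1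
      have h2 : Real.pi * (2 * ((i : ℕ) - 1 + t) + 1) / ((k : ℝ) - 1) =
          Real.pi * (2 * ((j : ℕ) - 1 + t) + 1) / ((k : ℝ) - 1) + n * (2 * Real.pi) := by
        have h3 : (((Real.pi * (2 * ((i : ℕ) - 1 + t) + 1) / ((k : ℝ) - 1) : ℝ) : ℂ)) * Complex.I =
            (((Real.pi * (2 * ((j : ℕ) - 1 + t) + 1) / ((k : ℝ) - 1) + n * (2 * Real.pi) : ℝ) : ℂ)) *
              Complex.I := by
          rw [hn]
          push_cast
          ring
        exact_mod_cast mul_right_cancel₀ Complex.I_ne_zero h3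
      have h4 : ((i : ℕ) : ℝ) = (j : ℕ) + n * ((k : ℝ) - 1) := by
        have hpi := Real.pi_ne_zero
        field_simp at h2
        linear_combination h2 / 2
      have h5 : ((i : ℕ) : ℤ) = (j : ℕ) + n * ((k : ℤ) - 1) := by exact_mod_cast h4
      have h6 : n = 0 := by
        have hi := i.2
        have hj := j.2
        have hk' : (1 : ℤ) ≤ (k : ℤ) - 1 := by omega
        by_contra hne
        rcases lt_or_gt_of_ne hne with h | h
        · have : n * ((k : ℤ) - 1) ≤ -((k : ℤ) - 1) := by nlinarith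
          omega
        · have : ((k : ℤ) - 1) ≤ n * ((k : ℤ) - 1) := by nlinarith
          omega
      rw [h6, zero_mul, add_zero] at h5
      exact Fin.ext (by exact_mod_cast h5)

theorem rotA_eq (k : ℕ) (t : ℝ) :
    rotA k t = fun i => Complex.exp (2 * Real.pi * Complex.I / k * t) * rotA k 0 i := by
  funext i
  unfold rotA
  rw [mul_left_comm, ← Complex.exp_add]
  congr 2
  push_cast
  ring

theorem rotB_eq (k : ℕ) (t : ℝ) :
    rotB k t = fun i => Complex.exp (2 * Real.pi * Complex.I / (k - 1) * t) * rotB k 0 i := by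
  funext i
  unfold rotB
  by_cases hi : (i : ℕ) = 0
  · rw [if_pos hi, if_pos hi, mul_zero]
  · rw [if_neg hi, if_neg hi, mul_left_comm, ← Complex.exp_add]
    congr 2
    push_cast
    ring

theorem rot_A {k n : ℕ} (hk : 4 ≤ k) (hn : 3 ≤ n) (f : C(G0 k, G0 n)) (hf : Holo f)
    (S : Sys k ℂ) (hS : S.F = rootF f) :
    ∃ c : S.F (base k) → ℂ, Function.Injective c ∧ ∃ ζ : ℂ, ∀ w, c (S.A w) = ζ * c w := by
  obtain ⟨Φ, hc, hF, _, hi, hg⟩ := S.linkA (by omega)
  refine rot_of_link (by omega) hn f hf (rotA k 0) (rotA_mem k 0)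
    (2 * Real.pi * Complex.I / k) S.A Φ hc (fun w t => ?_) hi hg
  rw [← rotA_eq, ← hS]
  exact hF w t

theorem rot_B {k n : ℕ} (hk : 4 ≤ k) (hn : 3 ≤ n) (f : C(G0 k, G0 n)) (hf : Holo f)
    (S : Sys k ℂ) (hS : S.F = rootF f) :
    ∃ c : S.F (base k) → ℂ, Function.Injective c ∧ ∃ ζ : ℂ, ∀ w, c (S.B w) = ζ * c w := by
  obtain ⟨Φ, hc, hF, _, hi, hg⟩ := S.linkB hk
  refine rot_of_link (by omega) hn f hf (rotB k 0) (rotB_mem k (by omega) 0)
    (2 * Real.pi * Complex.I / (k - 1)) S.B Φ hc (fun w t => ?_) hi hg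
  rw [← rotB_eq, ← hS]
  exact hF w t

end Pool.Agent.Helper2.LN
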