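import Pool.Agent.Helper2.LN.RotAB
import Pool.Agent.Helper2.LN.BraidRel
import Pool.Agent.Helper2.LN.GrpMain

/-!
# LN-G5 (MP_730da0_ag): for the root system all `s_i` are equal

Paper proof.  `group_main` for `F = S.F (base k)`, `s = S.s`: `s_comm`, `s_braid`, `rot_A`, `rot_B` (`S.A`, `S.B` unfold to the list products), `rootF_card` (`Nat.card = n`, finite).
-/

namespace Pool.Agent.Helper2.LN

theorem s_equal {k n : ℕ} (hk : 4 < k) (hpp : ¬ IsPrimePow k) (hn : 3 ≤ n) (h1 : n ≡ 1 [MOD k])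
    (h2 : (k - 1) ∣ n) (f : C(G0 k, G0 n)) (hf : Holo f) (S : Sys k ℂ) (hS : S.F = rootF f) :
    ∀ i, i + 1 < k → S.s i = S.s 0 := by
  have hbase : base k ∈ Conf k := Gen_subset_Conf k (Ord_subset_Gen k (base_mem_Ord k))
  obtain ⟨hcard, hfin⟩ := rootF_card (by omega) (by omega : 2 ≤ n) f (base k) hbase
  rw [← hS] at hcard hfin
  have : Finite (S.F (base k)) := hfin
  refine group_main (F := S.F (base k)) k hk hpp S.s (fun i j hij hj => S.s_comm i j hij hj)
    (fun i hi => S.s_braid i hi) (by rw [hcard]; exact h1) (by rw [hcard]; exact h2)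
    (by rw [hcard]; omega) ?_ ?_
  · exact rot_A (by omega) hn f hf S hS
  · exact rot_B (by omega) hn f hf S hS

end Pool.Agent.Helper2.LN
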