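import Pool.Agent.Helper2.LN.Defs

/-!
# LN project (MP_730da0_ag): systems of fibres over configurations

DEFINITIONS ONLY (do not change).

`Conf k` = injective `q : Fin k → ℂ`.  A `Sys k W` is a covering of `Conf k / S_k` seen through values in `W`.
-/

namespace Pool.Agent.Helper2.LN

/-- Configurations of `k` distinct labelled points. -/
def Conf (k : ℕ) : Set (Fin k → ℂ) := {q | Function.Injective q}

/-- A system of fibres `F q ⊆ W` (`q` a configuration), invariant under relabelling, with unique lifting. -/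
structure Sys (k : ℕ) (W : Type) [TopologicalSpace W] where
  /-- the fibre -/
  F : (Fin k → ℂ) → Set W
  perm : ∀ (q : Fin k → ℂ) (π : Equiv.Perm (Fin k)), F (q ∘ π) = F q
  lift : ∀ (A : Type) [TopologicalSpace A] [SimplyConnectedSpace A] [LocallyPathConnectedSpace A]
    (γ : C(A, Fin k → ℂ)), (∀ a, γ a ∈ Conf k) → ∀ (a₀ : A) (w₀ : W), w₀ ∈ F (γ a₀) →
    ∃ s : C(A, W), s a₀ = w₀ ∧ ∀ a, s a ∈ F (γ a)
  uniq : ∀ (A : Type) [TopologicalSpace A] [PreconnectedSpace A]
    (γ : C(A, Fin k → ℂ)), (∀ a, γ a ∈ Conf k) → ∀ s s' : C(A, W),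
    (∀ a, s a ∈ F (γ a)) → (∀ a, s' a ∈ F (γ a)) → (∃ a, s a = s' a) → s = s'

/-- The base configuration `(0, 1, .., k-1)`. -/
def base (k : ℕ) : Fin k → ℂ := fun i => ((i : ℕ) : ℂ)

/-- Ordered configurations: `Re q_0 < .. < Re q_(k-1)`. -/
def Ord (k : ℕ) : Set (Fin k → ℂ) := {q | ∀ i j, i < j → (q i).re < (q j).re}

/-- Generic configurations: distinct real parts. -/
def Gen (k : ℕ) : Set (Fin k → ℂ) := {q | Function.Injective fun i => (q i).re}

/-- The relabelling of `q` with nondecreasing real parts. -/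
noncomputable def srt {k : ℕ} (q : Fin k → ℂ) : Fin k → ℂ :=
  q ∘ Tuple.sort fun i => (q i).re

/-- The number of points of `q` to the left of `q l`. -/
noncomputable def pos {k : ℕ} (q : Fin k → ℂ) (l : Fin k) : ℕ :=
  (Finset.univ.filter fun j => (q j).re < (q l).re).card

/-- `a`, `c` differ by one crossing: `l` is left of `m` in `a`, right of `m` in `c`, `l` is the lower point of
the two in `a` and in `c`, all other order relations agree. -/
structure Cross {k : ℕ} (a c : Fin k → ℂ) (l m : Fin k) : Prop where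
  gena : a ∈ Gen k
  genc : c ∈ Gen k
  lt : (a l).re < (a m).re
  gt : (c m).re < (c l).re
  ima : (a l).im < (a m).im
  imc : (c l).im < (c m).im
  same : ∀ x y, ¬ (x = l ∧ y = m) → ¬ (x = m ∧ y = l) → ((a x).re < (a y).re ↔ (c x).re < (c y).re)

variable {k : ℕ} {W : Type} [TopologicalSpace W]

open Classical in
/-- Transport of `w ∈ F a` along the straight segment from `a` to `c` (which has to lie in `Conf k`). -/
noncomputable def Sys.T (S : Sys k W) (a c : Fin k → ℂ) (w : W) : W :=
  if h : ∃ s : C(unitInterval, W), s 0 = w ∧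
      ∀ t : unitInterval, s t ∈ S.F (AffineMap.lineMap a c (t : ℝ))
  then h.choose 1 else w

/-- The point of the fibre over the generic `q` with name `φ ∈ F (base k)`. -/
noncomputable def Sys.val (S : Sys k W) (φ : S.F (base k)) (q : Fin k → ℂ) : W :=
  S.T (base k) (srt q) φ

/-- `g` is the effect of every crossing at position `i` (the left point is the lower one). -/
def Sys.CrossProp (S : Sys k W) (i : ℕ) (g : Equiv.Perm (S.F (base k))) : Prop :=
  ∀ a c l m, Cross a c l m → pos a l = i → ∀ φ, S.T a c (S.val φ a) = S.val (g φ) c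

open Classical in
/-- The permutation `s_i` of `F (base k)`, `0 ≤ i`, `i + 1 < k` (junk value `1` otherwise). -/
noncomputable def Sys.s (S : Sys k W) (i : ℕ) : Equiv.Perm (S.F (base k)) :=
  if h : ∃ g, S.CrossProp i g then h.choose else 1

/-- `A = s_0 s_1 ⋯ s_(k-2)` (`s_(k-2)` is applied first). -/
noncomputable def Sys.A (S : Sys k W) : Equiv.Perm (S.F (base k)) :=
  ((List.range (k - 1)).map S.s).prod

/-- `B = s_0 A`. -/
noncomputable def Sys.B (S : Sys k W) : Equiv.Perm (S.F (base k)) := S.s 0 * S.A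

end Pool.Agent.Helper2.LN
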