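import Pool.Agent.Helper2.LN.RootCover

/-!
# LN-B2 (MP_730da0_ag): the three systems: roots of `f`, logarithms of the discriminant, pairs

Paper proofs.
* ROOTS: `F q = {x : cf q ∈ G0 k, P_(f(cf q))(x) = 0}`; for `γ : A → Conf k` the map `a ↦ f (cf (γ a))` is continuous with values in `G0 n` (`cf_mem_G0`, `differentiable_cf`);
  `root_lift`, `root_uniq`.  `perm`: `cf_perm`.
* LOG: `F q = {l : e^l = Dsc q}`: `a ↦ Dsc (γ a)` is continuous and nonvanishing (`Dsc_ne_zero`); `Complex.isCoveringMap_exp` (or the lifting lemma for `exp` on `ℂ → ℂ`, covering on `{0}ᶜ`) and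
  `existsUnique_continuousMap_lifts`; uniqueness from the uniqueness of lifts of covering maps, or: `(s - s')/(2πi)` is continuous with integer values, zero at one point, `A` preconnected.
* PAIR(u): `F q = {(l, m) : e^l = Dsc q, e^m = u(q, l)}`: first lift `l`, then lift `a ↦ u(γ a, l a)` (continuous, nonvanishing) to `m`.  `perm`: `Dsc_perm` and the invariance of `u`.
  (Invariance is only assumed on `Yset k`; for `q` not injective `Dsc q = 0` and both sides are empty.)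
-/

namespace Pool.Agent.Helper2.LN

open Polynomial

/-- Unique lifting through `exp`. -/
theorem exp_lift (A : Type) [TopologicalSpace A] [SimplyConnectedSpace A] [LocallyPathConnectedSpace A]
    (g : C(A, ℂ)) (hg : ∀ a, g a ≠ 0) (a₀ : A) (l₀ : ℂ) (h : Complex.exp l₀ = g a₀) :
    ∃ s : C(A, ℂ), s a₀ = l₀ ∧ ∀ a, Complex.exp (s a) = g a := by
  obtain ⟨s, ⟨h1, h2⟩, -⟩ := Complex.isCoveringMapOn_exp.existsUnique_continuousMap_lifts g
    (a₀ := a₀) (e₀ := l₀) h (fun a => hg a)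
  exact ⟨s, h1, fun a => congrFun h2 a⟩

theorem exp_uniq (A : Type) [TopologicalSpace A] [PreconnectedSpace A] (g : C(A, ℂ)) (s s' : C(A, ℂ))
    (hs : ∀ a, Complex.exp (s a) = g a) (hs' : ∀ a, Complex.exp (s' a) = g a)
    (h : ∃ a, s a = s' a) : s = s' := by
  obtain ⟨a, ha⟩ := h
  have h1 := Complex.isCoveringMap_exp.eq_of_comp_eq s.continuous s'.continuous
    (by
      funext x
      exact Subtype.ext ((hs x).trans (hs' x).symm)) a ha
  exact DFunLike.coe_injective h1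

section Roots

variable {k n : ℕ}

/-- The fibres of the root system of `f`. -/
def rootF (f : C(G0 k, G0 n)) (q : Fin k → ℂ) : Set ℂ :=
  {x | ∃ h : cf q ∈ G0 k, (pol n (f ⟨cf q, h⟩ : Fin (n - 1) → ℂ)).eval x = 0}

theorem rootF_perm (f : C(G0 k, G0 n)) (q : Fin k → ℂ) (π : Equiv.Perm (Fin k)) :
    rootF f (q ∘ π) = rootF f q := by
  unfold rootF
  rw [cf_perm]

/-- The map `a ↦ f (cf (γ a))`. -/
private noncomputable def fcf (hk : 2 ≤ k) (f : C(G0 k, G0 n)) (A : Type) [TopologicalSpace A]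
    (γ : C(A, Fin k → ℂ)) (hγ : ∀ a, γ a ∈ Conf k) : C(A, Fin (n - 1) → ℂ) where
  toFun a := (f ⟨cf (γ a), (cf_mem_G0 hk (γ a)).2 (hγ a)⟩ : Fin (n - 1) → ℂ)
  continuous_toFun := by
    refine continuous_subtype_val.comp (f.continuous.comp ?_)
    exact Continuous.subtype_mk ((differentiable_cf k).continuous.comp γ.continuous) _

private theorem mem_rootF (hk : 2 ≤ k) (f : C(G0 k, G0 n)) (A : Type) [TopologicalSpace A]
    (γ : C(A, Fin k → ℂ)) (hγ : ∀ a, γ a ∈ Conf k) (a : A) (x : ℂ) :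
    x ∈ rootF f (γ a) ↔ (pol n (fcf hk f A γ hγ a)).eval x = 0 := by
  constructor
  · rintro ⟨_, h⟩
    exact h
  · intro h
    exact ⟨(cf_mem_G0 hk (γ a)).2 (hγ a), h⟩

theorem rootF_lift (hk : 2 ≤ k) (hn : 2 ≤ n) (f : C(G0 k, G0 n)) (A : Type) [TopologicalSpace A]
    [SimplyConnectedSpace A] [LocallyPathConnectedSpace A]
    (γ : C(A, Fin k → ℂ)) (hγ : ∀ a, γ a ∈ Conf k) (a₀ : A) (w₀ : ℂ) (hw : w₀ ∈ rootF f (γ a₀)) :
    ∃ s : C(A, ℂ), s a₀ = w₀ ∧ ∀ a, s a ∈ rootF f (γ a) := by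
  obtain ⟨s, h1, h2⟩ := root_lift hn A (fcf hk f A γ hγ) (fun a => (f _).2) a₀ w₀
    ((mem_rootF hk f A γ hγ a₀ w₀).1 hw)
  exact ⟨s, h1, fun a => (mem_rootF hk f A γ hγ a (s a)).2 (h2 a)⟩

theorem rootF_uniq (hk : 2 ≤ k) (hn : 2 ≤ n) (f : C(G0 k, G0 n)) (A : Type) [TopologicalSpace A]
    [PreconnectedSpace A] (γ : C(A, Fin k → ℂ)) (hγ : ∀ a, γ a ∈ Conf k) (s s' : C(A, ℂ))
    (hs : ∀ a, s a ∈ rootF f (γ a)) (hs' : ∀ a, s' a ∈ rootF f (γ a)) (h : ∃ a, s a = s' a) : s = s' :=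
  root_uniq hn A (fcf hk f A γ hγ) (fun a => (f _).2) s s'
    (fun a => (mem_rootF hk f A γ hγ a (s a)).1 (hs a))
    (fun a => (mem_rootF hk f A γ hγ a (s' a)).1 (hs' a)) h

/-- The root system of `f`. -/
def rootSys (hk : 2 ≤ k) (hn : 2 ≤ n) (f : C(G0 k, G0 n)) : Sys k ℂ where
  F := rootF f
  perm := rootF_perm f
  lift := fun A => rootF_lift hk hn f A
  uniq := fun A => rootF_uniq hk hn f A

/-- Over every configuration the root system has exactly `n` points. -/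
theorem rootF_enum (hk : 2 ≤ k) (hn : 2 ≤ n) (f : C(G0 k, G0 n)) (q : Fin k → ℂ) (hq : q ∈ Conf k) :
    ∃ x : Fin n → ℂ, Function.Injective x ∧ (∀ i, x i ∈ rootF f q) ∧ (∀ w ∈ rootF f q, ∃ i, x i = w) ∧
      ∑ i, x i = 0 := by
  have hc := (cf_mem_G0 hk q).2 hq
  obtain ⟨x, h1, h2, h3, h4⟩ := exists_enum n hn (f ⟨cf q, hc⟩ : Fin (n - 1) → ℂ) (f ⟨cf q, hc⟩).2
  refine ⟨x, h1, fun i => ⟨hc, (h4 (x i)).2 ⟨i, rfl⟩⟩, ?_, h2⟩
  rintro w ⟨_, hw⟩
  exact (h4 w).1 hw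

theorem rootF_card (hk : 2 ≤ k) (hn : 2 ≤ n) (f : C(G0 k, G0 n)) (q : Fin k → ℂ) (hq : q ∈ Conf k) :
    Nat.card (rootF f q) = n ∧ Finite (rootF f q) := by
  obtain ⟨x, h1, h2, h3, -⟩ := rootF_enum hk hn f q hq
  have hb : Function.Bijective (fun i : Fin n => (⟨x i, h2 i⟩ : rootF f q)) := by
    refine ⟨fun i j hij => h1 (congrArg Subtype.val hij), fun w => ?_⟩
    obtain ⟨i, hi⟩ := h3 w.1 w.2
    exact ⟨i, Subtype.ext hi⟩
  refine ⟨?_, Finite.of_surjective _ hb.2⟩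
  rw [← Nat.card_eq_of_bijective _ hb, Nat.card_eq_fintype_card, Fintype.card_fin]

end Roots

section Log

/-- The fibres of the system of logarithms of the discriminant. -/
def logF (k : ℕ) (q : Fin k → ℂ) : Set ℂ := {l | Complex.exp l = Dsc q}

theorem logF_perm (k : ℕ) (q : Fin k → ℂ) (π : Equiv.Perm (Fin k)) : logF k (q ∘ π) = logF k q := by
  unfold logF
  rw [Dsc_perm]

/-- The map `a ↦ Dsc (γ a)`. -/
private noncomputable def dcf (k : ℕ) (A : Type) [TopologicalSpace A] (γ : C(A, Fin k → ℂ)) : C(A, ℂ) where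
  toFun a := Dsc (γ a)
  continuous_toFun := (differentiable_Dsc k).continuous.comp γ.continuous

theorem logF_lift (k : ℕ) (A : Type) [TopologicalSpace A] [SimplyConnectedSpace A]
    [LocallyPathConnectedSpace A] (γ : C(A, Fin k → ℂ)) (hγ : ∀ a, γ a ∈ Conf k) (a₀ : A) (w₀ : ℂ)
    (hw : w₀ ∈ logF k (γ a₀)) : ∃ s : C(A, ℂ), s a₀ = w₀ ∧ ∀ a, s a ∈ logF k (γ a) :=
  exp_lift A (dcf k A γ) (fun a => (Dsc_ne_zero (γ a)).2 (hγ a)) a₀ w₀ hw

theorem logF_uniq (k : ℕ) (A : Type) [TopologicalSpace A] [PreconnectedSpace A]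
    (γ : C(A, Fin k → ℂ)) (hγ : ∀ a, γ a ∈ Conf k) (s s' : C(A, ℂ))
    (hs : ∀ a, s a ∈ logF k (γ a)) (hs' : ∀ a, s' a ∈ logF k (γ a)) (h : ∃ a, s a = s' a) : s = s' :=
  exp_uniq A (dcf k A γ) s s' hs hs' h

/-- The system of logarithms of the discriminant. -/
def logSys (k : ℕ) : Sys k ℂ where
  F := logF k
  perm := logF_perm k
  lift := fun A => logF_lift k A
  uniq := fun A => logF_uniq k A

end Log

section Pair

variable {k : ℕ}

/-- The fibres of the pair system. -/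
def pairF (u : (Fin k → ℂ) × ℂ → ℂ) (q : Fin k → ℂ) : Set (ℂ × ℂ) :=
  {p | (q, p.1) ∈ Yset k ∧ Complex.exp p.2 = u (q, p.1)}

theorem pairF_perm (u : (Fin k → ℂ) × ℂ → ℂ) (hi : Inv u) (q : Fin k → ℂ) (π : Equiv.Perm (Fin k)) :
    pairF u (q ∘ π) = pairF u q := by
  have h0 : ∀ (q : Fin k → ℂ) (π : Equiv.Perm (Fin k)) (l : ℂ), (q, l) ∈ Yset k →
      (q ∘ π, l) ∈ Yset k := by
    intro q π l h
    refine ⟨h.1.comp π.injective, ?_⟩
    rw [Dsc_perm]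
    exact h.2
  ext p
  constructor
  · rintro ⟨h1, h2⟩
    have h3 : (q, p.1) ∈ Yset k := by
      have h4 := h0 (q ∘ π) π.symm p.1 h1
      have h5 : (q ∘ π) ∘ π.symm = q := by
        funext i
        simp
      rwa [h5] at h4
    exact ⟨h3, h2.trans (hi (q, p.1) h3 π)⟩
  · rintro ⟨h1, h2⟩
    exact ⟨h0 q π p.1 h1, h2.trans (hi (q, p.1) h1 π).symm⟩

theorem pairF_lift (u : (Fin k → ℂ) × ℂ → ℂ) (hc : ContinuousOn u (Yset k)) (h0 : ∀ p ∈ Yset k, u p ≠ 0)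
    (A : Type) [TopologicalSpace A] [SimplyConnectedSpace A] [LocallyPathConnectedSpace A]
    (γ : C(A, Fin k → ℂ)) (hγ : ∀ a, γ a ∈ Conf k) (a₀ : A) (w₀ : ℂ × ℂ)
    (hw : w₀ ∈ pairF u (γ a₀)) : ∃ s : C(A, ℂ × ℂ), s a₀ = w₀ ∧ ∀ a, s a ∈ pairF u (γ a) := by
  obtain ⟨l, h1, h2⟩ := logF_lift k A γ hγ a₀ w₀.1 hw.1.2
  have hY : ∀ a, (γ a, l a) ∈ Yset k := fun a => ⟨hγ a, h2 a⟩
  let g : C(A, ℂ) := ⟨fun a => u (γ a, l a),
    hc.comp_continuous (γ.continuous.prodMk l.continuous) hY⟩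
  obtain ⟨m, h3, h4⟩ := exp_lift A g (fun a => h0 _ (hY a)) a₀ w₀.2 (by
    show Complex.exp w₀.2 = u (γ a₀, l a₀)
    rw [h1]
    exact hw.2)
  refine ⟨⟨fun a => (l a, m a), l.continuous.prodMk m.continuous⟩, Prod.ext h1 h3, fun a => ?_⟩
  exact ⟨hY a, h4 a⟩

theorem pairF_uniq (u : (Fin k → ℂ) × ℂ → ℂ) (hc : ContinuousOn u (Yset k)) (h0 : ∀ p ∈ Yset k, u p ≠ 0)
    (A : Type) [TopologicalSpace A] [PreconnectedSpace A]
    (γ : C(A, Fin k → ℂ)) (hγ : ∀ a, γ a ∈ Conf k) (s s' : C(A, ℂ × ℂ))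
    (hs : ∀ a, s a ∈ pairF u (γ a)) (hs' : ∀ a, s' a ∈ pairF u (γ a)) (h : ∃ a, s a = s' a) : s = s' := by
  obtain ⟨a₀, ha⟩ := h
  let l : C(A, ℂ) := ⟨fun a => (s a).1, continuous_fst.comp s.continuous⟩
  let l' : C(A, ℂ) := ⟨fun a => (s' a).1, continuous_fst.comp s'.continuous⟩
  have hl : l = l' := logF_uniq k A γ hγ l l' (fun a => (hs a).1.2) (fun a => (hs' a).1.2)
    ⟨a₀, congrArg Prod.fst ha⟩
  have hl2 : ∀ a, (s a).1 = (s' a).1 := fun a => DFunLike.congr_fun hl a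
  let g : C(A, ℂ) := ⟨fun a => u (γ a, (s a).1),
    hc.comp_continuous (γ.continuous.prodMk l.continuous) (fun a => (hs a).1)⟩
  let m : C(A, ℂ) := ⟨fun a => (s a).2, continuous_snd.comp s.continuous⟩
  let m' : C(A, ℂ) := ⟨fun a => (s' a).2, continuous_snd.comp s'.continuous⟩
  have hm : m = m' := exp_uniq A g m m' (fun a => (hs a).2) (fun a => by
    show Complex.exp (s' a).2 = u (γ a, (s a).1)
    rw [hl2 a]
    exact (hs' a).2) ⟨a₀, congrArg Prod.snd ha⟩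
  ext a
  · exact hl2 a
  · exact DFunLike.congr_fun hm a

/-- The pair system of `u`. -/
def pairSys (u : (Fin k → ℂ) × ℂ → ℂ) (hc : ContinuousOn u (Yset k)) (h0 : ∀ p ∈ Yset k, u p ≠ 0)
    (hi : Inv u) : Sys k (ℂ × ℂ) where
  F := pairF u
  perm := pairF_perm u hi
  lift := fun A => pairF_lift u hc h0 A
  uniq := fun A => pairF_uniq u hc h0 A

end Pair

end Pool.Agent.Helper2.LN
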