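import Pool.Agent.Helper2.LN.Sys

/-!
# LN-C0 (MP_730da0_ag): transport along segments

Paper proofs.  Everything follows from `Sys.lift` and `Sys.uniq`.
* A convex nonempty set `D` (as a subtype) is contractible (`Convex.contractibleSpace`), hence simply connected, and locally path connected
  (convex subsets of a normed space: the balls intersected with `D` are convex, hence path connected; look for
  `Convex.locallyPathConnectedSpace` or prove it with `LocallyPathConnectedSpace.of_bases`).  `exists_sec`: lift the inclusion `D → (Fin k → ℂ)`; extend by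
  any value outside of `D`.
* `T_sec`: `t ↦ σ (lineMap a c t)` is a witness in the definition of `T`, and by `Sys.uniq` (`A = unitInterval`) every witness is equal to it.
* `T_mem`: `D = segment ℝ a c`, `exists_sec` and `T_sec`.  `T_trans`, `T_self`: `exists_sec`, `T_sec` (for `T_self`: `D = {a}`).  `T_inj`, `T_surj`:
  `T c a (T a c w) = w` (`T_trans` with `D = segment`).
* `T_perm`: `F (lineMap (a ∘ π) (c ∘ π) t) = F ((lineMap a c t) ∘ π) = F (lineMap a c t)`, so both sides are defined by the same predicate.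
* `T_along`: compare `s` with `σ ∘ γ`, `σ` the section over `D` through `(γ a, s a)`.
* `T_map`: `p ∘ σ` is a section of `S'` over the segment.
-/

namespace Pool.Agent.Helper2.LN

variable {k : ℕ} {W : Type} [TopologicalSpace W]

private theorem trans_lpc (D : Set (Fin k → ℂ)) (hD : Convex ℝ D) :
    LocallyPathConnectedSpace D := by
  refine LocallyPathConnectedSpace.of_bases (p := fun _ (r : ℝ) => 0 < r)
    (s := fun x r => Subtype.val ⁻¹' Metric.ball (x : Fin k → ℂ) r) ?_ ?_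
  · intro x
    rw [nhds_subtype_eq_comap]
    exact (Metric.nhds_basis_ball (x := (x : Fin k → ℂ))).comap Subtype.val
  · intro x r hr
    rw [Topology.IsInducing.subtypeVal.isPathConnected_iff, Subtype.image_preimage_coe]
    exact (hD.inter (convex_ball _ _)).isPathConnected ⟨x, x.2, Metric.mem_ball_self hr⟩

theorem Sys.exists_sec (S : Sys k W) (D : Set (Fin k → ℂ)) (hD : Convex ℝ D) (hDC : D ⊆ Conf k)
    (a : Fin k → ℂ) (ha : a ∈ D) (w : W) (hw : w ∈ S.F a) :
    ∃ σ : (Fin k → ℂ) → W, ContinuousOn σ D ∧ (∀ x ∈ D, σ x ∈ S.F x) ∧ σ a = w := by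
  classical
  have h1 : ContractibleSpace D := hD.contractibleSpace ⟨a, ha⟩
  have h2 : LocallyPathConnectedSpace D := trans_lpc D hD
  obtain ⟨s, hs0, hs⟩ := S.lift D ⟨Subtype.val, continuous_subtype_val⟩ (fun x => hDC x.2)
    ⟨a, ha⟩ w hw
  refine ⟨fun x => if h : x ∈ D then s ⟨x, h⟩ else w, ?_, ?_, ?_⟩
  · rw [continuousOn_iff_continuous_domRestrict]
    have h3 : D.domRestrict (fun x => if h : x ∈ D then s ⟨x, h⟩ else w) = s := by
      funext x
      rw [Set.domRestrict_apply]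
      exact dif_pos x.2
    rw [h3]
    exact s.continuous
  · intro x hx
    have h4 : (if h : x ∈ D then s ⟨x, h⟩ else w) = s ⟨x, hx⟩ := dif_pos hx
    change (if h : x ∈ D then s ⟨x, h⟩ else w) ∈ S.F x
    rw [h4]
    exact hs ⟨x, hx⟩
  · have h4 : (if h : a ∈ D then s ⟨a, h⟩ else w) = s ⟨a, ha⟩ := dif_pos ha
    change (if h : a ∈ D then s ⟨a, h⟩ else w) = w
    rw [h4]
    exact hs0

theorem Sys.T_sec (S : Sys k W) (D : Set (Fin k → ℂ)) (hD : Convex ℝ D) (hDC : D ⊆ Conf k)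
    (σ : (Fin k → ℂ) → W) (hσ : ContinuousOn σ D) (hF : ∀ x ∈ D, σ x ∈ S.F x)
    (a c : Fin k → ℂ) (ha : a ∈ D) (hc : c ∈ D) : S.T a c (σ a) = σ c := by
  have hin : ∀ t : unitInterval, AffineMap.lineMap a c (t : ℝ) ∈ D := fun t =>
    hD.lineMap_mem ha hc t.2
  have hcl : Continuous fun t : unitInterval => AffineMap.lineMap a c (t : ℝ) :=
    AffineMap.lineMap_continuous.comp continuous_subtype_val
  obtain ⟨s, hs⟩ : ∃ s : C(unitInterval, W), ∀ t : unitInterval,
      s t = σ (AffineMap.lineMap a c (t : ℝ)) :=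
    ⟨⟨fun t => σ (AffineMap.lineMap a c (t : ℝ)), hσ.comp_continuous hcl hin⟩, fun _ => rfl⟩
  have hs0 : s 0 = σ a := by
    rw [hs, Set.Icc.coe_zero, AffineMap.lineMap_apply_zero]
  have h : ∃ s : C(unitInterval, W), s 0 = σ a ∧
      ∀ t : unitInterval, s t ∈ S.F (AffineMap.lineMap a c (t : ℝ)) := by
    refine ⟨s, hs0, fun t => ?_⟩
    rw [hs]
    exact hF _ (hin t)
  have h1 : S.T a c (σ a) = h.choose 1 := by
    unfold Sys.T
    rw [dif_pos h]
  have h2 : h.choose = s := by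
    refine S.uniq unitInterval ⟨fun t => AffineMap.lineMap a c (t : ℝ), hcl⟩
      (fun t => hDC (hin t)) _ _ h.choose_spec.2 (fun t => ?_) ⟨0, ?_⟩
    · rw [hs]
      exact hF _ (hin t)
    · rw [h.choose_spec.1, hs0]
  rw [h1, h2, hs, Set.Icc.coe_one, AffineMap.lineMap_apply_one]

theorem Sys.T_mem (S : Sys k W) (a c : Fin k → ℂ) (h : segment ℝ a c ⊆ Conf k) (w : W)
    (hw : w ∈ S.F a) : S.T a c w ∈ S.F c := by
  obtain ⟨σ, h1, h2, h3⟩ := S.exists_sec (segment ℝ a c) (convex_segment a c) h a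
    (left_mem_segment ℝ a c) w hw
  rw [← h3, S.T_sec (segment ℝ a c) (convex_segment a c) h σ h1 h2 a c (left_mem_segment ℝ a c)
    (right_mem_segment ℝ a c)]
  exact h2 c (right_mem_segment ℝ a c)

theorem Sys.T_trans (S : Sys k W) (D : Set (Fin k → ℂ)) (hD : Convex ℝ D) (hDC : D ⊆ Conf k)
    (a b c : Fin k → ℂ) (ha : a ∈ D) (hb : b ∈ D) (hc : c ∈ D) (w : W) (hw : w ∈ S.F a) :
    S.T b c (S.T a b w) = S.T a c w := by
  obtain ⟨σ, h1, h2, h3⟩ := S.exists_sec D hD hDC a ha w hw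
  rw [← h3, S.T_sec D hD hDC σ h1 h2 a b ha hb, S.T_sec D hD hDC σ h1 h2 b c hb hc,
    S.T_sec D hD hDC σ h1 h2 a c ha hc]

theorem Sys.T_self (S : Sys k W) (a : Fin k → ℂ) (ha : a ∈ Conf k) (w : W) (hw : w ∈ S.F a) :
    S.T a a w = w := by
  have hs : ({a} : Set (Fin k → ℂ)) ⊆ Conf k := by
    intro x hx
    rw [Set.mem_singleton_iff.1 hx]
    exact ha
  obtain ⟨σ, h1, h2, h3⟩ := S.exists_sec {a} (convex_singleton a) hs a rfl w hw
  rw [← h3, S.T_sec {a} (convex_singleton a) hs σ h1 h2 a a rfl rfl]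

theorem Sys.T_inj (S : Sys k W) (a c : Fin k → ℂ) (h : segment ℝ a c ⊆ Conf k) (w w' : W)
    (hw : w ∈ S.F a) (hw' : w' ∈ S.F a) (he : S.T a c w = S.T a c w') : w = w' := by
  have key : ∀ u ∈ S.F a, S.T c a (S.T a c u) = u := by
    intro u hu
    rw [S.T_trans (segment ℝ a c) (convex_segment a c) h a c a (left_mem_segment ℝ a c)
      (right_mem_segment ℝ a c) (left_mem_segment ℝ a c) u hu,
      S.T_self a (h (left_mem_segment ℝ a c)) u hu]
  rw [← key w hw, ← key w' hw', he]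

theorem Sys.T_surj (S : Sys k W) (a c : Fin k → ℂ) (h : segment ℝ a c ⊆ Conf k) (w : W)
    (hw : w ∈ S.F c) : ∃ w' ∈ S.F a, S.T a c w' = w := by
  have h' : segment ℝ c a ⊆ Conf k := by
    rw [segment_symm]
    exact h
  refine ⟨S.T c a w, S.T_mem c a h' w hw, ?_⟩
  rw [S.T_trans (segment ℝ c a) (convex_segment c a) h' c a c (left_mem_segment ℝ c a)
    (right_mem_segment ℝ c a) (left_mem_segment ℝ c a) w hw,
    S.T_self c (h' (left_mem_segment ℝ c a)) w hw]

open Classical in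
private theorem trans_dite (w : W) (P Q : C(unitInterval, W) → Prop) (h : P = Q) :
    (if h : ∃ s, P s then h.choose 1 else w) = (if h : ∃ s, Q s then h.choose 1 else w) := by
  subst h
  rfl

theorem Sys.T_perm (S : Sys k W) (a c : Fin k → ℂ) (π : Equiv.Perm (Fin k)) (w : W) :
    S.T (a ∘ π) (c ∘ π) w = S.T a c w := by
  have hF : ∀ t : ℝ, S.F (AffineMap.lineMap (a ∘ π) (c ∘ π) t) =
      S.F (AffineMap.lineMap a c t) := by
    intro t
    rw [← S.perm (AffineMap.lineMap a c t) π]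
    congr 1
  unfold Sys.T
  refine trans_dite w _ _ (funext fun s => ?_)
  simp only [hF]

theorem Sys.T_along (S : Sys k W) (D : Set (Fin k → ℂ)) (hD : Convex ℝ D) (hDC : D ⊆ Conf k)
    (A : Type) [TopologicalSpace A] [PreconnectedSpace A] (γ : C(A, Fin k → ℂ)) (hγ : ∀ a, γ a ∈ D)
    (s : C(A, W)) (hs : ∀ a, s a ∈ S.F (γ a)) (a a' : A) : s a' = S.T (γ a) (γ a') (s a) := by
  obtain ⟨σ, h1, h2, h3⟩ := S.exists_sec D hD hDC (γ a) (hγ a) (s a) (hs a)
  have h4 : s = ⟨fun x => σ (γ x), h1.comp_continuous γ.continuous hγ⟩ := by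
    refine S.uniq A γ (fun x => hDC (hγ x)) _ _ hs (fun x => h2 _ (hγ x)) ⟨a, ?_⟩
    exact h3.symm
  have h5 : s a' = σ (γ a') := by
    rw [h4]
    rfl
  rw [h5, ← h3, S.T_sec D hD hDC σ h1 h2 _ _ (hγ a) (hγ a')]

theorem Sys.T_map {W' : Type} [TopologicalSpace W'] (S : Sys k W) (S' : Sys k W') (p : W → W')
    (hp : Continuous p) (hF : ∀ q ∈ Conf k, ∀ w ∈ S.F q, p w ∈ S'.F q) (a c : Fin k → ℂ)
    (h : segment ℝ a c ⊆ Conf k) (w : W) (hw : w ∈ S.F a) : p (S.T a c w) = S'.T a c (p w) := by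
  obtain ⟨σ, h1, h2, h3⟩ := S.exists_sec (segment ℝ a c) (convex_segment a c) h a
    (left_mem_segment ℝ a c) w hw
  have h4 := S'.T_sec (segment ℝ a c) (convex_segment a c) h (fun x => p (σ x))
    (hp.comp_continuousOn h1) (fun x hx => hF x (h hx) _ (h2 x hx)) a c
    (left_mem_segment ℝ a c) (right_mem_segment ℝ a c)
  rw [← h3, S.T_sec (segment ℝ a c) (convex_segment a c) h σ h1 h2 a c (left_mem_segment ℝ a c)
    (right_mem_segment ℝ a c)]
  exact h4.symm

end Pool.Agent.Helper2.LN
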