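import Pool.Agent.Helper2.LN.Trans

/-!
# LN-C1 (MP_730da0_ag): names of the points of the fibre over generic configurations

Paper proofs.  `Ord k` is convex (strict inequalities between linear functions), contained in `Gen k ⊆ Conf k`.  For `q ∈ Gen k` the sorted `srt q` is in
`Ord k` (`Tuple.monotone_sort` and injectivity), for `q ∈ Ord k` the sorting permutation is the identity (`Tuple.sort_eq_refl_iff_monotone`), and
`srt (q ∘ π) = srt q` (both are strictly increasing in the real part with the same range of points; or `Tuple.comp_sort_eq_comp_iff_monotone`).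
`val φ q = T (base k) (srt q) φ`, and `F (srt q) = F q` by `Sys.perm`.
* `val_mem`, `val_inj`, `val_surj`: `T_mem`, `T_inj`, `T_surj` for the segment from `base k` to `srt q` inside the convex set `Ord k`.
* `T_val`: same order means: one permutation `π` sorts `a` and `c`; `T a c = T (a ∘ π) (c ∘ π)` (`T_perm`), and `T_trans` in `Ord k`.
* `segment_same`: the segment between two generic configurations with the same order stays in `Conf k` (even in `Gen k`).
* `segment_cross`: on the segment of a crossing all pairs other than `l, m` keep their order of real parts, and `Im x_l < Im x_m` for all `x` on it.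
* `pos_cross`: no other point is between `l` and `m` (it would stay between them), so `pos a m = pos a l + 1`.
* `exists_cross`: `a = base` with imaginary part of the `(i+1)`-st point `1`; `c`: real parts of the points `i`, `i+1` exchanged.
-/

namespace Pool.Agent.Helper2.LN

variable {k : ℕ} {W : Type} [TopologicalSpace W]

private theorem re_comb (a c : Fin k → ℂ) (s t : ℝ) (i : Fin k) :
    ((s • a + t • c) i).re = s * (a i).re + t * (c i).re := by
  simp

private theorem im_comb (a c : Fin k → ℂ) (s t : ℝ) (i : Fin k) :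
    ((s • a + t • c) i).im = s * (a i).im + t * (c i).im := by
  simp

private theorem comb_lt {x y x' y' s t : ℝ} (h : x < y) (h' : x' < y') (hs : 0 ≤ s) (ht : 0 ≤ t)
    (hst : s + t = 1) : s * x + t * x' < s * y + t * y' := by
  rcases hs.eq_or_lt with h0 | h0
  · subst h0
    have : t = 1 := by linarith
    subst this
    linarith
  · have h1 : s * x < s * y := mul_lt_mul_of_pos_left h h0
    have h2 : t * x' ≤ t * y' := mul_le_mul_of_nonneg_left h'.le ht
    linarith

theorem base_mem_Ord (k : ℕ) : base k ∈ Ord k := by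
  intro i j hij
  have : ((i : ℕ) : ℝ) < ((j : ℕ) : ℝ) := by exact_mod_cast hij
  simpa [base] using this

theorem convex_Ord (k : ℕ) : Convex ℝ (Ord k) := by
  intro a ha c hc s t hs ht hst i j hij
  rw [re_comb, re_comb]
  exact comb_lt (ha i j hij) (hc i j hij) hs ht hst

theorem Ord_subset_Gen (k : ℕ) : Ord k ⊆ Gen k := by
  intro q hq
  have h : StrictMono fun i => (q i).re := fun i j hij => hq i j hij
  exact h.injective

theorem Gen_subset_Conf (k : ℕ) : Gen k ⊆ Conf k := by
  intro q hq i j hij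
  exact hq (by simp [hij])

theorem srt_mem (q : Fin k → ℂ) (hq : q ∈ Gen k) : srt q ∈ Ord k := by
  intro i j hij
  have hm := Tuple.monotone_sort fun i => (q i).re
  have h1 := hm hij.le
  refine lt_of_le_of_ne h1 fun h => ?_
  have h2 := hq h
  exact hij.ne ((Tuple.sort fun i => (q i).re).injective h2)

theorem srt_of_Ord (q : Fin k → ℂ) (hq : q ∈ Ord k) : srt q = q := by
  have h : Monotone fun i => (q i).re := by
    have h : StrictMono fun i => (q i).re := fun i j hij => hq i j hij
    exact h.monotone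
  unfold srt
  rw [Tuple.sort_eq_refl_iff_monotone.2 h]
  rfl

private theorem perm_unique (q : Fin k → ℂ) (hq : q ∈ Gen k) (σ τ : Equiv.Perm (Fin k))
    (hσ : Monotone ((fun i => (q i).re) ∘ σ)) (hτ : Monotone ((fun i => (q i).re) ∘ τ)) :
    σ = τ := by
  have h := Tuple.unique_monotone hσ hτ
  ext i
  have h1 := congrFun h i
  have h2 := hq h1
  rw [h2]

theorem srt_perm (q : Fin k → ℂ) (hq : q ∈ Gen k) (π : Equiv.Perm (Fin k)) : srt (q ∘ π) = srt q := by
  have h1 : Monotone ((fun i => (q i).re) ∘ ((Tuple.sort fun i => ((q ∘ π) i).re).trans π)) := by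
    have := Tuple.monotone_sort fun i => ((q ∘ π) i).re
    intro i j hij
    exact this hij
  have h2 := perm_unique q hq _ _ h1 (Tuple.monotone_sort fun i => (q i).re)
  unfold srt
  rw [← h2]
  rfl

theorem segment_same (a c : Fin k → ℂ) (ha : a ∈ Gen k) (hc : c ∈ Gen k)
    (h : ∀ i j, (a i).re < (a j).re ↔ (c i).re < (c j).re) : segment ℝ a c ⊆ Gen k := by
  rintro x ⟨s, t, hs, ht, hst, rfl⟩ i j hij
  by_contra hne
  simp only [re_comb] at hij
  rcases lt_trichotomy (a i).re (a j).re with h1 | h1 | h1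
  · have := comb_lt h1 ((h i j).1 h1) hs ht hst
    linarith
  · exact hne (ha h1)
  · have := comb_lt h1 ((h j i).1 h1) hs ht hst
    linarith

theorem segment_cross (a c : Fin k → ℂ) (l m : Fin k) (h : Cross a c l m) : segment ℝ a c ⊆ Conf k := by
  rintro x ⟨s, t, hs, ht, hst, rfl⟩ i j hij
  by_contra hne
  have hre := congrArg Complex.re hij
  have him := congrArg Complex.im hij
  rw [re_comb, re_comb] at hre
  rw [im_comb, im_comb] at him
  have hlm := comb_lt h.ima h.imc hs ht hst
  by_cases h1 : i = l ∧ j = m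
  · rw [h1.1, h1.2] at him
    linarith
  by_cases h2 : i = m ∧ j = l
  · rw [h2.1, h2.2] at him
    linarith
  rcases lt_trichotomy (a i).re (a j).re with h3 | h3 | h3
  · have := comb_lt h3 ((h.same i j h1 h2).1 h3) hs ht hst
    linarith
  · exact hne (h.gena h3)
  · have h4 := (h.same j i (fun hh => h2 ⟨hh.2, hh.1⟩) (fun hh => h1 ⟨hh.2, hh.1⟩)).1 h3
    have := comb_lt h3 h4 hs ht hst
    linarith

theorem pos_cross (a c : Fin k → ℂ) (l m : Fin k) (h : Cross a c l m) : pos a m = pos a l + 1 := by
  have hset : (Finset.univ.filter fun j => (a j).re < (a m).re) =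
      insert l (Finset.univ.filter fun j => (a j).re < (a l).re) := by
    ext j
    simp only [Finset.mem_filter, Finset.mem_univ, true_and, Finset.mem_insert]
    constructor
    · intro hj
      by_contra hn
      push Not at hn
      obtain ⟨hjl, hge⟩ := hn
      have hjm : j ≠ m := fun hh => by rw [hh] at hj; exact lt_irrefl _ hj
      have hlt : (a l).re < (a j).re := lt_of_le_of_ne hge fun hh => hjl (h.gena hh).symm
      have h1 := (h.same l j (fun hh => hjm hh.2) (fun hh => hjl hh.2)).1 hlt
      have h2 := (h.same j m (fun hh => hjl hh.1) (fun hh => hjm hh.1)).1 hj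
      have := h.gt
      linarith
    · rintro (rfl | hj)
      · exact h.lt
      · exact hj.trans h.lt
  unfold pos
  rw [hset, Finset.card_insert_of_notMem]
  simp

private noncomputable def ca (k i : ℕ) : Fin k → ℂ := fun j =>
  if (j : ℕ) = i + 1 then ((j : ℕ) : ℂ) + Complex.I else ((j : ℕ) : ℂ)

private noncomputable def cc (k i : ℕ) : Fin k → ℂ := fun j =>
  if (j : ℕ) = i + 1 then ((i : ℕ) : ℂ) + Complex.I else if (j : ℕ) = i then ((i : ℕ) : ℂ) + 1
    else ((j : ℕ) : ℂ)

private theorem ca_re (k i : ℕ) (j : Fin k) : (ca k i j).re = (j : ℕ) := by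
  unfold ca
  split_ifs <;> simp

private theorem cc_re (k i : ℕ) (j : Fin k) : (cc k i j).re =
    ((if (j : ℕ) = i + 1 then i else if (j : ℕ) = i then i + 1 else (j : ℕ) : ℕ) : ℝ) := by
  unfold cc
  split_ifs <;> simp

theorem exists_cross (i : ℕ) (hi : i + 1 < k) : ∃ (a c : Fin k → ℂ) (l m : Fin k), Cross a c l m ∧
    pos a l = i ∧ a ∈ Ord k := by
  have hord : ca k i ∈ Ord k := by
    intro x y hxy
    rw [ca_re, ca_re]
    exact_mod_cast hxy
  refine ⟨ca k i, cc k i, ⟨i, by omega⟩, ⟨i + 1, hi⟩, ⟨Ord_subset_Gen k hord, ?_, ?_, ?_, ?_, ?_, ?_⟩,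
    ?_, hord⟩
  · intro x y hxy
    simp only [cc_re, Nat.cast_inj] at hxy
    apply Fin.ext
    split_ifs at hxy <;> omega
  · rw [ca_re, ca_re]
    simp
  · rw [cc_re, cc_re]
    simp
  · simp [ca]
  · simp [cc]
  · intro x y h1 h2
    rw [ca_re, ca_re, cc_re, cc_re, Nat.cast_lt, Nat.cast_lt]
    simp only [Fin.ext_iff] at h1 h2
    split_ifs <;> omega
  · unfold pos
    have hset : (Finset.univ.filter fun j : Fin k => (ca k i j).re < (ca k i ⟨i, by omega⟩).re) =
        Finset.Iio ⟨i, by omega⟩ := by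
      ext j
      simp only [Finset.mem_filter, Finset.mem_univ, true_and, Finset.mem_Iio, ca_re, Nat.cast_lt]
      rfl
    rw [hset, Fin.card_Iio]

private theorem seg_conf (q : Fin k → ℂ) (hq : q ∈ Ord k) : segment ℝ (base k) q ⊆ Conf k :=
  ((convex_Ord k).segment_subset (base_mem_Ord k) hq).trans
    ((Ord_subset_Gen k).trans (Gen_subset_Conf k))

private theorem F_srt (S : Sys k W) (q : Fin k → ℂ) : S.F (srt q) = S.F q := S.perm _ _

theorem Sys.val_mem (S : Sys k W) (φ : S.F (base k)) (q : Fin k → ℂ) (hq : q ∈ Gen k) :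
    S.val φ q ∈ S.F q := by
  rw [← F_srt S q]
  exact S.T_mem _ _ (seg_conf _ (srt_mem q hq)) _ φ.2

theorem Sys.val_base (S : Sys k W) (φ : S.F (base k)) : S.val φ (base k) = φ := by
  unfold Sys.val
  rw [srt_of_Ord _ (base_mem_Ord k)]
  exact S.T_self _ (Gen_subset_Conf k (Ord_subset_Gen k (base_mem_Ord k))) _ φ.2

theorem Sys.val_perm (S : Sys k W) (φ : S.F (base k)) (q : Fin k → ℂ) (hq : q ∈ Gen k)
    (π : Equiv.Perm (Fin k)) : S.val φ (q ∘ π) = S.val φ q := by
  unfold Sys.val
  rw [srt_perm q hq π]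

theorem Sys.val_inj (S : Sys k W) (φ ψ : S.F (base k)) (q : Fin k → ℂ) (hq : q ∈ Gen k)
    (h : S.val φ q = S.val ψ q) : φ = ψ :=
  Subtype.ext (S.T_inj _ _ (seg_conf _ (srt_mem q hq)) _ _ φ.2 ψ.2 h)

theorem Sys.val_surj (S : Sys k W) (q : Fin k → ℂ) (hq : q ∈ Gen k) (w : W) (hw : w ∈ S.F q) :
    ∃ φ, S.val φ q = w := by
  rw [← F_srt S q] at hw
  obtain ⟨w', hw', h⟩ := S.T_surj _ _ (seg_conf _ (srt_mem q hq)) w hw
  exact ⟨⟨w', hw'⟩, h⟩

theorem Sys.T_val (S : Sys k W) (a c : Fin k → ℂ) (ha : a ∈ Gen k) (hc : c ∈ Gen k)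
    (h : ∀ i j, (a i).re < (a j).re ↔ (c i).re < (c j).re) (φ : S.F (base k)) :
    S.T a c (S.val φ a) = S.val φ c := by
  have hle : ∀ i j, (a i).re ≤ (a j).re → (c i).re ≤ (c j).re := by
    intro i j hij
    by_contra hn
    push Not at hn
    have := (h j i).2 hn
    linarith
  have h1 : Monotone ((fun i => (c i).re) ∘ (Tuple.sort fun i => (a i).re)) := fun i j hij =>
    hle _ _ (Tuple.monotone_sort (fun i => (a i).re) hij)
  have h2 := perm_unique c hc _ _ h1 (Tuple.monotone_sort fun i => (c i).re)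
  have h3 : srt c = c ∘ (Tuple.sort fun i => (a i).re) := by
    unfold srt
    rw [← h2]
  have h4 : S.T a c (S.val φ a) = S.T (srt a) (srt c) (S.val φ a) := by
    rw [h3]
    exact (S.T_perm a c _ _).symm
  rw [h4]
  exact S.T_trans (Ord k) (convex_Ord k) ((Ord_subset_Gen k).trans (Gen_subset_Conf k)) _ _ _
    (base_mem_Ord k) (srt_mem a ha) (srt_mem c hc) _ φ.2

end Pool.Agent.Helper2.LN
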